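import Mathlib
import Pool.Agent.H995R3.Kurepa.Defs

/-!
# From a Kurepa family to a regular Kurepa tree on `ω₁`
-/

set_option autoImplicit false

namespace Pool.Agent.W635.Kur

open Set Cardinal Pool.Agent.H995R3.Kurepa

/-- A Kurepa family on `W`: a family of pairwise distinct functions from `W` to `ℕ`, indexed by
`I`, with countably many restrictions to each initial segment of `W`, and such that `W` cannot be
mapped onto `I`. -/
def KurepaFamily (W : Type) [LinearOrder W] (I : Type) (b : I → W → ℕ) : Prop :=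
  (∀ i j, i ≠ j → ∃ ξ, b i ξ ≠ b j ξ) ∧
    (∀ α, ∃ e : ℕ → I, ∀ i, ∃ n, ∀ ξ < α, b i ξ = b (e n) ξ) ∧
      ¬ ∃ f : W → I, Function.Surjective f

section tree

variable {W : Type} [LinearOrder W] {I : Type}

open Classical in
/-- the restriction of `f` to `α`, extended by zero -/
noncomputable def cut (f : W → ℕ) (α : W) : W → ℕ := fun ξ => if ξ < α then f ξ else 0

theorem cut_lt {f : W → ℕ} {α ξ : W} (h : ξ < α) : cut f α ξ = f ξ := if_pos h
theorem cut_ge {f : W → ℕ} {α ξ : W} (h : α ≤ ξ) : cut f α ξ = 0 := if_neg (not_lt.2 h)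

theorem cut_eq_iff {f g : W → ℕ} {α : W} : cut f α = cut g α ↔ ∀ ξ < α, f ξ = g ξ := by
  constructor
  · intro h ξ hξ
    have := congrFun h ξ
    rwa [cut_lt hξ, cut_lt hξ] at this
  · intro h
    funext ξ
    by_cases hξ : ξ < α
    · rw [cut_lt hξ, cut_lt hξ, h ξ hξ]
    · rw [cut_ge (not_lt.1 hξ), cut_ge (not_lt.1 hξ)]

theorem cut_cut {f : W → ℕ} {α β : W} (h : α ≤ β) : cut (cut f β) α = cut f α :=
  cut_eq_iff.2 fun ξ hξ => cut_lt (hξ.trans_le h)

/-- the finite modifications of the members of the family -/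
def Bst (b : I → W → ℕ) : Set (W → ℕ) := {f | ∃ i, {ξ | f ξ ≠ b i ξ}.Finite}

theorem self_mem_Bst (b : I → W → ℕ) (i : I) : b i ∈ Bst b := ⟨i, by simp⟩

theorem update_mem_Bst {b : I → W → ℕ} {f : W → ℕ} (hf : f ∈ Bst b) (α : W) (v : ℕ) :
    Function.update f α v ∈ Bst b := by
  obtain ⟨i, hi⟩ := hf
  refine ⟨i, (hi.union (Set.finite_singleton α)).subset fun ξ hξ => ?_⟩
  by_cases h : ξ = α
  · right; exact h
  · left
    simp only [Set.mem_setOf_eq, Function.update_of_ne h] at hξ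
    exact hξ

/-- the nodes of the tree -/
def Node (b : I → W → ℕ) : Type := {x : W × (W → ℕ) // ∃ f ∈ Bst b, x.2 = cut f x.1}

/-- the order of the tree -/
def nlt {b : I → W → ℕ} (x y : Node b) : Prop := x.1.1 < y.1.1 ∧ x.1.2 = cut y.1.2 x.1.1

/-- the node of `f` at level `α` -/
noncomputable def nd {b : I → W → ℕ} (f : W → ℕ) (hf : f ∈ Bst b) (α : W) : Node b :=
  ⟨(α, cut f α), f, hf, rfl⟩

theorem node_ext {b : I → W → ℕ} {x y : Node b} (h : x.1.1 = y.1.1)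
    (h' : ∀ ξ < x.1.1, x.1.2 ξ = y.1.2 ξ) : x = y := by
  obtain ⟨f, _, hf⟩ := x.2
  obtain ⟨g, _, hg⟩ := y.2
  apply Subtype.ext
  refine Prod.ext h (funext fun ξ => ?_)
  by_cases hξ : ξ < x.1.1
  · exact h' ξ hξ
  · rw [hf, hg, cut_ge (not_lt.1 hξ), cut_ge (by rw [← h]; exact not_lt.1 hξ)]

theorem nlt_trans {b : I → W → ℕ} {x y z : Node b} (h : nlt x y) (h' : nlt y z) : nlt x z :=
  ⟨h.1.trans h'.1, by rw [h.2, h'.2, cut_cut h.1.le]⟩

theorem nlt_of {b : I → W → ℕ} {x y z : Node b} (h : nlt x z) (h' : nlt y z)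
    (hl : x.1.1 < y.1.1) : nlt x y :=
  ⟨hl, by rw [h.2, h'.2, cut_cut hl.le]⟩

theorem countable_mod {α : W} (hα : (Iio α).Countable) (g : W → ℕ) :
    {h : W → ℕ | (∀ ξ, α ≤ ξ → h ξ = g ξ) ∧ {ξ | h ξ ≠ g ξ}.Finite}.Countable := by
  have : Countable (Iio α) := hα.to_subtype
  have h1 : {s : Set (Iio α × ℕ) | s.Finite}.Countable := Set.Countable.setOf_finite
  refine Set.MapsTo.countable_of_injOn (f := fun h : W → ℕ =>
    {p : Iio α × ℕ | h p.1 = p.2 ∧ h p.1 ≠ g p.1}) (t := {s : Set (Iio α × ℕ) | s.Finite})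
    ?_ ?_ h1
  · intro h hh
    show Set.Finite _
    refine Set.Finite.of_finite_image (f := fun p : Iio α × ℕ => (p.1 : W)) ?_ ?_
    · refine hh.2.subset ?_
      rintro _ ⟨p, hp, rfl⟩
      exact hp.2
    · rintro p hp q hq hpq
      have h3 : (p.1 : W) = q.1 := hpq
      refine Prod.ext (Subtype.ext h3) ?_
      rw [← hp.1, ← hq.1, h3]
  · intro h hh h' hh' heq
    have key : ∀ (u v : W → ℕ), {p : Iio α × ℕ | u p.1 = p.2 ∧ u p.1 ≠ g p.1} =
        {p : Iio α × ℕ | v p.1 = p.2 ∧ v p.1 ≠ g p.1} → ∀ ξ < α, u ξ ≠ g ξ → v ξ = u ξ := by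
      intro u v huv ξ hξ hne
      have h4 : ((⟨ξ, hξ⟩ : Iio α), u ξ) ∈ {p : Iio α × ℕ | u p.1 = p.2 ∧ u p.1 ≠ g p.1} :=
        ⟨rfl, hne⟩
      rw [huv] at h4
      exact h4.1
    funext ξ
    by_cases hξ : ξ < α
    · by_cases h1 : h ξ = g ξ
      · by_cases h2 : h' ξ = g ξ
        · rw [h1, h2]
        · exact key h' h heq.symm ξ hξ h2
      · exact (key h h' heq ξ hξ h1).symm
    · rw [hh.1 ξ (not_lt.1 hξ), hh'.1 ξ (not_lt.1 hξ)]

theorem countable_level {b : I → W → ℕ} {α : W} (hα : (Iio α).Countable)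
    (hb : ∃ e : ℕ → I, ∀ i, ∃ n, ∀ ξ < α, b i ξ = b (e n) ξ) :
    {x : Node b | x.1.1 = α}.Countable := by
  obtain ⟨e, he⟩ := hb
  have h1 : (⋃ n, {h : W → ℕ | (∀ ξ, α ≤ ξ → h ξ = cut (b (e n)) α ξ) ∧
      {ξ | h ξ ≠ cut (b (e n)) α ξ}.Finite}).Countable :=
    Set.countable_iUnion fun n => countable_mod hα _
  refine Set.MapsTo.countable_of_injOn (f := fun x : Node b => x.1.2) ?_ ?_ h1
  · rintro x hx
    obtain ⟨f, ⟨i, hi⟩, hf⟩ := x.2
    obtain ⟨n, hn⟩ := he i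
    have hx' : x.1.1 = α := hx
    rw [hx'] at hf
    refine Set.mem_iUnion.2 ⟨n, ?_, ?_⟩
    · intro ξ hξ
      show x.1.2 ξ = _
      rw [hf, cut_ge hξ, cut_ge hξ]
    · refine hi.subset fun ξ hξ => ?_
      show f ξ ≠ b i ξ
      have h2 : x.1.2 ξ ≠ cut (b (e n)) α ξ := hξ
      intro h3
      apply h2
      rw [hf]
      by_cases h4 : ξ < α
      · rw [cut_lt h4, cut_lt h4, h3, hn ξ h4]
      · rw [cut_ge (not_lt.1 h4), cut_ge (not_lt.1 h4)]
  · intro x hx y hy hxy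
    have hx' : x.1.1 = α := hx
    have hy' : y.1.1 = α := hy
    exact Subtype.ext (Prod.ext (hx'.trans hy'.symm) hxy)

end tree

end Pool.Agent.W635.Kur
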