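import Mathlib
import Pool.Agent.W635.KurTree
import Pool.Agent.Helper669.KDelta
import Pool.Agent.W684.FM.Main

/-!
# Adding a Kurepa family by countable conditions
-/

set_option autoImplicit false

namespace Pool.Agent.W635.Kur

open Set Cardinal Pool.Agent.Helper669.Forcing Pool.Agent.W684.FM

/-- Forcing version of the sentence saying that there is a Kurepa family on `W` indexed by `I`
(see `KurepaFamily`): quantifiers over functions are quantifiers over names of functions. -/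
def KurepaN (P : Type) [Preorder P] (W : Type) [LinearOrder W] (I : Type) : Set P :=
  fex fun b : I → W → ℕ → Set P =>
    fand (fall fun i => IsFun (b i))
      (fand (fall fun i => fall fun j => fall fun _ : i ≠ j => fex fun ξ => fex fun m =>
          fand (meets (b i ξ m)) (fnot (meets (b j ξ m))))
        (fand (fall fun α => fex fun e : ℕ → I → Set P => fand (IsFun e)
            (fall fun i => fex fun n => fex fun j => fand (meets (e n j))
              (fall fun ξ => fall fun _ : ξ < α => fall fun m =>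
                fimp (meets (b i ξ m)) (meets (b j ξ m)))))
          (fnot (fex fun R : W → I → Set P => fand (IsFun R) (IsOnto R)))))

/-- every decreasing sequence of conditions has a lower bound -/
def SC (P : Type) [Preorder P] : Prop :=
  ∀ s : ℕ → P, (∀ n, s (n + 1) ≤ s n) → ∃ q, ∀ n, q ≤ s n

theorem omegaOne_of_sc {P : Type} [Preorder P] (hP : SC P) (p : P) : p ∈ OmegaOnePreserved P := by
  classical
  intro q hq hex
  obtain ⟨r, hr, R, hf, ho⟩ := mem_fex.1 hex q le_rfl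
  have step : ∀ (n : ℕ) (x : P), ∃ y, x ≤ r → y ≤ x ∧ ∃ a, y ∈ meets (R n a) := by
    intro n x
    by_cases hx : x ≤ r
    · obtain ⟨y, hy, a, ha⟩ := IsFun.total (down_IsFun R _ hf _ hx) n
      exact ⟨y, fun _ => ⟨hy, a, ha⟩⟩
    · exact ⟨x, fun h => absurd h hx⟩
  choose g hg using step
  let s : ℕ → P := fun n => Nat.rec r (fun n x => g n x) n
  have hs : ∀ n, s n ≤ r := by
    intro n
    induction n with
    | zero => exact le_rfl
    | succ n ih => exact (hg n (s n) ih).1.trans ih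
  have hs1 : ∀ n, s (n + 1) ≤ s n := fun n => (hg n (s n) (hs n)).1
  obtain ⟨t, ht⟩ := hP s hs1
  have h1 : ∀ n, ∃ a, t ∈ meets (R n a) := by
    intro n
    obtain ⟨a, ha⟩ := (hg n (s n) (hs n)).2
    exact ⟨a, down_meets _ _ ha _ (ht (n + 1))⟩
  choose a ha using h1
  obtain ⟨c, hc⟩ := exists_bound a
  obtain ⟨d, hd⟩ := exists_gt_om1 c
  have htr : t ≤ r := (ht 0).trans (hs 0)
  obtain ⟨u, hu, n, hn⟩ := mem_fex.1 (ho d) t htr
  have := IsFun.unique (down_IsFun R _ hf _ (hu.trans htr)) (down_meets _ _ (ha n) _ hu) hn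
  rw [← this] at hd
  exact absurd (hc n) (not_le.2 hd)

section lim

variable {W : Type} [LinearOrder W]

theorem cut_self {t : W → ℕ} {γ : W} (h : ∀ ξ, γ ≤ ξ → t ξ = 0) : cut t γ = t := by
  funext ξ
  by_cases hξ : ξ < γ
  · exact cut_lt hξ
  · rw [cut_ge (not_lt.1 hξ), h ξ (not_lt.1 hξ)]

theorem exists_lim (γ : ℕ → W) (hγ : Monotone γ) (v : ℕ → W → ℕ)
    (hz : ∀ j ξ, γ j ≤ ξ → v j ξ = 0) (hc : ∀ j, cut (v (j + 1)) (γ j) = v j) :
    ∃ F : W → ℕ, (∀ j, cut F (γ j) = v j) ∧ ∀ ξ, (∀ j, γ j ≤ ξ) → F ξ = 0 := by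
  classical
  have key : ∀ m j, m ≤ j → ∀ ξ < γ m, v j ξ = v m ξ := by
    intro m j hmj
    induction j, hmj using Nat.le_induction with
    | base => intro _ _; rfl
    | succ j hmj ih =>
      intro ξ hξ
      rw [← ih ξ hξ]
      have := congrFun (hc j) ξ
      rwa [cut_lt (hξ.trans_le (hγ hmj))] at this
  refine ⟨fun ξ => if h : ∃ j, ξ < γ j then v (Nat.find h) ξ else 0, fun j => ?_, fun ξ hξ => ?_⟩
  · funext ξ
    by_cases h : ξ < γ j
    · rw [cut_lt h]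
      have hex : ∃ j, ξ < γ j := ⟨j, h⟩
      show (if h : ∃ j, ξ < γ j then v (Nat.find h) ξ else 0) = v j ξ
      rw [dif_pos hex]
      exact (key _ _ (Nat.find_min' hex h) ξ (Nat.find_spec hex)).symm
    · rw [cut_ge (not_lt.1 h), hz j ξ (not_lt.1 h)]
  · show (if h : ∃ j, ξ < γ j then v (Nat.find h) ξ else 0) = 0
    rw [dif_neg]
    rintro ⟨j, hj⟩
    exact absurd (hξ j) (not_le.2 hj)

end lim

/-- The conditions: a height, the countable set of the nodes of the tree at this height (the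
functions are extended by zero), and nodes attached to countably many indices. -/
structure KC (I : Type) where
  /-- the height -/
  γ : Om1
  /-- the nodes at this height -/
  L : Set (Om1 → ℕ)
  /-- the indices -/
  S : Set I
  /-- the node attached to an index -/
  f : I → Om1 → ℕ
  cL : L.Countable
  nL : L.Nonempty
  zL : ∀ t ∈ L, ∀ ξ, γ ≤ ξ → t ξ = 0
  cS : S.Countable
  fL : ∀ i ∈ S, f i ∈ L

namespace KC

variable {I : Type}

instance : Preorder (KC I) where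
  le q p := p.γ ≤ q.γ ∧ (∀ t ∈ q.L, cut t p.γ ∈ p.L) ∧ (∀ s ∈ p.L, ∃ t ∈ q.L, cut t p.γ = s) ∧
    p.S ⊆ q.S ∧ ∀ i ∈ p.S, cut (q.f i) p.γ = p.f i
  le_refl p := ⟨le_rfl, fun t ht => by rw [cut_self (p.zL t ht)]; exact ht,
    fun s hs => ⟨s, hs, cut_self (p.zL s hs)⟩, Subset.rfl, fun i hi => cut_self (p.zL _ (p.fL i hi))⟩
  le_trans a b c hab hbc := by
    obtain ⟨a1, a2, a3, a4, a5⟩ := hab
    obtain ⟨b1, b2, b3, b4, b5⟩ := hbc
    refine ⟨b1.trans a1, fun t ht => ?_, fun s hs => ?_, b4.trans a4, fun i hi => ?_⟩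
    · rw [← cut_cut b1]
      exact b2 _ (a2 t ht)
    · obtain ⟨t, ht, h⟩ := b3 s hs
      obtain ⟨u, hu, h'⟩ := a3 t ht
      exact ⟨u, hu, by rw [← cut_cut b1, h', h]⟩
    · rw [← cut_cut b1, a5 i (b4 hi), b5 i hi]

theorem le_def {q p : KC I} : q ≤ p ↔ p.γ ≤ q.γ ∧ (∀ t ∈ q.L, cut t p.γ ∈ p.L) ∧
    (∀ s ∈ p.L, ∃ t ∈ q.L, cut t p.γ = s) ∧ p.S ⊆ q.S ∧ ∀ i ∈ p.S, cut (q.f i) p.γ = p.f i :=
  Iff.rfl

theorem f_eq {q p : KC I} (h : q ≤ p) {i : I} (hi : i ∈ p.S) {ξ : Om1} (hξ : ξ < p.γ) :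
    q.f i ξ = p.f i ξ := by
  have := congrFun (h.2.2.2.2 i hi) ξ
  rwa [cut_lt hξ] at this

theorem sc : SC (KC I) := by
  classical
  intro s hs
  have hanti : ∀ m n, m ≤ n → s n ≤ s m := by
    intro m n hmn
    induction n, hmn using Nat.le_induction with
    | base => exact le_rfl
    | succ n _ ih => exact (hs n).trans ih
  have hmono : Monotone fun n => (s n).γ := fun m n h => (hanti m n h).1
  obtain ⟨c, hc⟩ := exists_bound fun n => (s n).γ
  -- limits of threads starting at `n`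
  have lim1 : ∀ (n : ℕ) (v : ℕ → Om1 → ℕ), (∀ j, v j ∈ (s (n + j)).L) →
      (∀ j, cut (v (j + 1)) (s (n + j)).γ = v j) → ∃ F : Om1 → ℕ,
        (∀ j, cut F (s (n + j)).γ = v j) ∧ (∀ k, cut F (s k).γ ∈ (s k).L) ∧
          ∀ ξ, c ≤ ξ → F ξ = 0 := by
    intro n v hv hcut
    obtain ⟨F, hF, hF0⟩ := exists_lim (fun j => (s (n + j)).γ)
      (fun i j hij => hmono (Nat.add_le_add_left hij n)) v
      (fun j ξ hξ => (s (n + j)).zL _ (hv j) ξ hξ) hcut
    refine ⟨F, hF, fun k => ?_, fun ξ hξ => hF0 ξ fun j => (hc _).trans hξ⟩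
    rcases le_total n k with h | h
    · obtain ⟨j, rfl⟩ := Nat.exists_eq_add_of_le h
      rw [hF j]
      exact hv j
    · have h1 := hF 0
      rw [Nat.add_zero] at h1
      rw [← cut_cut (hmono h), h1]
      have h2 := hv 0
      rw [Nat.add_zero] at h2
      exact (hanti k n h).2.1 _ h2
  have lim2 : ∀ (n : ℕ) (t : Om1 → ℕ), ∃ F : Om1 → ℕ, t ∈ (s n).L →
      cut F (s n).γ = t ∧ (∀ k, cut F (s k).γ ∈ (s k).L) ∧ ∀ ξ, c ≤ ξ → F ξ = 0 := by
    intro n t
    by_cases ht : t ∈ (s n).L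
    · have step : ∀ (k : ℕ) (x : Om1 → ℕ), ∃ y, x ∈ (s k).L →
          y ∈ (s (k + 1)).L ∧ cut y (s k).γ = x := by
        intro k x
        by_cases hx : x ∈ (s k).L
        · obtain ⟨y, hy, h⟩ := (hs k).2.2.1 x hx
          exact ⟨y, fun _ => ⟨hy, h⟩⟩
        · exact ⟨x, fun h => absurd h hx⟩
      choose g hg using step
      let v : ℕ → Om1 → ℕ := fun j => Nat.rec t (fun j x => g (n + j) x) j
      have hv : ∀ j, v j ∈ (s (n + j)).L := by
        intro j
        induction j with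
        | zero => exact ht
        | succ j ih => exact (hg (n + j) (v j) ih).1
      obtain ⟨F, h1, h2, h3⟩ := lim1 n v hv fun j => (hg (n + j) (v j) (hv j)).2
      exact ⟨F, fun _ => ⟨h1 0, h2, h3⟩⟩
    · exact ⟨t, fun h => absurd h ht⟩
  have lim3 : ∀ i : I, ∃ F : Om1 → ℕ, i ∈ (⋃ n, (s n).S) →
      (∀ k, i ∈ (s k).S → cut F (s k).γ = (s k).f i) ∧
        (∀ k, cut F (s k).γ ∈ (s k).L) ∧ ∀ ξ, c ≤ ξ → F ξ = 0 := by
    intro i
    by_cases hi : i ∈ ⋃ n, (s n).S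
    · obtain ⟨n, hn⟩ := Set.mem_iUnion.1 hi
      have hin : ∀ j, i ∈ (s (n + j)).S := fun j => (hanti n (n + j) (Nat.le_add_right n j)).2.2.2.1 hn
      obtain ⟨F, h1, h2, h3⟩ := lim1 n (fun j => (s (n + j)).f i)
        (fun j => (s (n + j)).fL i (hin j)) fun j => (hs (n + j)).2.2.2.2 i (hin j)
      refine ⟨F, fun _ => ⟨fun k hk => ?_, h2, h3⟩⟩
      rcases le_total n k with h | h
      · obtain ⟨j, rfl⟩ := Nat.exists_eq_add_of_le h
        exact h1 j
      · have h4 := h1 0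
        rw [Nat.add_zero] at h4
        rw [← cut_cut (hmono h), h4]
        exact (hanti k n h).2.2.2.2 i hk
    · exact ⟨fun _ => 0, fun h => absurd h hi⟩
  choose F2 hF2 using lim2
  choose F3 hF3 using lim3
  obtain ⟨t0, ht0⟩ := (s 0).nL
  refine ⟨{
    γ := c
    L := (⋃ n, F2 n '' (s n).L) ∪ F3 '' (⋃ n, (s n).S)
    S := ⋃ n, (s n).S
    f := F3
    cL := ?_
    nL := ⟨F2 0 t0, Or.inl (Set.mem_iUnion.2 ⟨0, t0, ht0, rfl⟩)⟩
    zL := ?_
    cS := Set.countable_iUnion fun n => (s n).cS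
    fL := fun i hi => Or.inr ⟨i, hi, rfl⟩ }, fun n => ⟨hc n, ?_, ?_, ?_, ?_⟩⟩
  · exact (Set.countable_iUnion fun n => ((s n).cL.image _)).union
      ((Set.countable_iUnion fun n => (s n).cS).image _)
  · rintro _ (h | ⟨i, hi, rfl⟩) ξ hξ
    · obtain ⟨n, t, ht, rfl⟩ := Set.mem_iUnion.1 h
      exact (hF2 n t ht).2.2 ξ hξ
    · exact (hF3 i hi).2.2 ξ hξ
  · rintro _ (h | ⟨i, hi, rfl⟩)
    · obtain ⟨m, t, ht, rfl⟩ := Set.mem_iUnion.1 h
      exact (hF2 m t ht).2.1 n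
    · exact (hF3 i hi).2.1 n
  · intro t ht
    exact ⟨F2 n t, Or.inl (Set.mem_iUnion.2 ⟨n, t, ht, rfl⟩), (hF2 n t ht).1⟩
  · exact Set.subset_iUnion (fun n => (s n).S) n
  · intro i hi
    exact (hF3 i (Set.mem_iUnion.2 ⟨n, hi⟩)).1 n hi

/-! ### Extending conditions -/

/-- raise the height -/
theorem exists_raise (p : KC I) (α : Om1) : ∃ q ≤ p, α ≤ q.γ ∧ q.S = p.S ∧ q.L = p.L := by
  refine ⟨{ p with
    γ := max p.γ α
    zL := fun t ht ξ hξ => p.zL t ht ξ ((le_max_left _ _).trans hξ) }, ⟨le_max_left _ _, ?_, ?_,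
      Subset.rfl, ?_⟩, le_max_right _ _, rfl, rfl⟩
  · intro t ht
    show cut t p.γ ∈ p.L
    rw [cut_self (p.zL t ht)]
    exact ht
  · intro t ht
    exact ⟨t, ht, cut_self (p.zL t ht)⟩
  · intro i hi
    exact cut_self (p.zL _ (p.fL i hi))

/-- attach given nodes to new indices -/
theorem exists_add (p : KC I) (T : Set I) (hT : T.Countable) (h : I → Om1 → ℕ)
    (hh : ∀ i ∈ T, h i ∈ p.L) : ∃ q ≤ p, q.S = p.S ∪ T ∧ q.γ = p.γ ∧ q.L = p.L ∧
      ∀ i ∈ T, i ∉ p.S → q.f i = h i := by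
  classical
  refine ⟨{ p with
    S := p.S ∪ T
    f := fun i => if i ∈ p.S then p.f i else h i
    cS := p.cS.union hT
    fL := ?_ }, ⟨le_rfl, ?_, ?_, subset_union_left, ?_⟩, rfl, rfl, rfl, ?_⟩
  · rintro i (hi | hi)
    · show (if i ∈ p.S then p.f i else h i) ∈ p.L
      rw [if_pos hi]
      exact p.fL i hi
    · show (if i ∈ p.S then p.f i else h i) ∈ p.L
      by_cases h' : i ∈ p.S
      · rw [if_pos h']
        exact p.fL i h'
      · rw [if_neg h']
        exact hh i hi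
  · intro t ht
    show cut t p.γ ∈ p.L
    rw [cut_self (p.zL t ht)]
    exact ht
  · intro t ht
    exact ⟨t, ht, cut_self (p.zL t ht)⟩
  · intro i hi
    show cut (if i ∈ p.S then p.f i else h i) p.γ = p.f i
    rw [if_pos hi]
    exact cut_self (p.zL _ (p.fL i hi))
  · intro i _ hi'
    exact if_neg hi'

theorem exists_mem (p : KC I) (i : I) (α : Om1) : ∃ q ≤ p, i ∈ q.S ∧ α < q.γ := by
  obtain ⟨β, hβ⟩ := exists_gt_om1 α
  obtain ⟨q, hq, h1, h2, h3⟩ := exists_raise p β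
  obtain ⟨t, ht⟩ := q.nL
  obtain ⟨r, hr, h4, h5, h6, _⟩ := exists_add q {i} (Set.countable_singleton i) (fun _ => t)
    (fun _ _ => ht)
  refine ⟨r, hr.trans hq, ?_, ?_⟩
  · rw [h4]
    exact Or.inr rfl
  · rw [h5]
    exact hβ.trans_le h1

/-- split two indices -/
theorem exists_split (p : KC I) {i j : I} (hij : i ≠ j) (hi : i ∈ p.S) (hj : j ∈ p.S) :
    ∃ q ≤ p, p.γ < q.γ ∧ i ∈ q.S ∧ j ∈ q.S ∧ q.f i p.γ = 1 ∧ q.f j p.γ = 0 := by
  classical
  obtain ⟨β, hβ⟩ := exists_gt_om1 p.γ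
  have hcut : ∀ (t : Om1 → ℕ) (v : ℕ), cut (Function.update t p.γ v) p.γ = cut t p.γ := by
    intro t v
    refine cut_eq_iff.2 fun ξ hξ => ?_
    rw [Function.update_of_ne hξ.ne]
  refine ⟨{
    γ := β
    L := {u | ∃ t ∈ p.L, ∃ v : ℕ, u = Function.update t p.γ v}
    S := p.S
    f := fun k => Function.update (p.f k) p.γ (if k = i then 1 else 0)
    cL := ?_
    nL := ?_
    zL := ?_
    cS := p.cS
    fL := fun k hk => ⟨_, p.fL k hk, _, rfl⟩ }, ⟨hβ.le, ?_, ?_, Subset.rfl, ?_⟩, hβ, hi, hj, ?_, ?_⟩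
  · have h1 : {u | ∃ t ∈ p.L, ∃ v : ℕ, u = Function.update t p.γ v} =
        (fun x : (Om1 → ℕ) × ℕ => Function.update x.1 p.γ x.2) '' (p.L ×ˢ Set.univ) := by
      ext u
      constructor
      · rintro ⟨t, ht, v, rfl⟩
        exact ⟨(t, v), ⟨ht, Set.mem_univ _⟩, rfl⟩
      · rintro ⟨⟨t, v⟩, ⟨ht, _⟩, rfl⟩
        exact ⟨t, ht, v, rfl⟩
    rw [h1]
    exact (p.cL.prod Set.countable_univ).image _
  · obtain ⟨t, ht⟩ := p.nL
    exact ⟨_, t, ht, 0, rfl⟩
  · rintro _ ⟨t, ht, v, rfl⟩ ξ hξ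
    rw [Function.update_of_ne (hβ.trans_le hξ).ne']
    exact p.zL t ht ξ (hβ.le.trans hξ)
  · rintro _ ⟨t, ht, v, rfl⟩
    rw [hcut, cut_self (p.zL t ht)]
    exact ht
  · intro t ht
    exact ⟨_, ⟨t, ht, 0, rfl⟩, by rw [hcut, cut_self (p.zL t ht)]⟩
  · intro k hk
    show cut (Function.update (p.f k) p.γ _) p.γ = _
    rw [hcut, cut_self (p.zL _ (p.fL k hk))]
  · show Function.update (p.f i) p.γ _ p.γ = 1
    rw [Function.update_self, if_pos rfl]
  · show Function.update (p.f j) p.γ _ p.γ = 0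
    rw [Function.update_self, if_neg hij.symm]

end KC

end Pool.Agent.W635.Kur
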