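import Mathlib
import Pool.Agent.W635.KurForce

/-!
# Adding a Kurepa family by countable conditions: the generic family
-/

set_option autoImplicit false

namespace Pool.Agent.W635.Kur

open Set Cardinal Pool.Agent.Helper669.Forcing Pool.Agent.W684.FM

/-- an enumeration of a countable set, possibly empty -/
theorem exists_enum {X : Type} {A : Set X} (hA : A.Countable) :
    ∃ G : ℕ → Option X, ∀ x, x ∈ A ↔ ∃ n, G n = some x := by
  rcases A.eq_empty_or_nonempty with rfl | hne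
  · exact ⟨fun _ => none, fun x => by simp⟩
  · obtain ⟨g, rfl⟩ := hA.exists_eq_range hne
    exact ⟨fun n => some (g n), fun x => by simp⟩

theorem mem_meets_ground {P : Type} [Preorder P] {h : Prop} {p : P} (hh : h) :
    p ∈ meets ({_x | h} : Set P) := meets_of_mem hh

theorem of_meets_ground {P : Type} [Preorder P] {h : Prop} {p : P}
    (hp : p ∈ meets ({_x | h} : Set P)) : h := by
  obtain ⟨_, _, _, hs, _⟩ := hp p le_rfl
  exact hs

theorem isFun_ground {P : Type} [Preorder P] {X Y : Type} (g : X → Y) (p : P) :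
    p ∈ IsFun (fun x y => ({_p | g x = y} : Set P)) := by
  refine ⟨fun x => mem_fex.2 fun q _ => ⟨q, le_rfl, g x, mem_meets_ground rfl⟩,
    fun x y y' => mem_fimp.2 fun q _ h => ⟨q, le_rfl, ?_⟩⟩
  exact (of_meets_ground h.1).symm.trans (of_meets_ground h.2)

namespace KC

variable {I : Type}

instance : Nonempty (KC I) := by
  obtain ⟨a⟩ : Nonempty Om1 := by
    rw [← mk_ne_zero_iff, mk_ord_toType]
    exact (aleph_pos 1).ne'
  exact ⟨{
    γ := a
    L := {fun _ => 0}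
    S := ∅
    f := fun _ _ => 0
    cL := Set.countable_singleton _
    nL := ⟨_, rfl⟩
    zL := by rintro _ rfl _ _; rfl
    cS := Set.countable_empty
    fL := fun i hi => absurd hi (Set.notMem_empty i) }⟩

/-- the name of the generic family -/
def bn (i : I) (ξ : Om1) (m : ℕ) : Set (KC I) := {p | i ∈ p.S ∧ ξ < p.γ ∧ p.f i ξ = m}

theorem down_bn (i : I) (ξ : Om1) (m : ℕ) : Down (bn i ξ m) := by
  rintro p ⟨h1, h2, h3⟩ q hq
  exact ⟨hq.2.2.2.1 h1, h2.trans_le hq.1, by rw [f_eq hq h1 h2]; exact h3⟩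

theorem val_bn {q : KC I} {i : I} {ξ : Om1} {m : ℕ} (h : q ∈ meets (bn i ξ m)) (hi : i ∈ q.S)
    (hξ : ξ < q.γ) : q.f i ξ = m := by
  obtain ⟨r, hr, _, _, h3⟩ := exists_of_meets (down_bn i ξ m) h
  rw [← f_eq hr hi hξ]
  exact h3

theorem isFun_bn (i : I) (p : KC I) : p ∈ IsFun (bn i) := by
  refine ⟨fun ξ => mem_fex.2 fun q _ => ?_, fun ξ m m' => mem_fimp.2 fun q _ h => ?_⟩
  · obtain ⟨r, hr, h1, h2⟩ := exists_mem q i ξ
    exact ⟨r, hr, r.f i ξ, meets_of_mem ⟨h1, h2, rfl⟩⟩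
  · obtain ⟨r, hr, h1⟩ := exists_of_meets (down_bn i ξ m) h.1
    have h2 := val_bn (down_meets _ _ h.2 _ hr) h1.1 h1.2.1
    exact ⟨q, le_rfl, h1.2.2.symm.trans h2⟩

/-- the members of the generic family are pairwise distinct -/
theorem bn_ne {i j : I} (hij : i ≠ j) (p : KC I) :
    p ∈ fex fun ξ => fex fun m => fand (meets (bn i ξ m)) (fnot (meets (bn j ξ m))) := by
  refine mem_fex.2 fun q _ => ?_
  obtain ⟨a⟩ : Nonempty Om1 := ⟨q.γ⟩
  obtain ⟨q1, hq1, h1, _⟩ := exists_mem q i a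
  obtain ⟨q2, hq2, h2, _⟩ := exists_mem q1 j a
  obtain ⟨r, hr, h3, h4, h5, h6, h7⟩ := exists_split q2 hij (hq2.2.2.2.1 h1) h2
  refine ⟨r, hr.trans (hq2.trans hq1), q2.γ, ?_⟩
  show r ∈ fex fun m => fand (meets (bn i q2.γ m)) (fnot (meets (bn j q2.γ m)))
  refine mem_fex.2 fun x hx => ⟨x, le_rfl, (1 : ℕ), ?_⟩
  show x ∈ fand (meets (bn i q2.γ 1)) (fnot (meets (bn j q2.γ 1)))
  refine ⟨?_, ?_⟩
  · exact down_meets _ _ (meets_of_mem (show r ∈ bn i q2.γ 1 from ⟨h4, h3, h6⟩)) _ hx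
  · intro y hy h8
    have h9 := val_bn h8 ((hy.trans hx).2.2.2.1 h5) (h3.trans_le (hy.trans hx).1)
    rw [f_eq (hy.trans hx) h5 h3, h7] at h9
    exact zero_ne_one h9

/-- countably many restrictions to each initial segment -/
theorem bn_level (hI : ¬ Countable I) (α : Om1) (p : KC I) :
    p ∈ fex fun e : ℕ → I → Set (KC I) => fand (IsFun e)
      (fall fun i => fex fun n => fex fun j => fand (meets (e n j))
        (fall fun ξ => fall fun _ : ξ < α => fall fun m =>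
          fimp (meets (bn i ξ m)) (meets (bn j ξ m)))) := by
  classical
  refine mem_fex.2 fun q _ => ?_
  obtain ⟨q1, hq1, hα, -, -⟩ := exists_raise q α
  obtain ⟨u, hu⟩ := q1.cL.exists_eq_range q1.nL
  obtain ⟨g, hg⟩ := Set.countable_iff_exists_injOn.1 q1.cL
  have hinf : Infinite (q1.Sᶜ : Set I) := by
    rw [Set.infinite_coe_iff]
    intro hfin
    apply hI
    rw [← Set.countable_univ_iff, ← Set.union_compl_self q1.S]
    exact q1.cS.union hfin.countable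
  let φ : ℕ ↪ (q1.Sᶜ : Set I) := Infinite.natEmbedding _
  let jj : (Om1 → ℕ) → I := fun t => (φ (g t)).1
  have hjj : ∀ t ∈ q1.L, ∀ t' ∈ q1.L, jj t = jj t' → t = t' := fun t ht t' ht' h =>
    hg ht ht' (φ.injective (Subtype.ext h))
  have hjS : ∀ t, jj t ∉ q1.S := fun t => (φ (g t)).2
  have hh : ∀ i : I, ∃ t : Om1 → ℕ, ∀ t' ∈ q1.L, jj t' = i → t = t' := by
    intro i
    by_cases h : ∃ t ∈ q1.L, jj t = i
    · obtain ⟨t, ht, hti⟩ := h
      exact ⟨t, fun t' ht' h' => hjj t ht t' ht' (hti.trans h'.symm)⟩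
    · exact ⟨fun _ => 0, fun t' ht' h' => absurd ⟨t', ht', h'⟩ h⟩
  choose h hh using hh
  obtain ⟨r, hr, h1, h2, h3, h4⟩ := exists_add q1 (jj '' q1.L) (q1.cL.image _) h (by
    rintro _ ⟨t, ht, rfl⟩
    rw [hh (jj t) t ht rfl]
    exact ht)
  have h5 : ∀ t ∈ q1.L, jj t ∈ r.S ∧ r.f (jj t) = t := by
    intro t ht
    refine ⟨by rw [h1]; exact Or.inr ⟨t, ht, rfl⟩, ?_⟩
    rw [h4 _ ⟨t, ht, rfl⟩ (hjS t)]
    exact hh (jj t) t ht rfl
  refine ⟨r, hr.trans hq1, fun n i => {_x | jj (u n) = i}, isFun_ground _ r, fun i => ?_⟩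
  refine mem_fex.2 fun x hx => ?_
  obtain ⟨y, hy, hyi, _⟩ := exists_mem x i α
  have hyr : y ≤ r := hy.trans hx
  have h6 : cut (y.f i) r.γ ∈ q1.L := by
    rw [← h3]
    exact hyr.2.1 _ (y.fL i hyi)
  obtain ⟨n, hn⟩ : ∃ n, u n = cut (y.f i) r.γ := by
    rw [hu] at h6
    exact h6
  have hun : u n ∈ q1.L := by rw [hn]; exact h6
  refine ⟨y, hy, n, mem_fex.2 fun z hz => ⟨z, le_rfl, jj (u n), mem_meets_ground rfl,
    fun ξ hξ m => mem_fimp.2 fun w hw hwm => ⟨w, le_rfl, ?_⟩⟩⟩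
  have hwy : w ≤ y := hw.trans hz
  have hwr : w ≤ r := hwy.trans hyr
  have hξr : ξ < r.γ := by
    rw [h2]
    exact hξ.trans_le hα
  have h7 : w.f i ξ = m := val_bn hwm (hwy.2.2.2.1 hyi) (hξr.trans_le hwr.1)
  refine meets_of_mem ⟨hwr.2.2.2.1 (h5 _ hun).1, hξr.trans_le hwr.1, ?_⟩
  rw [f_eq hwr (h5 _ hun).1 hξr, (h5 _ hun).2, hn, cut_lt hξr,
    ← f_eq hwy hyi (hξr.trans_le hyr.1)]
  exact h7

/-- conditions with the same height and nodes which agree on the common indices are compatible -/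
theorem exists_common {p q : KC I} (h1 : p.γ = q.γ) (h2 : p.L = q.L)
    (h3 : ∀ i ∈ p.S, i ∈ q.S → p.f i = q.f i) : ∃ r, r ≤ p ∧ r ≤ q := by
  classical
  refine ⟨{
    γ := p.γ
    L := p.L
    S := p.S ∪ q.S
    f := fun i => if i ∈ p.S then p.f i else q.f i
    cL := p.cL
    nL := p.nL
    zL := p.zL
    cS := p.cS.union q.cS
    fL := ?_ }, ⟨le_rfl, ?_, ?_, subset_union_left, ?_⟩, ⟨h1.ge, ?_, ?_, subset_union_right, ?_⟩⟩
  · intro i hi
    show (if i ∈ p.S then p.f i else q.f i) ∈ p.L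
    by_cases h : i ∈ p.S
    · rw [if_pos h]
      exact p.fL i h
    · rw [if_neg h, h2]
      exact q.fL i (hi.resolve_left h)
  · intro t ht
    rw [cut_self (p.zL t ht)]
    exact ht
  · intro t ht
    exact ⟨t, ht, cut_self (p.zL t ht)⟩
  · intro i hi
    show cut (if i ∈ p.S then p.f i else q.f i) p.γ = p.f i
    rw [if_pos hi]
    exact cut_self (p.zL _ (p.fL i hi))
  · intro t ht
    have ht' : t ∈ q.L := by rw [← h2]; exact ht
    rw [cut_self (q.zL t ht')]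
    exact ht'
  · intro t ht
    exact ⟨t, by rw [← h2] at ht; exact ht, cut_self (q.zL t ht)⟩
  · intro i hi
    show cut (if i ∈ p.S then p.f i else q.f i) q.γ = q.f i
    have h4 : (if i ∈ p.S then p.f i else q.f i) = q.f i := by
      by_cases h : i ∈ p.S
      · rw [if_pos h]
        exact h3 i h hi
      · rw [if_neg h]
    rw [h4]
    exact cut_self (q.zL _ (q.fL i hi))

theorem two_pow_aleph0 : ((2 : Cardinal.{0}) ^ (ℵ₁ : Cardinal.{0})) ^ (ℵ₀ : Cardinal.{0}) =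
    2 ^ (ℵ₁ : Cardinal.{0}) := by
  rw [← power_mul, mul_eq_left (aleph0_le_aleph 1) (aleph0_le_aleph 1) aleph0_ne_zero]

theorem aleph1_le_two_pow : (ℵ₁ : Cardinal.{0}) ≤ 2 ^ (ℵ₁ : Cardinal.{0}) := (cantor _).le

theorem aleph0_le_two_pow : (ℵ₀ : Cardinal.{0}) ≤ 2 ^ (ℵ₁ : Cardinal.{0}) :=
  (aleph0_le_aleph 1).trans aleph1_le_two_pow

theorem mk_seq_le {X : Type} (hX : #X ≤ 2 ^ (ℵ₁ : Cardinal.{0})) :
    #(ℕ → Option X) ≤ 2 ^ (ℵ₁ : Cardinal.{0}) := by
  have h1 : #(Option X) ≤ 2 ^ (ℵ₁ : Cardinal.{0}) := by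
    rw [mk_option]
    exact (add_le_add hX (one_le_aleph0.trans aleph0_le_two_pow)).trans
      (add_eq_self aleph0_le_two_pow).le
  have h2 : #(ℕ → Option X) = #(Option X) ^ ℵ₀ := by simp [mk_pi]
  rw [h2]
  exact (power_le_power_right h1).trans two_pow_aleph0.le

theorem mk_fun_le : #(Om1 → ℕ) ≤ 2 ^ (ℵ₁ : Cardinal.{0}) := by
  have h1 : #(Om1 → ℕ) = ℵ₀ ^ (ℵ₁ : Cardinal.{0}) := by
    rw [mk_pi, prod_const, mk_nat, lift_id, lift_id, mk_ord_toType]
  rw [h1]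
  refine (power_le_power_right (aleph0_le_two_pow)).trans ?_
  rw [← power_mul, mul_eq_self (aleph0_le_aleph 1)]

/-- the index set is not collapsed to `ω₁` -/
theorem bn_big (hI : 2 ^ (ℵ₁ : Cardinal.{0}) < #I) (p : KC I) :
    p ∈ fnot (fex fun R : Om1 → I → Set (KC I) => fand (IsFun R) (IsOnto R)) := by
  classical
  intro q _ hex
  obtain ⟨r, hr, R, hf, ho⟩ := mem_fex.1 hex q le_rfl
  have h1 : ∀ i, ∃ x ≤ r, ∃ ξ, x ∈ meets (R ξ i) := fun i => mem_fex.1 (ho i) r le_rfl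
  choose x hx ξ hxi using h1
  have hlt : (ℵ₀ : Cardinal.{0}) < 2 ^ (ℵ₁ : Cardinal.{0}) :=
    (aleph0_lt_aleph_one).trans_le aleph1_le_two_pow
  obtain ⟨T, D, hT, hD, hTD⟩ := Pool.Agent.Helper669.KDelta.weak_delta (E := I) (K := I)
    aleph0_le_two_pow (not_le.2 hI) (fun i => (x i).S) (fun i =>
      (Cardinal.mk_le_aleph0_iff.2 (x i).cS.to_subtype).trans_lt hlt)
  have h2 : ∀ i, ∃ G : ℕ → Option (Om1 → ℕ), ∀ t, t ∈ (x i).L ↔ ∃ n, G n = some t :=
    fun i => exists_enum (x i).cL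
  have h3 : ∀ i, ∃ G : ℕ → Option (D × (Om1 → ℕ)), ∀ z,
      z ∈ {z : D × (Om1 → ℕ) | z.1.1 ∈ (x i).S ∧ z.2 = (x i).f z.1.1} ↔ ∃ n, G n = some z := by
    intro i
    apply exists_enum
    refine Set.MapsTo.countable_of_injOn (f := fun z : D × (Om1 → ℕ) => z.1.1) (t := (x i).S)
      (fun z hz => hz.1) ?_ (x i).cS
    intro z hz z' hz' h
    have h4 : z.1.1 = z'.1.1 := h
    refine Prod.ext (Subtype.ext h4) ?_
    rw [hz.2, hz'.2, h4]
  choose G2 hG2 using h2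
  choose G3 hG3 using h3
  let data : T → Om1 × Om1 × (ℕ → Option (Om1 → ℕ)) × (ℕ → Option (D × (Om1 → ℕ))) :=
    fun i => (ξ i.1, (x i.1).γ, G2 i.1, G3 i.1)
  have hcard : #(Om1 × Om1 × (ℕ → Option (Om1 → ℕ)) × (ℕ → Option (D × (Om1 → ℕ)))) ≤
      2 ^ (ℵ₁ : Cardinal.{0}) := by
    have hO : #Om1 ≤ 2 ^ (ℵ₁ : Cardinal.{0}) := by
      rw [mk_ord_toType]
      exact aleph1_le_two_pow
    have hm : ∀ a b : Cardinal.{0}, a ≤ 2 ^ (ℵ₁ : Cardinal.{0}) → b ≤ 2 ^ (ℵ₁ : Cardinal.{0}) →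
        a * b ≤ 2 ^ (ℵ₁ : Cardinal.{0}) := fun a b ha hb =>
      (mul_le_mul' ha hb).trans (mul_eq_self aleph0_le_two_pow).le
    rw [mk_prod, mk_prod, mk_prod]
    simp only [lift_id]
    refine hm _ _ hO (hm _ _ hO (hm _ _ (mk_seq_le mk_fun_le) (mk_seq_le ?_)))
    rw [mk_prod]
    simp only [lift_id]
    exact hm _ _ hD mk_fun_le
  have hninj : ¬ Function.Injective data := fun h => hT ((mk_le_of_injective h).trans hcard)
  rw [Function.Injective] at hninj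
  push Not at hninj
  obtain ⟨i, j, hij, hne⟩ := hninj
  simp only [data, Prod.mk.injEq] at hij
  obtain ⟨e1, e2, e3, e4⟩ := hij
  have hne' : i.1 ≠ j.1 := fun h => hne (Subtype.ext h)
  obtain ⟨s, hs1, hs2⟩ := exists_common (p := x i.1) (q := x j.1) e2
    (Set.ext fun t => by rw [hG2, hG2, e3]) (by
      intro k hk hk'
      have hkD : k ∈ D := hTD i.1 i.2 j.1 j.2 hne' ⟨hk, hk'⟩
      have h5 : ((⟨k, hkD⟩ : D), (x i.1).f k) ∈
          {z : D × (Om1 → ℕ) | z.1.1 ∈ (x i.1).S ∧ z.2 = (x i.1).f z.1.1} := ⟨hk, rfl⟩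
      rw [hG3, e4, ← hG3] at h5
      exact h5.2)
  apply hne'
  have h6 : s ∈ meets (R (ξ i.1) i.1) := down_meets _ _ (hxi i.1) _ hs1
  have h7 : s ∈ meets (R (ξ i.1) j.1) := by
    rw [e1]
    exact down_meets _ _ (hxi j.1) _ hs2
  exact IsFun.unique (down_IsFun R _ hf _ (hs1.trans (hx i.1))) h6 h7

end KC

/-- Some notion of forcing preserves `ω₁` and adds a Kurepa family. -/
theorem exists_kurepa_forcing : ∃ (P : Type) (_ : Preorder P) (I : Type), Nonempty P ∧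
    ∀ p : P, p ∈ OmegaOnePreserved P ∧ p ∈ KurepaN P Om1 I := by
  have hI : 2 ^ (ℵ₁ : Cardinal.{0}) < #(Set (Set Om1)) := by
    rw [mk_set, mk_set, mk_ord_toType]
    exact cantor _
  have hI' : ¬ Countable (Set (Set Om1)) := by
    rw [← mk_le_aleph0_iff]
    exact not_le.2 (KC.aleph0_le_two_pow.trans_lt hI)
  refine ⟨KC (Set (Set Om1)), inferInstance, Set (Set Om1), inferInstance, fun p =>
    ⟨omegaOne_of_sc KC.sc p, mem_fex.2 fun q _ => ⟨q, le_rfl, KC.bn, fun i => KC.isFun_bn i q,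
      fun i j hij => KC.bn_ne hij q, fun α => KC.bn_level hI' α q, KC.bn_big hI q⟩⟩⟩

end Pool.Agent.W635.Kur
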