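import Mathlib
import Pool.Agent.W635.KurTree
import Pool.Agent.H995R3.Kurepa.Trees

/-!
# From a Kurepa family to a regular Kurepa tree on `ω₁`: the tree
-/

set_option autoImplicit false

namespace Pool.Agent.W635.Kur

open Set Cardinal Pool.Agent.H995R3.Kurepa

section tree

variable {W : Type} [LinearOrder W] [WellFoundedLT W] {I : Type}

theorem exists_gt' (hc : ∀ a : W, (Iio a).Countable) (hu : ¬ Countable W) (α : W) :
    ∃ β, α < β := by
  by_contra h
  push Not at h
  apply hu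
  rw [← Set.countable_univ_iff]
  refine ((hc α).union (Set.countable_singleton α)).mono fun β _ => ?_
  rcases (h β).lt_or_eq with h1 | h1
  · exact Or.inl h1
  · exact Or.inr h1

theorem exists_succ' (hc : ∀ a : W, (Iio a).Countable) (hu : ¬ Countable W) (α : W) :
    ∃ β, α < β ∧ ∀ γ, α < γ → β ≤ γ := by
  obtain ⟨β, hβ⟩ := exists_gt' hc hu α
  obtain ⟨m, hm, hmin⟩ := WellFounded.has_min (wellFounded_lt (α := W)) {γ | α < γ} ⟨β, hβ⟩
  exact ⟨m, hm, fun γ hγ => not_lt.1 (hmin γ hγ)⟩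

theorem exists_least [Nonempty W] : ∃ w : W, ∀ α, w ≤ α := by
  obtain ⟨m, _, hmin⟩ := WellFounded.has_min (wellFounded_lt (α := W)) univ univ_nonempty
  exact ⟨m, fun γ => not_lt.1 (hmin γ (mem_univ _))⟩

theorem mk_node {b : I → W → ℕ} (hW : #W = ℵ₁) (hc : ∀ a : W, (Iio a).Countable)
    (hb : ∀ α, ∃ e : ℕ → I, ∀ i, ∃ n, ∀ ξ < α, b i ξ = b (e n) ξ) : #(Node b) = ℵ₁ := by
  have hne : Nonempty W := by
    rw [← mk_ne_zero_iff, hW]
    exact (aleph_pos 1).ne'
  obtain ⟨w⟩ := hne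
  obtain ⟨e0, _⟩ := hb w
  apply le_antisymm
  · have h1 : #(Node b) = Cardinal.sum fun α : W => #{x : Node b // x.1.1 = α} := by
      rw [← mk_sigma]
      exact (Equiv.sigmaFiberEquiv fun x : Node b => x.1.1).symm.cardinal_eq
    rw [h1]
    refine (Cardinal.sum_le_sum _ (fun _ => ℵ₀) fun α => ?_).trans ?_
    · have := countable_level (hc α) (hb α)
      exact Cardinal.mk_le_aleph0_iff.2 this.to_subtype
    · rw [Cardinal.sum_const', hW]
      exact (mul_le_mul' le_rfl (aleph0_le_aleph 1)).trans (mul_eq_self (aleph0_le_aleph 1)).le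
  · rw [← hW]
    refine mk_le_of_injective (f := fun α => nd (b (e0 0)) (self_mem_Bst b _) α) ?_
    intro α β h
    exact congrArg (fun x : Node b => x.1.1) h

variable {b : I → W → ℕ} (e : W ≃ Node b)

/-- the tree order on `W` -/
def Rt (a c : W) : Prop := nlt (e a) (e c)

theorem to_Rt : TO (Rt e) where
  irr a h := lt_irrefl _ h.1
  tr _ _ _ h h' := nlt_trans h h'
  lin a a' c h h' := by
    rcases lt_trichotomy (e a).1.1 (e a').1.1 with h1 | h1 | h1
    · exact Or.inr (Or.inl (nlt_of h h' h1))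
    · left
      apply e.injective
      apply node_ext h1
      intro ξ _
      rw [h.2, h'.2, h1]
    · exact Or.inr (Or.inr (nlt_of h' h h1))
  wf := Subrelation.wf (r := fun a c => (e a).1.1 < (e c).1.1) (fun h => h.1)
    (InvImage.wf (fun a => (e a).1.1) wellFounded_lt)

theorem hasHeight (c : W) : HasHeight (Rt e) c (e c).1.1 := by
  obtain ⟨f, hf, hcf⟩ := (e c).2
  refine ⟨{
    toFun := fun a => ⟨(e a.1).1.1, a.2.1⟩
    invFun := fun ξ => ⟨e.symm (nd f hf ξ.1), ?_⟩
    left_inv := ?_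
    right_inv := ?_
    map_rel_iff' := ?_ }⟩
  · show nlt (e (e.symm (nd f hf ξ.1))) (e c)
    rw [Equiv.apply_symm_apply]
    refine ⟨ξ.2, ?_⟩
    show cut f ξ.1 = cut (e c).1.2 ξ.1
    rw [hcf, cut_cut (le_of_lt ξ.2)]
  · intro a
    apply Subtype.ext
    show e.symm (nd f hf (e a.1).1.1) = a.1
    rw [Equiv.symm_apply_eq]
    refine node_ext rfl fun ξ hξ => ?_
    show cut f (e a.1).1.1 ξ = (e a.1).1.2 ξ
    rw [a.2.2, hcf, cut_cut a.2.1.le]
  · intro ξ
    apply Subtype.ext
    show (e (e.symm (nd f hf ξ.1))).1.1 = ξ.1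
    rw [Equiv.apply_symm_apply]
    rfl
  · intro a a'
    show (e a.1).1.1 < (e a'.1).1.1 ↔ nlt (e a.1) (e a'.1)
    constructor
    · intro h
      exact nlt_of a.2 a'.2 h
    · intro h
      exact h.1

theorem height_unique {c α : W} (h : HasHeight (Rt e) c α) : α = (e c).1.1 := by
  obtain ⟨φ⟩ := h
  obtain ⟨ψ⟩ := hasHeight e c
  have χ : (fun p q : {ξ // ξ < α} => p.1 < q.1) ≃r
      (fun p q : {ξ // ξ < (e c).1.1} => p.1 < q.1) := φ.symm.trans ψ
  have key : ∀ (x y : W) (_ : (fun p q : {ξ // ξ < x} => p.1 < q.1) ≃r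
      (fun p q : {ξ // ξ < y} => p.1 < q.1)), ¬ x < y := by
    intro x y θ hxy
    -- the image of an element is at least that element
    have h1 : ∀ p : {ξ // ξ < y}, p.1 ≤ (θ.symm p).1 := by
      intro p
      by_contra hcon
      push Not at hcon
      obtain ⟨m, hm, hmin⟩ := WellFounded.has_min (wellFounded_lt (α := W))
        {w | ∃ hw : w < y, (θ.symm ⟨w, hw⟩).1 < w} ⟨p.1, p.2, hcon⟩
      obtain ⟨hmy, hmlt⟩ := hm
      have h2 : (θ.symm ⟨m, hmy⟩).1 < y := hmlt.trans hmy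
      have h3 : (θ.symm ⟨(θ.symm ⟨m, hmy⟩).1, h2⟩).1 < (θ.symm ⟨m, hmy⟩).1 :=
        θ.symm.map_rel_iff.2 hmlt
      exact hmin _ ⟨h2, h3⟩ hmlt
    exact absurd (h1 ⟨x, hxy⟩) (not_le.2 (θ.symm ⟨x, hxy⟩).2)
  exact le_antisymm (not_lt.1 (key _ _ χ.symm)) (not_lt.1 (key _ _ χ))

theorem isAleph1Tree [Nonempty W] (hc : ∀ a : W, (Iio a).Countable)
    (hb : ∀ α, ∃ e : ℕ → I, ∀ i, ∃ n, ∀ ξ < α, b i ξ = b (e n) ξ) : IsAleph1Tree (Rt e) := by
  refine ⟨isTreeOrder_iff.2 (to_Rt e), fun c => ⟨_, hasHeight e c⟩, fun α => ⟨?_, ?_⟩⟩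
  · obtain ⟨e0, _⟩ := hb α
    refine ⟨e.symm (nd (b (e0 0)) (self_mem_Bst b _) α), ?_⟩
    have := hasHeight e (e.symm (nd (b (e0 0)) (self_mem_Bst b _) α))
    rwa [Equiv.apply_symm_apply] at this
  · have h1 := countable_level (hc α) (hb α)
    refine (h1.preimage e.injective).mono fun c hcα => ?_
    exact (height_unique e hcα).symm

/-- the branch of `b i` -/
def brn (i : I) : Set W := {a | (e a).1.2 = cut (b i) (e a).1.1}

theorem mem_brn_nd (i : I) (α : W) : e.symm (nd (b i) (self_mem_Bst b i) α) ∈ brn e i := by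
  show (e (e.symm _)).1.2 = _
  rw [Equiv.apply_symm_apply]
  rfl

theorem brn_rt {i : I} {a c : W} (ha : a ∈ brn e i) (hc : c ∈ brn e i)
    (h : (e a).1.1 < (e c).1.1) : Rt e a c := by
  refine ⟨h, ?_⟩
  have h1 : (e a).1.2 = cut (b i) (e a).1.1 := ha
  have h2 : (e c).1.2 = cut (b i) (e c).1.1 := hc
  rw [h1, h2, cut_cut h.le]

theorem isMaxChain_brn (hc : ∀ a : W, (Iio a).Countable) (hu : ¬ Countable W) (i : I) :
    IsMaxChain (Rt e) (brn e i) := by
  refine ⟨?_, ?_⟩
  · intro a ha c hc' hne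
    rcases lt_trichotomy (e a).1.1 (e c).1.1 with h | h | h
    · exact Or.inl (brn_rt e ha hc' h)
    · exfalso
      apply hne
      apply e.injective
      apply node_ext h
      intro ξ _
      have h1 : (e a).1.2 = cut (b i) (e a).1.1 := ha
      have h2 : (e c).1.2 = cut (b i) (e c).1.1 := hc'
      rw [h1, h2, h]
    · exact Or.inr (brn_rt e hc' ha h)
  · intro D hD hsub
    refine Set.Subset.antisymm hsub fun a ha => ?_
    obtain ⟨β, hβ⟩ := exists_gt' hc hu (e a).1.1
    set c := e.symm (nd (b i) (self_mem_Bst b i) β) with hcdef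
    have hcb : c ∈ brn e i := mem_brn_nd e i β
    have hec : (e c).1.1 = β := by rw [hcdef, Equiv.apply_symm_apply]; rfl
    have hec2 : (e c).1.2 = cut (b i) β := by rw [hcdef, Equiv.apply_symm_apply]; rfl
    have hne : a ≠ c := by
      rintro h
      rw [h, hec] at hβ
      exact lt_irrefl _ hβ
    rcases hD ha (hsub hcb) hne with h | h
    · show (e a).1.2 = _
      have h2 := h.2
      rw [hec2, cut_cut hβ.le] at h2
      exact h2
    · exfalso
      have h1 := h.1
      rw [hec] at h1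
      exact lt_asymm h1 hβ

theorem not_countable_brn (hu : ¬ Countable W) (i : I) : ¬ (brn e i).Countable := by
  intro h
  apply hu
  rw [← Set.countable_univ_iff]
  refine (h.image fun a => (e a).1.1).mono fun α _ => ?_
  refine ⟨_, mem_brn_nd e i α, ?_⟩
  show (e (e.symm _)).1.1 = α
  rw [Equiv.apply_symm_apply]
  rfl

theorem brn_injective (hc : ∀ a : W, (Iio a).Countable) (hu : ¬ Countable W)
    (hinj : ∀ i j, i ≠ j → ∃ ξ, b i ξ ≠ b j ξ) : Function.Injective (brn e) := by
  intro i j h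
  by_contra hne
  obtain ⟨ξ, hξ⟩ := hinj i j hne
  obtain ⟨α, hα⟩ := exists_gt' hc hu ξ
  have h1 := mem_brn_nd e i α
  rw [h] at h1
  have h2 : (e (e.symm (nd (b i) (self_mem_Bst b i) α))).1.2 = cut (b j)
    (e (e.symm (nd (b i) (self_mem_Bst b i) α))).1.1 := h1
  rw [Equiv.apply_symm_apply] at h2
  have h3 : cut (b i) α = cut (b j) α := h2
  exact hξ (cut_eq_iff.1 h3 ξ hα)

theorem isRegular [Nonempty W] (hc : ∀ a : W, (Iio a).Countable) (hu : ¬ Countable W)
    (hI : Nonempty I) : IsRegular (Rt e) := by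
  refine ⟨?_, ?_, ?_⟩
  · obtain ⟨w, hw⟩ := exists_least (W := W)
    obtain ⟨i⟩ := hI
    refine ⟨e.symm (nd (b i) (self_mem_Bst b i) w), fun a ha => ?_⟩
    show nlt (e (e.symm _)) (e a)
    rw [Equiv.apply_symm_apply]
    have hzero : ∀ (f : W → ℕ), cut f w = fun _ => 0 := fun f => funext fun ξ => cut_ge (hw ξ)
    rcases (hw (e a).1.1).lt_or_eq with h | h
    · refine ⟨h, ?_⟩
      show cut (b i) w = cut (e a).1.2 w
      rw [hzero, hzero]
    · exfalso
      apply ha
      rw [Equiv.eq_symm_apply]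
      refine node_ext h.symm fun ξ hξ => ?_
      rw [← h] at hξ
      exact absurd hξ (not_lt.2 (hw ξ))
  · intro a
    obtain ⟨f, hf, haf⟩ := (e a).2
    obtain ⟨β, hβ, hmin⟩ := exists_succ' hc hu (e a).1.1
    have key : ∀ v : ℕ, ImmSucc (Rt e) a
        (e.symm (nd (Function.update f (e a).1.1 v) (update_mem_Bst hf _ v) β)) := by
      intro v
      constructor
      · show nlt (e a) (e (e.symm _))
        rw [Equiv.apply_symm_apply]
        refine ⟨hβ, ?_⟩
        show (e a).1.2 = cut (cut (Function.update f (e a).1.1 v) β) (e a).1.1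
        rw [cut_cut hβ.le, haf]
        refine cut_eq_iff.2 fun ξ hξ => ?_
        rw [Function.update_of_ne hξ.ne]
      · rintro ⟨c, h1, h2⟩
        have h3 := h2.1
        rw [Equiv.apply_symm_apply] at h3
        exact absurd (hmin _ h1.1) (not_le.2 h3)
    refine ⟨_, _, ?_, key 0, key 1⟩
    intro h
    have h1 := e.symm.injective h
    have h2 : cut (Function.update f (e a).1.1 0) β = cut (Function.update f (e a).1.1 1) β :=
      congrArg (fun x : Node b => x.1.2) h1
    have h3 := cut_eq_iff.1 h2 (e a).1.1 hβ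
    rw [Function.update_self, Function.update_self] at h3
    exact zero_ne_one h3
  · intro a α β hα hαβ
    rw [height_unique e hα] at hαβ
    obtain ⟨f, hf, haf⟩ := (e a).2
    refine ⟨e.symm (nd f hf β), ?_, ?_⟩
    · show nlt (e a) (e (e.symm _))
      rw [Equiv.apply_symm_apply]
      refine ⟨hαβ, ?_⟩
      show (e a).1.2 = cut (cut f β) (e a).1.1
      rw [cut_cut hαβ.le, haf]
    · have := hasHeight e (e.symm (nd f hf β))
      rwa [Equiv.apply_symm_apply] at this

end tree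

/-- A Kurepa family on `ω₁` gives a regular Kurepa tree on `ω₁`. -/
theorem exists_regular_kurepa {W : Type} [LinearOrder W] [WellFoundedLT W] (hW : #W = ℵ₁)
    (hc : ∀ a : W, (Iio a).Countable) {I : Type} {b : I → W → ℕ} (hb : KurepaFamily W I b) :
    ∃ R : W → W → Prop, IsKurepa R ∧ IsRegular R := by
  obtain ⟨h1, h2, h3⟩ := hb
  have hu : ¬ Countable W := by
    rw [← mk_le_aleph0_iff, hW]
    exact not_le.2 aleph0_lt_aleph_one
  have hne : Nonempty W := by
    rw [← mk_ne_zero_iff, hW]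
    exact (aleph_pos 1).ne'
  obtain ⟨w⟩ := id hne
  obtain ⟨e0, _⟩ := h2 w
  have hI : Nonempty I := ⟨e0 0⟩
  obtain ⟨e⟩ : Nonempty (W ≃ Node b) := Cardinal.eq.1 (by rw [hW, mk_node hW hc h2])
  refine ⟨Rt e, ⟨isAleph1Tree e hc h2, ?_⟩, isRegular e hc hu hI⟩
  have h4 : #W < #I := by
    by_contra hcon
    push Not at hcon
    obtain ⟨f⟩ : Nonempty (I ↪ W) := hcon
    exact h3 ⟨Function.invFun f, Function.invFun_surjective f.injective⟩
  have h5 : aleph 2 ≤ #I := by
    rw [hW] at h4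
    have h6 : (aleph 2 : Cardinal.{0}) = Order.succ ℵ₁ := by
      rw [Cardinal.succ_aleph]
      norm_num [one_add_one_eq_two]
    rw [h6]
    exact Order.succ_le_of_lt h4
  refine h5.trans ?_
  refine mk_le_of_injective (f := fun i : I => (⟨brn e i, isMaxChain_brn e hc hu i,
    not_countable_brn e hu i⟩ : uncBranches (Rt e))) ?_
  intro i j hij
  exact brn_injective e hc hu h1 (congrArg Subtype.val hij)

end Pool.Agent.W635.Kur
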