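import Mathlib
import Pool.Agent.W635.KurForce2
import Pool.Agent.W635.KurTree2
import Pool.Agent.W684.FM.Ambient
import Pool.Agent.H995R3.Kurepa.Def

/-!
# Kurepa families in extensions which preserve cardinals, and under Martin's axiom
-/

set_option autoImplicit false

namespace Pool.Agent.W635.Kur

open Set Cardinal Pool.Agent.Helper669.Forcing Pool.Agent.W684.FM

theorem down_cardinalsPreserved {P : Type} [Preorder P] : Down (CardinalsPreserved.{0, 0} P) :=
  down_fall fun _ => down_fall fun _ => down_fall fun _ => down_fall fun _ => down_fnot _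

/-- A Kurepa family of the ground model is one of every extension which preserves cardinals. -/
theorem kurepaN_of_preserved {P : Type} [Preorder P] {I : Type} {b : I → Om1 → ℕ}
    (hb : KurepaFamily Om1 I b) {p : P} (hp : p ∈ CardinalsPreserved.{0, 0} P) :
    p ∈ KurepaN P Om1 I := by
  obtain ⟨h1, h2, h3⟩ := hb
  have hI : #Om1 < #I := by
    by_contra hcon
    push Not at hcon
    obtain ⟨f⟩ : Nonempty (I ↪ Om1) := hcon
    have hne : Nonempty I := by
      obtain ⟨a⟩ : Nonempty Om1 := by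
        rw [← mk_ne_zero_iff, mk_ord_toType]
        exact (aleph_pos 1).ne'
      obtain ⟨e, _⟩ := h2 a
      exact ⟨e 0⟩
    exact h3 ⟨Function.invFun f, Function.invFun_surjective f.injective⟩
  refine mem_fex.2 fun q hq => ⟨q, le_rfl, fun i ξ m => {_x | b i ξ = m},
    fun i => isFun_ground _ q, fun i j hij => ?_, fun α => ?_, ?_⟩
  · obtain ⟨ξ, hξ⟩ := h1 i j hij
    refine mem_fex.2 fun r _ => ⟨r, le_rfl, ξ, ?_⟩
    show r ∈ fex fun m => fand (meets {_x | b i ξ = m}) (fnot (meets {_x | b j ξ = m}))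
    refine mem_fex.2 fun s _ => ⟨s, le_rfl, b i ξ, mem_meets_ground rfl, fun t _ ht => ?_⟩
    exact hξ (of_meets_ground ht).symm
  · obtain ⟨e, he⟩ := h2 α
    refine mem_fex.2 fun r _ => ⟨r, le_rfl, fun n i => {_x | e n = i}, isFun_ground _ r,
      fun i => ?_⟩
    obtain ⟨n, hn⟩ := he i
    refine mem_fex.2 fun s _ => ⟨s, le_rfl, n, ?_⟩
    refine mem_fex.2 fun t _ => ⟨t, le_rfl, e n, mem_meets_ground rfl, fun ξ hξ m =>
      mem_fimp.2 fun u _ hu => ⟨u, le_rfl, ?_⟩⟩
    have := of_meets_ground hu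
    exact mem_meets_ground (by rw [← hn ξ hξ]; exact this)
  · intro r hr hex
    obtain ⟨s, hs, R, hf, ho⟩ := mem_fex.1 hex r le_rfl
    have hℵ : ℵ₀ < #I := by
      refine lt_of_le_of_lt ?_ hI
      rw [mk_ord_toType]
      exact aleph0_le_aleph 1
    obtain ⟨e⟩ : Nonempty ((#Om1).out ≃ Om1) := Cardinal.eq.1 (mk_out _)
    obtain ⟨e'⟩ : Nonempty ((#I).out ≃ I) := Cardinal.eq.1 (mk_out _)
    refine hp (#Om1) (#I) hI hℵ s (hs.trans (hr.trans hq)) ?_
    refine mem_fex.2 fun t ht => ⟨t, le_rfl, fun x y => R (e x) (e' y), ⟨fun x => ?_,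
      fun x y y' => ?_⟩, fun y => ?_⟩
    · have h4 := down_IsFun R _ hf _ ht
      refine mem_fex.2 fun u hu => ?_
      obtain ⟨v, hv, i, hi⟩ := mem_fex.1 (h4.1 (e x)) u hu
      exact ⟨v, hv, e'.symm i, by simpa using hi⟩
    · have h4 := down_IsFun R _ hf _ ht
      refine mem_fimp.2 fun u hu h5 => ⟨u, le_rfl, ?_⟩
      exact e'.injective (IsFun.unique (down_IsFun R _ h4 _ hu) h5.1 h5.2)
    · refine mem_fex.2 fun u hu => ?_
      obtain ⟨v, hv, x, hx⟩ := mem_fex.1 (ho (e' y)) u (hu.trans ht)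
      exact ⟨v, hv, e.symm x, by simpa using hx⟩

open Pool.Agent.H995R3.Kurepa in
theorem martin_iff : MartinFor Om1 → Pool.Agent.H995R3.Kurepa.MartinAxiomAleph1 := by
  intro h P _ _ hccc 𝒟 h1 h2
  exact martinFor_om1_iff.1 h P hccc 𝒟 h1 h2

section coanalytic

open Pool.Agent.H995R3.Kurepa

theorem mk_Iio_lt (o : Ordinal.{0}) (ho : o = (aleph 1).ord) (a : o.ToType) :
    #(Iio a) < aleph 1 := by
  subst ho
  exact Cardinal.mk_Iio_toType_ord_lt a

theorem mk_Om : #Om = aleph 1 := by
  rw [Cardinal.mk_toType, Ordinal.card_omega]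

theorem like_Om : Like Om := by
  constructor
  · intro a
    have := mk_Iio_lt _ (Cardinal.ord_aleph 1).symm a
    rw [← Cardinal.le_aleph0_iff_set_countable]
    rwa [← Cardinal.lt_aleph_one_iff]
  · intro hc
    have := Cardinal.mk_le_aleph0_iff.mpr hc
    rw [mk_Om] at this
    exact absurd this (not_le.mpr Cardinal.aleph0_lt_aleph_one)

/-- Under `MA_{ℵ₁}` every `ℵ₁`-tree on `ω₁` with at most `ℵ₁` uncountable branches is special. -/
theorem special_of_MA_Om (hMA : Pool.Agent.H995R3.Kurepa.MartinAxiomAleph1) (R : Om → Om → Prop)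
    (hR : IsAleph1Tree R) (hb : #(uncBranches R) ≤ aleph 1) : IsSpecial R := by
  have hto := isTreeOrder_iff.mp hR.1
  have hpc : ∀ b, {a | R a b}.Countable := by
    intro b
    obtain ⟨α, ⟨φ⟩⟩ := hR.2.1 b
    have h1 : Countable {ξ // ξ < α} := (like_Om.cnt α).to_subtype
    have : Countable {a // R a b} := φ.toEquiv.countable_iff.mpr h1
    exact Set.countable_coe_iff.mp this
  exact special_of_MA hMA like_Om mk_Om.le hto hpc (by rw [mk_Om]; exact hb)

theorem transfer (o : Ordinal.{0}) (ho : o = (ℵ₁ : Cardinal.{0}).ord)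
    (h : ∃ (I : Type) (b : I → Om1 → ℕ), KurepaFamily Om1 I b) :
    ∃ R : o.ToType → o.ToType → Prop, IsKurepa R ∧ IsRegular R := by
  subst ho
  obtain ⟨I, b, hb⟩ := h
  refine exists_regular_kurepa (mk_ord_toType _) (fun a => ?_) hb
  have := Cardinal.mk_Iio_toType_ord_lt a
  rw [← Cardinal.le_aleph0_iff_set_countable]
  rwa [← Cardinal.lt_aleph_one_iff]

/-- Martin's axiom for `ℵ₁` dense sets and the existence of a Kurepa family imply that the set of
the codes of regular Kurepa trees is nonempty and `Δ¹₂`. -/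
theorem coanalytic (hMA : MartinFor Om1)
    (h : ∃ (I : Type) (b : I → Om1 → ℕ), KurepaFamily Om1 I b)
    (e : Om × Om ≃ Om) (zero one : Om) (h01 : zero ≠ one) :
    (kurepaCodes e zero one).Nonempty ∧ IsPi11 Om (kurepaCodes e zero one) ∧
      IsDelta12 Om (kurepaCodes e zero one) := by
  classical
  have h1 : IsPi11 Om (kurepaCodes e zero one) :=
    pi_kurepa like_Om mk_Om e h01 fun R hR _ hb => special_of_MA_Om (martin_iff hMA) R hR hb
  refine ⟨?_, h1, delta_of_pi like_Om e h1⟩
  obtain ⟨R, hR, hreg⟩ := transfer _ (Cardinal.ord_aleph 1).symm h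
  refine ⟨fun η => if R (e.symm η).1 (e.symm η).2 then one else zero, R, ?_, hR, hreg⟩
  intro a b
  constructor
  · intro h
    show (if R (e.symm (e (a, b))).1 (e.symm (e (a, b))).2 then one else zero) = one
    simp [h]
  · intro h
    show (if R (e.symm (e (a, b))).1 (e.symm (e (a, b))).2 then one else zero) = zero
    simp [h]

end coanalytic

end Pool.Agent.W635.Kur
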