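import Pool.Agent.W635.LotsPow

/-! A six element LOTS basis from the five element basis. -/

namespace Pool.Agent.W635.LOTS

open Set Cardinal

theorem LotsEmb.trans {A B C : Type} [LinearOrder A] [LinearOrder B] [LinearOrder C]
    (h1 : LotsEmb A B) (h2 : LotsEmb B C) : LotsEmb A C := by
  obtain ⟨f, hf, hfc⟩ := h1
  obtain ⟨g, hg, hgc⟩ := h2
  exact ⟨g ∘ f, hg.comp hf, @Continuous.comp A B C (Preorder.topology A) (Preorder.topology B)
    (Preorder.topology C) f g hgc hfc⟩

theorem lotsEmb_Ioo {L : Type} [LinearOrder L] [DenselyOrdered L] (a b : L) :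
    LotsEmb (Ioo a b) L := by
  refine ⟨fun x => x.1, fun x y h => h, continuous_of_approx _ (fun x y h => h) ?_ ?_⟩
  · intro x l hl
    obtain ⟨c, h1, h2⟩ := exists_between (max_lt hl x.2.1)
    exact ⟨⟨c, (le_max_right _ _).trans_lt h1, h2.trans x.2.2⟩, h2, (le_max_left _ _).trans_lt h1⟩
  · intro x r hr
    obtain ⟨c, h1, h2⟩ := exists_between (lt_min hr x.2.2)
    exact ⟨⟨c, x.2.1.trans h1, h2.trans_le (min_le_right _ _)⟩, h1, h2.trans_le (min_le_left _ _)⟩

theorem dbl_of_not_real {E T Q : Set ℝ} (hE : Nice E T Q) {C : Type} [LinearOrder C]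
    (hC : Countryman C)
    (hB : ∀ (L : Type) (_ : LinearOrder L), Uncountable L →
      Nonempty (E ↪o L) ∨ Nonempty (OmegaOne ↪o L) ∨ Nonempty (OmegaOneᵒᵈ ↪o L) ∨
        Nonempty (C ↪o L) ∨ Nonempty (Cᵒᵈ ↪o L))
    {L : Type} [LinearOrder L] (h : ¬ Nonempty (L ↪o ℝ)) : Dbl L := by
  obtain ⟨x, y, hxy, hsep⟩ := exists_seq h
  have hinj : Function.Injective x := by
    intro a b hab
    by_contra hne
    rcases lt_or_gt_of_ne hne with h | h
    · exact (hsep b a h).1 ⟨hab.ge, hab.le.trans (hxy b).le⟩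
    · exact (hsep a b h).1 ⟨hab.le, hab.ge.trans (hxy a).le⟩
  have hM : Uncountable (range x) := by
    have := uncountable_omegaOne
    exact (Set.rangeFactorization_injective.2 hinj).uncountable
  let ι : range x ↪o L := OrderEmbedding.subtype _
  rcases hB (range x) inferInstance hM with ⟨⟨ψ⟩⟩ | ⟨⟨ψ⟩⟩ | ⟨⟨ψ⟩⟩ | ⟨⟨ψ⟩⟩ | ⟨⟨ψ⟩⟩
  · have : ∀ e : E, ∃ a, x a = (ψ e).1 := fun e => (ψ e).2
    choose α hα using this
    have hαinj : Function.Injective α := by
      intro e e' h
      apply ψ.injective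
      apply Subtype.ext
      rw [← hα e, ← hα e', h]
    have hQc : {e : E | e.1 ∈ Q}.Countable := by
      have : ((fun e : E => e.1) '' {e : E | e.1 ∈ Q}).Countable :=
        hE.Qc.mono (by rintro _ ⟨e, he, rfl⟩; exact he)
      exact countable_of_injective_of_countable_image Subtype.val_injective.injOn this
    obtain ⟨w, hw⟩ := omegaOne_bounded (α '' {e : E | e.1 ∈ Q}) (hQc.image α)
    have hunc : ¬ {e : E | w ≤ α e}.Countable := by
      intro hc
      have h1 : {e : E | α e < w}.Countable := by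
        refine countable_of_injective_of_countable_image hαinj.injOn
          ((countable_Iio_omegaOne w).mono ?_)
        rintro _ ⟨e, he, rfl⟩
        exact he
      have h2 : (Set.univ : Set E).Countable := by
        refine (hc.union h1).mono fun e _ => ?_
        rcases le_or_gt w (α e) with h | h
        · exact Or.inl h
        · exact Or.inr h
      have h3 : #E ≤ ℵ₀ := by
        rw [countable_univ_iff] at h2
        exact mk_le_aleph0_iff.2 h2
      rw [hE.cardE] at h3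
      exact absurd h3 (not_le.2 aleph0_lt_aleph_one)
    have hinj2 : Function.Injective fun e : E => (x (α e), y (α e)) := by
      intro e e' h
      exact hαinj (hinj (congrArg Prod.fst h))
    have key : ∀ e e' : E, e < e' → w ≤ α e → y (α e) < x (α e') := by
      intro e e' hlt hwe
      obtain ⟨q, hq, h1, h2⟩ := hE.Qd e.1 e'.1 hlt
      let q' : E := ⟨q, hE.QE hq⟩
      have h3 : α q' < α e := (hw _ ⟨q', hq, rfl⟩).trans_le hwe
      have h4 : (ψ e).1 < (ψ q').1 := ψ.lt_iff_lt.2 (show e < q' from h1)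
      have h5 : (ψ q').1 < (ψ e').1 := ψ.lt_iff_lt.2 (show q' < e' from h2)
      rw [← hα, ← hα] at h4 h5
      have h6 := (hsep (α e) (α q') h3).1
      by_contra hcon
      rw [not_lt] at hcon
      exact h6 ⟨h4.le, h5.le.trans hcon⟩
    refine ⟨(fun e : E => (x (α e), y (α e))) '' {e : E | w ≤ α e}, ?_, ?_, ?_⟩
    · intro hc
      exact hunc (countable_of_injective_of_countable_image hinj2.injOn hc)
    · rintro _ ⟨e, he, rfl⟩
      exact hxy _
    · rintro _ ⟨e, he, rfl⟩ _ ⟨e', he', rfl⟩ hne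
      have hee : e ≠ e' := fun h => hne (by rw [h])
      rcases lt_or_gt_of_ne hee with h | h
      · left; exact key e e' h he
      · right; exact key e' e h he'
  · exact (dbl_omegaOne.map ψ).map ι
  · exact (dbl_omegaOne.dual.map ψ).map ι
  · exact ((dbl_countryman hC).map ψ).map ι
  · exact ((dbl_countryman hC).dual.map ψ).map ι

/-- From a family of disjoint intervals and the basis property, an indexed family. -/
theorem exists_fam {n : ℕ} (D : Fin n → Type) [∀ i, LinearOrder (D i)]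
    (hB : ∀ (L : Type) (_ : LinearOrder L), Uncountable L → ∃ i, Nonempty (D i ↪o L))
    {L : Type} [LinearOrder L] (a b : L) (h : Dbl (Ioo a b)) : ∃ i, Fam (D i) a b := by
  obtain ⟨S, hS, h1, h2⟩ := h
  have hinj : InjOn Prod.fst S := by
    intro p hp q hq hpq
    by_contra hne
    rcases h2 p hp q hq hne with h | h
    · exact absurd hpq (ne_of_lt ((h1 p hp).trans h))
    · exact absurd hpq (ne_of_gt ((h1 q hq).trans h))
  have hM : Uncountable (Prod.fst '' S) := by
    rw [← not_countable_iff]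
    intro hc
    exact hS (countable_of_injective_of_countable_image hinj hc)
  obtain ⟨i, ⟨φ⟩⟩ := hB (Prod.fst '' S) inferInstance hM
  have : ∀ d, ∃ p ∈ S, p.1 = (φ d).1 := fun d => (φ d).2
  choose p hp hpφ using this
  refine ⟨i, fun d => (p d).1.1, fun d => (p d).2.1, fun d => ⟨(p d).1.2.1, h1 _ (hp d),
    (p d).2.2.2⟩, ?_⟩
  intro d d' hdd
  have h3 : (p d).1 < (p d').1 := by
    rw [hpφ, hpφ]
    exact φ.lt_iff_lt.2 hdd
  have hne : p d ≠ p d' := fun h => h3.ne (congrArg Prod.fst h)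
  rcases h2 _ (hp d) _ (hp d') hne with h | h
  · exact h
  · exact absurd h3 (not_lt.2 ((h1 _ (hp d')).trans h).le)

theorem Fam.mono {D : Type} [LinearOrder D] {L : Type} [LinearOrder L] {a b a' b' : L}
    (h : Fam D a' b') (ha : a ≤ a') (hb : b' ≤ b) : Fam D a b := by
  obtain ⟨u, v, h1, h2⟩ := h
  exact ⟨u, v, fun d => ⟨ha.trans_lt (h1 d).1, (h1 d).2.1, (h1 d).2.2.trans_le hb⟩, h2⟩

theorem emb_of_dbl {n : ℕ} (D : Fin n → Type) [∀ i, LinearOrder (D i)]
    (hne : ∀ i, Nonempty (D i))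
    (hB : ∀ (L : Type) (_ : LinearOrder L), Uncountable L → ∃ i, Nonempty (D i ↪o L))
    {L : Type} [LinearOrder L] [DenselyOrdered L] [Nontrivial L] (hcc : CountableCharacter L)
    (hD : ∀ a b : L, a < b → Dbl (Ioo a b)) : ∃ i, LotsEmb (AD (D i)) L := by
  classical
  let Typ : L × L → Finset (Fin n) := fun p => Finset.univ.filter fun i => Fam (D i) p.1 p.2
  obtain ⟨x, y, hxy⟩ := exists_pair_lt L
  obtain ⟨p, hp, hmin⟩ : ∃ p : L × L, p.1 < p.2 ∧
      ∀ q : L × L, q.1 < q.2 → (Typ p).card ≤ (Typ q).card := by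
    let P : Set (L × L) := {p | p.1 < p.2}
    have hPne : P.Nonempty := ⟨(x, y), hxy⟩
    obtain ⟨p, hp, hmin⟩ := WellFounded.has_min
      (InvImage.wf (fun p : L × L => (Typ p).card) (wellFounded_lt)) P hPne
    exact ⟨p, hp, fun q hq => not_lt.1 (hmin q hq)⟩
  obtain ⟨i, hi⟩ := exists_fam D hB p.1 p.2 (hD _ _ hp)
  have hi' : i ∈ Typ p := Finset.mem_filter.2 ⟨Finset.mem_univ _, hi⟩
  refine ⟨i, ?_⟩
  have := hne i
  refine lotsEmb_AD hp hcc ?_
  intro a b ha hab hb
  have hsub : Typ (a, b) ⊆ Typ p := by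
    intro j hj
    exact Finset.mem_filter.2 ⟨Finset.mem_univ _, (Finset.mem_filter.1 hj).2.mono ha hb⟩
  have heq : Typ (a, b) = Typ p := Finset.eq_of_subset_of_card_le hsub (hmin (a, b) hab)
  rw [← heq] at hi'
  exact (Finset.mem_filter.1 hi').2

theorem densely_of_inC {L : Type} [LinearOrder L] (h : AlephOneDense L) : DenselyOrdered L := by
  refine ⟨fun a b hab => ?_⟩
  have h1 := h.2 a b hab
  have : (Ioo a b).Nonempty := by
    rw [← nonempty_coe_sort, ← mk_ne_zero_iff, h1]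
    exact (aleph_pos 1).ne'
  exact this

/-- **Main theorem.** -/
theorem main (h : FiveElementBasis) :
    ∃ (B : Fin 6 → Type) (_ : ∀ i, LinearOrder (B i)),
      (∀ i, InC (B i)) ∧ ∀ (L : Type) (_ : LinearOrder L), InC L → ∃ i, LotsEmb (B i) L := by
  obtain ⟨C, _, hC, hMoore⟩ := h
  obtain ⟨E, T, Q, hE⟩ := exists_nice
  -- a suborder of `C` of size `ℵ₁`
  obtain ⟨C₁, hC₁⟩ : ∃ C₁ : Set C, #C₁ = ℵ₁ := by
    have : ℵ₁ ≤ #C := by
      rw [aleph_one_le_iff]
      exact aleph0_lt_mk_iff.2 hC.1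
    exact Cardinal.le_mk_iff_exists_set.1 this
  let D' : Fin 5 → (T : Type) × LinearOrder T := ![⟨E, inferInstance⟩, ⟨OmegaOne, inferInstance⟩,
    ⟨OmegaOneᵒᵈ, inferInstance⟩, ⟨C₁, inferInstance⟩, ⟨C₁ᵒᵈ, inferInstance⟩]
  let D : Fin 5 → Type := fun i => (D' i).1
  letI instD : ∀ i, LinearOrder (D i) := fun i => (D' i).2
  have hcard : ∀ i, #(D i) = ℵ₁ := by
    have hω : #OmegaOne = ℵ₁ := by rw [Cardinal.mk_toType, Cardinal.card_ord]
    intro i
    match i with
    | 0 => exact hE.cardE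
    | 1 => exact hω
    | 2 => exact hω
    | 3 => exact hC₁
    | 4 => exact hC₁
  have hne : ∀ i, Nonempty (D i) := fun i => by
    rw [← mk_ne_zero_iff, hcard i]; exact (aleph_pos 1).ne'
  let ι : C₁ ↪o C := OrderEmbedding.subtype _
  have hB : ∀ (L : Type) (_ : LinearOrder L), Uncountable L → ∃ i, Nonempty (D i ↪o L) := by
    intro L _ hL
    rcases hMoore E hE.cardE L inferInstance hL with h | h | h | h | h
    · exact ⟨0, h⟩
    · exact ⟨1, h⟩
    · exact ⟨2, h⟩
    · exact ⟨3, h.map fun φ => ι.trans φ⟩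
    · exact ⟨4, h.map fun φ => ι.dual.trans φ⟩
  let B' : Fin 6 → (T : Type) × LinearOrder T :=
    Fin.cons ⟨E, inferInstance⟩ (fun i => ⟨AD (D i), inferInstance⟩)
  refine ⟨fun i => (B' i).1, fun i => (B' i).2, ?_, ?_⟩
  · intro i
    refine Fin.cases ?_ (fun i => ?_) i
    · exact inC_nice hE
    · exact inC_AD (hcard i)
  · intro L _ hL
    have hd : DenselyOrdered L := densely_of_inC hL.1
    have hnt : Nontrivial L := hL.1.1
    by_cases hcase : ∃ a b : L, a < b ∧ Nonempty (Ioo a b ↪o ℝ)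
    · obtain ⟨a, b, hab, ⟨f⟩⟩ := hcase
      refine ⟨0, ?_⟩
      have hJ : Uncountable (Ioo a b) := by
        rw [← aleph0_lt_mk_iff, hL.1.2 a b hab]
        exact aleph0_lt_aleph_one
      have hnot : ¬ Dbl (Ioo a b) := fun h => h.not_real ⟨f⟩
      rcases hMoore (Ys E T) (card_Ys hE) (Ioo a b) inferInstance hJ with
        ⟨⟨φ⟩⟩ | ⟨⟨φ⟩⟩ | ⟨⟨φ⟩⟩ | ⟨⟨φ⟩⟩ | ⟨⟨φ⟩⟩
      · exact (lotsEmb_of_real hE f φ).trans (lotsEmb_Ioo a b)
      · exact absurd (dbl_omegaOne.map φ) hnot
      · exact absurd (dbl_omegaOne.dual.map φ) hnot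
      · exact absurd ((dbl_countryman hC).map φ) hnot
      · exact absurd ((dbl_countryman hC).dual.map φ) hnot
    · push Not at hcase
      have hD : ∀ a b : L, a < b → Dbl (Ioo a b) := by
        intro a b hab
        refine dbl_of_not_real hE hC (fun L i hL => hMoore E hE.cardE L i hL) ?_
        rw [not_nonempty_iff]
        exact hcase a b hab
      obtain ⟨i, hi⟩ := emb_of_dbl D hne hB hL.2 hD
      exact ⟨i.succ, hi⟩

end Pool.Agent.W635.LOTS
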