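import Mathlib
import Pool.Agent.Helper669.Forcing

/-!
# A principle about points of the Cantor space and functions from ω to ω

The principle is stated twice: as a statement about actual objects (`Principle`), and as a
sentence of the forcing language of a preordered set `P` (`ForcedPrinciple`), see
`Pool.Agent.Helper669.Forcing` for the forcing language. A set `O` of finite sequences of
booleans codes the open set of the points of `2^ω` which extend a member of `O`.
-/

namespace Pool.Agent.W635.CHDefs

open Pool.Agent.Helper669.Forcing

/-! ### The principle -/

/-- The point `x` of the Cantor space belongs to the open set coded by `O`: some member of `O` is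
an initial segment of `x`. -/
def InO (x : ℕ → Bool) (O : Set (List Bool)) : Prop :=
  ∃ s ∈ O, ∀ i < s.length, x i = s.getD i false

/-- `K` is a well-ordered set in which maps from proper initial segments are bounded, `A` and `A'`
are uncountable, the points `w k` (`k ∈ K`) of the Cantor space are distinct, every open set
containing all `w k` with `k ∈ A` (or all with `k ∈ A'`) contains `w k` for all but countably
many `k ∈ K`, and whenever `V n m` are open sets then for all sufficiently large `k ∈ K` the
function `f k` bounds the least `m` with `w ξ ∈ V n m` for almost all `n`, for every `ξ` for which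
these numbers exist. -/
structure Principle (K : Type) [LinearOrder K] (A A' : Set K) (w : K → ℕ → Bool)
    (f : K → ℕ → ℕ) : Prop where
  distinct : ∀ k k' : K, k ≠ k' → ∃ n, w k n ≠ w k' n
  uncountable : ¬ A.Countable
  uncountable' : ¬ A'.Countable
  regular : ∀ γ : K, ∀ h : K → K, ∃ β, ∀ k < γ, h k ≤ β
  concentrated : ∀ O : Set (List Bool), (∀ k ∈ A, InO (w k) O) → {k | ¬ InO (w k) O}.Countable
  concentrated' : ∀ O : Set (List Bool), (∀ k ∈ A', InO (w k) O) → {k | ¬ InO (w k) O}.Countable
  dominating : ∀ V : ℕ → ℕ → Set (List Bool), ∃ β : K, ∀ k, β ≤ k → ∀ ξ : K,
    (∀ n, ∃ m, InO (w ξ) (V n m)) → ∃ N : ℕ, ∀ n, N ≤ n → ∃ m ≤ f k n, InO (w ξ) (V n m)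

/-! ### The sentence of the forcing language -/

section

variable {P : Type} [Preorder P]

/-- The point of the Cantor space named by `x` belongs to the open set coded by the set named by
`O`. -/
def InOpen (x : ℕ → Bool → Set P) (O : List Bool → Set P) : Set P :=
  fex fun s : List Bool => fand (meets (O s))
    (fall fun i : ℕ => fall fun _ : i < s.length => meets (x i (s.getD i false)))

/-- The set of all `k ∈ K` with `φ k` is contained in the range of a function on `ℕ`. -/
def IsCountable {K : Type} (φ : K → Set P) : Set P :=
  fex fun c : ℕ → K → Set P =>
    fand (IsFun c) (fall fun k => fimp (φ k) (fex fun n => meets (c n k)))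

/-- The points named by the `w k` are distinct. -/
def Distinct {K : Type} (w : K → ℕ → Bool → Set P) : Set P :=
  fall fun k => fall fun k' => fall fun _ : k ≠ k' => fex fun n : ℕ => fex fun b : Bool =>
    fand (meets (w k n b)) (meets (w k' n (!b)))

/-- Every map from a proper initial segment of `K` to `K` is bounded. -/
def Regular (P : Type) [Preorder P] (K : Type) [LinearOrder K] : Set P :=
  fall fun γ : K => fall fun h : K → K → Set P => fimp (IsFun h)
    (fex fun β : K => fall fun k : K => fall fun _ : k < γ => fall fun l : K =>
      fimp (meets (h k l)) (fground (l ≤ β)))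

/-- Every open set containing all `w k` with `k ∈ A` contains all but countably many `w k`. -/
def Concentrated {K : Type} (w : K → ℕ → Bool → Set P) (A : Set K) : Set P :=
  fall fun O : List Bool → Set P =>
    fimp (fall fun k => fall fun _ : k ∈ A => InOpen (w k) O)
      (IsCountable fun k => fnot (InOpen (w k) O))

/-- The functions `f k` eventually bound the least `m` with `w ξ ∈ V n m`. -/
def Dominating {K : Type} [LinearOrder K] (w : K → ℕ → Bool → Set P) (f : K → ℕ → ℕ → Set P) :
    Set P :=
  fall fun V : ℕ → ℕ → List Bool → Set P =>
    fex fun β : K => fall fun k : K => fall fun _ : β ≤ k => fall fun ξ : K =>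
      fimp (fall fun n : ℕ => fex fun m : ℕ => InOpen (w ξ) (V n m))
        (fex fun N : ℕ => fall fun n : ℕ => fall fun _ : N ≤ n => fex fun v : ℕ =>
          fand (meets (f k n v)) (fex fun m : ℕ =>
            fand (fground (m ≤ v)) (InOpen (w ξ) (V n m))))

/-- The principle, as a sentence of the forcing language: there are `w` and `f` as in
`Principle`. -/
def ForcedPrinciple (P : Type) [Preorder P] (K : Type) [LinearOrder K] (A A' : Set K) : Set P :=
  fex fun w : K → ℕ → Bool → Set P => fex fun f : K → ℕ → ℕ → Set P =>
    fand (fall fun k => fand (IsFun (w k)) (IsFun (f k)))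
      (fand (Distinct w)
        (fand (fnot (IsCountable fun k => fground (k ∈ A)))
          (fand (fnot (IsCountable fun k => fground (k ∈ A')))
            (fand (Regular P K)
              (fand (Concentrated w A) (fand (Concentrated w A') (Dominating w f)))))))

end

end Pool.Agent.W635.CHDefs
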