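import Mathlib
import Pool.Agent.H652G.Task

/-!
# The iteration: Cohen forcing at the coordinates in `co`, Hechler forcing at the others

The admissible promises are defined by recursion. At the coordinates with `co ξ` there are no
promises (so that the generic function is a Cohen real), at the other coordinates all
(countable) names of bounds for the next value are allowed.
-/

namespace Pool.Agent.W635.CH

open Cardinal Pool.Agent.H652G Pool.Agent.Helper669.Forcing

set_option linter.unusedSectionVars false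
set_option linter.unusedVariables false

variable {I : Type} [LinearOrder I] [WellFoundedLT I] [OrderTop I]

open Classical in
/-- the admissible promises, by recursion -/
noncomputable def MRC (co : I → Prop) : I → Set (Pr I) :=
  WellFoundedLT.fix (motive := fun _ : I => Set (Pr I)) fun ξ f =>
    if co ξ then ∅ else
      HP {r | (∀ η, ∀ h : η < ξ, ∀ R ∈ r.pr η, R ∈ f η h) ∧ Below r ξ} ξ

/-- the system -/
noncomputable def SyC (co : I → Prop) : Sys I := ⟨MRC co, fun _ => False⟩

variable {co : I → Prop}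

theorem adm_iff {r : Rep I} : Adm (SyC co) r ↔ ∀ η, ∀ R ∈ r.pr η, R ∈ (SyC co).RR η :=
  ⟨fun h η => (h η).1, fun h η => ⟨h η, fun h => h.elim⟩⟩

theorem MRC_eq (ξ : I) [Decidable (co ξ)] :
    MRC co ξ = if co ξ then ∅ else HP (Vd (SyC co) ξ) ξ := by
  rw [MRC, WellFoundedLT.fix_eq]
  by_cases h : co ξ
  · rw [if_pos h, if_pos h]
  · rw [if_neg h, if_neg h]
    congr 1
    ext r
    constructor
    · rintro ⟨h1, h2⟩
      refine ⟨adm_iff.2 fun η => ?_, h2⟩
      by_cases hη : η < ξ
      · exact h1 η hη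
      · rw [(h2 η (not_lt.1 hη)).2]
        exact fun R hR => absurd hR (Finset.notMem_empty R)
    · rintro ⟨h1, h2⟩
      exact ⟨fun η _ => adm_iff.1 h1 η, h2⟩

theorem RR_co {ξ : I} (h : co ξ) : (SyC co).RR ξ = ∅ := by
  classical
  show MRC co ξ = _
  rw [MRC_eq, if_pos h]

theorem RR_he {ξ : I} (h : ¬ co ξ) : (SyC co).RR ξ = HP (Vd (SyC co) ξ) ξ := by
  classical
  show MRC co ξ = _
  rw [MRC_eq, if_neg h]

theorem pr_co {r : Rep I} (hr : Adm (SyC co) r) {η : I} (h : co η) : r.pr η = ∅ := by
  rw [Finset.eq_empty_iff_forall_notMem]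
  intro R hR
  have := adm_iff.1 hr η R hR
  rw [RR_co h] at this
  exact this

theorem good_SyC (ξ : I) : Good (SyC co) ξ := by
  classical
  by_cases h : co ξ
  · constructor
    · intro R hR
      rw [RR_co h] at hR
      exact absurd hR (Set.notMem_empty _)
    · intro F hF t _ q hq
      refine ⟨q, hq, le_rfl, 0, fun R hR => ?_⟩
      have := hF R hR
      rw [RR_co h] at this
      exact absurd this (Set.notMem_empty _)
  · constructor
    · intro R hR t m w hw
      rw [RR_he h] at hR
      obtain ⟨c, hc⟩ := hR.1 t m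
      rw [hc] at hw ⊢
      obtain ⟨i, hi⟩ := Set.mem_iUnion.1 hw
      rcases h' : c i with _ | q
      · rw [h'] at hi; exact absurd hi (Set.notMem_empty _)
      · rw [h'] at hi
        exact ⟨q.1, q.2, hi, fun v hv => Set.mem_iUnion.2 ⟨i, by rw [h']; exact hv⟩⟩
    · intro F hF t _ q hq
      rw [RR_he h] at hF
      obtain ⟨q', h1, h2, N, h3⟩ := HP_amal t F hF q hq
      exact ⟨q', h1, h2, N, h3⟩

/-! ### Permutations of the Cohen coordinates -/

/-- the promise `R` moved by `σ` -/
def actR (σ : Equiv.Perm I) (R : Pr I) : Pr I := fun t m => {w | (fun η => w (σ η)) ∈ R t m}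

omit [LinearOrder I] [WellFoundedLT I] [OrderTop I] in
theorem actR_symm (σ : Equiv.Perm I) (R : Pr I) : actR σ (actR σ.symm R) = R := by
  funext t m
  ext w
  simp [actR]

omit [LinearOrder I] [WellFoundedLT I] [OrderTop I] in
theorem actR_inj (σ : Equiv.Perm I) : Function.Injective (actR (I := I) σ) := by
  intro R R' h
  have h1 := congrArg (actR σ.symm) h
  have h2 := actR_symm σ.symm R
  have h3 := actR_symm σ.symm R'
  rw [Equiv.symm_symm] at h2 h3
  rw [h2, h3] at h1
  exact h1

open Classical in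
/-- the condition `r` moved by `σ` -/
noncomputable def act (σ : Equiv.Perm I) (r : Rep I) : Rep I where
  st η := r.st (σ.symm η)
  pr η := (r.pr (σ.symm η)).image (actR σ)
  fin := by
    refine (r.fin.image σ).subset fun η hη => ⟨σ.symm η, ?_, by simp⟩
    rcases hη with h | h
    · exact Or.inl h
    · refine Or.inr fun h' => h ?_
      rw [h', Finset.image_empty]

omit [LinearOrder I] [WellFoundedLT I] [OrderTop I] in
theorem act_symm (σ : Equiv.Perm I) (r : Rep I) : act σ (act σ.symm r) = r := by
  classical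
  ext1
  · funext η
    simp [act]
  · funext η
    simp only [act, Equiv.symm_symm, Equiv.apply_symm_apply]
    rw [Finset.image_image]
    have h : (actR σ) ∘ (actR σ.symm) = (id : Pr I → Pr I) := funext fun R => actR_symm σ R
    rw [h, Finset.image_id]

/-- the Cohen coordinates come first -/
def Low (co : I → Prop) : Prop := ∀ ξ η, co η → ¬ co ξ → η < ξ

/-- `σ` only moves Cohen coordinates -/
def Fx (co : I → Prop) (σ : Equiv.Perm I) : Prop := ∀ ξ, ¬ co ξ → σ ξ = ξ

omit [LinearOrder I] [WellFoundedLT I] [OrderTop I] in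
theorem Fx.symm {σ : Equiv.Perm I} (h : Fx co σ) : Fx co σ.symm := fun ξ hξ => by
  rw [Equiv.symm_apply_eq]; exact (h ξ hξ).symm

omit [LinearOrder I] [WellFoundedLT I] [OrderTop I] in
theorem Fx.map_co {σ : Equiv.Perm I} (h : Fx co σ) {ξ : I} (hξ : co ξ) : co (σ ξ) := by
  by_contra h'
  have h1 := h _ h'
  exact h' (by rw [σ.injective h1]; exact hξ)

omit [WellFoundedLT I] [OrderTop I] in
theorem Fx.lt {σ : Equiv.Perm I} (h : Fx co σ) (hl : Low co) {ξ η : I} (hξ : ¬ co ξ)
    (hη : η < ξ) : σ η < ξ := by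
  by_cases h' : co η
  · exact hl ξ _ (h.map_co h') hξ
  · rw [h η h']; exact hη

omit [WellFoundedLT I] [OrderTop I] in
theorem mem_bs_act {σ : Equiv.Perm I} (h : Fx co σ) (hl : Low co) {r : Rep I}
    (hr : ∀ η, co η → r.pr η = ∅) {ξ : I} (hξ : ¬ co ξ) {w : Om I} :
    w ∈ bs (act σ r) ξ ↔ (fun η => w (σ η)) ∈ bs r ξ := by
  classical
  constructor
  · intro hw η hη
    obtain ⟨h1, h2⟩ := hw (σ η) (h.lt hl hξ hη)
    simp only [act, Equiv.symm_apply_apply] at h1 h2
    refine ⟨h1, fun R hR n hn => ?_⟩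
    have hco : ¬ co η := fun hc => by
      rw [hr η hc] at hR; exact absurd hR (Finset.notMem_empty R)
    exact h2 (actR σ R) (Finset.mem_image_of_mem _ hR) n hn
  · intro hw η hη
    obtain ⟨h1, h2⟩ := hw (σ.symm η) (h.symm.lt hl hξ hη)
    simp only [Equiv.apply_symm_apply] at h1 h2
    refine ⟨h1, fun R hR n hn => ?_⟩
    obtain ⟨R', hR', rfl⟩ := Finset.mem_image.1 hR
    exact h2 R' hR' n hn

theorem act_le {σ : Equiv.Perm I} (h : Fx co σ) (hl : Low co) {r r' : Rep I}
    (hr : ∀ η, co η → r.pr η = ∅) (hr' : ∀ η, co η → r'.pr η = ∅) (hle : r' ≤ r) :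
    act σ r' ≤ act σ r := by
  classical
  intro η
  obtain ⟨h1, h2, h3⟩ := hle (σ.symm η)
  refine ⟨h1, Finset.image_subset_image h2, fun R hR i hi hi' => ?_⟩
  obtain ⟨R', hR', rfl⟩ := Finset.mem_image.1 hR
  have hco : ¬ co (σ.symm η) := fun hc => by
    rw [hr _ hc] at hR'; exact absurd hR' (Finset.notMem_empty R')
  have hη : σ.symm η = η := by
    have := h _ hco
    rw [Equiv.apply_symm_apply] at this
    exact this.symm
  intro w hw
  rw [hη] at hco
  have h4 := (mem_bs_act h hl hr' hco).1 hw
  have h5 := h3 R' hR' i hi hi'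
  rw [hη] at h5
  show (fun η => w (σ η)) ∈ R' _ _
  have h6 := h5 h4
  simp only [act]
  rw [hη]
  exact h6

omit [WellFoundedLT I] [OrderTop I] in
theorem below_act {σ : Equiv.Perm I} (h : Fx co σ) (hl : Low co) {r : Rep I} {ξ : I}
    (hξ : ¬ co ξ) (hr : Below r ξ) : Below (act σ r) ξ := by
  classical
  intro η hη
  have hc : ¬ co η := fun hc => absurd (hl ξ η hc hξ) (not_lt.2 hη)
  have h1 : σ.symm η = η := h.symm η hc
  simp only [act, h1]
  rw [(hr η hη).1, (hr η hη).2]
  simp

theorem act_mem (hl : Low co) (ξ : I) (hξ : ¬ co ξ) : ∀ σ : Equiv.Perm I, Fx co σ →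
    ∀ r ∈ Vd (SyC co) ξ, act σ r ∈ Vd (SyC co) ξ := by
  classical
  induction ξ using WellFoundedLT.induction with
  | ind ξ IH =>
    intro σ hσ r hr
    refine ⟨adm_iff.2 fun η R hR => ?_, below_act hσ hl hξ hr.2⟩
    obtain ⟨R', hR', rfl⟩ := Finset.mem_image.1 hR
    have hco : ¬ co (σ.symm η) := fun hc => by
      rw [pr_co hr.1 hc] at hR'; exact absurd hR' (Finset.notMem_empty R')
    have hη : σ.symm η = η := by
      have := hσ _ hco
      rw [Equiv.apply_symm_apply] at this
      exact this.symm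
    rw [hη] at hco hR'
    have hlt : η < ξ := by
      by_contra hc
      rw [(hr.2 η (not_lt.1 hc)).2] at hR'
      exact absurd hR' (Finset.notMem_empty R')
    have h1 := adm_iff.1 hr.1 η R' hR'
    have IH' := IH η hlt hco
    rw [RR_he hco] at h1 ⊢
    obtain ⟨h2, h3, h4⟩ := h1
    refine ⟨fun t m => ?_, fun t m w hw => h3 t m hw, fun t q hq => ?_⟩
    · obtain ⟨c, hc⟩ := h2 t m
      refine ⟨fun i => (c i).map fun q => ⟨act σ q.1, IH' σ hσ q.1 q.2⟩, ?_⟩
      ext w
      show (fun η => w (σ η)) ∈ R' t m ↔ _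
      rw [hc, Set.mem_iUnion, Set.mem_iUnion]
      refine exists_congr fun i => ?_
      rcases h : c i with _ | q
      · simp [h]
      · simp only [h, Option.map_some, Option.elim_some]
        exact (mem_bs_act hσ hl (fun η hη => pr_co q.2.1 hη) hco).symm
    · obtain ⟨q', h5, h6, m, h7⟩ := h4 t _ (IH' σ.symm hσ.symm q hq)
      refine ⟨act σ q', IH' σ hσ q' h5, ?_, m, fun w hw => ?_⟩
      · have := act_le hσ hl (fun η hη => pr_co (IH' σ.symm hσ.symm q hq).1 hη)
          (fun η hη => pr_co h5.1 hη) h6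
        rwa [act_symm] at this
      · exact h7 ((mem_bs_act hσ hl (fun η hη => pr_co h5.1 hη) hco).1 hw)

/-- the condition is fixed by all permutations of Cohen coordinates fixing `D` -/
def Sup (co : I → Prop) (D : Set I) (r : Rep I) : Prop :=
  ∀ σ : Equiv.Perm I, Fx co σ → (∀ η ∈ D, σ η = η) → act σ r = r

theorem exists_Sup (hl : Low co) (ξ : I) (hξ : ¬ co ξ) : ∀ r ∈ Vd (SyC co) ξ,
    ∃ D : Set I, D.Countable ∧ Sup co D r := by
  classical
  induction ξ using WellFoundedLT.induction with
  | ind ξ IH =>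
    intro r hr
    have hR : ∀ η, ∀ R ∈ r.pr η, ∃ D : Set I, D.Countable ∧
        ∀ σ : Equiv.Perm I, Fx co σ → (∀ η ∈ D, σ η = η) → actR σ R = R := by
      intro η R hR
      have hco : ¬ co η := fun hc => by
        rw [pr_co hr.1 hc] at hR; exact absurd hR (Finset.notMem_empty R)
      have hlt : η < ξ := by
        by_contra hc
        rw [(hr.2 η (not_lt.1 hc)).2] at hR
        exact absurd hR (Finset.notMem_empty R)
      have h1 := adm_iff.1 hr.1 η R hR
      rw [RR_he hco] at h1
      choose c hc using h1.1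
      have h2 : ∀ t m i, ∃ D : Set I, D.Countable ∧ ∀ q ∈ c t m i, Sup co D q.1 := by
        intro t m i
        rcases h : c t m i with _ | q
        · exact ⟨∅, Set.countable_empty, fun q hq => by simp at hq⟩
        · obtain ⟨D, h3, h4⟩ := IH η hlt hco q.1 q.2
          refine ⟨D, h3, fun q' hq' => ?_⟩
          simp only [Option.mem_def, Option.some.injEq] at hq'
          rw [← hq']; exact h4
      choose D hD1 hD2 using h2
      refine ⟨⋃ t, ⋃ m, ⋃ i, D t m i, Set.countable_iUnion fun t => Set.countable_iUnion fun m =>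
        Set.countable_iUnion fun i => hD1 t m i, fun σ hσ hfix => ?_⟩
      funext t m
      ext w
      show (fun η => w (σ η)) ∈ R t m ↔ _
      rw [hc, Set.mem_iUnion, Set.mem_iUnion]
      refine exists_congr fun i => ?_
      rcases h : c t m i with _ | q
      · simp
      · have h3 : act σ q.1 = q.1 := hD2 t m i q (by rw [h]; rfl) σ hσ fun η hη => hfix η
          (Set.mem_iUnion.2 ⟨t, Set.mem_iUnion.2 ⟨m, Set.mem_iUnion.2 ⟨i, hη⟩⟩⟩)
        have h4 := mem_bs_act hσ hl (fun η hη => pr_co q.2.1 hη) hco (w := w)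
        rw [h3] at h4
        exact h4.symm
    choose! D hD1 hD2 using hR
    refine ⟨supp r ∪ ⋃ η ∈ supp r, ⋃ R ∈ r.pr η, D η R, ?_, fun σ hσ hfix => ?_⟩
    · refine r.fin.countable.union (r.fin.countable.biUnion fun η _ => ?_)
      exact (r.pr η).countable_toSet.biUnion fun R hR => hD1 η R hR
    · have h1 : ∀ η ∈ supp r, σ.symm η = η := fun η hη => by
        rw [Equiv.symm_apply_eq]; exact (hfix η (Or.inl hη)).symm
      have h2 : ∀ η, η ∉ supp r → σ.symm η ∉ supp r := by
        intro η hη h'
        have h3 := hfix _ (Or.inl h')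
        rw [Equiv.apply_symm_apply] at h3
        rw [← h3] at h'
        exact hη h'
      ext1
      · funext η
        by_cases hη : η ∈ supp r
        · show r.st (σ.symm η) = _
          rw [h1 η hη]
        · show r.st (σ.symm η) = _
          rw [(notMem_supp hη).1, (notMem_supp (h2 η hη)).1]
      · funext η
        by_cases hη : η ∈ supp r
        · show (r.pr (σ.symm η)).image (actR σ) = _
          rw [h1 η hη]
          have h3 : ∀ R ∈ r.pr η, actR σ R = R := fun R hR => hD2 η R hR σ hσ fun ζ hζ =>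
            hfix ζ (Or.inr (Set.mem_biUnion hη (Set.mem_biUnion hR hζ)))
          ext R
          rw [Finset.mem_image]
          constructor
          · rintro ⟨R', hR', rfl⟩
            rw [h3 R' hR']; exact hR'
          · intro hR
            exact ⟨R, hR, h3 R hR⟩
        · show (r.pr (σ.symm η)).image (actR σ) = _
          rw [(notMem_supp hη).2, (notMem_supp (h2 η hη)).2, Finset.image_empty]

end Pool.Agent.W635.CH
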