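import Mathlib
import Pool.Agent.W635.CHDom

/-!
# The principle is consistent
-/

namespace Pool.Agent.W635.CH

open Cardinal Pool.Agent.H652G Pool.Agent.Helper669.Forcing Pool.Agent.W635.CHDefs

/-- the forcing notion, with the sets `A` and `A'` -/
theorem exists_forcing : ∃ (P : Type) (_ : Preorder P) (K : Type) (_ : LinearOrder K)
    (_ : WellFoundedLT K) (A A' : Set K), Nonempty P ∧ Disjoint A A' ∧
      (∃ γ : K, ∀ k ∈ A ∪ A', k < γ) ∧ ∀ p : P, p ∈ ForcedPrinciple P K A A' := by
  have h1 : #(W1 ⊕ W1) = ℵ_ 1 := by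
    rw [mk_sum]; simp only [lift_id]; rw [mk_W1, add_eq_self (aleph0_le_aleph 1)]
  have h2 : #(W1 ⊕ W1) ≤ #W2 := by
    rw [h1, mk_W2]
    exact aleph_le_aleph.2 (by norm_num)
  obtain ⟨e⟩ := h2
  have hun : ¬ Countable W1 := by
    rw [← mk_le_aleph0_iff, mk_W1, not_le, ← aleph_zero]
    exact aleph_lt_aleph.2 (by norm_num)
  have hA : ∀ g : W1 → W1 ⊕ W1, Function.Injective g → ¬ (Set.range fun x => e (g x)).Countable := by
    intro g hg hc
    apply hun
    have h3 : Countable (Set.range fun x => e (g x)) := hc.to_subtype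
    exact Function.Injective.countable (f := fun x => (⟨e (g x), x, rfl⟩ :
      Set.range fun x => e (g x))) fun x y hxy => hg (e.injective (congrArg Subtype.val hxy))
  refine ⟨PK, inferInstance, W2, inferInstance, inferInstance,
    Set.range fun x => e (Sum.inl x), Set.range fun x => e (Sum.inr x), inferInstance, ?_, ?_,
    fun p => forced (hA _ Sum.inl_injective) (hA _ Sum.inr_injective) p⟩
  · rw [Set.disjoint_left]
    rintro _ ⟨x, rfl⟩ ⟨y, hy⟩
    exact absurd (e.injective hy) (by simp)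
  · refine cof_W2 _ ?_
    refine (mk_le_mk_of_subset (t := Set.range e) ?_).trans (mk_range_le.trans h1.le)
    rintro _ (⟨x, rfl⟩ | ⟨x, rfl⟩)
    · exact ⟨_, rfl⟩
    · exact ⟨_, rfl⟩

end Pool.Agent.W635.CH
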