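import Mathlib
import Pool.Agent.W635.CHDefs
import Pool.Agent.H752R3.SierpMichael

/-!
# Consequences of the principle
-/

namespace Pool.Agent.W635.CHZfc

open Set Filter Cardinal Pool.Agent.W635.CHDefs Pool.Agent.H752R3

/-- The bounding number. -/
noncomputable def bNumber : Cardinal.{0} :=
  sInf {κ | ∃ B : Set (ℕ → ℕ), (∀ g : ℕ → ℕ, ∃ f ∈ B, ¬ ∀ᶠ n in atTop, f n ≤ g n) ∧ #B = κ}

/-- The dominating number. -/
noncomputable def dNumber : Cardinal.{0} :=
  sInf {κ | ∃ D : Set (ℕ → ℕ), (∀ g : ℕ → ℕ, ∃ f ∈ D, ∀ᶠ n in atTop, g n ≤ f n) ∧ #D = κ}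

theorem bNumber_le_dNumber : bNumber ≤ dNumber := by
  refine le_csInf ⟨_, Set.univ, fun g => ⟨g, trivial, Eventually.of_forall fun _ => le_rfl⟩, rfl⟩ ?_
  rintro _ ⟨D, hD, rfl⟩
  refine csInf_le' ⟨D, fun g => ?_, rfl⟩
  obtain ⟨f, hf, h⟩ := hD (fun n => g n + 1)
  refine ⟨f, hf, fun h' => ?_⟩
  obtain ⟨n, h1, h2⟩ := (h.and h').exists
  omega

theorem inO_nil (x : ℕ → Bool) : InO x {[]} := ⟨[], rfl, fun i hi => absurd hi (by simp)⟩

section

variable {K : Type} [LinearOrder K] [WellFoundedLT K] {A A' : Set K} {w : K → ℕ → Bool}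
  {f : K → ℕ → ℕ}

theorem dominates (h : Principle K A A' w f) (g : ℕ → ℕ) :
    ∃ β, ∀ k, β ≤ k → ∀ᶠ n in atTop, g n ≤ f k n := by
  classical
  obtain ⟨β, hβ⟩ := h.dominating fun n m => if g n ≤ m then {[]} else ∅
  refine ⟨β, fun k hk => ?_⟩
  obtain ⟨N, hN⟩ := hβ k hk β fun n => ⟨g n, by rw [if_pos le_rfl]; exact inO_nil _⟩
  filter_upwards [eventually_ge_atTop N] with n hn
  obtain ⟨m, hm, hm'⟩ := hN n hn
  by_cases h1 : g n ≤ m
  · exact h1.trans hm
  · rw [if_neg h1] at hm'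
    obtain ⟨s, hs, _⟩ := hm'
    exact absurd hs (Set.notMem_empty s)

theorem bounded (h : Principle K A A' w f) (γ : K) (g : K → ℕ → ℕ) :
    ∃ b : ℕ → ℕ, ∀ k < γ, ∀ᶠ n in atTop, g k n ≤ b n := by
  choose β hβ using fun k => dominates h (g k)
  obtain ⟨b, hb⟩ := h.regular γ β
  exact ⟨f b, fun k hk => hβ k b (hb k hk)⟩

theorem no_max (h : Principle K A A' w f) (b : K) : ∃ k, b < k := by
  by_contra hcon
  push Not at hcon
  obtain ⟨β, hβ⟩ := dominates h (fun n => f b n + 1)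
  obtain ⟨n, hn⟩ := (hβ b (hcon β)).exists
  omega

theorem mk_Iio_lt (h : Principle K A A' w f) (γ : K) : #(Iio γ) < #K := by
  by_contra hcon
  rw [not_lt] at hcon
  obtain ⟨e⟩ := hcon
  classical
  let g : K → K := fun k => if hk : ∃ x, (e x : K) = k then hk.choose else k
  have hg : ∀ x, g (e x) = x := by
    intro x
    have hx : ∃ y, (e y : K) = e x := ⟨x, rfl⟩
    have : g (e x) = hx.choose := dif_pos hx
    rw [this]
    exact e.injective (Subtype.ext hx.choose_spec)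
  obtain ⟨β, hβ⟩ := h.regular γ g
  obtain ⟨k, hk⟩ := no_max h β
  have h1 := hβ (e k) (e k).2
  rw [hg] at h1
  exact absurd h1 (not_le.2 hk)

theorem exists_Iio (c : Cardinal.{0}) (hc : c < #K) : ∃ γ : K, #(Iio γ) = c := by
  have h1 : c.ord < Ordinal.type (α := K) (· < ·) := by
    by_contra hcon
    rw [not_lt] at hcon
    have h2 := Ordinal.card_le_card hcon
    rw [Ordinal.card_type, card_ord] at h2
    exact absurd h2 (not_le.2 hc)
  obtain ⟨γ, hγ⟩ := Ordinal.typein_surj (α := K) (· < ·) h1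
  refine ⟨γ, ?_⟩
  have h2 : (Ordinal.typein (α := K) (· < ·) γ).card = #{x : K // x < γ} := Ordinal.card_typein γ
  rw [hγ, card_ord] at h2
  exact h2.symm

theorem bounded' (h : Principle K A A' w f) {Y : Type} (hY : #Y < #K) (g : Y → ℕ → ℕ) :
    ∃ b : ℕ → ℕ, ∀ y, ∀ᶠ n in atTop, g y n ≤ b n := by
  classical
  obtain ⟨γ, hγ⟩ := exists_Iio _ hY
  obtain ⟨e⟩ : Nonempty (Y ≃ Iio γ) := Cardinal.eq.1 hγ.symm
  obtain ⟨b, hb⟩ := bounded h γ (fun k => if hk : k < γ then g (e.symm ⟨k, hk⟩) else fun _ => 0)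
  refine ⟨b, fun y => ?_⟩
  have h1 := hb (e y) (e y).2
  rw [dif_pos (show (e y : K) < γ from (e y).2)] at h1
  simpa using h1

theorem mk_le_bNumber (h : Principle K A A' w f) : #K ≤ bNumber := by
  refine le_csInf ?_ ?_
  · refine ⟨_, Set.univ, fun g => ⟨fun n => g n + 1, trivial, fun h => ?_⟩, rfl⟩
    obtain ⟨n, hn⟩ := h.exists
    exact absurd hn (by simp)
  · rintro _ ⟨B, hB, rfl⟩
    by_contra hcon
    rw [not_le] at hcon
    obtain ⟨b, hb⟩ := bounded' h hcon (fun y : B => y.1)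
    obtain ⟨g, hg, hg'⟩ := hB b
    exact hg' (hb ⟨g, hg⟩)

theorem dNumber_le_mk (h : Principle K A A' w f) : dNumber ≤ #K := by
  refine le_trans (csInf_le' ⟨Set.range f, fun g => ?_, rfl⟩) mk_range_le
  obtain ⟨β, hβ⟩ := dominates h g
  exact ⟨f β, ⟨β, rfl⟩, hβ β le_rfl⟩

/-- the cardinals `𝔟` and `𝔡` are equal to the size of `K` -/
theorem numbers (h : Principle K A A' w f) : bNumber = #K ∧ dNumber = #K :=
  ⟨le_antisymm (bNumber_le_dNumber.trans (dNumber_le_mk h)) (mk_le_bNumber h),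
    le_antisymm (dNumber_le_mk h) ((mk_le_bNumber h).trans bNumber_le_dNumber)⟩

end

/-- small Lindelöf spaces are Hurewicz -/
theorem hurewicz_of_small {Y : Type} [TopologicalSpace Y]
    (hb : ∀ g : Y → ℕ → ℕ, ∃ b : ℕ → ℕ, ∀ y, ∀ᶠ n in atTop, g y n ≤ b n)
    (hL : ∀ U : Set (Set Y), (∀ u ∈ U, IsOpen u) → ⋃₀ U = Set.univ →
      ∃ V ⊆ U, V.Countable ∧ ⋃₀ V = Set.univ) : HurewiczSp Y := by
  classical
  intro U hU
  rcases isEmpty_or_nonempty Y with he | hne
  · exact ⟨fun _ => ∅, fun n => ⟨empty_subset _, finite_empty⟩, fun z => he.elim z⟩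
  have h1 : ∀ n, ∃ u : ℕ → Set Y, (∀ i, u i ∈ U n) ∧ ∀ y, ∃ i, y ∈ u i := by
    intro n
    obtain ⟨V, hV1, hV2, hV3⟩ := hL (U n) (hU n).1 (hU n).2
    have hVne : V.Nonempty := by
      by_contra hc
      rw [not_nonempty_iff_eq_empty] at hc
      rw [hc, sUnion_empty] at hV3
      exact empty_ne_univ hV3
    obtain ⟨u, hu⟩ := hV2.exists_eq_range hVne
    refine ⟨u, fun i => hV1 (hu ▸ mem_range_self i), fun y => ?_⟩
    have hy : y ∈ ⋃₀ V := by rw [hV3]; trivial
    obtain ⟨v, hv, hyv⟩ := hy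
    rw [hu] at hv
    obtain ⟨i, rfl⟩ := hv
    exact ⟨i, hyv⟩
  choose u hu1 hu2 using h1
  choose g hg using fun (y : Y) (n : ℕ) => hu2 n y
  obtain ⟨b, hb⟩ := hb g
  refine ⟨fun n => u n '' {i | i ≤ b n}, fun n => ⟨?_, (finite_le_nat _).image _⟩, fun y => ?_⟩
  · rintro _ ⟨i, _, rfl⟩
    exact hu1 n i
  · filter_upwards [hb y] with n hn
    exact ⟨u n (g y n), ⟨g y n, hn, rfl⟩, hg y n⟩

/-- The space `Mich Z X` is Lindelöf when every open set containing `Z` contains all but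
countably many points of `X`. -/
theorem lindelof_mich {Z X : Set ℝ} (hZX : Disjoint Z X)
    (hZ : ∀ G : Set ℝ, IsOpen G → Z ⊆ G → (X \ G).Countable)
    (U : Set (Set (Mich Z X))) (hU : ∀ u ∈ U, IsOpen u) (hc : ⋃₀ U = Set.univ) :
    ∃ V ⊆ U, V.Countable ∧ ⋃₀ V = Set.univ := by
  classical
  -- the Euclidean open sets refining the cover
  let 𝒢 : Set (Set ℝ) := {G | IsOpen G ∧ ∃ u ∈ U, ∀ y : Mich Z X, y.1 ∈ G → y ∈ u}
  obtain ⟨T, hT1, hT2, hT3⟩ := TopologicalSpace.isOpen_sUnion_countable 𝒢 (fun G hG => hG.1)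
  have hmem : ∀ y : Mich Z X, ∃ u ∈ U, y ∈ u := fun y => by
    have : y ∈ ⋃₀ U := by rw [hc]; trivial
    obtain ⟨u, hu, hy⟩ := this
    exact ⟨u, hu, hy⟩
  choose c hc1 hc2 using hmem
  have hex : ∀ G : Set ℝ, ∃ u : Set (Mich Z X), G ∈ 𝒢 → u ∈ U ∧ ∀ y : Mich Z X, y.1 ∈ G → y ∈ u := by
    intro G
    by_cases hG : G ∈ 𝒢
    · obtain ⟨u, h1, h2⟩ := hG.2
      exact ⟨u, fun _ => ⟨h1, h2⟩⟩
    · exact ⟨∅, fun h => absurd h hG⟩
  choose d hd using hex
  have hZG : Z ⊆ ⋃₀ 𝒢 := by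
    intro z hz
    obtain h | ⟨G, h1, h2, h3⟩ := Mich.isOpen_iff.1 (hU _ (hc1 ⟨z, Or.inl hz⟩)) _ (hc2 ⟨z, Or.inl hz⟩)
    · exact absurd h (disjoint_left.1 hZX hz)
    · exact ⟨G, ⟨h1, _, hc1 ⟨z, Or.inl hz⟩, h3⟩, h2⟩
  have hE : {y : Mich Z X | y.1 ∉ ⋃₀ 𝒢}.Countable := by
    have h1 := hZ (⋃₀ 𝒢) (isOpen_sUnion fun G hG => hG.1) hZG
    refine (h1.preimage (f := fun y : Mich Z X => y.1) Subtype.val_injective).mono ?_
    intro y hy
    rcases y.2 with h | h
    · exact absurd (hZG h) hy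
    · exact ⟨h, hy⟩
  refine ⟨d '' T ∪ c '' {y : Mich Z X | y.1 ∉ ⋃₀ 𝒢}, ?_, (hT1.image _).union (hE.image _), ?_⟩
  · rintro _ (⟨G, hG, rfl⟩ | ⟨y, _, rfl⟩)
    · exact (hd G (hT2 hG)).1
    · exact hc1 y
  · rw [eq_univ_iff_forall]
    intro y
    by_cases hy : y.1 ∈ ⋃₀ 𝒢
    · rw [← hT3] at hy
      obtain ⟨G, hG, hyG⟩ := hy
      exact ⟨d G, Or.inl ⟨G, hG, rfl⟩, (hd G (hT2 hG)).2 y hyG⟩
    · exact ⟨c y, Or.inr ⟨y, hy, rfl⟩, hc2 y⟩

/-- The product of `X` with `Mich Z X` is not Lindelöf when `X` is uncountable and disjoint from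
`Z`. -/
theorem not_menger_prod {Z X : Set ℝ} (hZX : Disjoint Z X) (hX : ¬ X.Countable) :
    ¬ MengerSp (X × Mich Z X) := by
  classical
  intro h
  let pt : X → Mich Z X := fun x => ⟨x.1, Or.inr x.2⟩
  let O : X → Set (X × Mich Z X) := fun x => {p | p.2 = pt x}
  have hO : ∀ x, IsOpen (O x) := fun x =>
    (Mich.isOpen_singleton (y := pt x) x.2).preimage continuous_snd
  let C : Set (X × Mich Z X) := {p | p.2.1 ≠ p.1.1}
  have hC : IsOpen C := by
    have : IsClosed {p : X × Mich Z X | p.2.1 = p.1.1} :=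
      isClosed_eq ((Mich.continuous_val Z X).comp continuous_snd)
        (continuous_subtype_val.comp continuous_fst)
    exact this.isOpen_compl
  obtain ⟨𝒱, h1, h2, h3⟩ := h.lindelof (𝒰 := insert C (range O)) (by
    rintro u (rfl | ⟨x, rfl⟩)
    · exact hC
    · exact hO x) (by
    rw [eq_univ_iff_forall]
    intro p
    by_cases hp : p.2.1 = p.1.1
    · exact ⟨O p.1, Or.inr ⟨p.1, rfl⟩, Subtype.ext hp⟩
    · exact ⟨C, Or.inl rfl, hp⟩)
  apply hX
  -- every point of `X` is picked by some member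
  have hsub : ∀ x : X, O x ∈ 𝒱 := by
    intro x
    have : (x, pt x) ∈ ⋃₀ 𝒱 := by rw [h3]; trivial
    obtain ⟨u, hu, hxu⟩ := this
    rcases h1 hu with rfl | ⟨x', rfl⟩
    · exact absurd rfl hxu
    · have h4 : pt x = pt x' := hxu
      have h5 : x = x' := Subtype.ext (congrArg (fun y : Mich Z X => y.1) h4)
      rw [h5]; exact hu
  have hinj : Function.Injective O := by
    intro x x' hxx
    have h4 : (x, pt x) ∈ O x' := by rw [← hxx]; rfl
    have h5 : pt x = pt x' := h4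
    exact Subtype.ext (congrArg (fun y : Mich Z X => y.1) h5)
  have h6 : (range O).Countable := h2.mono (by rintro _ ⟨x, rfl⟩; exact hsub x)
  have h7 : (Set.univ : Set X).Countable := by
    rw [← image_univ] at h6
    exact Set.countable_of_injective_of_countable_image hinj.injOn h6
  rw [← Set.countable_coe_iff]
  exact Set.countable_univ_iff.1 h7

/-- the embedding of the Cantor space into the real line -/
noncomputable def emb (x : ℕ → Bool) : ℝ := ((cantorSetHomeomorphNatToBool.symm x : cantorSet) : ℝ)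

theorem continuous_emb : Continuous emb :=
  continuous_subtype_val.comp cantorSetHomeomorphNatToBool.symm.continuous

theorem emb_injective : Function.Injective emb :=
  Subtype.val_injective.comp cantorSetHomeomorphNatToBool.symm.injective

/-- a neighbourhood of a point of the Cantor space is determined by an initial segment -/
theorem exists_init {O : Set (ℕ → Bool)} (hO : IsOpen O) {x : ℕ → Bool} (hx : x ∈ O) :
    ∃ s : List Bool, (∀ i < s.length, x i = s.getD i false) ∧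
      ∀ y : ℕ → Bool, (∀ i < s.length, y i = s.getD i false) → y ∈ O := by
  rw [isOpen_pi_iff] at hO
  obtain ⟨I, u, hu, hsub⟩ := hO x hx
  set N := I.sup id + 1 with hN
  have hlen : ((List.range N).map x).length = N := by simp
  have hget : ∀ i < N, ((List.range N).map x).getD i false = x i := by
    intro i hi
    rw [List.getD_eq_getElem _ _ (by simpa using hi)]
    simp
  refine ⟨(List.range N).map x, fun i hi => ?_, fun y hy => hsub fun i hi => ?_⟩
  · rw [hlen] at hi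
    exact (hget i hi).symm
  · have h1 : i < N := Nat.lt_succ_of_le (Finset.le_sup (f := id) hi)
    have h2 := hy i (by rw [hlen]; exact h1)
    rw [hget i h1] at h2
    rw [h2]
    exact (hu i hi).2

section

variable {K : Type} [LinearOrder K] [WellFoundedLT K] {A A' : Set K} {w : K → ℕ → Bool}
  {f : K → ℕ → ℕ}

/-- Under the principle there are a set of reals of size less than `𝔟` and a Hurewicz space whose
product is not Menger. -/
theorem exists_bad (h : Principle K A A' w f) (hAA : Disjoint A A')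
    (hγ : ∃ γ : K, ∀ k ∈ A ∪ A', k < γ) :
    ∃ X Z : Set ℝ, #X < #K ∧ HurewiczSp (Mich Z X) ∧ ¬ MengerSp (X × Mich Z X) := by
  classical
  obtain ⟨γ, hγ⟩ := hγ
  let e : K → ℝ := fun k => emb (w k)
  have he : Function.Injective e := by
    intro k k' hkk
    by_contra hne
    obtain ⟨n, hn⟩ := h.distinct k k' hne
    exact hn (congrFun (emb_injective hkk) n)
  have hZX : Disjoint (e '' A') (e '' A) := by
    rw [disjoint_image_iff he]
    exact hAA.symm
  have hsize : ∀ B : Set K, (∀ k ∈ B, k < γ) → #(e '' B) < #K := fun B hB =>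
    (mk_image_le.trans (mk_le_mk_of_subset hB)).trans_lt (mk_Iio_lt h γ)
  have hZ : ∀ G : Set ℝ, IsOpen G → e '' A' ⊆ G → ((e '' A) \ G).Countable := by
    intro G hG hZG
    let O : Set (List Bool) := {s | ∀ y : ℕ → Bool, (∀ i < s.length, y i = s.getD i false) →
      emb y ∈ G}
    have h1 : ∀ k, e k ∈ G → InO (w k) O := by
      intro k hk
      obtain ⟨s, h2, h3⟩ := exists_init (hG.preimage continuous_emb) (x := w k) hk
      exact ⟨s, h3, h2⟩
    have h2 : ∀ k, InO (w k) O → e k ∈ G := by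
      rintro k ⟨s, hs, hs'⟩
      exact hs (w k) hs'
    refine ((h.concentrated' O fun k hk => h1 k (hZG ⟨k, hk, rfl⟩)).image e).mono ?_
    rintro _ ⟨⟨k, _, rfl⟩, hkG⟩
    exact ⟨k, fun hk => hkG (h2 k hk), rfl⟩
  refine ⟨e '' A, e '' A', hsize A fun k hk => hγ k (Or.inl hk), ?_, not_menger_prod hZX ?_⟩
  · refine hurewicz_of_small (fun g => bounded' h ?_ g) fun U hU hc => lindelof_mich hZX hZ U hU hc
    have h1 : #(Mich (e '' A') (e '' A)) = #(e '' (A' ∪ A) : Set ℝ) := by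
      rw [image_union]; rfl
    rw [h1]
    exact hsize _ fun k hk => hγ k (hk.symm)
  · intro hc
    exact h.uncountable (Set.countable_of_injective_of_countable_image he.injOn hc)

end

end Pool.Agent.W635.CHZfc
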