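import Mathlib
import Pool.Agent.Helper669.Forcing

/-!
# A guessing principle for ladder systems together with `𝔟 > ω₁`

The principle is stated twice: as a statement about actual objects (`Principle`), and as a
sentence of the forcing language of a preordered set `P` (`ForcedPrinciple`), see
`Pool.Agent.Helper669.Forcing` for the forcing language.
-/

namespace Pool.Agent.W635.DowDefs

open Pool.Agent.Helper669.Forcing

/-! ### The principle -/

/-- `W` is an uncountable linearly ordered set with countable proper initial segments (used for
well-ordered `W`). For every `α ∈ S`, the `L α i` (`i ∈ ℕ`) form a strictly increasing sequence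
cofinal below `α`, with colours `c α i`. For all unbounded sets `A k` (`k ∈ ℕ`) there is `α ∈ S`
such that for all `k` and `n` there are infinitely many `i` with colour `c α i = n` and
`L α i ∈ A k`. Every family of functions from `ℕ` to `ℕ` indexed by `W` is bounded with respect to
eventual domination. -/
structure Principle (W : Type) [LinearOrder W] (S : Set W) (L : W → ℕ → W) (c : W → ℕ → ℕ) :
    Prop where
  segments : ∀ a : W, {b | b < a}.Countable
  uncountable : ¬ (Set.univ : Set W).Countable
  below : ∀ α ∈ S, ∀ i, L α i < α
  increasing : ∀ α ∈ S, ∀ i, L α i < L α (i + 1)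
  cofinal : ∀ α ∈ S, ∀ β < α, ∃ i, β < L α i
  guessing : ∀ A : ℕ → Set W, (∀ k β, ∃ a, β ≤ a ∧ a ∈ A k) →
    ∃ α ∈ S, ∀ k n N : ℕ, ∃ i, N ≤ i ∧ c α i = n ∧ L α i ∈ A k
  bounded : ∀ F : W → ℕ → ℕ, ∃ g : ℕ → ℕ, ∀ a, ∃ N, ∀ n, N ≤ n → F a n ≤ g n

/-! ### The sentence of the forcing language -/

section

variable {P : Type} [Preorder P]

/-- The set of all `a ∈ W` with `φ a` is contained in the range of a function on `ℕ`. -/
def IsCountable {W : Type} (φ : W → Set P) : Set P :=
  fex fun e : ℕ → W → Set P =>
    fand (IsFun e) (fall fun a => fimp (φ a) (fex fun n => meets (e n a)))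

/-- The sequences named by the `L α` are below `α`, strictly increasing and cofinal in `α`, for
`α ∈ S`. -/
def Ladders {W : Type} [LinearOrder W] (S : Set W) (L : W → ℕ → W → Set P) : Set P :=
  fall fun α : W => fall fun _ : α ∈ S =>
    fand (fall fun i : ℕ => fall fun b => fimp (meets (L α i b)) (fground (b < α)))
      (fand (fall fun i : ℕ => fall fun b => fall fun b' =>
          fimp (fand (meets (L α i b)) (meets (L α (i + 1) b'))) (fground (b < b')))
        (fall fun β : W => fall fun _ : β < α => fex fun i : ℕ => fex fun b =>
          fand (fground (β < b)) (meets (L α i b))))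

/-- Whenever `A` names a sequence of unbounded sets `A k`, there is `α ∈ S` such that for all `k`
and `n` there are infinitely many `i` with `c α i = n` and `L α i ∈ A k`. -/
def Guessing {W : Type} [LinearOrder W] (S : Set W) (L : W → ℕ → W → Set P)
    (c : W → ℕ → ℕ → Set P) : Set P :=
  fall fun A : ℕ → W → Set P =>
    fimp (fall fun k => fall fun β => fex fun a => fand (fground (β ≤ a)) (meets (A k a)))
      (fex fun α => fand (fground (α ∈ S))
        (fall fun k => fall fun n : ℕ => fall fun N : ℕ => fex fun i : ℕ => fex fun b =>
          fand (fground (N ≤ i))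
            (fand (meets (c α i n)) (fand (meets (L α i b)) (meets (A k b))))))

/-- Every family of functions from `ℕ` to `ℕ` indexed by `W` is bounded with respect to eventual
domination. -/
def Bounded (P : Type) [Preorder P] (W : Type) : Set P :=
  fall fun F : W → ℕ → ℕ → Set P => fimp (fall fun a => IsFun (F a))
    (fex fun g : ℕ → ℕ → Set P => fand (IsFun g)
      (fall fun a => fex fun N : ℕ => fall fun n : ℕ => fall fun _ : N ≤ n =>
        fex fun v : ℕ => fex fun u : ℕ =>
          fand (fground (v ≤ u)) (fand (meets (F a n v)) (meets (g n u)))))

/-- The principle, as a sentence of the forcing language: there are `L` and `c` as in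
`Principle`. -/
def ForcedPrinciple (P : Type) [Preorder P] (W : Type) [LinearOrder W] (S : Set W) : Set P :=
  fex fun L : W → ℕ → W → Set P => fex fun c : W → ℕ → ℕ → Set P =>
    fand (fall fun α => fand (IsFun (L α)) (IsFun (c α)))
      (fand (fall fun a : W => IsCountable fun b : W => fground (b < a))
        (fand (fnot (IsCountable fun _ : W => fground True))
          (fand (Ladders S L) (fand (Guessing S L c) (Bounded P W)))))

end

end Pool.Agent.W635.DowDefs
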