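import Mathlib
import Pool.Agent.W635.CHDom
import Pool.Agent.W635.DowDefs

/-!
# The guessing principle in the extension
-/

namespace Pool.Agent.W635.Dow

open Cardinal Pool.Agent.H652G Pool.Agent.Helper669.Forcing Pool.Agent.W635.DowDefs
open Pool.Agent.W635.CH

set_option linter.unusedSectionVars false
set_option linter.unusedVariables false

/-! ### The set `W1` -/

theorem countable_Iio (a : W1) : (Set.Iio a).Countable := by
  have h := mk_Iio_ord_toType a
  rw [← le_aleph0_iff_set_countable]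
  have h2 : (ℵ_ (1 : Ordinal.{0})) = Order.succ ℵ₀ := by
    rw [← aleph_zero, ← aleph_succ, Order.succ_eq_add_one, zero_add]
  exact Order.lt_succ_iff.1 (h.trans_eq h2)

theorem bdd_W1 (T : Set W1) (hT : T.Countable) : ∃ b, ∀ s ∈ T, s < b := by
  by_contra hcon
  push Not at hcon
  have h1 : IsCofinal T := fun b => by
    obtain ⟨s, hs, hb⟩ := hcon b
    exact ⟨s, hs, hb⟩
  have h2 := Order.cof_le h1
  have h3 : (ℵ_ (1 : Ordinal.{0})).IsRegular := isRegular_aleph_one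
  have h4 : Order.cof W1 = ℵ_ 1 := by
    rw [Ordinal.cof_toType]
    exact h3.cof_ord
  rw [h4] at h2
  have h5 : ℵ₀ < (ℵ_ (1 : Ordinal.{0})) := by
    rw [← aleph_zero]
    exact aleph_lt_aleph.2 (by norm_num)
  exact absurd (h2.trans (le_aleph0_iff_set_countable.2 hT)) (not_le.2 h5)

/-- the points which are limits of strictly increasing sequences -/
def S1 : Set W1 := {α | ∃ l : ℕ → W1, StrictMono l ∧ (∀ i, l i < α) ∧ ∀ β < α, ∃ i, β < l i}

theorem exists_closed (g : W1 → W1) : ∃ α ∈ S1, ∀ δ < α, g δ < α := by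
  classical
  have hstep : ∀ x : W1, ∃ y, x < y ∧ ∀ δ ≤ x, g δ < y := by
    intro x
    have hc : (Set.Iic x).Countable := by
      rw [← Set.Iio_insert]
      exact (countable_Iio x).insert x
    obtain ⟨b, hb⟩ := bdd_W1 (insert x (g '' Set.Iic x)) ((hc.image g).insert x)
    exact ⟨b, hb x (Set.mem_insert _ _),
      fun δ hδ => hb _ (Set.mem_insert_of_mem _ ⟨δ, hδ, rfl⟩)⟩
  choose s hs1 hs2 using hstep
  obtain ⟨x0⟩ : Nonempty W1 := inferInstance
  let d : ℕ → W1 := fun n => Nat.rec x0 (fun _ x => s x) n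
  have hd : StrictMono d := strictMono_nat_of_lt_succ fun n => hs1 (d n)
  obtain ⟨b, hb⟩ := bdd_W1 (Set.range d) (Set.countable_range d)
  obtain ⟨α, hα, hmin⟩ := (wellFounded_lt (α := W1)).has_min {b | ∀ n, d n < b}
    ⟨b, fun n => hb _ ⟨n, rfl⟩⟩
  have hcof : ∀ β < α, ∃ i, β < d i := by
    intro β hβ
    by_contra hcon
    push Not at hcon
    refine hmin β (fun n => (hd (Nat.lt_succ_self n)).trans_le (hcon (n + 1))) hβ
  refine ⟨α, ⟨d, hd, hα, hcof⟩, fun δ hδ => ?_⟩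
  obtain ⟨i, hi⟩ := hcof δ hδ
  exact (hs2 (d i) δ hi.le).trans (hα (i + 1))

open Classical in
/-- a ladder in the ground model -/
noncomputable def lam (α : W1) : ℕ → W1 := if h : α ∈ S1 then h.choose else fun _ => α

theorem lam_spec {α : W1} (h : α ∈ S1) :
    StrictMono (lam α) ∧ (∀ i, lam α i < α) ∧ ∀ β < α, ∃ i, β < lam α i := by
  unfold lam
  rw [dif_pos h]
  exact h.choose_spec

theorem exists_dec (α : W1) (i : ℕ) : ∃ d : ℕ → W1 × ℕ, α ∈ S1 →
    Set.range d = {x | lam α i < x.1 ∧ x.1 ≤ lam α (i + 1)} := by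
  by_cases h : α ∈ S1
  · have hc : {x : W1 × ℕ | lam α i < x.1 ∧ x.1 ≤ lam α (i + 1)}.Countable := by
      refine (((countable_Iio α).prod (Set.countable_univ (α := ℕ)))).mono ?_
      rintro ⟨a, n⟩ ⟨_, h1⟩
      exact ⟨lt_of_le_of_lt h1 ((lam_spec h).2.1 _), Set.mem_univ _⟩
    obtain ⟨d, hd⟩ := hc.exists_eq_range ⟨(lam α (i + 1), 0), (lam_spec h).1 (Nat.lt_succ_self i),
      le_rfl⟩
    exact ⟨d, fun _ => hd.symm⟩
  · exact ⟨fun _ => (α, 0), fun h' => absurd h' h⟩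

/-- decoding -/
noncomputable def dec (α : W1) (i : ℕ) : ℕ → W1 × ℕ := (exists_dec α i).choose

theorem dec_spec {α : W1} (h : α ∈ S1) (i : ℕ) :
    Set.range (dec α i) = {x | lam α i < x.1 ∧ x.1 ≤ lam α (i + 1)} :=
  (exists_dec α i).choose_spec h

theorem exists_eW : Nonempty (W1 ↪ W2) := by
  have : #W1 ≤ #W2 := by
    rw [mk_W1, mk_W2]
    exact aleph_le_aleph.2 (by norm_num)
  exact this

/-- the Cohen coordinate belonging to `α` -/
noncomputable def eW : W1 ↪ W2 := Classical.choice exists_eW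

/-! ### Stems -/

/-- the stems agree on the common part of the supports -/
def SC (p q : PK) : Prop := ∀ η ∈ supp p.1, η ∈ supp q.1 → p.1.st η = q.1.st η

theorem SC.symm {p q : PK} (h : SC p q) : SC q p := fun η h1 h2 => (h η h2 h1).symm

theorem SC.compat {p q : PK} (h : SC p q) : Compat p q := by
  obtain ⟨r, hr, h1, h2⟩ := compat_of_stems p.2 q.2 (fun η (h : False) => h.elim)
    (fun η (h : False) => h.elim) h
  exact ⟨⟨r, hr⟩, h1, h2⟩

theorem exists_stems (T : Set PK) : ∃ T' ⊆ T, T'.Countable ∧ ∀ p ∈ T, ∃ q ∈ T', SC p q := by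
  obtain ⟨A, hA⟩ := zorn_subset {A : Set PK | A ⊆ T ∧ ∀ a ∈ A, ∀ b ∈ A, SC a b → a = b}
    (by
      intro c hc hchain
      refine ⟨⋃₀ c, ⟨Set.sUnion_subset fun s hs => (hc hs).1, ?_⟩,
        fun s hs => Set.subset_sUnion_of_mem hs⟩
      rintro a ⟨s, hs, ha⟩ b ⟨t, ht, hb⟩ hab
      rcases hchain.total hs ht with h | h
      · exact (hc ht).2 a (h ha) b hb hab
      · exact (hc hs).2 a ha b (h hb) hab)
  refine ⟨A, hA.prop.1, ?_, fun p hp => ?_⟩
  · by_contra hcount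
    have hcount' : ¬ Countable A := hcount
    obtain ⟨y, y', hne, h⟩ := exists_agree (fun y : A => supp y.1.1) (fun y => y.1.1.fin)
      (fun y η => Encodable.encode (y.1.1.st η)) hcount'
    exact hne (Subtype.ext (hA.prop.2 y.1 y.2 y'.1 y'.2
      fun η h1 h2 => Encodable.encode_injective (h η h1 h2)))
  · by_contra hcon
    push Not at hcon
    have hmem : insert p A ∈ {A : Set PK | A ⊆ T ∧ ∀ a ∈ A, ∀ b ∈ A, SC a b → a = b} := by
      refine ⟨Set.insert_subset hp hA.prop.1, ?_⟩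
      rintro a (rfl | ha) b (rfl | hb) hab
      · rfl
      · exact absurd hab (hcon b hb)
      · exact absurd hab.symm (hcon a ha)
      · exact hA.prop.2 a ha b hb hab
    exact hcon p (hA.le_of_ge hmem (Set.subset_insert p A) (Set.mem_insert p A))
      fun η _ _ => rfl

theorem ext_one (a : W2) (r : PK) (m : ℕ) : ∃ r' : PK, r' ≤ r ∧
    r'.1.st (cn a) = r.1.st (cn a) ++ [m] ∧
    ∀ η, η ≠ cn a → r'.1.st η = r.1.st η ∧ r'.1.pr η = r.1.pr η := by
  refine ⟨⟨push r.1 (cn a) m, push_mem r.2 (WithTop.coe_lt_top _) m⟩, ?_, push_st_self _ _ _,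
    fun η hη => ⟨push_st_ne _ _ hη, rfl⟩⟩
  exact push_le fun R hR => by
    rw [pr_co r.2.1 (cc_cn a)] at hR
    exact absurd hR (Finset.notMem_empty R)

theorem ext_long (a : W2) (r : PK) (M : ℕ) (hM : (r.1.st (cn a)).length ≤ M) :
    ∃ r' : PK, r' ≤ r ∧ (r'.1.st (cn a)).length = M ∧
    ∀ η, η ≠ cn a → r'.1.st η = r.1.st η ∧ r'.1.pr η = r.1.pr η := by
  induction M, hM using Nat.le_induction with
  | base => exact ⟨r, le_rfl, rfl, fun _ _ => ⟨rfl, rfl⟩⟩
  | succ M _ ih =>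
    obtain ⟨r', h1, h2, h3⟩ := ih
    obtain ⟨r'', h4, h5, h6⟩ := ext_one a r' 0
    exact ⟨r'', h4.trans h1, by rw [h5]; simp [h2],
      fun η hη => ⟨(h6 η hη).1.trans (h3 η hη).1, (h6 η hη).2.trans (h3 η hη).2⟩⟩

theorem ext_val (a : W2) (r : PK) (M v : ℕ) (hM : (r.1.st (cn a)).length ≤ M) :
    ∃ r' : PK, r' ≤ r ∧ M < (r'.1.st (cn a)).length ∧ (r'.1.st (cn a)).getD M 0 = v ∧
    ∀ η, η ≠ cn a → r'.1.st η = r.1.st η ∧ r'.1.pr η = r.1.pr η := by
  obtain ⟨r', h1, h2, h3⟩ := ext_long a r M hM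
  obtain ⟨r'', h4, h5, h6⟩ := ext_one a r' v
  refine ⟨r'', h4.trans h1, by rw [h5]; simp [h2], ?_,
    fun η hη => ⟨(h6 η hη).1.trans (h3 η hη).1, (h6 η hη).2.trans (h3 η hη).2⟩⟩
  rw [h5, List.getD_eq_getElem _ _ (by simp [h2])]
  simp [h2]

/-! ### The names -/

/-- the name of the function with value `g i v` at `i`, where `v` is the value at `i` of the
Cohen real `k` -/
def gnm {Y : Type} (k : W2) (g : ℕ → ℕ → Y) (i : ℕ) (y : Y) : Set PK :=
  {p | i < (p.1.st (cn k)).length ∧ g i ((p.1.st (cn k)).getD i 0) = y}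

theorem down_gnm {Y : Type} (k : W2) (g : ℕ → ℕ → Y) (i : ℕ) (y : Y) : Down (gnm k g i y) := by
  rintro p ⟨h1, h2⟩ q hq
  obtain ⟨h3, h4⟩ := st_mono hq (cn k) h1
  exact ⟨h3, by rw [h4]; exact h2⟩

theorem exists_gnm {Y : Type} (k : W2) (g : ℕ → ℕ → Y) (i : ℕ) (p : PK) :
    ∃ q ≤ p, ∃ v, q ∈ gnm k g i (g i v) := by
  obtain ⟨r, h1, h2, h3, _⟩ := exists_long good_SK p.2 (WithTop.coe_lt_top (toLex (false, k))) (i + 1)
  exact ⟨⟨r, h1⟩, h2, _, (show i < (r.st (cn k)).length from h3), rfl⟩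

theorem isFun_gnm {Y : Type} (k : W2) (g : ℕ → ℕ → Y) (p : PK) : p ∈ IsFun (gnm k g) := by
  refine ⟨fun n => mem_fex.2 fun q hq => ?_, fun n a b => fimp_of fun q hq hq' => ?_⟩
  · obtain ⟨r, h1, v, h2⟩ := exists_gnm k g n q
    exact ⟨r, h1, _, meets_of_mem h2⟩
  · obtain ⟨r, hr, h1⟩ := exists_of_meets (down_gnm k g n a) hq'.1
    obtain ⟨s, hs, h2⟩ := exists_of_meets (down_gnm k g n b) (down_meets _ _ hq'.2 _ hr)
    show a = b
    rw [← (down_gnm k g n a _ h1 _ hs).2, h2.2]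

/-- the ladders -/
noncomputable def Ln (α : W1) : ℕ → W1 → Set PK := gnm (eW α) fun i v => (dec α i v).1
/-- the colours -/
noncomputable def cl (α : W1) : ℕ → ℕ → Set PK := gnm (eW α) fun i v => (dec α i v).2

theorem Ln_bd {α : W1} (hα : α ∈ S1) {i : ℕ} {b : W1} {p : PK} (hp : p ∈ meets (Ln α i b)) :
    lam α i < b ∧ b ≤ lam α (i + 1) := by
  obtain ⟨q, _, h1, h2⟩ := exists_of_meets (down_gnm _ _ _ _) hp
  have h3 : dec α i ((q.1.st (cn (eW α))).getD i 0) ∈ Set.range (dec α i) := ⟨_, rfl⟩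
  rw [dec_spec hα i] at h3
  rw [← h2]
  exact h3

theorem ladders (p : PK) : p ∈ Ladders S1 Ln := by
  intro α hα
  obtain ⟨h1, h2, h3⟩ := lam_spec hα
  refine ⟨fun i b => fimp_of fun q _ hq => ?_, fun i b b' => fimp_of fun q _ hq => ?_,
    fun β hβ => ?_⟩
  · exact lt_of_le_of_lt (Ln_bd hα hq).2 (h2 _)
  · exact lt_of_le_of_lt (Ln_bd hα hq.1).2 (Ln_bd hα hq.2).1
  · obtain ⟨i, hi⟩ := h3 β hβ
    refine mem_fex_of_mem i (down_fex _) (mem_fex.2 fun q _ => ?_)
    obtain ⟨r, hr, v, hv⟩ := exists_gnm (eW α) (fun i v => (dec α i v).1) i q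
    have hv' : r ∈ Ln α i (dec α i v).1 := hv
    exact ⟨r, hr, _, hi.trans (Ln_bd hα (meets_of_mem hv')).1, meets_of_mem hv'⟩

theorem exists_supp (t : PK) : {γ : W1 | cn (eW γ) ∈ supp t.1}.Countable :=
  (t.1.fin.countable).preimage (f := fun γ : W1 => cn (eW γ))
    (cn_injective.comp eW.injective)

theorem guessing (p : PK) : p ∈ Guessing S1 Ln cl := by
  classical
  intro A
  refine fimp_of fun q _ hq => ?_
  have hT : ∀ (k : ℕ) (δ : W1), ∃ T : Set PK, T.Countable ∧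
      (∀ t ∈ T, ∃ a, δ ≤ a ∧ t ∈ meets (A k a)) ∧
      ∀ r : PK, (∃ a, δ ≤ a ∧ r ∈ meets (A k a)) → ∃ t ∈ T, SC r t := by
    intro k δ
    obtain ⟨T, h1, h2, h3⟩ := exists_stems {t | ∃ a, δ ≤ a ∧ t ∈ meets (A k a)}
    exact ⟨T, h2, fun t ht => h1 ht, fun r hr => h3 r hr⟩
  choose T hT1 hT2 hT3 using hT
  choose! a ha1 ha2 using hT2
  have hg : ∀ δ, ∃ b : W1, ∀ k, ∀ t ∈ T k δ, a k δ t < b ∧ ∀ γ, cn (eW γ) ∈ supp t.1 → γ < b := by
    intro δ
    obtain ⟨b, hb⟩ := bdd_W1 (⋃ k, ⋃ t ∈ T k δ, insert (a k δ t) {γ | cn (eW γ) ∈ supp t.1})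
      (Set.countable_iUnion fun k => (hT1 k δ).biUnion fun t _ => (exists_supp t).insert _)
    refine ⟨b, fun k t ht => ⟨?_, fun γ hγ => ?_⟩⟩
    · exact hb _ (Set.mem_iUnion.2 ⟨k, Set.mem_biUnion ht (Set.mem_insert _ _)⟩)
    · exact hb _ (Set.mem_iUnion.2 ⟨k, Set.mem_biUnion ht (Set.mem_insert_of_mem _ hγ)⟩)
  choose g hg using hg
  obtain ⟨α, hα, hcl⟩ := exists_closed g
  obtain ⟨hl1, hl2, hl3⟩ := lam_spec hα
  refine mem_fex_of_mem α (down_fand (down_fground _) (down_fall fun _ => down_fall fun _ =>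
    down_fall fun _ => down_fex _)) ⟨hα, fun k n N => mem_fex.2 fun q1 hq1 => ?_⟩
  obtain ⟨q2, hq2, a0, ha0, h1⟩ := mem_fex.1 (hq k α) q1 hq1
  set N' := max N (q2.1.st (cn (eW α))).length with hN'
  set δ := lam α (N' + 1) with hδ
  have hδα : δ < α := hl2 _
  obtain ⟨t, ht, hsc⟩ := hT3 k δ q2 ⟨a0, hδα.le.trans ha0, h1⟩
  set b := a k δ t with hb
  have hb1 : δ ≤ b := ha1 k δ t ht
  have hb3 : b < α := (hg δ k t ht).1.trans (hcl δ hδα)
  obtain ⟨j, hj1, hj2, hj3⟩ : ∃ j, N' ≤ j ∧ lam α j < b ∧ b ≤ lam α (j + 1) := by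
    have hex : ∃ i, b ≤ lam α (i + 1) := by
      obtain ⟨i, hi⟩ := hl3 b hb3
      exact ⟨i, hi.le.trans (hl1 (Nat.lt_succ_self i)).le⟩
    have hlt : lam α N' < b := (hl1 (Nat.lt_succ_self N')).trans_le hb1
    have h2 : N' ≤ Nat.find hex := by
      by_contra hcon
      push Not at hcon
      have h3 := Nat.find_spec hex
      exact absurd (h3.trans (hl1.monotone (Nat.succ_le_of_lt hcon))) (not_le.2 hlt)
    refine ⟨Nat.find hex, h2, ?_, Nat.find_spec hex⟩
    rcases h : Nat.find hex with _ | j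
    · have : N' = 0 := by omega
      rw [this] at hlt
      exact hlt
    · have := Nat.find_min hex (m := j) (by omega)
      exact not_le.1 this
  obtain ⟨v, hv⟩ : ∃ v, dec α j v = (b, n) := by
    have : (b, n) ∈ Set.range (dec α j) := by
      rw [dec_spec hα j]
      exact ⟨hj2, hj3⟩
    exact this
  obtain ⟨q3, hq3, h3, h4, h5⟩ := ext_val (eW α) q2 j v ((le_max_right _ _).trans hj1)
  have hsc' : SC q3 t := by
    intro η hη hη'
    by_cases h : η = cn (eW α)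
    · subst h
      exact absurd ((hg δ k t ht).2 α hη') (not_lt.2 (hcl δ hδα).le)
    · rw [(h5 η h).1]
      refine hsc η ?_ hη'
      rcases hη with h' | h'
      · exact Or.inl (by rwa [(h5 η h).1] at h')
      · exact Or.inr (by rwa [(h5 η h).2] at h')
  obtain ⟨s, hs1, hs2⟩ := hsc'.compat
  have h6 : q3 ∈ Ln α j b := ⟨h3, by
    show (dec α j ((q3.1.st (cn (eW α))).getD j 0)).1 = b
    rw [h4, hv]⟩
  have h7 : q3 ∈ cl α j n := ⟨h3, by
    show (dec α j ((q3.1.st (cn (eW α))).getD j 0)).2 = n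
    rw [h4, hv]⟩
  refine ⟨s, hs1.trans (hq3.trans hq2), j, mem_fex_of_mem b
    (down_fand (down_fground _) (down_fand (down_meets _) (down_fand (down_meets _)
      (down_meets _)))) ⟨(le_max_left _ _).trans hj1, ?_, ?_, ?_⟩⟩
  · exact down_meets _ _ (meets_of_mem h7) _ hs1
  · exact down_meets _ _ (meets_of_mem h6) _ hs1
  · exact down_meets _ _ (ha2 k δ t ht) _ hs2

/-! ### Countable sets -/

theorem countable_W1 (p : PK) (a : W1) :
    p ∈ DowDefs.IsCountable (P := PK) fun b : W1 => fground (b < a) := by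
  classical
  obtain ⟨x0⟩ : Nonempty W1 := inferInstance
  obtain ⟨e, he⟩ := ((countable_Iio a).insert x0).exists_eq_range ⟨x0, Set.mem_insert _ _⟩
  refine mem_fex_of_mem (fun n k => {_p : PK | e n = k}) ?_ ?_
  · exact down_fand (down_IsFun _) (down_fall fun _ => down_fimp _ _)
  · refine ⟨⟨fun n => mem_fex_of_mem (e n) (down_meets _) (meets_of_mem rfl),
      fun n a b => fimp_of fun r _ hr => ?_⟩, fun k => fimp_of fun r hr hk => ?_⟩
    · obtain ⟨_, _, _, h1, _⟩ := hr.1 r le_rfl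
      obtain ⟨_, _, _, h2, _⟩ := hr.2 r le_rfl
      have h1' : e n = a := h1
      have h2' : e n = b := h2
      show a = b
      rw [← h1', h2']
    · have hk' : k < a := hk
      have h2 : k ∈ Set.range e := by rw [← he]; exact Set.mem_insert_of_mem _ hk'
      obtain ⟨n, hn⟩ := h2
      exact mem_fex_of_mem n (down_meets _) (meets_of_mem hn)

theorem not_countable_W1 (p : PK) :
    p ∈ fnot (DowDefs.IsCountable (P := PK) fun _ : W1 => fground True) := by
  intro q _ hq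
  obtain ⟨r, hr, c, hc1, hc2⟩ := mem_fex.1 hq q le_rfl
  obtain ⟨V, hV1, hV2⟩ := exists_values hc1
  have hun : ¬ (Set.univ : Set W1).Countable := by
    rw [← le_aleph0_iff_set_countable, mk_univ, mk_W1, not_le, ← aleph_zero]
    exact aleph_lt_aleph.2 (by norm_num)
  apply hun
  refine (Set.countable_iUnion hV1).mono fun a ha => ?_
  obtain ⟨s, hs, h1⟩ := mem_fimp.1 (hc2 a) r le_rfl trivial
  obtain ⟨t, ht, n, h2⟩ := mem_fex.1 h1 s le_rfl
  exact Set.mem_iUnion.2 ⟨n, hV2 n a t (ht.trans hs) h2⟩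

/-! ### The Hechler reals bound small families -/

theorem exists_level1 (A : Set PK) (hA : #A ≤ ℵ_ 1) : ∃ b : W2, ∀ a ∈ A, Below a.1 (hn b) := by
  obtain ⟨j, hj⟩ := exists_below (κ := ℵ_ 1) (aleph0_le_aleph 1)
    (fun T hT => by
      obtain ⟨b, hb⟩ := cof_W2 ((fun j : JK => (ofLex j).2) '' T) (mk_image_le.trans hT)
      refine ⟨toLex (true, b), fun s hs => ?_⟩
      have h1 := hb _ ⟨s, hs, rfl⟩
      rw [Prod.Lex.lt_iff]
      rcases h : (ofLex s).1 with _ | _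
      · exact Or.inl (by show false < true; decide)
      · exact Or.inr ⟨rfl, h1⟩) (A := A) hA
  obtain ⟨b, hb⟩ := cof_W2 {(ofLex j).2} (by
    rw [mk_singleton]; exact one_le_aleph0.trans (aleph0_le_aleph 1))
  refine ⟨b, fun a ha => (hj a ha).mono (WithTop.coe_le_coe.2 ?_)⟩
  have h1 := hb _ rfl
  refine le_of_lt ?_
  rw [Prod.Lex.lt_iff]
  rcases h : (ofLex j).1 with _ | _
  · exact Or.inl (by show false < true; decide)
  · exact Or.inr ⟨rfl, h1⟩

/-- some `Φ j` with `j ≤ m` holds provided some `Φ j` holds -/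
def Pz (Φ : ℕ → Set PK) (m : ℕ) : Set PK :=
  fimp (fex fun j : ℕ => Φ j) (fex fun j : ℕ => fand (fground (j ≤ m)) (Φ j))

theorem down_Pz (Φ : ℕ → Set PK) (m : ℕ) : Down (Pz Φ m) := down_fimp _ _

theorem rgl_Pz (Φ : ℕ → Set PK) (m : ℕ) : Rgl (Pz Φ m) := rgl_fimp (down_fex _)

theorem Pz_succ {Φ : ℕ → Set PK} {m : ℕ} {p : PK} (h : p ∈ Pz Φ m) : p ∈ Pz Φ (m + 1) := by
  refine fimp_of fun q hq hq' => ?_
  have h1 := mem_of_fimp (down_Pz _ _ _ h _ hq) (down_fex _) (rgl_fex _) hq'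
  refine mem_fex.2 fun r hr => ?_
  obtain ⟨s, hs, j, h2, h3⟩ := mem_fex.1 h1 r hr
  exact ⟨s, hs, j, Nat.le_succ_of_le h2, h3⟩

theorem dom_gen {k : W2} (Φ : ℕ → ℕ → Set PK) (hd : ∀ n j, Down (Φ n j))
    (hl : ∀ n j, LocP (hn k) (Φ n j)) (q : PK) (hq : ∀ n, q ∈ fex fun j => Φ n j) :
    q ∈ fex fun N : ℕ => fall fun n : ℕ => fall fun _ : N ≤ n => fex fun v : ℕ =>
      fand (meets (fn k n v)) (fex fun j : ℕ => fand (fground (j ≤ v)) (Φ n j)) := by
  have hPh : ∀ n m, LocP (hn k) (Pz (Φ n) m) := fun n m =>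
    LocP.fimp (LocP.fex (fun j => hl n j) fun j => hd n j)
      (LocP.fex (fun j => (LocP.fground _).fand (hl n j)) fun j =>
        down_fand (down_fground _) (hd n j)) (down_fex _) (down_fex _)
  have hle : (hn k) ≤ ⊤ := le_top
  obtain ⟨R, hR1, hR2⟩ := rich_SyC (not_cc_hn k)
    (fun t m q => ∃ h : q ∈ Vd SK ⊤, (⟨q, h⟩ : PK) ∈ Pz (Φ t.length) m)
    (by
      rintro t n q ⟨h, hq⟩ q' hq' hle'
      exact ⟨Vd_mono hle hq', down_Pz _ _ (⟨q, h⟩ : PK) hq (⟨q', Vd_mono hle hq'⟩ : PK) hle'⟩)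
    (by
      rintro t n q ⟨h, hq⟩
      exact ⟨h, Pz_succ hq⟩)
    (by
      intro t q hq
      let p0 : PK := ⟨q, Vd_mono hle hq⟩
      rcases exists_or_fnot (fex fun j : ℕ => Φ t.length j) p0 with ⟨r, hr, h⟩ | h
      · obtain ⟨r', hr', j, h1⟩ := mem_fex.1 h r le_rfl
        have h2 : r' ∈ Pz (Φ t.length) j := fimp_of fun s hs _ =>
          mem_fex_of_mem j (down_fand (down_fground _) (hd _ _))
            ⟨show j ≤ j from le_rfl, hd _ _ _ h1 _ hs⟩
        have h3 := hPh _ _ r' h2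
        exact ⟨(resP r' (hn k)).1, resP_mem r' (hn k),
          resP_le (q := p0) (hr'.trans hr) hq.2, j, (resP r' (hn k)).2, h3⟩
      · exact ⟨q, hq, le_rfl, 0, Vd_mono hle hq, fimp_of fun s hs hs' => absurd hs' (h s hs)⟩)
  refine mem_fex.2 fun q1 hq1 => ?_
  obtain ⟨q2, h1, h2, h3⟩ := exists_promise (S := SK) good_SK q1.2
    (WithTop.coe_lt_top (toLex (true, k))) hR1
  refine ⟨⟨q2, h1⟩, h2, (q2.st (hn k)).length, fun n hn' => ?_⟩
  refine mem_fex.2 fun r hr => ?_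
  obtain ⟨r', h4, h5, h6, _⟩ := exists_long good_SK r.2
    (WithTop.coe_lt_top (toLex (true, k))) (n + 1)
  have h7 : n < (r'.st (hn k)).length := h6
  set v := (r'.st (hn k)).getD n 0 with hv
  refine ⟨⟨r', h4⟩, h5, v, meets_of_mem ⟨h7, rfl⟩, ?_⟩
  have h8 : r' ≤ q2 := le_trans h5 hr
  have h9 := (h8 (hn k)).2.2 R h3 n hn' h7
  have hlen : ((r'.st (hn k)).take n).length = n := by
    rw [List.length_take]; omega
  have h10 : (⟨r', h4⟩ : PK) ∈ Pz (Φ n) v := by
    refine rgl_Pz _ _ _ fun s hs => ?_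
    have hbs : bs (resP s (hn k)).1 (hn k) ⊆ R ((r'.st (hn k)).take n) v := by
      have : bs (resP s (hn k)).1 (hn k) = bs s.1 (hn k) := bs_res le_rfl
      rw [this]
      exact (bs_le (show s.1 ≤ r' from hs) _).trans h9
    obtain ⟨q', h11, h12, h13, h14⟩ := hR2 _ _ _ (resP_mem s (hn k)) hbs
    rw [hlen] at h14
    refine ⟨glueP ⟨q', h13⟩ s (hn k), glueP_le (q := ⟨q', h13⟩) h12, ?_⟩
    exact down_Pz _ _ _ h14 _ (glueP_le_left (q := ⟨q', h13⟩) h11.2)
  have h15 : (⟨r', h4⟩ : PK) ∈ fex fun j : ℕ => Φ n j :=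
    down_fex _ _ (hq n) _ ((le_trans h8 h2).trans hq1)
  exact mem_of_fimp h10 (down_fex _) (rgl_fex _) h15

theorem bounded (p : PK) : p ∈ Bounded PK W1 := by
  classical
  intro F
  refine fimp_of fun q _ hq => ?_
  have hAnt : ∀ (a : W1) (n m : ℕ), ∃ B : Set PK, B.Countable ∧
      (∀ b ∈ B, b ∈ meets (F a n m) ∨ b ∈ fnot (meets (F a n m))) ∧ ∀ p, ∃ b ∈ B, Compat b p := by
    intro a n m
    obtain ⟨B, h1, h2, h3, _⟩ := exists_antichain ccc_PK
      {p : PK | p ∈ meets (F a n m) ∨ p ∈ fnot (meets (F a n m))} (fun p => by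
        rcases exists_or_fnot (meets (F a n m)) p with ⟨q, hq, h⟩ | h
        · exact ⟨q, hq, Or.inl h⟩
        · exact ⟨p, le_rfl, Or.inr h⟩)
    exact ⟨B, h2, h1, h3⟩
  choose B hB1 hB2 hB3 using hAnt
  obtain ⟨k, hk⟩ := exists_level1 (⋃ x : W1 × ℕ × ℕ, B x.1 x.2.1 x.2.2) (by
    refine (mk_iUnion_le_sum_mk).trans ?_
    refine (Cardinal.sum_le_sum _ (fun _ => ℵ₀) fun x => ?_).trans ?_
    · exact le_aleph0_iff_set_countable.2 (hB1 _ _ _)
    · rw [Cardinal.sum_const']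
      have h1 : #(W1 × ℕ × ℕ) ≤ ℵ_ 1 := by
        rw [mk_prod, mk_prod]
        simp only [lift_id, mk_W1, mk_nat, aleph0_mul_aleph0, lift_aleph0]
        exact (mul_le_mul' le_rfl (aleph0_le_aleph 1)).trans (mul_eq_self (aleph0_le_aleph 1)).le
      exact (mul_le_mul' h1 (aleph0_le_aleph 1)).trans (mul_eq_self (aleph0_le_aleph 1)).le)
  have hl : ∀ a n m, LocP (hn k) (meets (F a n m)) := fun a n m => by
    refine locP_meets (A := B a n m) (fun b hb => ?_) (hB2 a n m) (hB3 a n m)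
    exact hk b (Set.mem_iUnion.2 ⟨(a, n, m), hb⟩)
  refine mem_fex_of_mem (fn k) (down_fand (down_IsFun _) (down_fall fun _ => down_fex _)) ?_
  refine ⟨isFun_fn k q, fun a => ?_⟩
  have h1 := dom_gen (fun n j => meets (F a n j)) (fun n j => down_meets _) (hl a) q
    fun n => (hq a).1 n
  refine mem_fex.2 fun r hr => ?_
  obtain ⟨s, hs, N, h2⟩ := mem_fex.1 h1 r hr
  refine ⟨s, hs, N, fun n hn' => mem_fex.2 fun t ht => ?_⟩
  obtain ⟨t1, ht1, u, h3, h4⟩ := mem_fex.1 (h2 n hn') t ht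
  obtain ⟨t2, ht2, v, h5, h6⟩ := mem_fex.1 h4 t1 le_rfl
  exact ⟨t2, ht2.trans ht1, v, mem_fex_of_mem u
    (down_fand (down_fground _) (down_fand (down_meets _) (down_meets _)))
    ⟨h5, h6, down_meets _ _ h3 _ ht2⟩⟩

/-- the forced principle -/
theorem forced (p : PK) : p ∈ ForcedPrinciple PK W1 S1 := by
  have hd : ∀ (L : W1 → ℕ → W1 → Set PK) (c : W1 → ℕ → ℕ → Set PK),
      Down (fand (fall fun α => fand (IsFun (L α)) (IsFun (c α)))
      (fand (fall fun a : W1 => DowDefs.IsCountable fun b : W1 => fground (b < a))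
        (fand (fnot (DowDefs.IsCountable fun _ : W1 => fground True))
          (fand (Ladders S1 L) (fand (Guessing S1 L c) (Bounded PK W1)))))) :=
    fun L c => down_fand (down_fall fun _ => down_fand (down_IsFun _) (down_IsFun _))
      (down_fand (down_fall fun _ => down_fex _) (down_fand (down_fnot _)
        (down_fand (down_fall fun _ => down_fall fun _ => down_fand
          (down_fall fun _ => down_fall fun _ => down_fimp _ _)
          (down_fand (down_fall fun _ => down_fall fun _ => down_fall fun _ => down_fimp _ _)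
            (down_fall fun _ => down_fall fun _ => down_fex _)))
          (down_fand (down_fall fun _ => down_fimp _ _) (down_fall fun _ => down_fimp _ _)))))
  refine mem_fex_of_mem Ln (down_fex _) (mem_fex_of_mem cl (hd _ _) ?_)
  exact ⟨fun α => ⟨isFun_gnm _ _ p, isFun_gnm _ _ p⟩, fun a => countable_W1 p a,
    not_countable_W1 p, ladders p, guessing p, bounded p⟩

/-- the forcing notion -/
theorem exists_forcing : ∃ (P : Type) (_ : Preorder P) (W : Type) (_ : LinearOrder W)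
    (_ : WellFoundedLT W) (S : Set W), Nonempty P ∧ ∀ p : P, p ∈ ForcedPrinciple P W S :=
  ⟨PK, inferInstance, W1, inferInstance, inferInstance, S1, inferInstance, forced⟩

end Pool.Agent.W635.Dow
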