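import Mathlib
import Pool.Agent.W635.DowDefs

/-!
# The space given by the guessing principle
-/

namespace Pool.Agent.W635.DowZfc

open Set Filter Topology TopologicalSpace Pool.Agent.W635.DowDefs
open Cardinal (mk aleph0)
open scoped Cardinal

set_option linter.unusedSectionVars false
set_option linter.unusedVariables false

/-- every countable open cover has a locally finite open refinement -/
def CountablyParacompact (X : Type) [TopologicalSpace X] : Prop :=
  ∀ V : ℕ → Set X, (∀ n, IsOpen (V n)) → (⋃ n, V n) = univ →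
    ∃ (ι : Type) (R : ι → Set X), (∀ j, IsOpen (R j)) ∧ (⋃ j, R j) = univ ∧ LocallyFinite R ∧
      ∀ j, ∃ n, R j ⊆ V n

/-- every point has a countable open neighbourhood -/
def LocallyCountable (X : Type) [TopologicalSpace X] : Prop :=
  ∀ x : X, ∃ U : Set X, IsOpen U ∧ x ∈ U ∧ U.Countable

/-- the space is a countable union of discrete subspaces -/
def SigmaDiscrete (X : Type) [TopologicalSpace X] : Prop :=
  ∃ D : ℕ → Set X, (⋃ n, D n) = univ ∧ ∀ n, DiscreteTopology (D n)

/-- an uncountable set of reals with countable intersection with every meager set -/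
def IsLusin (A : Set ℝ) : Prop := ¬ A.Countable ∧ ∀ M : Set ℝ, IsMeagre M → (A ∩ M).Countable

variable {W : Type} [LinearOrder W] [WellFoundedLT W] {S : Set W} {L : W → ℕ → W}
  {c : W → ℕ → ℕ}

/-! ### General facts about `W` -/

theorem countable_Iic (h : Principle W S L c) (a : W) : {b | b ≤ a}.Countable := by
  have : {b | b ≤ a} = insert a {b | b < a} := by
    ext b; simp [le_iff_eq_or_lt]
  rw [this]
  exact (h.segments a).insert a

theorem bdd (h : Principle W S L c) {T : Set W} (hT : T.Countable) : ∃ b, ∀ s ∈ T, s < b := by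
  by_contra hcon
  push Not at hcon
  apply h.uncountable
  refine (hT.biUnion fun s _ => countable_Iic h s).mono fun b _ => ?_
  obtain ⟨s, hs, hb⟩ := hcon b
  exact Set.mem_biUnion hs hb

theorem unb (h : Principle W S L c) {A : Set W} (hA : ¬ A.Countable) (β : W) :
    ∃ a, β ≤ a ∧ a ∈ A := by
  by_contra hcon
  push Not at hcon
  exact hA ((h.segments β).mono fun a ha => lt_of_not_ge fun h' => hcon a h' ha)

theorem mk_W (h : Principle W S L c) : #W = ℵ_ 1 := by
  have h0 : ℵ_ 1 ≤ #W := by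
    have h1 : ℵ₀ < #W := by
      rw [← not_le, ← Cardinal.mk_univ, Cardinal.le_aleph0_iff_set_countable]
      exact h.uncountable
    rw [← zero_add (1 : Ordinal), ← Cardinal.succ_aleph, Cardinal.aleph_zero]
    exact Order.succ_le_of_lt h1
  refine le_antisymm ?_ h0
  obtain ⟨T, hT⟩ := Cardinal.le_mk_iff_exists_set.1 h0
  have hTc : ¬ T.Countable := by
    rw [← Cardinal.le_aleph0_iff_set_countable, hT, not_le, ← Cardinal.aleph_zero]
    exact Cardinal.aleph_lt_aleph.2 (by norm_num)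
  have h2 : (univ : Set W) ⊆ ⋃ t : T, {b | b ≤ t.1} := by
    intro b _
    obtain ⟨t, ht, h3⟩ := unb h hTc b
    exact mem_iUnion.2 ⟨⟨t, h3⟩, ht⟩
  rw [← Cardinal.mk_univ]
  refine (Cardinal.mk_le_mk_of_subset h2).trans ((Cardinal.mk_iUnion_le_sum_mk).trans ?_)
  refine (Cardinal.sum_le_sum _ (fun _ => ℵ₀) fun t => ?_).trans ?_
  · exact Cardinal.le_aleph0_iff_set_countable.2 (countable_Iic h t.1)
  · rw [Cardinal.sum_const', hT]
    exact (mul_le_mul' le_rfl (Cardinal.aleph0_le_aleph 1)).trans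
      (Cardinal.mul_eq_self (Cardinal.aleph0_le_aleph 1)).le

/-! ### The space -/

/-- basic neighbourhoods: the neighbourhood of `(α, n)` given by `β < α` -/
inductive Nb (S : Set W) (L : W → ℕ → W) (c : W → ℕ → ℕ) : ℕ → W → W → W × ℕ → Prop
  | base (n : ℕ) (α β : W) : Nb S L c n α β (α, n)
  | step {n m : ℕ} {α β : W} {i : ℕ} {x : W × ℕ} (hα : α ∈ S) (hm : m < n)
      (hc : c α (i + 1) = n) (hβ : β ≤ L α i) (hx : Nb S L c m (L α (i + 1)) (L α i) x) :
      Nb S L c n α β x

theorem nb_iff {n : ℕ} {α β : W} {x : W × ℕ} : Nb S L c n α β x ↔ x = (α, n) ∨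
    (α ∈ S ∧ ∃ m < n, ∃ i, c α (i + 1) = n ∧ β ≤ L α i ∧
      Nb S L c m (L α (i + 1)) (L α i) x) := by
  constructor
  · intro h
    cases h with
    | base => exact Or.inl rfl
    | step hα hm hc hβ hx => exact Or.inr ⟨hα, _, hm, _, hc, hβ, hx⟩
  · rintro (rfl | ⟨hα, m, hm, i, hc, hβ, hx⟩)
    · exact Nb.base _ _ _
    · exact Nb.step hα hm hc hβ hx

theorem nb_anti {n : ℕ} {α β β' : W} (hb : β ≤ β') {x : W × ℕ} (hx : Nb S L c n α β' x) :
    Nb S L c n α β x := by
  rcases nb_iff.1 hx with rfl | ⟨hα, m, hm, i, hc, hβ, hx⟩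
  · exact Nb.base _ _ _
  · exact Nb.step hα hm hc (hb.trans hβ) hx

/-- the space -/
def Sp (_h : Principle W S L c) : Type := W × ℕ

variable (h : Principle W S L c)

include h in
theorem lmono {α : W} (hα : α ∈ S) : StrictMono (L α) :=
  strictMono_nat_of_lt_succ (h.increasing α hα)

/-- the points of the space -/
abbrev pt (a : W) (n : ℕ) : Sp h := ((a, n) : W × ℕ)

variable {h} in
/-- the first coordinate -/
abbrev fs (x : Sp h) : W := Prod.fst (α := W) (β := ℕ) x

variable {h} in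
/-- the second coordinate -/
abbrev sn (x : Sp h) : ℕ := Prod.snd (α := W) (β := ℕ) x

/-- the basic neighbourhoods as sets -/
def nb (n : ℕ) (α β : W) : Set (Sp h) := {x | Nb S L c n α β x}

instance : TopologicalSpace (Sp h) where
  IsOpen U := ∀ (α : W) (n : ℕ), pt h α n ∈ U → α ∈ S → ∃ β < α, nb h n α β ⊆ U
  isOpen_univ := fun α n _ hα => ⟨L α 0, h.below α hα 0, subset_univ _⟩
  isOpen_inter := by
    intro U V hU hV α n hx hα
    obtain ⟨β, hβ, h1⟩ := hU α n hx.1 hα
    obtain ⟨β', hβ', h2⟩ := hV α n hx.2 hα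
    exact ⟨max β β', max_lt hβ hβ', fun x hx => ⟨h1 (nb_anti (le_max_left _ _) hx),
      h2 (nb_anti (le_max_right _ _) hx)⟩⟩
  isOpen_sUnion := by
    intro s hs α n ⟨U, hU, hx⟩ hα
    obtain ⟨β, hβ, h1⟩ := hs U hU α n hx hα
    exact ⟨β, hβ, h1.trans (subset_sUnion_of_mem hU)⟩

variable {h}

theorem isOpen_def {U : Set (Sp h)} : IsOpen U ↔
    ∀ (α : W) (n : ℕ), pt h α n ∈ U → α ∈ S → ∃ β < α, nb h n α β ⊆ U := Iff.rfl

theorem nb_sub (h : Principle W S L c) {n : ℕ} : ∀ {α β : W}, β < α → ∀ {x : W × ℕ},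
    Nb S L c n α β x → β < x.1 ∧ x.1 ≤ α ∧ x.2 ≤ n := by
  induction n using Nat.strong_induction_on with
  | _ n IH =>
    intro α β hβα x hx
    rcases nb_iff.1 hx with rfl | ⟨hα, m, hm, i, hc, hβ, hx⟩
    · exact ⟨hβα, le_rfl, le_rfl⟩
    · obtain ⟨h1, h2, h3⟩ := IH m hm (h.increasing α hα i) hx
      exact ⟨hβ.trans_lt h1, h2.trans (h.below α hα _).le, h3.trans hm.le⟩

theorem nb_open {n : ℕ} : ∀ {α β : W}, β < α → IsOpen (nb h n α β) := by
  induction n using Nat.strong_induction_on with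
  | _ n IH =>
    intro α β hβα δ p hx hδ
    rcases nb_iff.1 hx with hx | ⟨hα, m, hm, i, hc, hβ, hx⟩
    · obtain ⟨rfl, rfl⟩ := Prod.mk.inj hx
      exact ⟨β, hβα, Subset.rfl⟩
    · obtain ⟨β', hβ', h1⟩ := IH m hm (h.increasing α hα i) δ p hx hδ
      exact ⟨β', hβ', fun y hy => Nb.step hα hm hc hβ (h1 hy)⟩

theorem mem_nb (n : ℕ) (α β : W) : pt h α n ∈ nb h n α β := Nb.base _ _ _

theorem open_single {α : W} (hα : α ∉ S) (n : ℕ) : IsOpen ({pt h α n} : Set (Sp h)) := by
  intro δ p hx hδ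
  obtain ⟨rfl, rfl⟩ := Prod.mk.inj (hx : pt h δ p = pt h α n)
  exact absurd hδ hα

theorem open_le (γ : W) : IsOpen {x : Sp h | fs x ≤ γ} := by
  intro α n hx hα
  refine ⟨L α 0, h.below α hα 0, fun y hy => ?_⟩
  exact (nb_sub h (h.below α hα 0) hy).2.1.trans hx

theorem open_gt (γ : W) : IsOpen {x : Sp h | γ < fs x} := by
  intro α n hx hα
  exact ⟨γ, hx, fun y hy => (nb_sub h hx hy).1⟩

theorem closed_le (γ : W) : IsClosed {x : Sp h | fs x ≤ γ} := by
  rw [← isOpen_compl_iff]
  convert open_gt (h := h) γ using 1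
  ext x
  simp

theorem open_lt_nat (n : ℕ) : IsOpen {x : Sp h | sn x < n} := by
  intro α p hx hα
  refine ⟨L α 0, h.below α hα 0, fun y hy => ?_⟩
  exact (nb_sub h (h.below α hα 0) hy).2.2.trans_lt hx

theorem nb_disj (h : Principle W S L c) {α β β' : W} {n p : ℕ} (hβ : β < α) (hβ' : β' < α)
    (hnp : n ≠ p) {x : W × ℕ} (h1 : Nb S L c n α β x) (h2 : Nb S L c p α β' x) : False := by
  rcases nb_iff.1 h1 with rfl | ⟨hα, m, hm, i, hc, hb, hx⟩
  · rcases nb_iff.1 h2 with h3 | ⟨hα, m, hm, i, hc, hb, hx⟩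
    · exact hnp (Prod.mk.inj h3).2
    · exact absurd (nb_sub h (h.increasing α hα i) hx).2.1 (not_le.2 (h.below α hα _))
  · have h4 := nb_sub h (h.increasing α hα i) hx
    rcases nb_iff.1 h2 with rfl | ⟨_, m', hm', i', hc', hb', hx'⟩
    · exact absurd h4.2.1 (not_le.2 (h.below α hα _))
    · have h5 := nb_sub h (h.increasing α hα i') hx'
      have h6 : i = i' := by
        rcases lt_trichotomy i i' with h7 | h7 | h7
        · exact absurd (h4.2.1.trans ((lmono h hα).monotone (Nat.succ_le_of_lt h7)))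
            (not_le.2 h5.1)
        · exact h7
        · exact absurd (h5.2.1.trans ((lmono h hα).monotone (Nat.succ_le_of_lt h7)))
            (not_le.2 h4.1)
      subst h6
      exact hnp (hc.symm.trans hc')

theorem exists_nbhd (x : Sp h) : ∃ U : Set (Sp h), IsOpen U ∧ x ∈ U := ⟨univ, isOpen_univ, trivial⟩

instance : T2Space (Sp h) := by
  constructor
  rintro ⟨α, n⟩ ⟨δ, p⟩ hne
  rcases lt_trichotomy α δ with hlt | rfl | hlt
  · exact ⟨_, _, open_le α, open_gt α, le_refl α, hlt,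
      disjoint_left.2 fun x hx hx' => absurd hx (not_le.2 hx')⟩
  · have hnp : n ≠ p := fun h' => hne (by rw [h'])
    by_cases hα : α ∈ S
    · exact ⟨_, _, nb_open (h.below α hα 0), nb_open (h.below α hα 0), mem_nb n α _, mem_nb p α _,
        disjoint_left.2 fun x hx hx' =>
          nb_disj h (h.below α hα 0) (h.below α hα 0) hnp hx hx'⟩
    · exact ⟨_, _, open_single hα n, open_single hα p, rfl, rfl, disjoint_left.2 fun x hx hx' => by
        have h1 : x = pt h α n := hx
        have h2 : x = pt h α p := hx'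
        exact hnp (Prod.mk.inj (h1.symm.trans h2)).2⟩
  · exact ⟨_, _, open_gt δ, open_le δ, hlt, le_refl δ,
      disjoint_left.2 fun x hx hx' => absurd hx' (not_le.2 hx)⟩

theorem nb_compact {n : ℕ} : ∀ {α β : W}, β < α → IsCompact (nb h n α β) := by
  classical
  induction n using Nat.strong_induction_on with
  | _ n IH =>
    intro α β hβα
    by_cases hα : α ∈ S
    swap
    · have : nb h n α β = {pt h α n} := by
        ext x
        constructor
        · intro hx
          rcases nb_iff.1 hx with hx | ⟨hα', _⟩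
          · exact hx
          · exact absurd hα' hα
        · rintro rfl
          exact mem_nb n α β
      rw [this]
      exact isCompact_singleton
    · apply isCompact_of_finite_subcover
      intro ι U hU hcov
      obtain ⟨i0, hi0⟩ := mem_iUnion.1 (hcov (mem_nb n α β))
      obtain ⟨β', hβ', h1⟩ := hU i0 α n hi0 hα
      obtain ⟨N, hN⟩ := h.cofinal α hα β' hβ'
      let F : Finset (ℕ × ℕ) := (Finset.range n ×ˢ Finset.range N).filter fun x =>
        c α (x.2 + 1) = n ∧ β ≤ L α x.2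
      let K : Set (Sp h) := ⋃ x ∈ F, nb h x.1 (L α (x.2 + 1)) (L α x.2)
      have hK : IsCompact K := F.isCompact_biUnion fun x hx => by
        have h2 : x.1 < n := by
          have := (Finset.mem_filter.1 hx).1
          exact Finset.mem_range.1 (Finset.mem_product.1 this).1
        exact IH x.1 h2 (h.increasing α hα x.2)
      have hKs : K ⊆ nb h n α β := by
        intro y hy
        obtain ⟨x, hx, hy⟩ := mem_iUnion₂.1 hy
        obtain ⟨h2, h3, h4⟩ := Finset.mem_filter.1 hx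
        exact Nb.step hα (Finset.mem_range.1 (Finset.mem_product.1 h2).1) h3 h4 hy
      obtain ⟨t, ht⟩ := hK.elim_finite_subcover U hU (hKs.trans hcov)
      refine ⟨insert i0 t, fun y hy => ?_⟩
      by_cases hyn : y ∈ nb h n α β'
      · exact mem_biUnion (Finset.mem_insert_self _ _) (h1 hyn)
      · rcases nb_iff.1 hy with hy' | ⟨_, m, hm, i, hc, hb, hx⟩
        · exact absurd (hy' ▸ mem_nb n α β') hyn
        · have hi : i < N := by
            by_contra hcon
            push Not at hcon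
            exact hyn (Nb.step hα hm hc (hN.le.trans ((lmono h hα).monotone hcon)) hx)
          have hyK : y ∈ K := mem_iUnion₂.2 ⟨(m, i), Finset.mem_filter.2
            ⟨Finset.mem_product.2 ⟨Finset.mem_range.2 hm, Finset.mem_range.2 hi⟩, hc, hb⟩, hx⟩
          obtain ⟨j, hj, hyj⟩ := mem_iUnion₂.1 (ht hyK)
          exact mem_biUnion (Finset.mem_insert_of_mem hj) hyj

theorem basis_S {α : W} (hα : α ∈ S) (n : ℕ) :
    (𝓝 (pt h α n)).HasBasis (fun β => β < α) fun β => nb h n α β := by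
  constructor
  intro U
  constructor
  · intro hU
    obtain ⟨V, hVU, hV, hx⟩ := mem_nhds_iff.1 hU
    obtain ⟨β, hβ, h1⟩ := hV α n hx hα
    exact ⟨β, hβ, h1.trans hVU⟩
  · rintro ⟨β, hβ, h1⟩
    exact mem_nhds_iff.2 ⟨_, h1, nb_open hβ, mem_nb n α β⟩

theorem nhds_notS {α : W} (hα : α ∉ S) (n : ℕ) : 𝓝 (pt h α n) = pure (pt h α n) :=
  isOpen_singleton_iff_nhds_eq_pure _ |>.1 (open_single hα n)

instance : FirstCountableTopology (Sp h) := by
  constructor
  rintro ⟨α, n⟩
  by_cases hα : α ∈ S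
  · exact (⟨basis_S hα n, h.segments α⟩ : HasCountableBasis _ _ _).isCountablyGenerated
  · rw [nhds_notS hα n]
    infer_instance

instance : WeaklyLocallyCompactSpace (Sp h) := by
  constructor
  rintro ⟨α, n⟩
  by_cases hα : α ∈ S
  · exact ⟨_, nb_compact (h.below α hα 0), (basis_S hα n).mem_of_mem (h.below α hα 0)⟩
  · refine ⟨{pt h α n}, isCompact_singleton, ?_⟩
    rw [nhds_notS hα n]
    exact mem_pure.2 rfl

instance : LocallyCompactSpace (Sp h) := inferInstance

instance : RegularSpace (Sp h) := inferInstance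

theorem countable_le (γ : W) : {x : Sp h | fs x ≤ γ}.Countable := by
  refine ((countable_Iic h γ).prod (countable_univ (α := ℕ))).mono ?_
  rintro ⟨a, n⟩ ha
  exact ⟨ha, trivial⟩

theorem locallyCountable : LocallyCountable (Sp h) := fun x =>
  ⟨_, open_le (fs x), le_refl (fs x), countable_le _⟩

theorem sigmaDiscrete : SigmaDiscrete (Sp h) := by
  refine ⟨fun n => {x | sn x = n}, ?_, fun n => ?_⟩
  · ext x; simp
  · rw [discreteTopology_subtype_iff']
    rintro ⟨α, m⟩ hm
    have hm' : m = n := hm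
    subst hm'
    by_cases hα : α ∈ S
    · refine ⟨_, nb_open (n := m) (h.below α hα 0), ?_⟩
      ext x
      constructor
      · rintro ⟨h1, h2⟩
        rcases nb_iff.1 h1 with h3 | ⟨_, p, hp, i, hc, hb, hx⟩
        · exact h3
        · have h4 : sn x ≤ p := (nb_sub h (h.increasing α hα i) hx).2.2
          have h5 : sn x = m := h2
          omega
      · intro hx
        have hx' : x = pt h α m := hx
        subst hx'
        exact ⟨mem_nb m α _, rfl⟩
    · refine ⟨_, open_single hα m, ?_⟩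
      ext x
      constructor
      · rintro ⟨h1, h2⟩; exact h1
      · intro hx
        exact ⟨hx, by rw [show x = pt h α m from hx]; rfl⟩

/-! ### Uncountable sets -/

theorem exists_section {H : Set (Sp h)} (hH : ¬ H.Countable) :
    ∃ m, ¬ {α : W | pt h α m ∈ H}.Countable := by
  by_contra hcon
  push Not at hcon
  apply hH
  have h1 : (⋃ m : ℕ, (fun α : W => pt h α m) '' {α : W | pt h α m ∈ H}).Countable :=
    countable_iUnion fun m => (hcon m).image _
  refine h1.mono ?_
  rintro ⟨α, m⟩ hx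
  exact mem_iUnion.2 ⟨m, α, hx, rfl⟩

theorem exists_common {H K : Set (Sp h)} (hH : ¬ H.Countable) (hK : ¬ K.Countable) :
    ∃ (α : W) (M : ℕ), ∀ n, M ≤ n → pt h α n ∈ closure H ∧ pt h α n ∈ closure K := by
  obtain ⟨m, hm⟩ := exists_section hH
  obtain ⟨m', hm'⟩ := exists_section hK
  obtain ⟨α, hα, hg⟩ := h.guessing (fun k => if k = 0 then {α : W | pt h α m ∈ H} else
    {α : W | pt h α m' ∈ K}) (fun k β => by
      by_cases hk : k = 0
      · simp only [hk, if_true]; exact unb h hm β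
      · simp only [hk, if_false]; exact unb h hm' β)
  have key : ∀ (T : Set (Sp h)) (m : ℕ), (∀ n N : ℕ, ∃ i, N ≤ i ∧ c α i = n ∧
      pt h (L α i) m ∈ T) → ∀ n, m < n → pt h α n ∈ closure T := by
    intro T m hT n hn
    rw [mem_closure_iff_nhds_basis' (basis_S hα n)]
    intro β hβ
    obtain ⟨N, hN⟩ := h.cofinal α hα β hβ
    obtain ⟨i, hi, hc, hiT⟩ := hT n (N + 1)
    obtain ⟨j, rfl⟩ : ∃ j, i = j + 1 := ⟨i - 1, by omega⟩
    refine ⟨pt h (L α (j + 1)) m, ?_, hiT⟩
    exact Nb.step hα hn hc (hN.le.trans ((lmono h hα).monotone (by omega))) (Nb.base _ _ _)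
  refine ⟨α, max m m' + 1, fun n hn => ⟨key H m (fun n N => ?_) n ?_, key K m' (fun n N => ?_) n ?_⟩⟩
  · obtain ⟨i, h1, h2, h3⟩ := hg 0 n N
    exact ⟨i, h1, h2, by simpa using h3⟩
  · have := le_max_left m m'; omega
  · obtain ⟨i, h1, h2, h3⟩ := hg 1 n N
    exact ⟨i, h1, h2, by simpa using h3⟩
  · have := le_max_right m m'; omega

/-! ### Normality -/

theorem exists_bound {H : Set (Sp h)} (hH : H.Countable) : ∃ γ : W, ∀ x ∈ H, fs x ≤ γ := by
  obtain ⟨b, hb⟩ := bdd h (hH.image fs)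
  exact ⟨b, fun x hx => (hb _ ⟨x, hx, rfl⟩).le⟩

theorem separate {H K : Set (Sp h)} (hH : IsClosed H) (hK : IsClosed K) (hd : Disjoint H K)
    (hc : H.Countable) : SeparatedNhds H K := by
  obtain ⟨γ, hγ⟩ := exists_bound hc
  set Y : Set (Sp h) := {x | fs x ≤ γ} with hY
  have hYo : IsOpen Y := open_le γ
  have hYc : IsClosed Y := closed_le γ
  have hcY : Countable Y := (countable_le (h := h) γ).to_subtype
  have hn : NormalSpace Y := inferInstance
  obtain ⟨U, V, hU, hV, hHU, hKV, hUV⟩ := hn.normal (Subtype.val ⁻¹' H) (Subtype.val ⁻¹' K)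
    (hH.preimage continuous_subtype_val) (hK.preimage continuous_subtype_val)
    (hd.preimage _)
  refine ⟨Subtype.val '' U, Subtype.val '' V ∪ Yᶜ, hYo.isOpenMap_subtype_val U hU,
    (hYo.isOpenMap_subtype_val V hV).union hYc.isOpen_compl, fun x hx => ?_, fun x hx => ?_, ?_⟩
  · exact ⟨⟨x, hγ x hx⟩, hHU hx, rfl⟩
  · by_cases hxY : x ∈ Y
    · exact Or.inl ⟨⟨x, hxY⟩, hKV hx, rfl⟩
    · exact Or.inr hxY
  · rw [disjoint_left]
    rintro _ ⟨y, hy, rfl⟩ (⟨z, hz, hzy⟩ | h2)
    · rw [Subtype.val_injective hzy] at hz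
      exact disjoint_left.1 hUV hy hz
    · exact h2 y.2

instance : NormalSpace (Sp h) := by
  constructor
  intro H K hH hK hd
  by_cases hHc : H.Countable
  · exact separate hH hK hd hHc
  · by_cases hKc : K.Countable
    · exact (separate hK hH hd.symm hKc).symm
    · obtain ⟨α, M, hM⟩ := exists_common hHc hKc
      obtain ⟨h1, h2⟩ := hM M le_rfl
      rw [hH.closure_eq] at h1
      rw [hK.closure_eq] at h2
      exact absurd h2 (disjoint_left.1 hd h1)

/-! ### The space is not countably paracompact -/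

theorem countable_compl {n : ℕ} {G : Set (Sp h)} (hG : IsOpen G)
    (hn : ∀ x : Sp h, n ≤ sn x → x ∈ G) : Gᶜ.Countable := by
  by_contra hcon
  obtain ⟨α, M, hM⟩ := exists_common hcon hcon
  obtain ⟨h1, _⟩ := hM (max n M) (le_max_right _ _)
  rw [hG.isClosed_compl.closure_eq] at h1
  exact h1 (hn _ (le_max_left _ _))

theorem not_cp : ¬ CountablyParacompact (Sp h) := by
  intro hcp
  obtain ⟨ι, R, h1, h2, h3, h4⟩ := hcp (fun n => {x | sn x < n}) open_lt_nat (by
    ext x; simp only [mem_iUnion, mem_univ, iff_true]; exact ⟨_, Nat.lt_succ_self _⟩)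
  let G : ℕ → Set (Sp h) := fun n => ⋃ j ∈ {j | ¬ R j ⊆ {x | sn x < n}}, R j
  have hG : ∀ n, IsOpen (G n) := fun n => isOpen_biUnion fun j _ => h1 j
  have hGn : ∀ n, ∀ x : Sp h, n ≤ sn x → x ∈ G n := by
    intro n x hx
    obtain ⟨j, hj⟩ := mem_iUnion.1 (h2 ▸ mem_univ x)
    exact mem_biUnion (show ¬ R j ⊆ {x | sn x < n} from fun h' => absurd (h' hj) (not_lt.2 hx)) hj
  have hcov : (⋃ n, (G n)ᶜ) = univ := by
    ext x
    simp only [mem_iUnion, mem_univ, iff_true]
    have hfin : {j | x ∈ R j}.Finite := h3.point_finite x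
    choose b hb using h4
    obtain ⟨N, hN⟩ := (hfin.image b).bddAbove
    refine ⟨N, fun hx => ?_⟩
    obtain ⟨j, hj, hxj⟩ := mem_iUnion₂.1 hx
    refine hj ((hb j).trans fun y hy => ?_)
    exact lt_of_lt_of_le hy (hN ⟨j, hxj, rfl⟩)
  have hc : (univ : Set (Sp h)).Countable := by
    rw [← hcov]
    exact countable_iUnion fun n => countable_compl (hG n) (hGn n)
  apply h.uncountable
  have : (univ : Set W) ⊆ fs '' (univ : Set (Sp h)) := fun a _ => ⟨pt h a 0, trivial, rfl⟩
  exact (hc.image fs).mono this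

theorem mk_Sp : #(Sp h) = ℵ_ 1 := by
  show #(W × ℕ) = ℵ_ 1
  rw [Cardinal.mk_prod]
  simp only [Cardinal.lift_id, mk_W h, Cardinal.mk_nat]
  exact Cardinal.mul_eq_left (Cardinal.aleph0_le_aleph 1) (Cardinal.aleph0_le_aleph 1)
    Cardinal.aleph0_ne_zero

/-! ### There are no Lusin sets -/

theorem meagre_of_bounded (q : ℕ → ℝ) (hq : ∀ N : ℕ, ∀ r : ℚ, ∃ n, N ≤ n ∧ q n = r) (g : ℕ → ℕ) :
    IsMeagre {x : ℝ | ∃ N, ∀ n, N ≤ n → 1 / ((g n : ℝ) + 1) ≤ |x - q n|} := by
  have h1 : {x : ℝ | ∃ N, ∀ n, N ≤ n → 1 / ((g n : ℝ) + 1) ≤ |x - q n|} =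
      ⋃ N, {x : ℝ | ∀ n, N ≤ n → 1 / ((g n : ℝ) + 1) ≤ |x - q n|} := by
    ext x; simp
  rw [h1]
  refine isMeagre_iUnion fun N => ?_
  apply IsNowhereDense.isMeagre
  have hcl : IsClosed {x : ℝ | ∀ n, N ≤ n → 1 / ((g n : ℝ) + 1) ≤ |x - q n|} := by
    have : {x : ℝ | ∀ n, N ≤ n → 1 / ((g n : ℝ) + 1) ≤ |x - q n|} =
        ⋂ n, ⋂ _ : N ≤ n, {x : ℝ | 1 / ((g n : ℝ) + 1) ≤ |x - q n|} := by
      ext x; simp
    rw [this]
    refine isClosed_iInter fun n => isClosed_iInter fun _ => ?_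
    exact isClosed_le continuous_const (by fun_prop)
  rw [hcl.isNowhereDense_iff]
  rw [Set.eq_empty_iff_forall_notMem]
  intro x hx
  obtain ⟨_, h2, r, rfl⟩ := Rat.denseRange_cast (𝕜 := ℝ) |>.inter_open_nonempty _ isOpen_interior
    ⟨x, hx⟩
  obtain ⟨n, hn, hr⟩ := hq N r
  have h3 := interior_subset h2 n hn
  rw [hr, sub_self, abs_zero] at h3
  have h4 : 0 < 1 / ((g n : ℝ) + 1) := by positivity
  linarith

theorem no_lusin (h : Principle W S L c) : ¬ ∃ A : Set ℝ, IsLusin A := by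
  classical
  rintro ⟨A, hA1, hA2⟩
  have hQ : (range ((↑) : ℚ → ℝ)).Countable := countable_range _
  have hB : ¬ (A \ range ((↑) : ℚ → ℝ)).Countable := fun hc => hA1 ((hc.union hQ).mono fun x hx => by
    by_cases h' : x ∈ range ((↑) : ℚ → ℝ)
    · exact Or.inr h'
    · exact Or.inl ⟨hx, h'⟩)
  have hle : #W ≤ #(A \ range ((↑) : ℚ → ℝ) : Set ℝ) := by
    rw [mk_W h, ← zero_add (1 : Ordinal), ← Cardinal.succ_aleph, Cardinal.aleph_zero]
    refine Order.succ_le_of_lt ?_
    rw [← not_le, Cardinal.le_aleph0_iff_set_countable]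
    exact hB
  obtain ⟨e⟩ := hle
  obtain ⟨f, hf⟩ := exists_surjective_nat ℚ
  let q : ℕ → ℝ := fun n => (f (Nat.unpair n).1 : ℝ)
  have hq : ∀ N : ℕ, ∀ r : ℚ, ∃ n, N ≤ n ∧ q n = r := by
    intro N r
    obtain ⟨k, rfl⟩ := hf r
    exact ⟨Nat.pair k N, Nat.right_le_pair k N, by simp [q]⟩
  have hF : ∀ a n, ∃ k : ℕ, 1 / ((k : ℝ) + 1) < |(e a : ℝ) - q n| := by
    intro a n
    apply exists_nat_one_div_lt
    rw [abs_pos, sub_ne_zero]
    intro h'
    exact (e a).2.2 ⟨_, h'.symm⟩
  choose F hF using hF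
  obtain ⟨g, hg⟩ := h.bounded F
  have hM := hA2 _ (meagre_of_bounded q hq g)
  have hsub : range (fun a => (e a : ℝ)) ⊆
      A ∩ {x : ℝ | ∃ N, ∀ n, N ≤ n → 1 / ((g n : ℝ) + 1) ≤ |x - q n|} := by
    rintro _ ⟨a, rfl⟩
    refine ⟨(e a).2.1, ?_⟩
    obtain ⟨N, hN⟩ := hg a
    refine ⟨N, fun n hn => (le_trans ?_ (hF a n).le)⟩
    have h1 : (F a n : ℝ) ≤ g n := by exact_mod_cast hN n hn
    exact one_div_le_one_div_of_le (by positivity) (by linarith)
  have hc := hM.mono hsub
  apply h.uncountable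
  have hinj : Function.Injective fun a => (e a : ℝ) := fun a b hab =>
    e.injective (Subtype.val_injective hab)
  have : Countable W := by
    have h2 : Countable (range fun a => (e a : ℝ)) := hc.to_subtype
    exact Function.Injective.countable (f := fun a => (⟨_, a, rfl⟩ : range fun a => (e a : ℝ)))
      fun a b hab => hinj (Subtype.mk.inj hab)
  exact countable_univ

end Pool.Agent.W635.DowZfc
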