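import Mathlib

/-!
# Raw conditions with blocks: the order, restriction, gluing, unions and clones
-/

set_option autoImplicit false

noncomputable section

namespace Pool.Agent.W635.GP

open Classical

/-- Codes of clopen subsets of `2^ℕ`, with a tag: `((m, s), k)` codes the set of the `x` such that
`{n < m | x n = true}` is in `s`; `k` is the tag. -/
abbrev Code := (ℕ × Finset (Finset ℕ)) × ℕ

/-- The point `x` belongs to the clopen set with code `c`. -/
def Mem (x : ℕ → Bool) (c : Code) : Prop :=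
  (Finset.range c.1.1).filter (fun n => x n = true) ∈ c.1.2

theorem mem_congr {x y : ℕ → Bool} {c : Code} {L : ℕ} (hL : c.1.1 ≤ L)
    (h : ∀ n < L, x n = y n) : Mem x c ↔ Mem y c := by
  have : (Finset.range c.1.1).filter (fun n => x n = true) =
      (Finset.range c.1.1).filter (fun n => y n = true) := by
    apply Finset.filter_congr
    intro n hn
    rw [h n (lt_of_lt_of_le (Finset.mem_range.1 hn) hL)]
  unfold Mem
  rw [this]

/-- Raw conditions. -/
structure Raw (W J B : Type) where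
  L : ℕ
  F : Finset W
  x : W → ℕ → Bool
  S : Finset B
  K : B → Finset J
  l : B → ℕ
  g : B → J → ℕ → Code

variable {W J B : Type}

/-- At the new steps of `r` over `q` the real `y` is in at least one of every two sets. -/
def Ok (r q : Raw W J B) (y : ℕ → Bool) : Prop :=
  ∀ b ∈ q.S, ∀ j ∈ q.K b, ∀ j' ∈ q.K b, j ≠ j' → ∀ n, q.l b ≤ n → n < r.l b →
    Mem y (r.g b j n) ∨ Mem y (r.g b j' n)

/-- The supports of the codes are bounded by `L`. -/
def Supp (p : Raw W J B) : Prop :=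
  ∀ b ∈ p.S, ∀ j ∈ p.K b, ∀ n < p.l b, (p.g b j n).1.1 ≤ p.L

/-- The order of raw conditions. -/
structure Le (r q : Raw W J B) : Prop where
  L : q.L ≤ r.L
  F : q.F ⊆ r.F
  x : ∀ β ∈ q.F, ∀ n < q.L, r.x β n = q.x β n
  S : q.S ⊆ r.S
  K : ∀ b ∈ q.S, q.K b ⊆ r.K b
  l : ∀ b ∈ q.S, q.l b ≤ r.l b
  g : ∀ b ∈ q.S, ∀ j ∈ q.K b, ∀ n < q.l b, r.g b j n = q.g b j n
  cov : ∀ β ∈ q.F, Ok r q (r.x β)
  clone : ∀ β ∈ q.F, ∀ n, q.L ≤ n → n < r.L →
    ∃ γ ∈ r.F, (∀ m < q.L, r.x γ m = q.x β m) ∧ r.x γ n = false ∧ Ok r q (r.x γ)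

theorem le_refl' (p : Raw W J B) : Le p p where
  L := le_rfl
  F := Finset.Subset.refl _
  x := fun _ _ _ _ => rfl
  S := Finset.Subset.refl _
  K := fun _ _ => Finset.Subset.refl _
  l := fun _ _ => le_rfl
  g := fun _ _ _ _ _ _ => rfl
  cov := fun _ _ _ _ _ _ _ _ _ _ h1 h2 => absurd h2 (not_lt.2 h1)
  clone := fun _ _ _ h1 h2 => absurd h2 (not_lt.2 h1)

theorem ok_trans {s r q : Raw W J B} (h1 : Le s r) (h2 : Le r q) (hS : Supp r)
    {y z : ℕ → Bool} (hyz : ∀ m < r.L, y m = z m) (hz : Ok r q z) (hy : Ok s r y) :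
    Ok s q y := by
  intro b hb j hj j' hj' hne n hn1 hn2
  by_cases hn : n < r.l b
  · rw [h1.g b (h2.S hb) j (h2.K b hb hj) n hn, h1.g b (h2.S hb) j' (h2.K b hb hj') n hn,
      mem_congr (hS b (h2.S hb) j (h2.K b hb hj) n hn) hyz,
      mem_congr (hS b (h2.S hb) j' (h2.K b hb hj') n hn) hyz]
    exact hz b hb j hj j' hj' hne n hn1 hn
  · exact hy b (h2.S hb) j (h2.K b hb hj) j' (h2.K b hb hj') hne n (not_lt.1 hn) hn2

theorem le_trans' {s r q : Raw W J B} (h1 : Le s r) (h2 : Le r q) (hS : Supp r) : Le s q where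
  L := h2.L.trans h1.L
  F := h2.F.trans h1.F
  x := fun β hβ n hn => by
    rw [h1.x β (h2.F hβ) n (hn.trans_le h2.L), h2.x β hβ n hn]
  S := h2.S.trans h1.S
  K := fun b hb => (h2.K b hb).trans (h1.K b (h2.S hb))
  l := fun b hb => (h2.l b hb).trans (h1.l b (h2.S hb))
  g := fun b hb j hj n hn => by
    rw [h1.g b (h2.S hb) j (h2.K b hb hj) n (hn.trans_le (h2.l b hb)), h2.g b hb j hj n hn]
  cov := fun β hβ => ok_trans h1 h2 hS (fun m hm => h1.x β (h2.F hβ) m hm) (h2.cov β hβ)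
    (h1.cov β (h2.F hβ))
  clone := fun β hβ n hn1 hn2 => by
    by_cases hn : n < r.L
    · obtain ⟨γ, hγ, h3, h4, h5⟩ := h2.clone β hβ n hn1 hn
      refine ⟨γ, h1.F hγ, fun m hm => ?_, ?_, ?_⟩
      · rw [h1.x γ hγ m (hm.trans_le h2.L), h3 m hm]
      · rw [h1.x γ hγ n hn, h4]
      · exact ok_trans h1 h2 hS (fun m hm => h1.x γ hγ m hm) h5 (h1.cov γ hγ)
    · obtain ⟨γ, hγ, h3, h4, h5⟩ := h1.clone β (h2.F hβ) n (not_lt.1 hn) hn2
      refine ⟨γ, hγ, fun m hm => ?_, h4, ?_⟩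
      · rw [h3 m (hm.trans_le h2.L), h2.x β hβ m hm]
      · exact ok_trans h1 h2 hS h3 (h2.cov β hβ) h5

/-- The order when there are no new steps and no new levels. -/
theorem le_of_same {r q : Raw W J B} (hL : r.L = q.L) (hF : q.F ⊆ r.F)
    (hx : ∀ β ∈ q.F, ∀ n < q.L, r.x β n = q.x β n) (hS : q.S ⊆ r.S)
    (hK : ∀ b ∈ q.S, q.K b ⊆ r.K b) (hl : ∀ b ∈ q.S, r.l b = q.l b)
    (hg : ∀ b ∈ q.S, ∀ j ∈ q.K b, ∀ n < q.l b, r.g b j n = q.g b j n) : Le r q where
  L := hL.ge
  F := hF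
  x := hx
  S := hS
  K := hK
  l := fun b hb => (hl b hb).ge
  g := hg
  cov := fun β _ b hb j _ j' _ _ n h1 h2 => absurd h2 (not_lt.2 (by rw [hl b hb]; exact h1))
  clone := fun β _ n h1 h2 => absurd h2 (not_lt.2 (by rw [hL]; exact h1))

/-! ### Restriction -/

/-- The restriction of a condition to a set of blocks. -/
def res (A : Set B) (p : Raw W J B) : Raw W J B where
  L := p.L
  F := p.F
  x := p.x
  S := p.S.filter (· ∈ A)
  K := p.K
  l := p.l
  g := p.g

theorem mem_res {A : Set B} {p : Raw W J B} {b : B} : b ∈ (res A p).S ↔ b ∈ p.S ∧ b ∈ A :=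
  Finset.mem_filter

theorem le_res (A : Set B) (p : Raw W J B) : Le p (res A p) :=
  le_of_same rfl (Finset.Subset.refl _) (fun _ _ _ _ => rfl) (Finset.filter_subset _ _)
    (fun _ _ => Finset.Subset.refl _) (fun _ _ => rfl) (fun _ _ _ _ _ _ => rfl)

theorem res_le {A : Set B} {p t : Raw W J B} (h : Le p t) (ht : ∀ b ∈ t.S, b ∈ A) :
    Le (res A p) t where
  L := h.L
  F := h.F
  x := h.x
  S := fun b hb => mem_res.2 ⟨h.S hb, ht b hb⟩
  K := h.K
  l := h.l
  g := h.g
  cov := h.cov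
  clone := h.clone

/-! ### Gluing -/

/-- The blocks in `A` come from `r`, the other ones from `p`. -/
def glue (A : Set B) (r p : Raw W J B) : Raw W J B where
  L := r.L
  F := r.F
  x := r.x
  S := r.S ∪ p.S
  K := fun b => if b ∈ A then r.K b else p.K b
  l := fun b => if b ∈ A then r.l b else p.l b
  g := fun b => if b ∈ A then r.g b else p.g b

theorem glue_le_left {A : Set B} {r p : Raw W J B} (hr : ∀ b ∈ r.S, b ∈ A) :
    Le (glue A r p) r := by
  refine le_of_same rfl (Finset.Subset.refl _) (fun _ _ _ _ => rfl) (Finset.subset_union_left)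
    (fun b hb => ?_) (fun b hb => ?_) (fun b hb j hj n hn => ?_)
  · simp [glue, hr b hb]
  · simp [glue, hr b hb]
  · simp [glue, hr b hb]

theorem glue_ok {A : Set B} {r p : Raw W J B} {y : ℕ → Bool} (h : Ok r (res A p) y) :
    Ok (glue A r p) p y := by
  intro b hb j hj j' hj' hne n hn1 hn2
  by_cases hA : b ∈ A
  · have h1 := h b (mem_res.2 ⟨hb, hA⟩) j hj j' hj' hne n hn1
    simp only [glue, hA, if_true] at hn2 ⊢
    exact h1 hn2
  · simp only [glue, hA, if_false] at hn2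
    exact absurd hn2 (not_lt.2 hn1)

theorem glue_le_right {A : Set B} {r p : Raw W J B} (h : Le r (res A p)) :
    Le (glue A r p) p where
  L := h.L
  F := h.F
  x := h.x
  S := Finset.subset_union_right
  K := fun b hb => by
    by_cases hA : b ∈ A
    · simp only [glue, hA, if_true]
      exact h.K b (mem_res.2 ⟨hb, hA⟩)
    · simp only [glue, hA, if_false]
      exact Finset.Subset.refl _
  l := fun b hb => by
    by_cases hA : b ∈ A
    · simp only [glue, hA, if_true]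
      exact h.l b (mem_res.2 ⟨hb, hA⟩)
    · simp only [glue, hA, if_false]
      exact le_rfl
  g := fun b hb j hj n hn => by
    by_cases hA : b ∈ A
    · simp only [glue, hA, if_true]
      exact h.g b (mem_res.2 ⟨hb, hA⟩) j hj n hn
    · simp only [glue, hA, if_false]
  cov := fun β hβ => glue_ok (h.cov β hβ)
  clone := fun β hβ n hn1 hn2 => by
    obtain ⟨γ, hγ, h1, h2, h3⟩ := h.clone β hβ n hn1 hn2
    exact ⟨γ, hγ, h1, h2, glue_ok h3⟩

/-! ### Blocks with names -/

variable (T : B → ℕ → Raw W J B × Code)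

/-- `b'` occurs in the name of `b`. -/
def Child (b' b : B) : Prop := ∃ i, b' ∈ (T b i).1.S

/-- The blocks strictly below `b`. -/
def Below (b : B) : Set B := {b' | Relation.TransGen (Child T) b' b}

/-- A closed set of blocks. -/
def Closed (A : Set B) : Prop := ∀ b ∈ A, ∀ i, ∀ b' ∈ (T b i).1.S, b' ∈ A

/-- Admissible conditions with blocks in `G`. -/
structure Adm (G : Set B) (p : Raw W J B) : Prop where
  mem : ∀ b ∈ p.S, b ∈ G
  ne : ∀ b ∈ p.S, (p.K b).Nonempty
  supp : Supp p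
  wit : ∀ b ∈ p.S, ∀ j ∈ p.K b, ∀ n < p.l b, ∃ i, (T b i).2 = p.g b j n ∧ Le p (T b i).1
  tag : ∀ b ∈ p.S, ∀ j ∈ p.K b, ∀ n m, n < m → m < p.l b → (p.g b j n).2 < (p.g b j m).2

/-- The name of `b` is a name of an `ω`-cover for the conditions with blocks below `b`. -/
def Local (b : B) : Prop :=
  (∀ i, Adm T (Below T b) (T b i).1) ∧
    ∀ q, Adm T (Below T b) q → ∀ (F : Finset W) (m : ℕ), ∃ r, Adm T (Below T b) r ∧ Le r q ∧
      F ⊆ r.F ∧ ∃ i, Le r (T b i).1 ∧ m ≤ (T b i).2.2 ∧ (T b i).2.1.1 ≤ r.L ∧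
        ∀ β ∈ F, Mem (r.x β) (T b i).2

/-- The good blocks. -/
def Good : Set B := {b | ∀ b', Relation.ReflTransGen (Child T) b' b → Local T b'}

variable {T}

theorem closed_below (b : B) : Closed T (Below T b) := fun _ hb i b'' hb'' =>
  Relation.TransGen.head ⟨i, hb''⟩ hb

theorem closed_good : Closed T (Good T) := fun _ hb i b'' hb'' b' hb' =>
  hb b' (hb'.trans (Relation.ReflTransGen.single ⟨i, hb''⟩))

theorem below_sub_good {b : B} (hb : b ∈ Good T) : Below T b ⊆ Good T := fun b' hb' b'' hb'' =>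
  hb b'' (hb''.trans hb'.to_reflTransGen)

theorem local_of_good {b : B} (hb : b ∈ Good T) : Local T b := hb b Relation.ReflTransGen.refl

theorem Adm.mono {G G' : Set B} {p : Raw W J B} (h : Adm T G p) (hG : G ⊆ G') : Adm T G' p :=
  ⟨fun b hb => hG (h.mem b hb), h.ne, h.supp, h.wit, h.tag⟩

theorem adm_res {G A : Set B} {p : Raw W J B} (h : Adm T G p) (hA : Closed T A) :
    Adm T A (res A p) where
  mem := fun b hb => (mem_res.1 hb).2
  ne := fun b hb => h.ne b (mem_res.1 hb).1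
  supp := fun b hb => h.supp b (mem_res.1 hb).1
  wit := fun b hb j hj n hn => by
    obtain ⟨i, h1, h2⟩ := h.wit b (mem_res.1 hb).1 j hj n hn
    exact ⟨i, h1, res_le h2 (hA b (mem_res.1 hb).2 i)⟩
  tag := fun b hb => h.tag b (mem_res.1 hb).1

theorem adm_glue {G A : Set B} {r p : Raw W J B} (hr : Adm T A r) (hp : Adm T G p)
    (hAG : A ⊆ G) (h : Le r (res A p)) : Adm T G (glue A r p) := by
  have key : ∀ b ∈ (glue A r p).S, (b ∈ A ∧ b ∈ r.S) ∨ (b ∉ A ∧ b ∈ p.S) := by
    intro b hb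
    rcases Finset.mem_union.1 hb with h1 | h1
    · exact Or.inl ⟨hr.mem b h1, h1⟩
    · by_cases hA : b ∈ A
      · exact Or.inl ⟨hA, h.S (mem_res.2 ⟨h1, hA⟩)⟩
      · exact Or.inr ⟨hA, h1⟩
  refine ⟨fun b hb => ?_, fun b hb => ?_, fun b hb j hj n hn => ?_, fun b hb j hj n hn => ?_,
    fun b hb j hj n m hnm hm => ?_⟩
  · rcases key b hb with ⟨h1, _⟩ | ⟨_, h2⟩
    · exact hAG h1
    · exact hp.mem b h2
  · rcases key b hb with ⟨h1, h2⟩ | ⟨h1, h2⟩
    · simp only [glue, h1, if_true]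
      exact hr.ne b h2
    · simp only [glue, h1, if_false]
      exact hp.ne b h2
  · rcases key b hb with ⟨h1, h2⟩ | ⟨h1, h2⟩
    · simp only [glue, h1, if_true] at hj hn ⊢
      exact hr.supp b h2 j hj n hn
    · simp only [glue, h1, if_false] at hj hn ⊢
      exact (hp.supp b h2 j hj n hn).trans h.L
  · rcases key b hb with ⟨h1, h2⟩ | ⟨h1, h2⟩
    · simp only [glue, h1, if_true] at hj hn
      obtain ⟨i, h3, h4⟩ := hr.wit b h2 j hj n hn
      refine ⟨i, ?_, le_trans' (glue_le_left hr.mem) h4 hr.supp⟩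
      simp only [glue, h1, if_true]
      exact h3
    · simp only [glue, h1, if_false] at hj hn
      obtain ⟨i, h3, h4⟩ := hp.wit b h2 j hj n hn
      refine ⟨i, ?_, le_trans' (glue_le_right h) h4 hp.supp⟩
      simp only [glue, h1, if_false]
      exact h3
  · rcases key b hb with ⟨h1, h2⟩ | ⟨h1, h2⟩
    · simp only [glue, h1, if_true] at hj hm ⊢
      exact hr.tag b h2 j hj n m hnm hm
    · simp only [glue, h1, if_false] at hj hm ⊢
      exact hp.tag b h2 j hj n m hnm hm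

/-- When `r` and `p` have the same blocks then admissibility passes from `p` to `r ≤ p`. -/
theorem adm_of_same {G : Set B} {r p : Raw W J B} (hp : Adm T G p) (h : Le r p)
    (hS : r.S = p.S) (hK : ∀ b ∈ p.S, r.K b = p.K b) (hl : ∀ b ∈ p.S, r.l b = p.l b) :
    Adm T G r := by
  refine ⟨fun b hb => ?_, fun b hb => ?_, fun b hb j hj n hn => ?_, fun b hb j hj n hn => ?_,
    fun b hb j hj n m hnm hm => ?_⟩
  · rw [hS] at hb
    exact hp.mem b hb
  · rw [hS] at hb
    rw [hK b hb]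
    exact hp.ne b hb
  · rw [hS] at hb
    rw [hK b hb] at hj
    rw [hl b hb] at hn
    rw [h.g b hb j hj n hn]
    exact (hp.supp b hb j hj n hn).trans h.L
  · rw [hS] at hb
    rw [hK b hb] at hj
    rw [hl b hb] at hn
    obtain ⟨i, h1, h2⟩ := hp.wit b hb j hj n hn
    refine ⟨i, ?_, le_trans' h h2 hp.supp⟩
    rw [h.g b hb j hj n hn, h1]
  · rw [hS] at hb
    rw [hK b hb] at hj
    rw [hl b hb] at hm
    rw [h.g b hb j hj n (hnm.trans hm), h.g b hb j hj m hm]
    exact hp.tag b hb j hj n m hnm hm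

/-! ### Changing a real to its clone -/

/-- `β` gets the data of `γ`, the new index `δ` the old data of `β`. -/
def swap (r : Raw W J B) (β γ δ : W) : Raw W J B where
  L := r.L
  F := insert δ r.F
  x := Function.update (Function.update r.x β (r.x γ)) δ (r.x β)
  S := r.S
  K := r.K
  l := r.l
  g := r.g

theorem swap_le {r t : Raw W J B} {β γ δ : W} (hβ : β ∈ r.F) (hδ : δ ∉ r.F) (h : Le r t)
    (hc : β ∈ t.F → (∀ m < t.L, r.x γ m = t.x β m) ∧ Ok r t (r.x γ)) :
    Le (swap r β γ δ) t := by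
  have hδβ : δ ≠ β := fun h' => hδ (h' ▸ hβ)
  have hx1 : ∀ γ' ∈ r.F, γ' ≠ β → (swap r β γ δ).x γ' = r.x γ' := by
    intro γ' h1 h2
    have h3 : γ' ≠ δ := fun h' => hδ (h' ▸ h1)
    simp [swap, Function.update_of_ne h3, Function.update_of_ne h2]
  have hx2 : (swap r β γ δ).x δ = r.x β := by simp [swap]
  have hx3 : (swap r β γ δ).x β = r.x γ := by
    simp [swap, Function.update_of_ne hδβ.symm]
  refine ⟨h.L, h.F.trans (Finset.subset_insert _ _), fun β' hβ' n hn => ?_, h.S, h.K, h.l, h.g,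
    fun β' hβ' => ?_, fun β' hβ' n hn1 hn2 => ?_⟩
  · by_cases he : β' = β
    · subst he
      rw [hx3]
      exact (hc hβ').1 n hn
    · rw [hx1 β' (h.F hβ') he]
      exact h.x β' hβ' n hn
  · by_cases he : β' = β
    · subst he
      rw [hx3]
      exact (hc hβ').2
    · rw [hx1 β' (h.F hβ') he]
      exact h.cov β' hβ'
  · obtain ⟨γ', h1, h2, h3, h4⟩ := h.clone β' hβ' n hn1 hn2
    by_cases he : γ' = β
    · subst he
      refine ⟨δ, Finset.mem_insert_self _ _, ?_, ?_, ?_⟩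
      · rw [hx2]
        exact h2
      · rw [hx2]
        exact h3
      · rw [hx2]
        exact h4
    · refine ⟨γ', Finset.mem_insert_of_mem h1, ?_, ?_, ?_⟩
      · rw [hx1 γ' h1 he]
        exact h2
      · rw [hx1 γ' h1 he]
        exact h3
      · rw [hx1 γ' h1 he]
        exact h4

theorem swap_self {r : Raw W J B} {β γ δ : W} (hβ : β ∈ r.F) (hδ : δ ∉ r.F) :
    (swap r β γ δ).x β = r.x γ := by
  have hδβ : δ ≠ β := fun h' => hδ (h' ▸ hβ)
  simp [swap, Function.update_of_ne hδβ.symm]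

theorem adm_swap {A : Set B} {r : Raw W J B} {β γ δ : W} (hr : Adm T A r) (hβ : β ∈ r.F)
    (hδ : δ ∉ r.F) (hA : ∀ b ∈ A, ∀ i, β ∉ (T b i).1.F) : Adm T A (swap r β γ δ) where
  mem := hr.mem
  ne := hr.ne
  supp := hr.supp
  wit := fun b hb j hj n hn => by
    obtain ⟨i, h1, h2⟩ := hr.wit b hb j hj n hn
    exact ⟨i, h1, swap_le hβ hδ h2 fun h3 => absurd h3 (hA b (hr.mem b hb) i)⟩
  tag := hr.tag

/-- The clone argument: if `r ≤ q` and `r ≤ s`, where `s` and the names in `A` do not mention `β`,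
then there is `u ≤ q, s` with `x_β(n) = 0`. -/
theorem exists_clone {G A : Set B} (hA : Closed T A) (hAG : A ⊆ G) {q r s : Raw W J B}
    [Infinite W] {β : W} {n : ℕ} (hq : Adm T G q) (hr : Adm T G r) (hrq : Le r q)
    (hrs : Le r s) (hs : ∀ b ∈ s.S, b ∈ A) (hβs : β ∉ s.F) (hβ : β ∈ q.F)
    (hAβ : ∀ b ∈ A, ∀ i, β ∉ (T b i).1.F) (hn1 : q.L ≤ n) (hn2 : n < r.L) :
    ∃ u, Adm T G u ∧ Le u q ∧ Le u s ∧ β ∈ u.F ∧ n < u.L ∧ u.x β n = false := by
  obtain ⟨γ, hγ, h1, h2, h3⟩ := hrq.clone β hβ n hn1 hn2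
  obtain ⟨δ, hδ⟩ := Infinite.exists_notMem_finset r.F
  have hβr : β ∈ r.F := hrq.F hβ
  have hr' : Adm T A (res A r) := adm_res hr hA
  have hr'' : Adm T A (swap (res A r) β γ δ) := adm_swap hr' hβr hδ hAβ
  have hle : Le (res A r) (res A q) := res_le (le_trans' hrq (le_res A q) hq.supp)
    fun b hb => (mem_res.1 hb).2
  have hle' : Le (swap (res A r) β γ δ) (res A q) := by
    refine swap_le hβr hδ hle fun _ => ⟨h1, ?_⟩
    intro b hb
    exact h3 b (mem_res.1 hb).1
  have hle3 : Le (swap (res A r) β γ δ) s :=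
    swap_le hβr hδ (res_le hrs hs) fun h => absurd h hβs
  refine ⟨glue A (swap (res A r) β γ δ) q, adm_glue hr'' hq hAG hle', glue_le_right hle',
    le_trans' (glue_le_left hr''.mem) hle3 hr''.supp, ?_, hn2, ?_⟩
  · exact Finset.mem_insert_of_mem hβr
  · show (swap (res A r) β γ δ).x β n = false
    rw [swap_self (r := res A r) hβr hδ]
    exact h2

end Pool.Agent.W635.GP
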