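import Mathlib
import Pool.Agent.W635.GPRaw
import Pool.Agent.Helper669.KDelta

/-!
# Extensions of conditions: reals, levels, indices, steps; compatibility
-/

set_option autoImplicit false

noncomputable section

namespace Pool.Agent.W635.GP

open Classical

variable {W J B : Type} {T : B → ℕ → Raw W J B × Code}

/-- Admissibility of a condition whose data come from admissible weaker conditions. -/
theorem adm_of_cover {G : Set B} {r : Raw W J B} (h1 : ∀ b ∈ r.S, b ∈ G)
    (h2 : ∀ b ∈ r.S, (r.K b).Nonempty)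
    (h3 : ∀ b ∈ r.S, ∀ j ∈ r.K b, r.l b = 0 ∨ ∃ q, Adm T G q ∧ Le r q ∧ b ∈ q.S ∧ j ∈ q.K b ∧
      r.l b = q.l b) : Adm T G r := by
  refine ⟨h1, h2, fun b hb j hj n hn => ?_, fun b hb j hj n hn => ?_,
    fun b hb j hj n m hnm hm => ?_⟩
  · rcases h3 b hb j hj with h | ⟨q, hq, hle, hbq, hjq, hl⟩
    · omega
    · rw [hl] at hn
      rw [hle.g b hbq j hjq n hn]
      exact (hq.supp b hbq j hjq n hn).trans hle.L
  · rcases h3 b hb j hj with h | ⟨q, hq, hle, hbq, hjq, hl⟩
    · omega
    · rw [hl] at hn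
      obtain ⟨i, h4, h5⟩ := hq.wit b hbq j hjq n hn
      exact ⟨i, by rw [hle.g b hbq j hjq n hn, h4], le_trans' hle h5 hq.supp⟩
  · rcases h3 b hb j hj with h | ⟨q, hq, hle, hbq, hjq, hl⟩
    · omega
    · rw [hl] at hm
      rw [hle.g b hbq j hjq n (hnm.trans hm), hle.g b hbq j hjq m hm]
      exact hq.tag b hbq j hjq n m hnm hm

/-! ### Adding reals -/

/-- Add a real. -/
def addR (p : Raw W J B) (β : W) (y : ℕ → Bool) : Raw W J B where
  L := p.L
  F := insert β p.F
  x := Function.update p.x β y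
  S := p.S
  K := p.K
  l := p.l
  g := p.g

theorem addR_le {p : Raw W J B} {β : W} (hβ : β ∉ p.F) (y : ℕ → Bool) : Le (addR p β y) p := by
  refine le_of_same rfl (Finset.subset_insert _ _) (fun β' hβ' n _ => ?_)
    (Finset.Subset.refl _) (fun _ _ => Finset.Subset.refl _) (fun _ _ => rfl)
    (fun _ _ _ _ _ _ => rfl)
  have : β' ≠ β := fun h => hβ (h ▸ hβ')
  simp [addR, Function.update_of_ne this]

theorem addR_adm {G : Set B} {p : Raw W J B} (hp : Adm T G p) {β : W} (hβ : β ∉ p.F)
    (y : ℕ → Bool) : Adm T G (addR p β y) :=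
  adm_of_same hp (addR_le hβ y) rfl (fun _ _ => rfl) (fun _ _ => rfl)

theorem exists_reals {G : Set B} {p : Raw W J B} (hp : Adm T G p) (F : Finset W) :
    ∃ r, Adm T G r ∧ Le r p ∧ F ⊆ r.F := by
  induction F using Finset.induction_on with
  | empty => exact ⟨p, hp, le_refl' p, Finset.empty_subset _⟩
  | insert β s _ ih =>
    obtain ⟨r, h1, h2, h3⟩ := ih
    by_cases hβ : β ∈ r.F
    · exact ⟨r, h1, h2, Finset.insert_subset hβ h3⟩
    · refine ⟨addR r β (fun _ => false), addR_adm h1 hβ _, le_trans' (addR_le hβ _) h2 h1.supp,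
        ?_⟩
      exact Finset.insert_subset_insert _ h3

/-- Duplicates of the reals in `s`. -/
theorem exists_dup [Infinite W] (p : Raw W J B) (s : Finset W) :
    ∃ r : Raw W J B, r.L = p.L ∧ p.F ⊆ r.F ∧ (∀ β ∈ p.F, r.x β = p.x β) ∧ r.S = p.S ∧ r.K = p.K ∧
      r.l = p.l ∧ r.g = p.g ∧ ∀ β ∈ s, ∃ γ ∈ r.F, γ ∉ p.F ∧ r.x γ = p.x β := by
  induction s using Finset.induction_on with
  | empty =>
    exact ⟨p, rfl, Finset.Subset.refl _, fun _ _ => rfl, rfl, rfl, rfl, rfl, by simp⟩
  | insert β s _ ih =>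
    obtain ⟨r, h1, h2, h3, h4, h5, h6, h7, h8⟩ := ih
    obtain ⟨δ, hδ⟩ := Infinite.exists_notMem_finset r.F
    have hne : ∀ γ ∈ r.F, γ ≠ δ := fun γ hγ h => hδ (h ▸ hγ)
    refine ⟨addR r δ (p.x β), h1, h2.trans (Finset.subset_insert _ _), fun β' hβ' => ?_, h4, h5,
      h6, h7, fun β' hβ' => ?_⟩
    · rw [← h3 β' hβ']
      simp [addR, Function.update_of_ne (hne β' (h2 hβ'))]
    · rcases Finset.mem_insert.1 hβ' with rfl | hβ'
      · exact ⟨δ, Finset.mem_insert_self _ _, fun h => hδ (h2 h), by simp [addR]⟩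
      · obtain ⟨γ, hγ, h9, h10⟩ := h8 β' hβ'
        refine ⟨γ, Finset.mem_insert_of_mem hγ, h9, ?_⟩
        rw [← h10]
        simp [addR, Function.update_of_ne (hne γ hγ)]

/-- One more level: the reals of `p` get the value `1` and have clones with value `0`. -/
theorem exists_level [Infinite W] {G : Set B} {p : Raw W J B} (hp : Adm T G p) :
    ∃ r, Adm T G r ∧ Le r p ∧ r.L = p.L + 1 ∧ ∀ β ∈ p.F, r.x β p.L = true := by
  obtain ⟨r, h1, h2, h3, h4, h5, h6, h7, h8⟩ := exists_dup p p.F
  let r' : Raw W J B :=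
    { L := p.L + 1
      F := r.F
      x := fun β n => if n < p.L then r.x β n else decide (β ∈ p.F)
      S := r.S
      K := r.K
      l := r.l
      g := r.g }
  have hok : ∀ y, Ok r' p y := by
    intro y b hb j _ j' _ _ n hn1 hn2
    have : r'.l b = p.l b := by
      show r.l b = p.l b
      rw [h6]
    omega
  have hle : Le r' p := by
    refine ⟨Nat.le_succ _, h2, fun β hβ n hn => ?_, h4.ge, fun b _ => ?_, fun b _ => ?_,
      fun b _ j _ n _ => ?_, fun β _ => hok _, fun β hβ n hn1 hn2 => ?_⟩
    · show (if n < p.L then r.x β n else decide (β ∈ p.F)) = p.x β n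
      rw [if_pos hn, h3 β hβ]
    · show p.K b ⊆ r.K b
      rw [h5]
    · show p.l b ≤ r.l b
      rw [h6]
    · show r.g b j n = p.g b j n
      rw [h7]
    · obtain ⟨γ, hγ, h9, h10⟩ := h8 β hβ
      refine ⟨γ, hγ, fun m hm => ?_, ?_, hok _⟩
      · show (if m < p.L then r.x γ m else decide (γ ∈ p.F)) = p.x β m
        rw [if_pos hm, h10]
      · show (if n < p.L then r.x γ n else decide (γ ∈ p.F)) = false
        rw [if_neg (not_lt.2 hn1)]
        simp [h9]
  refine ⟨r', adm_of_same hp hle h4 (fun b _ => ?_) (fun b _ => ?_), hle, rfl, fun β hβ => ?_⟩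
  · show r.K b = p.K b
    rw [h5]
  · show r.l b = p.l b
    rw [h6]
  · show (if p.L < p.L then r.x β p.L else decide (β ∈ p.F)) = true
    rw [if_neg (lt_irrefl _)]
    simp [hβ]

theorem exists_levels [Infinite W] {G : Set B} {p : Raw W J B} (hp : Adm T G p) (N : ℕ) :
    ∃ r, Adm T G r ∧ Le r p ∧ N ≤ r.L := by
  induction N with
  | zero => exact ⟨p, hp, le_refl' p, Nat.zero_le _⟩
  | succ N ih =>
    obtain ⟨r, h1, h2, h3⟩ := ih
    obtain ⟨s, h4, h5, h6, _⟩ := exists_level h1
    exact ⟨s, h4, le_trans' h5 h2 h1.supp, by omega⟩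

/-! ### Adding blocks and indices -/

theorem exists_index {G : Set B} {p : Raw W J B} (hp : Adm T G p) {b : B} (hb : b ∈ G) (j : J) :
    ∃ r, Adm T G r ∧ Le r p ∧ b ∈ r.S ∧ j ∈ r.K b := by
  by_cases hbS : b ∈ p.S
  · by_cases hj : j ∈ p.K b
    · exact ⟨p, hp, le_refl' p, hbS, hj⟩
    · obtain ⟨j0, hj0⟩ := hp.ne b hbS
      have hjj : ∀ j' ∈ p.K b, j' ≠ j := fun j' h h' => hj (h' ▸ h)
      let r : Raw W J B :=
        { L := p.L
          F := p.F
          x := p.x
          S := p.S
          K := Function.update p.K b (insert j (p.K b))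
          l := p.l
          g := Function.update p.g b (Function.update (p.g b) j (p.g b j0)) }
      have hle : Le r p := by
        refine le_of_same rfl (Finset.Subset.refl _) (fun _ _ _ _ => rfl)
          (Finset.Subset.refl _) (fun b' _ => ?_) (fun _ _ => rfl) (fun b' _ j' hj' n _ => ?_)
        · by_cases he : b' = b
          · subst he
            simp [r]
          · simp [r, Function.update_of_ne he]
        · by_cases he : b' = b
          · subst he
            simp [r, Function.update_of_ne (hjj j' hj')]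
          · simp [r, Function.update_of_ne he]
      refine ⟨r, ?_, hle, hbS, by simp [r]⟩
      refine ⟨fun b' hb' => hp.mem b' hb', fun b' hb' => ?_, fun b' hb' j' hj' n hn => ?_,
        fun b' hb' j' hj' n hn => ?_, fun b' hb' j' hj' n m hnm hm => ?_⟩
      · by_cases he : b' = b
        · subst he
          simp [r]
        · simpa [r, Function.update_of_ne he] using hp.ne b' hb'
      all_goals
        have key : ∃ j'' ∈ p.K b', r.g b' j' = p.g b' j'' := by
          by_cases he : b' = b
          · subst he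
            by_cases he' : j' = j
            · subst he'
              exact ⟨j0, hj0, by simp [r]⟩
            · refine ⟨j', ?_, by simp [r, Function.update_of_ne he']⟩
              have : j' ∈ insert j (p.K b') := by simpa [r] using hj'
              exact (Finset.mem_insert.1 this).resolve_left he'
          · refine ⟨j', by simpa [r, Function.update_of_ne he] using hj', ?_⟩
            simp [r, Function.update_of_ne he]
        obtain ⟨j'', hj'', hg⟩ := key
        rw [hg]
      · exact hp.supp b' hb' j'' hj'' n hn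
      · obtain ⟨i, h1, h2⟩ := hp.wit b' hb' j'' hj'' n hn
        exact ⟨i, h1, le_trans' hle h2 hp.supp⟩
      · exact hp.tag b' hb' j'' hj'' n m hnm hm
  · have hne : ∀ b' ∈ p.S, b' ≠ b := fun b' h h' => hbS (h' ▸ h)
    let r : Raw W J B :=
      { L := p.L
        F := p.F
        x := p.x
        S := insert b p.S
        K := Function.update p.K b {j}
        l := Function.update p.l b 0
        g := p.g }
    have hle : Le r p := by
      refine le_of_same rfl (Finset.Subset.refl _) (fun _ _ _ _ => rfl)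
        (Finset.subset_insert _ _) (fun b' hb' => ?_) (fun b' hb' => ?_) (fun _ _ _ _ _ _ => rfl)
      · simp [r, Function.update_of_ne (hne b' hb')]
      · simp [r, Function.update_of_ne (hne b' hb')]
    refine ⟨r, adm_of_cover (fun b' hb' => ?_) (fun b' hb' => ?_) (fun b' hb' j' hj' => ?_), hle,
      by simp [r], by simp [r]⟩
    · rcases Finset.mem_insert.1 hb' with rfl | h
      · exact hb
      · exact hp.mem b' h
    · rcases Finset.mem_insert.1 hb' with rfl | h
      · simp [r]
      · simpa [r, Function.update_of_ne (hne b' h)] using hp.ne b' h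
    · rcases Finset.mem_insert.1 hb' with rfl | h
      · left
        simp [r]
      · right
        exact ⟨p, hp, hle, h, by simpa [r, Function.update_of_ne (hne b' h)] using hj',
          by simp [r, Function.update_of_ne (hne b' h)]⟩

/-! ### Compatibility -/

/-- Two conditions agree on their common data. -/
structure Agree (p q : Raw W J B) : Prop where
  L : p.L = q.L
  x : ∀ β ∈ p.F, β ∈ q.F → ∀ n < p.L, p.x β n = q.x β n
  l : ∀ b ∈ p.S, b ∈ q.S → p.l b = q.l b
  g : ∀ b ∈ p.S, b ∈ q.S → ∀ j ∈ p.K b, j ∈ q.K b → ∀ n < p.l b, p.g b j n = q.g b j n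

/-- The union of two conditions. -/
def un (p q : Raw W J B) : Raw W J B where
  L := p.L
  F := p.F ∪ q.F
  x := fun β => if β ∈ p.F then p.x β else q.x β
  S := p.S ∪ q.S
  K := fun b => (if b ∈ p.S then p.K b else ∅) ∪ (if b ∈ q.S then q.K b else ∅)
  l := fun b => if b ∈ p.S then p.l b else q.l b
  g := fun b j => if b ∈ p.S ∧ j ∈ p.K b then p.g b j else q.g b j

theorem un_le_left (p q : Raw W J B) : Le (un p q) p := by
  refine le_of_same rfl Finset.subset_union_left (fun β hβ n _ => ?_) Finset.subset_union_left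
    (fun b hb => ?_) (fun b hb => ?_) (fun b hb j hj n _ => ?_)
  · simp [un, hβ]
  · simp [un, hb]
  · simp [un, hb]
  · simp [un, hb, hj]

theorem un_le_right {p q : Raw W J B} (h : Agree p q) : Le (un p q) q := by
  refine le_of_same h.L Finset.subset_union_right (fun β hβ n hn => ?_)
    Finset.subset_union_right (fun b hb => ?_) (fun b hb => ?_) (fun b hb j hj n hn => ?_)
  · by_cases h1 : β ∈ p.F
    · simp only [un, h1, if_true]
      exact h.x β h1 hβ n (by rw [h.L]; exact hn)
    · simp [un, h1]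
  · simp [un, hb]
  · by_cases h1 : b ∈ p.S
    · simp only [un, h1, if_true]
      exact h.l b h1 hb
    · simp [un, h1]
  · by_cases h1 : b ∈ p.S ∧ j ∈ p.K b
    · simp only [un, h1, and_self, if_true]
      exact h.g b h1.1 hb j h1.2 hj n (by rw [h.l b h1.1 hb]; exact hn)
    · simp [un, h1]

theorem un_adm {G : Set B} {p q : Raw W J B} (hp : Adm T G p) (hq : Adm T G q)
    (h : Agree p q) : Adm T G (un p q) := by
  refine adm_of_cover (fun b hb => ?_) (fun b hb => ?_) (fun b hb j hj => Or.inr ?_)
  · rcases Finset.mem_union.1 hb with h1 | h1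
    · exact hp.mem b h1
    · exact hq.mem b h1
  · rcases Finset.mem_union.1 hb with h1 | h1
    · obtain ⟨j, hj⟩ := hp.ne b h1
      exact ⟨j, by simp [un, h1, hj]⟩
    · obtain ⟨j, hj⟩ := hq.ne b h1
      exact ⟨j, by simp [un, h1, hj]⟩
  · rcases Finset.mem_union.1 hj with h1 | h1
    · by_cases hb1 : b ∈ p.S
      · rw [if_pos hb1] at h1
        exact ⟨p, hp, un_le_left p q, hb1, h1, by simp [un, hb1]⟩
      · rw [if_neg hb1] at h1
        simp at h1
    · by_cases hb1 : b ∈ q.S
      · rw [if_pos hb1] at h1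
        refine ⟨q, hq, un_le_right h, hb1, h1, ?_⟩
        by_cases hb2 : b ∈ p.S
        · simp only [un, hb2, if_true]
          exact h.l b hb2 hb1
        · simp [un, hb2]
      · rw [if_neg hb1] at h1
        simp at h1

open Cardinal in
/-- In an uncountable family of finite partial functions with countably many values two agree. -/
theorem exists_agree {E Z D : Type} [Countable D] (hE : ¬ Countable E) (dom : E → Finset Z)
    (val : E → Z → D) :
    ∃ e e', e ≠ e' ∧ ∀ z ∈ dom e, z ∈ dom e' → val e z = val e' z := by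
  have hE' : ¬ #E ≤ ℵ₀ := fun h => hE (mk_le_aleph0_iff.1 h)
  obtain ⟨S, R, h1, h2, h3⟩ := Pool.Agent.Helper669.KDelta.weak_delta (E := E) (K := Z) le_rfl
    hE' (fun e => (dom e : Set Z)) (fun e => by
      exact_mod_cast (dom e).finite_toSet.lt_aleph0)
  have hR : R.Countable := mk_le_aleph0_iff.1 h2 |>.to_set
  let U : Set (Z × D) := R ×ˢ Set.univ
  have hU : U.Countable := hR.prod Set.countable_univ
  have hfin := Set.countable_setOf_finite_subset hU
  let tr : E → Set (Z × D) := fun e => {u | u.1 ∈ dom e ∧ u.1 ∈ R ∧ u.2 = val e u.1}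
  have htr : ∀ e, (tr e).Finite ∧ tr e ⊆ U := by
    intro e
    refine ⟨?_, fun u hu => ⟨hu.2.1, Set.mem_univ _⟩⟩
    apply ((dom e).finite_toSet.image fun z => (z, val e z)).subset
    rintro ⟨z, d⟩ ⟨hu1, _, hu3⟩
    exact ⟨z, hu1, by simp at hu3; simp [hu3]⟩
  by_contra hcon
  push Not at hcon
  apply h1
  rw [mk_le_aleph0_iff]
  have : Countable {t : Set (Z × D) | t.Finite ∧ t ⊆ U} := hfin.to_subtype
  let φ : S → {t : Set (Z × D) | t.Finite ∧ t ⊆ U} := fun e => ⟨tr e.1, htr e.1⟩
  apply Function.Injective.countable (f := φ)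
  intro e e' hee
  by_contra hne
  have hne' : e.1 ≠ e'.1 := fun h => hne (Subtype.ext h)
  obtain ⟨z, hz1, hz2, hz3⟩ := hcon e.1 e'.1 hne'
  apply hz3
  have hzR : z ∈ R := h3 e.1 e.2 e'.1 e'.2 hne' ⟨hz1, hz2⟩
  have h4 : tr e.1 = tr e'.1 := congrArg Subtype.val hee
  have h5 : (z, val e.1 z) ∈ tr e'.1 := h4 ▸ ⟨hz1, hzR, rfl⟩
  exact h5.2.2

/-- Coordinates of conditions. -/
inductive Co (W J B : Type) : Type
  | top
  | real (β : W)
  | blk (b : B)
  | idx (b : B) (j : J)

/-- The domain of a condition. -/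
def cdom (p : Raw W J B) : Finset (Co W J B) :=
  {Co.top} ∪ p.F.image Co.real ∪ p.S.image Co.blk ∪
    p.S.biUnion fun b => (p.K b).image (Co.idx b)

/-- The values of a condition. -/
def cval (p : Raw W J B) : Co W J B → ℕ × Finset ℕ × Finset (ℕ × Code)
  | Co.top => (p.L, ∅, ∅)
  | Co.real β => (0, (Finset.range p.L).filter (fun n => p.x β n = true), ∅)
  | Co.blk b => (p.l b, ∅, ∅)
  | Co.idx b j => (0, ∅, (Finset.range (p.l b)).image fun n => (n, p.g b j n))

theorem agree_of {p q : Raw W J B}
    (h : ∀ z ∈ cdom p, z ∈ cdom q → cval p z = cval q z) : Agree p q := by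
  have hL : p.L = q.L := by
    have := h Co.top (by simp [cdom]) (by simp [cdom])
    simpa [cval] using this
  have hl : ∀ b ∈ p.S, b ∈ q.S → p.l b = q.l b := by
    intro b hb hb'
    have := h (Co.blk b) (by simp [cdom, hb]) (by simp [cdom, hb'])
    simpa [cval] using this
  refine ⟨hL, fun β hβ hβ' n hn => ?_, hl, fun b hb hb' j hj hj' n hn => ?_⟩
  · have := h (Co.real β) (by simp [cdom, hβ]) (by simp [cdom, hβ'])
    simp only [cval, Prod.mk.injEq, and_true, true_and] at this
    have h2 : n ∈ (Finset.range p.L).filter (fun n => p.x β n = true) ↔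
        n ∈ (Finset.range q.L).filter (fun n => q.x β n = true) := by rw [this]
    simp only [Finset.mem_filter, Finset.mem_range, hn, true_and, ← hL] at h2
    cases h3 : p.x β n <;> cases h4 : q.x β n <;> simp_all
  · have := h (Co.idx b j) (by simp [cdom, hb, hj]) (by simp [cdom, hb', hj'])
    simp only [cval, Prod.mk.injEq, true_and] at this
    have h2 : (n, p.g b j n) ∈ (Finset.range (p.l b)).image (fun n => (n, p.g b j n)) :=
      Finset.mem_image.2 ⟨n, Finset.mem_range.2 hn, rfl⟩
    rw [this] at h2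
    obtain ⟨m, _, hm⟩ := Finset.mem_image.1 h2
    have h3 := Prod.mk.inj hm
    rw [← h3.2, h3.1]

end Pool.Agent.W635.GP
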