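import Mathlib
import Pool.Agent.W635.GPDens

/-!
# New steps at a block
-/

set_option autoImplicit false

noncomputable section

namespace Pool.Agent.W635.GP

open Classical

variable {W J B : Type} {T : B → ℕ → Raw W J B × Code}

theorem not_mem_below (hwf : WellFounded (Child T)) (b : B) : b ∉ Below T b := by
  intro h
  have h1 : IsWellFounded B (Relation.TransGen (Child T)) := ⟨hwf.transGen⟩
  exact (irrefl_of (Relation.TransGen (Child T)) b) h

/-- The invariant of the construction of a new step. -/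
structure Inv (T : B → ℕ → Raw W J B × Code) (p : Raw W J B) (b : B) (m : ℕ) (K' : Finset J)
    (r : Raw W J B) (d : J → Code) : Prop where
  adm : Adm T (Good T) r
  le : Le r p
  sameS : ∀ b' ∈ r.S, b' ∉ Below T b → b' ∈ p.S
  sameK : ∀ b' ∈ p.S, b' ∉ Below T b → r.K b' = p.K b'
  samel : ∀ b' ∈ p.S, b' ∉ Below T b → r.l b' = p.l b'
  wit : ∀ j ∈ K', ∃ i, (T b i).2 = d j ∧ Le r (T b i).1
  supp : ∀ j ∈ K', (d j).1.1 ≤ r.L
  tag : ∀ j ∈ K', m ≤ (d j).2
  all : ∀ j ∈ K', ∀ β ∈ p.F, Mem (r.x β) (d j)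
  clone : ∀ β ∈ p.F, ∀ n, p.L ≤ n → n < r.L → ∃ γ ∈ r.F, (∀ k < p.L, r.x γ k = p.x β k) ∧
    r.x γ n = false ∧ Ok r p (r.x γ) ∧
      ∀ j ∈ K', ∀ j' ∈ K', j ≠ j' → Mem (r.x γ) (d j) ∨ Mem (r.x γ) (d j')

theorem exists_inv {p : Raw W J B} (hp : Adm T (Good T) p) {b : B} (hb : b ∈ Good T) (m : ℕ)
    (K' : Finset J) : ∃ r d, Inv T p b m K' r d := by
  induction K' using Finset.induction_on with
  | empty =>
    refine ⟨p, fun _ => ((0, ∅), 0), hp, le_refl' p, fun _ h _ => h, fun _ _ _ => rfl,
      fun _ _ _ => rfl, by simp, by simp, by simp, by simp, fun β _ n h1 h2 => ?_⟩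
    exact absurd h2 (not_lt.2 h1)
  | insert j0 K' hj0 ih =>
    obtain ⟨r, d, h⟩ := ih
    have hne : ∀ j ∈ K', j ≠ j0 := fun j h1 h2 => hj0 (h2 ▸ h1)
    have hcl := closed_below (T := T) b
    obtain ⟨r1, hr1, hle1, hF1, i, hi, him, hiL, hiM⟩ :=
      (local_of_good hb).2 (res (Below T b) r) (adm_res h.adm hcl) r.F m
    have hadm : Adm T (Good T) (glue (Below T b) r1 r) :=
      adm_glue hr1 h.adm (below_sub_good hb) hle1
    have hle : Le (glue (Below T b) r1 r) r := glue_le_right hle1
    have hle' : Le (glue (Below T b) r1 r) r1 := glue_le_left hr1.mem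
    have hd : ∀ j ∈ K', Function.update d j0 (T b i).2 j = d j := fun j hj =>
      Function.update_of_ne (hne j hj) _ _
    refine ⟨glue (Below T b) r1 r, Function.update d j0 (T b i).2, hadm,
      le_trans' hle h.le h.adm.supp, fun b' hb' hb'' => ?_, fun b' hb' hb'' => ?_,
      fun b' hb' hb'' => ?_, fun j hj => ?_, fun j hj => ?_, fun j hj => ?_,
      fun j hj β hβ => ?_, fun β hβ n hn1 hn2 => ?_⟩
    · rcases Finset.mem_union.1 hb' with h1 | h1
      · exact absurd (hr1.mem b' h1) hb''
      · exact h.sameS b' h1 hb''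
    · rw [← h.sameK b' hb' hb'']
      simp [glue, hb'']
    · rw [← h.samel b' hb' hb'']
      simp [glue, hb'']
    · rcases Finset.mem_insert.1 hj with rfl | hj
      · exact ⟨i, by simp, le_trans' hle' hi hr1.supp⟩
      · obtain ⟨i', h1, h2⟩ := h.wit j hj
        exact ⟨i', by rw [hd j hj, h1], le_trans' hle h2 h.adm.supp⟩
    · rcases Finset.mem_insert.1 hj with rfl | hj
      · simp only [Function.update_self]
        exact hiL
      · rw [hd j hj]
        exact (h.supp j hj).trans hle.L
    · rcases Finset.mem_insert.1 hj with rfl | hj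
      · simpa using him
      · rw [hd j hj]
        exact h.tag j hj
    · rcases Finset.mem_insert.1 hj with rfl | hj
      · simp only [Function.update_self]
        exact hiM β (h.le.F hβ)
      · rw [hd j hj, mem_congr (h.supp j hj) (hle.x β (h.le.F hβ))]
        exact h.all j hj β hβ
    · have hβr : β ∈ r.F := h.le.F hβ
      by_cases hn : n < r.L
      · obtain ⟨γ, hγ, h1, h2, h3, h4⟩ := h.clone β hβ n hn1 hn
        have hγM : Mem ((glue (Below T b) r1 r).x γ) (T b i).2 := hiM γ hγ
        refine ⟨γ, hle.F hγ, fun k hk => ?_, ?_, ?_, fun j hj j' hj' hjj => ?_⟩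
        · rw [hle.x γ hγ k (hk.trans_le h.le.L), h1 k hk]
        · rw [hle.x γ hγ n hn, h2]
        · exact ok_trans hle h.le h.adm.supp (fun k hk => hle.x γ hγ k hk) h3 (hle.cov γ hγ)
        · rcases Finset.mem_insert.1 hj with rfl | hj
          · left
            simpa using hγM
          · rcases Finset.mem_insert.1 hj' with rfl | hj'
            · right
              simpa using hγM
            · rw [hd j hj, hd j' hj', mem_congr (h.supp j hj) (hle.x γ hγ),
                mem_congr (h.supp j' hj') (hle.x γ hγ)]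
              exact h4 j hj j' hj' hjj
      · obtain ⟨γ, hγ, h1, h2, h3⟩ := hle.clone β hβr n (not_lt.1 hn) hn2
        have hold : ∀ j ∈ K', Mem ((glue (Below T b) r1 r).x γ) (d j) := by
          intro j hj
          rw [mem_congr (h.supp j hj) h1]
          exact h.all j hj β hβ
        refine ⟨γ, hγ, fun k hk => ?_, h2, ?_, fun j hj j' hj' hjj => ?_⟩
        · rw [h1 k (hk.trans_le h.le.L), h.le.x β hβ k hk]
        · exact ok_trans hle h.le h.adm.supp h1 (h.le.cov β hβ) h3
        · by_cases hj1 : j = j0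
          · right
            have hj2 : j' ∈ K' := by
              rcases Finset.mem_insert.1 hj' with h5 | h5
              · exact absurd (hj1.trans h5.symm) hjj
              · exact h5
            rw [hd j' hj2]
            exact hold j' hj2
          · left
            have hj2 : j ∈ K' := (Finset.mem_insert.1 hj).resolve_left hj1
            rw [hd j hj2]
            exact hold j hj2

/-- One more step at `b`. -/
def addS (p r : Raw W J B) (b : B) (d : J → Code) : Raw W J B where
  L := r.L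
  F := r.F
  x := r.x
  S := r.S
  K := r.K
  l := Function.update r.l b (p.l b + 1)
  g := Function.update r.g b fun j n => if n = p.l b then d j else p.g b j n

theorem exists_step (hwf : WellFounded (Child T)) {p : Raw W J B} (hp : Adm T (Good T) p) {b : B}
    (hbS : b ∈ p.S) : ∃ r, Adm T (Good T) r ∧ Le r p ∧ r.l b = p.l b + 1 := by
  have hb : b ∈ Good T := hp.mem b hbS
  have hnb : b ∉ Below T b := not_mem_below hwf b
  obtain ⟨m, hm⟩ : ∃ m, ∀ j ∈ p.K b, ∀ n < p.l b, (p.g b j n).2 < m := by
    refine ⟨(p.K b).sup fun j => (Finset.range (p.l b)).sup fun n => (p.g b j n).2 + 1,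
      fun j hj n hn => ?_⟩
    have h1 : (p.g b j n).2 + 1 ≤ (Finset.range (p.l b)).sup fun n => (p.g b j n).2 + 1 :=
      Finset.le_sup (f := fun n => (p.g b j n).2 + 1) (Finset.mem_range.2 hn)
    have h2 := Finset.le_sup (f := fun j => (Finset.range (p.l b)).sup
      fun n => (p.g b j n).2 + 1) hj
    exact Nat.lt_of_succ_le (h1.trans h2)
  obtain ⟨r, d, h⟩ := exists_inv hp hb m (p.K b)
  set s := addS p r b d with hs
  have hlb : s.l b = p.l b + 1 := by simp [hs, addS]
  have hl : ∀ b' ≠ b, s.l b' = r.l b' := fun b' hb' => by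
    simp [hs, addS, Function.update_of_ne hb']
  have hgb : ∀ j n, s.g b j n = if n = p.l b then d j else p.g b j n := fun j n => by
    simp [hs, addS]
  have hg : ∀ b' ≠ b, s.g b' = r.g b' := fun b' hb' => by
    simp [hs, addS, Function.update_of_ne hb']
  have hKb : s.K b = p.K b := h.sameK b hbS hnb
  -- passing to `s`
  have hok : ∀ y, Ok r p y →
      (∀ j ∈ p.K b, ∀ j' ∈ p.K b, j ≠ j' → Mem y (d j) ∨ Mem y (d j')) → Ok s p y := by
    intro y h1 h2 b' hb' j hj j' hj' hne n hn1 hn2
    by_cases he : b' = b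
    · subst he
      rw [hlb] at hn2
      have : n = p.l b' := by omega
      rw [hgb, hgb, if_pos this, if_pos this]
      exact h2 j hj j' hj' hne
    · rw [hl b' he] at hn2
      rw [hg b' he]
      exact h1 b' hb' j hj j' hj' hne n hn1 hn2
  have hle : Le s p := by
    refine ⟨h.le.L, h.le.F, h.le.x, h.le.S, h.le.K, fun b' hb' => ?_, fun b' hb' j hj n hn => ?_,
      fun β hβ => hok _ (h.le.cov β hβ) fun j hj _ _ _ => Or.inl (h.all j hj β hβ),
      fun β hβ n hn1 hn2 => ?_⟩
    · by_cases he : b' = b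
      · subst he
        rw [hlb]
        exact Nat.le_succ _
      · rw [hl b' he]
        exact h.le.l b' hb'
    · by_cases he : b' = b
      · subst he
        rw [hgb, if_neg (by omega)]
      · rw [hg b' he]
        exact h.le.g b' hb' j hj n hn
    · obtain ⟨γ, hγ, h1, h2, h3, h4⟩ := h.clone β hβ n hn1 hn2
      exact ⟨γ, hγ, h1, h2, hok _ h3 h4⟩
  have hup : ∀ t : Raw W J B, Le r t → b ∉ t.S → Le s t := by
    intro t ht hbt
    have hne : ∀ b' ∈ t.S, b' ≠ b := fun b' h1 h2 => hbt (h2 ▸ h1)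
    have hok' : ∀ y, Ok r t y → Ok s t y := by
      intro y h1 b' hb' j hj j' hj' hjj n hn1 hn2
      rw [hl b' (hne b' hb')] at hn2
      rw [hg b' (hne b' hb')]
      exact h1 b' hb' j hj j' hj' hjj n hn1 hn2
    refine ⟨ht.L, ht.F, ht.x, ht.S, ht.K, fun b' hb' => ?_, fun b' hb' j hj n hn => ?_,
      fun β hβ => hok' _ (ht.cov β hβ), fun β hβ n hn1 hn2 => ?_⟩
    · rw [hl b' (hne b' hb')]
      exact ht.l b' hb'
    · rw [hg b' (hne b' hb')]
      exact ht.g b' hb' j hj n hn
    · obtain ⟨γ, hγ, h1, h2, h3⟩ := ht.clone β hβ n hn1 hn2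
      exact ⟨γ, hγ, h1, h2, hok' _ h3⟩
  have hchild : ∀ i, b ∉ (T b i).1.S := fun i h1 => hnb (Relation.TransGen.single ⟨i, h1⟩)
  refine ⟨s, ⟨h.adm.mem, h.adm.ne, fun b' hb' j hj n hn => ?_, fun b' hb' j hj n hn => ?_,
    fun b' hb' j hj n k hnk hk => ?_⟩, hle, hlb⟩
  · by_cases he : b' = b
    · subst he
      rw [hKb] at hj
      rw [hlb] at hn
      rw [hgb]
      by_cases hnl : n = p.l b'
      · rw [if_pos hnl]
        exact h.supp j hj
      · rw [if_neg hnl]
        exact (hp.supp b' hbS j hj n (by omega)).trans h.le.L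
    · rw [hl b' he] at hn
      rw [hg b' he]
      exact h.adm.supp b' hb' j hj n hn
  · by_cases he : b' = b
    · subst he
      rw [hKb] at hj
      rw [hlb] at hn
      rw [hgb]
      by_cases hnl : n = p.l b'
      · rw [if_pos hnl]
        obtain ⟨i, h1, h2⟩ := h.wit j hj
        exact ⟨i, h1, hup _ h2 (hchild i)⟩
      · rw [if_neg hnl]
        obtain ⟨i, h1, h2⟩ := hp.wit b' hbS j hj n (by omega)
        exact ⟨i, h1, le_trans' hle h2 hp.supp⟩
    · rw [hl b' he] at hn
      rw [hg b' he]
      by_cases hbe : b' ∈ Below T b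
      · obtain ⟨i, h1, h2⟩ := h.adm.wit b' hb' j hj n hn
        refine ⟨i, h1, hup _ h2 fun h3 => hnb ?_⟩
        exact closed_below b b' hbe i b h3
      · have hb'p := h.sameS b' hb' hbe
        have hj' : j ∈ p.K b' := by
          rw [← h.sameK b' hb'p hbe]
          exact hj
        have hn' : n < p.l b' := by
          rw [← h.samel b' hb'p hbe]
          exact hn
        obtain ⟨i, h1, h2⟩ := hp.wit b' hb'p j hj' n hn'
        refine ⟨i, ?_, le_trans' hle h2 hp.supp⟩
        rw [h1, ← h.le.g b' hb'p j hj' n hn']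
  · by_cases he : b' = b
    · subst he
      rw [hKb] at hj
      rw [hlb] at hk
      rw [hgb, hgb, if_neg (by omega : n ≠ p.l b')]
      by_cases hkl : k = p.l b'
      · rw [if_pos hkl]
        exact (hm j hj n (by omega)).trans_le (h.tag j hj)
      · rw [if_neg hkl]
        exact hp.tag b' hbS j hj n k hnk (by omega)
    · rw [hl b' he] at hk
      rw [hg b' he]
      exact h.adm.tag b' hb' j hj n k hnk hk

theorem exists_steps (hwf : WellFounded (Child T)) {p : Raw W J B} (hp : Adm T (Good T) p) {b : B}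
    (hbS : b ∈ p.S) (N : ℕ) : ∃ r, Adm T (Good T) r ∧ Le r p ∧ N ≤ r.l b := by
  induction N with
  | zero => exact ⟨p, hp, le_refl' p, Nat.zero_le _⟩
  | succ N ih =>
    obtain ⟨r, h1, h2, h3⟩ := ih
    obtain ⟨s, h4, h5, h6⟩ := exists_step hwf h1 (h2.S hbS)
    exact ⟨s, h4, le_trans' h5 h2 h1.supp, by omega⟩

end Pool.Agent.W635.GP
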