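import Mathlib
import Pool.Agent.W635.GPStep

/-!
# The blocks: every countable sequence of conditions and codes is the name of a block
-/

set_option autoImplicit false

noncomputable section

namespace Pool.Agent.W635.GP

open Classical

variable {W J B : Type}

/-- Two raw conditions have the same data. -/
structure Same (p q : Raw W J B) : Prop where
  L : p.L = q.L
  F : p.F = q.F
  x : p.x = q.x
  S : p.S = q.S
  K : ∀ b ∈ p.S, p.K b = q.K b
  l : ∀ b ∈ p.S, p.l b = q.l b
  g : ∀ b ∈ p.S, p.g b = q.g b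

theorem Same.symm {p q : Raw W J B} (h : Same p q) : Same q p :=
  ⟨h.L.symm, h.F.symm, h.x.symm, h.S.symm, fun b hb => (h.K b (h.S ▸ hb)).symm,
    fun b hb => (h.l b (h.S ▸ hb)).symm, fun b hb => (h.g b (h.S ▸ hb)).symm⟩

theorem Same.le {p q : Raw W J B} (h : Same p q) : Le p q := by
  have hS : ∀ b ∈ q.S, b ∈ p.S := fun b hb => h.S ▸ hb
  refine le_of_same h.L h.F.ge (fun β _ n _ => by rw [h.x]) h.S.ge (fun b hb => ?_)
    (fun b hb => h.l b (hS b hb)) (fun b hb j _ n _ => by rw [h.g b (hS b hb)])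
  rw [h.K b (hS b hb)]

theorem Same.le_iff {p q r : Raw W J B} (h : Same p q) : Le r p ↔ Le r q := by
  have key : ∀ {p q : Raw W J B}, Same p q → Le r p → Le r q := by
    intro p q h h1
    have hS : ∀ b ∈ q.S, b ∈ p.S := fun b hb => h.S ▸ hb
    have hok : ∀ y, Ok r p y → Ok r q y := by
      intro y h2 b hb j hj j' hj' hne n hn1 hn2
      have h3 := hS b hb
      rw [← h.K b h3] at hj hj'
      rw [← h.l b h3] at hn1
      exact h2 b h3 j hj j' hj' hne n hn1 hn2
    refine ⟨h.L ▸ h1.L, h.F ▸ h1.F, fun β hβ n hn => ?_, h.S ▸ h1.S, fun b hb => ?_,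
      fun b hb => ?_, fun b hb j hj n hn => ?_, fun β hβ => hok _ (h1.cov β (h.F ▸ hβ)),
      fun β hβ n hn1 hn2 => ?_⟩
    · rw [h1.x β (h.F ▸ hβ) n (h.L ▸ hn), h.x]
    · rw [← h.K b (hS b hb)]
      exact h1.K b (hS b hb)
    · rw [← h.l b (hS b hb)]
      exact h1.l b (hS b hb)
    · rw [← h.K b (hS b hb)] at hj
      rw [← h.l b (hS b hb)] at hn
      rw [h1.g b (hS b hb) j hj n hn, h.g b (hS b hb)]
    · obtain ⟨γ, hγ, h3, h4, h5⟩ := h1.clone β (h.F ▸ hβ) n (h.L ▸ hn1) hn2
      refine ⟨γ, hγ, fun m hm => ?_, h4, hok _ h5⟩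
      rw [h3 m (h.L ▸ hm), h.x]
  exact ⟨key h, key h.symm⟩

/-- The type of the blocks. -/
inductive Blk (E : Type) : Type
  | nil : Blk E
  | mk (e : ℕ → E) (c : ℕ → Blk E) : Blk E

/-- Replace the indices `k` by the blocks `c k`. -/
def push (c : ℕ → B) (t : Raw W J ℕ) : Raw W J B where
  L := t.L
  F := t.F
  x := t.x
  S := t.S.image c
  K := fun b => if h : ∃ k, c k = b then t.K h.choose else ∅
  l := fun b => if h : ∃ k, c k = b then t.l h.choose else 0
  g := fun b => if h : ∃ k, c k = b then t.g h.choose else fun _ _ => ((0, ∅), 0)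

/-- The empty condition. -/
def emp : Raw W J B where
  L := 0
  F := ∅
  x := fun _ _ => false
  S := ∅
  K := fun _ => ∅
  l := fun _ => 0
  g := fun _ _ _ => ((0, ∅), 0)

/-- The blocks. -/
abbrev BB (W J : Type) : Type := Blk (Raw W J ℕ × Code)

/-- The name of a block. -/
def TT : BB W J → ℕ → Raw W J (BB W J) × Code
  | Blk.nil, _ => (emp, ((0, ∅), 0))
  | Blk.mk e c, i => (push c (e i).1, (e i).2)

theorem wf_child : WellFounded (Child (TT (W := W) (J := J))) := by
  constructor
  intro b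
  induction b with
  | nil =>
    constructor
    rintro b' ⟨i, hi⟩
    simp [TT, emp] at hi
  | mk e c ih =>
    constructor
    rintro b' ⟨i, hi⟩
    obtain ⟨k, _, hk⟩ := Finset.mem_image.1 hi
    rw [← hk]
    exact ih k

/-- Every sequence of conditions and codes is the name of a block. -/
theorem exists_block (u : ℕ → Raw W J (BB W J) × Code) :
    ∃ b : BB W J, ∀ i, Same (TT b i).1 (u i).1 ∧ (TT b i).2 = (u i).2 := by
  have hc : (⋃ i, ((u i).1.S : Set (BB W J))).Countable :=
    Set.countable_iUnion fun i => (u i).1.S.countable_toSet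
  obtain ⟨c, hc⟩ : ∃ c : ℕ → BB W J, ∀ i, ∀ b ∈ (u i).1.S, ∃ k, c k = b := by
    rcases (⋃ i, ((u i).1.S : Set (BB W J))).eq_empty_or_nonempty with h | h
    · refine ⟨fun _ => Blk.nil, fun i b hb => ?_⟩
      have : b ∈ ⋃ i, ((u i).1.S : Set (BB W J)) := Set.mem_iUnion.2 ⟨i, hb⟩
      rw [h] at this
      exact absurd this (Set.notMem_empty b)
    · obtain ⟨c, hc'⟩ := hc.exists_eq_range h
      refine ⟨c, fun i b hb => ?_⟩
      have : b ∈ ⋃ i, ((u i).1.S : Set (BB W J)) := Set.mem_iUnion.2 ⟨i, hb⟩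
      rw [hc'] at this
      exact this
  let kk : BB W J → ℕ := fun b => if h : ∃ k, c k = b then h.choose else 0
  have hkk : ∀ b, (∃ k, c k = b) → c (kk b) = b := by
    intro b hb
    simp only [kk, hb, dif_pos]
    exact hb.choose_spec
  let e : ℕ → Raw W J ℕ × Code := fun i =>
    ({ L := (u i).1.L
       F := (u i).1.F
       x := (u i).1.x
       S := (u i).1.S.image kk
       K := fun k => (u i).1.K (c k)
       l := fun k => (u i).1.l (c k)
       g := fun k => (u i).1.g (c k) }, (u i).2)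
  have hS : ∀ i, (push c (e i).1).S = (u i).1.S := by
    intro i
    ext b
    constructor
    · intro hb
      obtain ⟨k, hk, rfl⟩ := Finset.mem_image.1 hb
      obtain ⟨b', hb', rfl⟩ := Finset.mem_image.1 hk
      rw [hkk b' (hc i b' hb')]
      exact hb'
    · intro hb
      exact Finset.mem_image.2 ⟨kk b, Finset.mem_image.2 ⟨b, hb, rfl⟩, hkk b (hc i b hb)⟩
  refine ⟨Blk.mk e c, fun i => ⟨⟨rfl, rfl, rfl, hS i, fun b hb => ?_, fun b hb => ?_,
    fun b hb => ?_⟩, rfl⟩⟩
  all_goals
    have hb' : ∃ k, c k = b := hc i b (by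
      have : b ∈ (push c (e i).1).S := hb
      rw [hS i] at this
      exact this)
  · show (if h : ∃ k, c k = b then (e i).1.K h.choose else ∅) = (u i).1.K b
    rw [dif_pos hb']
    show (u i).1.K (c hb'.choose) = (u i).1.K b
    rw [hb'.choose_spec]
  · show (if h : ∃ k, c k = b then (e i).1.l h.choose else 0) = (u i).1.l b
    rw [dif_pos hb']
    show (u i).1.l (c hb'.choose) = (u i).1.l b
    rw [hb'.choose_spec]
  · show (if h : ∃ k, c k = b then (e i).1.g h.choose else fun _ _ => ((0, ∅), 0)) = (u i).1.g b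
    rw [dif_pos hb']
    show (u i).1.g (c hb'.choose) = (u i).1.g b
    rw [hb'.choose_spec]

variable {T : B → ℕ → Raw W J B × Code}

/-- The closure of a set of blocks. -/
def Cl (T : B → ℕ → Raw W J B × Code) (A : Set B) : Set B :=
  {b' | ∃ b ∈ A, Relation.ReflTransGen (Child T) b' b}

theorem sub_Cl (A : Set B) : A ⊆ Cl T A := fun b hb => ⟨b, hb, Relation.ReflTransGen.refl⟩

theorem closed_Cl (A : Set B) : Closed T (Cl T A) := by
  rintro b ⟨b1, hb1, h⟩ i b' hb'
  exact ⟨b1, hb1, Relation.ReflTransGen.head ⟨i, hb'⟩ h⟩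

theorem Cl_good {A : Set B} (hA : A ⊆ Good T) : Cl T A ⊆ Good T := by
  rintro b ⟨b1, hb1, h⟩ b' hb'
  exact hA hb1 b' (hb'.trans h)

theorem countable_Cl (hwf : WellFounded (Child T)) {A : Set B} (hA : A.Countable) :
    (Cl T A).Countable := by
  have key : ∀ b, {b' | Relation.ReflTransGen (Child T) b' b}.Countable := by
    intro b
    induction b using hwf.induction with
    | h b ih =>
      have : {b' | Relation.ReflTransGen (Child T) b' b} ⊆
          {b} ∪ ⋃ i, ⋃ b'' ∈ (T b i).1.S, {b' | Relation.ReflTransGen (Child T) b' b''} := by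
        intro b' hb'
        rcases Relation.ReflTransGen.cases_tail hb' with h | ⟨c, h1, i, h2⟩
        · left
          exact h.symm
        · right
          exact Set.mem_iUnion.2 ⟨i, Set.mem_iUnion₂.2 ⟨c, h2, h1⟩⟩
      apply Set.Countable.mono this
      apply (Set.countable_singleton b).union
      apply Set.countable_iUnion
      intro i
      exact (T b i).1.S.countable_toSet.biUnion fun b'' hb'' => ih b'' ⟨i, hb''⟩
  have : Cl T A = ⋃ b ∈ A, {b' | Relation.ReflTransGen (Child T) b' b} := by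
    ext b'
    simp [Cl]
  rw [this]
  exact hA.biUnion fun b _ => key b

theorem adm_same {G : Set B} {p q : Raw W J B} (h : Same p q) (hq : Adm T G q) : Adm T G p := by
  have hS : ∀ b ∈ p.S, b ∈ q.S := fun b hb => h.S ▸ hb
  refine adm_of_cover (fun b hb => hq.mem b (hS b hb)) (fun b hb => ?_) (fun b hb j hj => ?_)
  · rw [h.K b hb]
    exact hq.ne b (hS b hb)
  · right
    rw [h.K b hb] at hj
    exact ⟨q, hq, h.le, hS b hb, hj, h.l b hb⟩

/-- A name of an `ω`-cover for all admissible conditions is the name of a good block. -/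
theorem catch_name (b : B) (u : ℕ → Raw W J B × Code)
    (hb : ∀ i, Same (T b i).1 (u i).1 ∧ (T b i).2 = (u i).2) (hu : ∀ i, Adm T (Good T) (u i).1)
    (h : ∀ q, Adm T (Good T) q → ∀ (F : Finset W) (m : ℕ), ∃ r, Adm T (Good T) r ∧ Le r q ∧
      F ⊆ r.F ∧ ∃ i, Le r (u i).1 ∧ m ≤ (u i).2.2 ∧ (u i).2.1.1 ≤ r.L ∧
        ∀ β ∈ F, Mem (r.x β) (u i).2) : b ∈ Good T := by
  have hch : ∀ b', Child T b' b → b' ∈ Good T := by
    rintro b' ⟨i, hi⟩
    rw [(hb i).1.S] at hi
    exact (hu i).mem b' hi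
  have hbel : Below T b ⊆ Good T := by
    intro b' hb'
    rcases Relation.TransGen.tail'_iff.1 hb' with ⟨c, h1, h2⟩
    intro b'' hb''
    exact hch c h2 b'' (hb''.trans h1)
  have hadm : ∀ i, Adm T (Below T b) (T b i).1 := by
    intro i
    have h1 := adm_same (hb i).1 (hu i)
    exact ⟨fun b' hb' => Relation.TransGen.single ⟨i, hb'⟩, h1.ne, h1.supp, h1.wit, h1.tag⟩
  have hloc : Local T b := by
    refine ⟨hadm, fun q hq F m => ?_⟩
    obtain ⟨r, h1, h2, h3, i, h4, h5, h6, h7⟩ := h q (hq.mono hbel) F m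
    refine ⟨res (Below T b) r, adm_res h1 (closed_below b), res_le h2 hq.mem, h3, i, ?_, ?_, ?_,
      ?_⟩
    · exact res_le ((hb i).1.le_iff.2 h4) (hadm i).mem
    · rw [(hb i).2]
      exact h5
    · rw [(hb i).2]
      exact h6
    · rw [(hb i).2]
      exact h7
  intro b' hb'
  rcases Relation.ReflTransGen.cases_tail hb' with h1 | ⟨c, h1, h2⟩
  · rw [← h1]
    exact hloc
  · exact hch c h2 b' h1

end Pool.Agent.W635.GP
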