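import Mathlib
import Pool.Agent.W635.GPRaw
import Pool.Agent.Helper669.Forcing

/-!
# The combinatorial principle and its translation to the forcing language
-/

set_option autoImplicit false

namespace Pool.Agent.W635.GP

open Pool.Agent.Helper669.Forcing

/-- The subsets `x_β` (`β ∈ W`) of `ℕ` (given by their characteristic functions) are centred, they
have no common element, they have no infinite pseudo-intersection, and for every family `N` of
(tagged codes of) clopen sets such that every finite set of the `x_β` is contained in members of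
`N` with arbitrarily large tags there are sequences `g_j` (`j ∈ J`) of members of `N` with strictly
increasing tags such that for any `j ≠ j'` every `x_β` belongs to `g_j(n) ∪ g_j'(n)` for all but
finitely many `n`. Moreover no function from `J` to `W` is injective. -/
def GoodFamily (W J : Type) (x : W → ℕ → Bool) : Prop :=
  (∀ (F : Finset W) (m : ℕ), ∃ n, m ≤ n ∧ ∀ β ∈ F, x β n = true) ∧
  (∀ n, ∃ β, x β n = false) ∧
  (∀ a : Set ℕ, (∀ m, ∃ n, m ≤ n ∧ n ∈ a) → ∃ β, ∀ m, ∃ n, m ≤ n ∧ n ∈ a ∧ x β n = false) ∧
  (∀ N : Set Code, (∀ (F : Finset W) (m : ℕ), ∃ c, m ≤ c.2 ∧ c ∈ N ∧ ∀ β ∈ F, Mem (x β) c) →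
    ∃ g : J → ℕ → Code, (∀ j n, g j n ∈ N) ∧ (∀ j n m, n < m → (g j n).2 < (g j m).2) ∧
      ∀ j j', j ≠ j' → ∀ β, ∃ m, ∀ n, m ≤ n → Mem (x β) (g j n) ∨ Mem (x β) (g j' n)) ∧
  ∀ f : J → W, ∃ j j', j ≠ j' ∧ f j = f j'

section

variable {P : Type} [Preorder P]

/-- `φ` or `ψ`. -/
def forr (φ ψ : Set P) : Set P := fnot (fand (fnot φ) (fnot ψ))

/-- Translation of `Mem x c` for the real named by `X`: there is a member `s` of the finite set of
`c` such that `s` and the named real agree below the level of `c`. -/
def MemN (X : ℕ → Bool → Set P) (c : Code) : Set P :=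
  fex fun s : Finset ℕ => fand (fground (s ∈ c.1.2 ∧ s ⊆ Finset.range c.1.1))
    (fall fun n => fall fun _ : n < c.1.1 => meets (X n (decide (n ∈ s))))

/-- Translation of `GoodFamily W J x` for the sequence of reals named by `X`. -/
def FamilyN (P : Type) [Preorder P] (W J : Type) (X : W → ℕ → Bool → Set P) : Set P :=
  fand (fall fun F : Finset W => fall fun m : ℕ => fex fun n : ℕ =>
    fand (fground (m ≤ n)) (fall fun β => fall fun _ : β ∈ F => meets (X β n true))) <|
  fand (fall fun n => fex fun β => meets (X β n false)) <|
  fand (fall fun a : ℕ → Set P =>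
    fimp (fall fun m : ℕ => fex fun n : ℕ => fand (fground (m ≤ n)) (meets (a n)))
      (fex fun β => fall fun m : ℕ => fex fun n : ℕ =>
        fand (fground (m ≤ n)) (fand (meets (a n)) (meets (X β n false))))) <|
  fand (fall fun N : Code → Set P =>
    fimp (fall fun F : Finset W => fall fun m : ℕ => fex fun c : Code =>
        fand (fground (m ≤ c.2)) (fand (meets (N c)) (fall fun β => fall fun _ : β ∈ F =>
          MemN (X β) c)))
      (fex fun g : J → ℕ → Code → Set P =>
        fand (fall fun j => IsFun (g j)) <|
        fand (fall fun j => fall fun n => fall fun c => fimp (meets (g j n c)) (meets (N c))) <|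
        fand (fall fun j => fall fun n => fall fun m => fall fun _ : n < m => fall fun c =>
          fall fun c' => fimp (fand (meets (g j n c)) (meets (g j m c')))
            (fground (c.2 < c'.2))) <|
        fall fun j => fall fun j' => fall fun _ : j ≠ j' => fall fun β => fex fun m : ℕ =>
          fall fun n => fall fun _ : m ≤ n => fex fun c =>
            fand (forr (meets (g j n c)) (meets (g j' n c))) (MemN (X β) c))) <|
  fall fun R : J → W → Set P => fimp (IsFun R) (fex fun j => fex fun j' =>
    fand (fground (j ≠ j')) (fex fun β => fand (meets (R j β)) (meets (R j' β))))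

/-- In the extension there is a sequence of reals as in `GoodFamily`. -/
def FamilyExistsN (P : Type) [Preorder P] (W J : Type) : Set P :=
  fex fun X : W → ℕ → Bool → Set P => fand (fall fun β => IsFun (X β)) (FamilyN P W J X)

end

end Pool.Agent.W635.GP
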