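import Mathlib
import Pool.Agent.W635.GPBlk
import Pool.Agent.W635.GPDefs
import Pool.Agent.W684.FM.Ambient

/-!
# The forcing notion and what it forces
-/

set_option autoImplicit false

noncomputable section

namespace Pool.Agent.W635.GP

open Classical Cardinal Pool.Agent.Helper669.Forcing Pool.Agent.W684.FM

variable (W J : Type)

/-- The forcing notion: the admissible conditions with good blocks. -/
def Cond : Type := {p : Raw W J (BB W J) // Adm TT (Good TT) p}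

instance : Preorder (Cond W J) where
  le p q := Le p.1 q.1
  le_refl p := le_refl' p.1
  le_trans p q r h1 h2 := le_trans' h1 h2 q.2.supp

variable {W J}

theorem cle_def {p q : Cond W J} : p ≤ q ↔ Le p.1 q.1 := Iff.rfl

theorem adm_emp : Adm TT (Good TT) (emp : Raw W J (BB W J)) := by
  refine ⟨fun b hb => ?_, fun b hb => ?_, fun b hb => ?_, fun b hb => ?_, fun b hb => ?_⟩ <;>
    simp [emp] at hb

instance : Nonempty (Cond W J) := ⟨⟨emp, adm_emp⟩⟩

theorem pccc : PCCC (Cond W J) := by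
  intro A hA
  by_contra hcon
  have hE : ¬ Countable A := fun h => hcon (Set.countable_coe_iff.1 h)
  obtain ⟨e, e', hne, h⟩ := exists_agree hE (fun e => cdom e.1.1) (fun e => cval e.1.1)
  have hag : Agree e.1.1 e'.1.1 := agree_of h
  refine hA e.1 e.2 e'.1 e'.2 (fun h => hne (Subtype.ext h))
    ⟨⟨un e.1.1 e'.1.1, un_adm e.1.2 e'.1.2 hag⟩, un_le_left _ _, un_le_right hag⟩

theorem exists_cond [Infinite W] (p : Cond W J) (F : Finset W) (N : ℕ) :
    ∃ r ≤ p, F ⊆ r.1.F ∧ N ≤ r.1.L := by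
  obtain ⟨r, h1, h2, h3⟩ := exists_reals p.2 F
  obtain ⟨s, h4, h5, h6⟩ := exists_levels h1 N
  exact ⟨⟨s, h4⟩, le_trans' h5 h2 h1.supp, h3.trans h5.F, h6⟩

/-- The name of the generic reals. -/
def XX (W J : Type) (β : W) (n : ℕ) (v : Bool) : Set (Cond W J) :=
  {p | β ∈ p.1.F ∧ n < p.1.L ∧ p.1.x β n = v}

theorem down_XX (β : W) (n : ℕ) (v : Bool) : Down (XX W J β n v) := by
  rintro p ⟨h1, h2, h3⟩ q hq
  exact ⟨hq.F h1, h2.trans_le hq.L, by rw [hq.x β h1 n h2, h3]⟩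

theorem of_meets_XX {β : W} {n : ℕ} {v : Bool} {p : Cond W J} (h : p ∈ meets (XX W J β n v))
    (hβ : β ∈ p.1.F) (hn : n < p.1.L) : p.1.x β n = v := by
  obtain ⟨q, hq, h1, h2, h3⟩ := exists_of_meets (down_XX β n v) h
  rw [← h3, hq.x β hβ n hn]

theorem isFun_XX [Infinite W] (β : W) (p : Cond W J) : p ∈ IsFun (XX W J β) := by
  refine ⟨fun n => mem_fex.2 fun q _ => ?_, fun n v v' => mem_fimp.2 fun q _ hq => ?_⟩
  · obtain ⟨r, h1, h2, h3⟩ := exists_cond q {β} (n + 1)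
    exact ⟨r, h1, r.1.x β n, meets_of_mem ⟨h2 (Finset.mem_singleton_self β), h3, rfl⟩⟩
  · obtain ⟨r, h1, h2, h3⟩ := exists_cond q {β} (n + 1)
    have hβ := h2 (Finset.mem_singleton_self β)
    refine ⟨r, h1, ?_⟩
    have h4 := of_meets_XX (down_meets _ _ hq.1 r h1) hβ h3
    have h5 := of_meets_XX (down_meets _ _ hq.2 r h1) hβ h3
    exact h4.symm.trans h5

theorem mem_of_MemN {β : W} {c : Code} {p : Cond W J} (h : p ∈ MemN (XX W J β) c)
    (hβ : β ∈ p.1.F) (hc : c.1.1 ≤ p.1.L) : Mem (p.1.x β) c := by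
  obtain ⟨r, hr, s, ⟨h1, h2⟩, h3⟩ := mem_fex.1 h p le_rfl
  have : (Finset.range c.1.1).filter (fun n => p.1.x β n = true) = s := by
    ext n
    constructor
    · intro hn
      obtain ⟨h4, h5⟩ := Finset.mem_filter.1 hn
      have h6 := of_meets_XX (h3 n (Finset.mem_range.1 h4)) (hr.F hβ)
        ((Finset.mem_range.1 h4).trans_le (hc.trans hr.L))
      rw [hr.x β hβ n ((Finset.mem_range.1 h4).trans_le hc), h5] at h6
      simpa using h6.symm
    · intro hn
      have h4 := h2 hn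
      have h6 := of_meets_XX (h3 n (Finset.mem_range.1 h4)) (hr.F hβ)
        ((Finset.mem_range.1 h4).trans_le (hc.trans hr.L))
      rw [hr.x β hβ n ((Finset.mem_range.1 h4).trans_le hc)] at h6
      exact Finset.mem_filter.2 ⟨h4, by simpa [hn] using h6⟩
  unfold Mem
  rw [this]
  exact h1

theorem memN_of_mem {β : W} {c : Code} {p : Cond W J} (h : Mem (p.1.x β) c)
    (hβ : β ∈ p.1.F) (hc : c.1.1 ≤ p.1.L) : p ∈ MemN (XX W J β) c := by
  refine mem_fex_of_mem ((Finset.range c.1.1).filter (fun n => p.1.x β n = true))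
    (down_fand (down_fground _) (down_fall fun _ => down_fall fun _ => down_meets _))
    ⟨⟨h, Finset.filter_subset _ _⟩, fun n hn => meets_of_mem ⟨hβ, hn.trans_le hc, ?_⟩⟩
  by_cases hv : p.1.x β n = true
  · have : n ∈ (Finset.range c.1.1).filter (fun n => p.1.x β n = true) :=
      Finset.mem_filter.2 ⟨Finset.mem_range.2 hn, hv⟩
    rw [hv, decide_eq_true this]
  · have : n ∉ (Finset.range c.1.1).filter (fun n => p.1.x β n = true) :=
      fun h => hv (Finset.mem_filter.1 h).2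
    rw [decide_eq_false this]
    simpa using hv

/-- The name of the generic sequences of a block. -/
def GG (b : BB W J) (j : J) (n : ℕ) (c : Code) : Set (Cond W J) :=
  {p | b ∈ p.1.S ∧ j ∈ p.1.K b ∧ n < p.1.l b ∧ p.1.g b j n = c}

theorem down_GG (b : BB W J) (j : J) (n : ℕ) (c : Code) : Down (GG b j n c) := by
  rintro p ⟨h1, h2, h3, h4⟩ q hq
  exact ⟨hq.S h1, hq.K b h1 h2, h3.trans_le (hq.l b h1), by rw [hq.g b h1 j h2 n h3, h4]⟩

theorem exists_gen {b : BB W J} (hb : b ∈ Good TT) (p : Cond W J) (j : J) (N : ℕ) :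
    ∃ r ≤ p, b ∈ r.1.S ∧ j ∈ r.1.K b ∧ N ≤ r.1.l b := by
  obtain ⟨r, h1, h2, h3, h4⟩ := exists_index p.2 hb j
  obtain ⟨s, h5, h6, h7⟩ := exists_steps wf_child h1 h3 N
  exact ⟨⟨s, h5⟩, le_trans' h6 h2 h1.supp, h6.S h3, h6.K b h3 h4, h7⟩

theorem of_meets_GG {b : BB W J} {j : J} {n : ℕ} {c : Code} {p : Cond W J}
    (h : p ∈ meets (GG b j n c)) (h1 : b ∈ p.1.S) (h2 : j ∈ p.1.K b) (h3 : n < p.1.l b) :
    p.1.g b j n = c := by
  obtain ⟨q, hq, _, _, _, h4⟩ := exists_of_meets (down_GG b j n c) h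
  rw [← h4, hq.g b h1 j h2 n h3]

theorem isFun_GG {b : BB W J} (hb : b ∈ Good TT) (j : J) (p : Cond W J) :
    p ∈ IsFun (GG b j) := by
  refine ⟨fun n => mem_fex.2 fun q _ => ?_, fun n v v' => mem_fimp.2 fun q _ hq => ?_⟩
  · obtain ⟨r, h1, h2, h3, h4⟩ := exists_gen hb q j (n + 1)
    exact ⟨r, h1, r.1.g b j n, meets_of_mem ⟨h2, h3, h4, rfl⟩⟩
  · obtain ⟨r, h1, h2, h3, h4⟩ := exists_gen hb q j (n + 1)
    refine ⟨r, h1, ?_⟩
    have h5 := of_meets_GG (down_meets _ _ hq.1 r h1) h2 h3 h4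
    have h6 := of_meets_GG (down_meets _ _ hq.2 r h1) h2 h3 h4
    exact h5.symm.trans h6

theorem forced_centred [Infinite W] (p : Cond W J) (F : Finset W) (m : ℕ) :
    p ∈ fex fun n : ℕ => fand (fground (m ≤ n)) (fall fun β => fall fun _ : β ∈ F =>
      meets (XX W J β n true)) := by
  refine mem_fex.2 fun q _ => ?_
  obtain ⟨r, h1, h2, h3⟩ := exists_cond q F m
  obtain ⟨s, h4, h5, h6, h7⟩ := exists_level r.2
  refine ⟨⟨s, h4⟩, le_trans' h5 h1 r.2.supp, r.1.L, h3, fun β hβ => meets_of_mem ?_⟩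
  refine ⟨h5.F (h2 hβ), ?_, h7 β (h2 hβ)⟩
  show r.1.L < s.L
  omega

theorem forced_omit [Infinite W] (p : Cond W J) (n : ℕ) :
    p ∈ fex fun β => meets (XX W J β n false) := by
  refine mem_fex.2 fun q _ => ?_
  obtain ⟨r, h1, _, h3⟩ := exists_cond q ∅ (n + 1)
  obtain ⟨δ, hδ⟩ := Infinite.exists_notMem_finset r.1.F
  refine ⟨⟨addR r.1 δ (fun _ => false), addR_adm r.2 hδ _⟩,
    le_trans' (addR_le hδ _) h1 r.2.supp, δ, meets_of_mem ⟨Finset.mem_insert_self _ _, h3, ?_⟩⟩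
  simp [addR]

/-- No pseudo-intersection. -/
theorem forced_np (hW : ¬ Countable W) (p : Cond W J) (a : ℕ → Set (Cond W J)) :
    p ∈ fimp (fall fun m : ℕ => fex fun n : ℕ => fand (fground (m ≤ n)) (meets (a n)))
      (fex fun β => fall fun m : ℕ => fex fun n : ℕ =>
        fand (fground (m ≤ n)) (fand (meets (a n)) (meets (XX W J β n false)))) := by
  have hinf : Infinite W := by
    by_contra h
    rw [not_infinite_iff_finite] at h
    exact hW inferInstance
  refine mem_fimp.2 fun q hq hinfa => ⟨q, le_rfl, ?_⟩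
  choose A hA1 hA2 using fun n => exists_countable_name (P := Cond W J) pccc (a n)
  -- the blocks of the names
  let A0 : Set (BB W J) := ⋃ n, ⋃ s ∈ A n, (s.1.S : Set (BB W J))
  have hA0 : A0.Countable := Set.countable_iUnion fun n =>
    (hA1 n).biUnion fun s _ => s.1.S.countable_toSet
  have hA0g : A0 ⊆ Good TT := by
    intro b hb
    obtain ⟨n, hn⟩ := Set.mem_iUnion.1 hb
    obtain ⟨s, _, hs⟩ := Set.mem_iUnion₂.1 hn
    exact s.2.mem b hs
  let A1 : Set (BB W J) := Cl TT A0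
  have hA1c : A1.Countable := countable_Cl wf_child hA0
  let M : Set W := (⋃ n, ⋃ s ∈ A n, (s.1.F : Set W)) ∪ ⋃ b ∈ A1, ⋃ i, ((TT b i).1.F : Set W)
  have hM : M.Countable := (Set.countable_iUnion fun n =>
    (hA1 n).biUnion fun s _ => s.1.F.countable_toSet).union
      (hA1c.biUnion fun b _ => Set.countable_iUnion fun i => (TT b i).1.F.countable_toSet)
  obtain ⟨β, hβ⟩ : ∃ β, β ∉ M := by
    by_contra hcon
    push Not at hcon
    apply hW
    rw [← Set.countable_univ_iff]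
    exact hM.mono fun β _ => hcon β
  have hβ1 : ∀ n, ∀ s ∈ A n, β ∉ s.1.F := fun n s hs h =>
    hβ (Or.inl (Set.mem_iUnion.2 ⟨n, Set.mem_iUnion₂.2 ⟨s, hs, h⟩⟩))
  have hβ2 : ∀ b ∈ A1, ∀ i, β ∉ (TT b i).1.F := fun b hb i h =>
    hβ (Or.inr (Set.mem_iUnion₂.2 ⟨b, hb, Set.mem_iUnion.2 ⟨i, h⟩⟩))
  refine mem_fex_of_mem β (down_fall fun _ => down_fex _) fun m => mem_fex.2 fun q' hq' => ?_
  obtain ⟨q1, h1, h2, h3⟩ := exists_cond q' {β} m
  have hβq : β ∈ q1.1.F := h2 (Finset.mem_singleton_self β)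
  obtain ⟨r, h4, n, h5, h6⟩ := mem_fex.1 (hinfa q1.1.L) q1 (h1.trans hq')
  rw [← hA2 n] at h6
  obtain ⟨r1, h7, s, h8, h9⟩ := h6 r le_rfl
  obtain ⟨r2, h10, _, h11⟩ := exists_cond r1 ∅ (n + 1)
  obtain ⟨u, hu1, hu2, hu3, hu4, hu5, hu6⟩ := exists_clone (T := TT) (G := Good TT) (A := A1)
    (q := q1.1) (r := r2.1) (s := s.1) (β := β) (n := n) (closed_Cl A0) (Cl_good hA0g) q1.2 r2.2
    (h10.trans (h7.trans h4)) (h10.trans h9)
    (fun b hb => sub_Cl A0 (Set.mem_iUnion.2 ⟨n, Set.mem_iUnion₂.2 ⟨s, h8, hb⟩⟩))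
    (hβ1 n s h8) hβq hβ2 h5 h11
  obtain ⟨uc, rfl⟩ : ∃ uc : Cond W J, uc.1 = u := ⟨⟨u, hu1⟩, rfl⟩
  have hle : uc ≤ q1 := hu2
  refine ⟨uc, hle.trans h1, n, h3.trans h5, ?_, meets_of_mem ⟨hu4, hu5, hu6⟩⟩
  rw [← hA2 n]
  exact meets_of_le h8 hu3

/-- The code of the whole space. -/
theorem mem_whole (x : ℕ → Bool) (m : ℕ) : Mem x ((0, {∅}), m) := by
  simp [Mem]

/-- The sequences for the covers. -/
theorem forced_cov [Infinite W] (p : Cond W J) (N : Code → Set (Cond W J)) :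
    p ∈ fimp (fall fun F : Finset W => fall fun m : ℕ => fex fun c : Code =>
        fand (fground (m ≤ c.2)) (fand (meets (N c)) (fall fun β => fall fun _ : β ∈ F =>
          MemN (XX W J β) c)))
      (fex fun g : J → ℕ → Code → Set (Cond W J) =>
        fand (fall fun j => IsFun (g j)) <|
        fand (fall fun j => fall fun n => fall fun c => fimp (meets (g j n c)) (meets (N c))) <|
        fand (fall fun j => fall fun n => fall fun m => fall fun _ : n < m => fall fun c =>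
          fall fun c' => fimp (fand (meets (g j n c)) (meets (g j m c')))
            (fground (c.2 < c'.2))) <|
        fall fun j => fall fun j' => fall fun _ : j ≠ j' => fall fun β => fex fun m : ℕ =>
          fall fun n => fall fun _ : m ≤ n => fex fun c =>
            fand (forr (meets (g j n c)) (meets (g j' n c))) (MemN (XX W J β) c)) := by
  refine mem_fimp.2 fun q _ hpre => ⟨q, le_rfl, ?_⟩
  choose A hA1 hA2 using fun c => exists_countable_name (P := Cond W J) pccc (N c)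
  have hdown : Down {r : Cond W J | ¬ ∃ s, s ≤ r ∧ s ≤ q} := by
    rintro r hr r' hr' ⟨s, h1, h2⟩
    exact hr ⟨s, h1.trans hr', h2⟩
  obtain ⟨D, hD1, hD2, hD3⟩ := exists_predense (P := Cond W J) pccc _ hdown
  let U : Set (Raw W J (BB W J) × Code) :=
    {v | ∃ s : Cond W J, v.1 = s.1 ∧ (s ∈ A v.2 ∨ s ∈ D)}
  have hU : U.Countable := by
    have h1 : U ⊆ (⋃ c : Code, (fun s : Cond W J => (s.1, c)) '' (A c)) ∪
        ⋃ c : Code, (fun s : Cond W J => (s.1, c)) '' D := by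
      rintro ⟨t, c⟩ ⟨s, h1, h2⟩
      simp only at h1 h2
      subst h1
      rcases h2 with h2 | h2
      · exact Or.inl (Set.mem_iUnion.2 ⟨c, s, h2, rfl⟩)
      · exact Or.inr (Set.mem_iUnion.2 ⟨c, s, h2, rfl⟩)
    apply Set.Countable.mono h1
    exact (Set.countable_iUnion fun c => (hA1 c).image _).union
      (Set.countable_iUnion fun c => hD1.image _)
  have hdense : ∀ q', Adm TT (Good TT) q' → ∀ (F : Finset W) (m : ℕ), ∃ r,
      Adm TT (Good TT) r ∧ Le r q' ∧ F ⊆ r.F ∧ ∃ v ∈ U, Le r v.1 ∧ m ≤ v.2.2 ∧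
        v.2.1.1 ≤ r.L ∧ ∀ β ∈ F, Mem (r.x β) v.2 := by
    intro q' hq' F m
    obtain ⟨qc, rfl⟩ : ∃ qc : Cond W J, qc.1 = q' := ⟨⟨q', hq'⟩, rfl⟩
    by_cases hcomp : ∃ s, s ≤ qc ∧ s ≤ q
    · obtain ⟨s, h1, h2⟩ := hcomp
      obtain ⟨r, h3, c, h4, h5, h6⟩ := mem_fex.1 (hpre F m) s h2
      rw [← hA2 c] at h5
      obtain ⟨r1, h7, t, h8, h9⟩ := h5 r le_rfl
      obtain ⟨r2, h10, h11, h12⟩ := exists_cond r1 F c.1.1
      refine ⟨r2.1, r2.2, h10.trans (h7.trans (h3.trans h1)), h11, (t.1, c),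
        ⟨t, rfl, Or.inl h8⟩, h10.trans h9, h4, h12, fun β hβ => ?_⟩
      refine mem_of_MemN ?_ (h11 hβ) h12
      exact down_fex _ _ (h6 β hβ) r2 (h10.trans h7)
    · obtain ⟨t, ht, r, h1, h2⟩ := hD3 qc hcomp
      obtain ⟨r2, h10, h11, _⟩ := exists_cond r F 0
      exact ⟨r2.1, r2.2, h10.trans h1, h11, (t.1, ((0, {∅}), m)), ⟨t, rfl, Or.inr ht⟩,
        h10.trans h2, le_rfl, Nat.zero_le _, fun β _ => mem_whole _ _⟩
  have hUne : U.Nonempty := by
    obtain ⟨r, _, _, _, v, hv, _⟩ := hdense q.1 q.2 ∅ 0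
    exact ⟨v, hv⟩
  obtain ⟨u, hu⟩ := hU.exists_eq_range hUne
  obtain ⟨b, hb⟩ := exists_block u
  have huU : ∀ i, u i ∈ U := fun i => by
    rw [hu]
    exact ⟨i, rfl⟩
  have hbg : b ∈ Good TT := by
    refine catch_name b u hb (fun i => ?_) fun q' hq' F m => ?_
    · obtain ⟨s, h1, _⟩ := huU i
      rw [h1]
      exact s.2
    · obtain ⟨r, h1, h2, h3, v, hv, h4⟩ := hdense q' hq' F m
      rw [hu] at hv
      obtain ⟨i, rfl⟩ := hv
      exact ⟨r, h1, h2, h3, i, h4⟩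
  refine mem_fex_of_mem (GG b) ?_ ⟨fun j => isFun_GG hbg j q, fun j n c => ?_,
    fun j n m hnm c c' => ?_, fun j j' hjj β => ?_⟩
  · exact down_fand (down_fall fun _ => down_IsFun _)
      (down_fand (down_fall fun _ => down_fall fun _ => down_fall fun _ => down_fimp _ _)
      (down_fand (down_fall fun _ => down_fall fun _ => down_fall fun _ => down_fall fun _ =>
        down_fall fun _ => down_fall fun _ => down_fimp _ _)
      (down_fall fun _ => down_fall fun _ => down_fall fun _ => down_fall fun _ => down_fex _)))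
  · refine mem_fimp.2 fun r hr hm => ⟨r, le_rfl, ?_⟩
    apply meets_of_dense
    intro r1 hr1
    obtain ⟨r2, h1, h2, h3, h4, h5⟩ := exists_of_meets (down_GG b j n c) (down_meets _ _ hm r1 hr1)
    refine ⟨r2, h1, ?_⟩
    obtain ⟨i, h6, h7⟩ := r2.2.wit b h2 j h3 n h4
    have h8 := (hb i).1.le_iff.1 h7
    rw [(hb i).2, h5] at h6
    obtain ⟨s, h9, h10⟩ := huU i
    rw [h9] at h8
    rw [h6] at h10
    have h11 : r2 ≤ s := h8
    rcases h10 with h10 | h10
    · rw [← hA2 c]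
      exact meets_of_le h10 h11
    · exact absurd ⟨r2, h11, h1.trans (hr1.trans hr)⟩ (hD2 h10)
  · refine mem_fimp.2 fun r _ hm => ⟨r, le_rfl, ?_⟩
    obtain ⟨r1, hr1, h1, h2, h3, h4⟩ := exists_of_meets (down_GG b j n c) hm.1
    obtain ⟨r2, hr2, h5, h6, h7, h8⟩ := exists_of_meets (down_GG b j m c')
      (down_meets _ _ hm.2 r1 hr1)
    have h9 := r2.2.tag b h5 j h6 n m hnm h7
    rw [h8, hr2.g b h1 j h2 n h3, h4] at h9
    exact h9
  · refine mem_fex.2 fun r _ => ?_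
    obtain ⟨r1, h1, h2, h3, _⟩ := exists_gen hbg r j 0
    obtain ⟨r2, h4, h5, h6, _⟩ := exists_gen hbg r1 j' 0
    obtain ⟨r3, h7, h8, _⟩ := exists_cond r2 {β} 0
    have hβ : β ∈ r3.1.F := h8 (Finset.mem_singleton_self β)
    have hbS : b ∈ r3.1.S := h7.S h5
    have hj : j ∈ r3.1.K b := h7.K b h5 (h4.K b h2 h3)
    have hj' : j' ∈ r3.1.K b := h7.K b h5 h6
    refine ⟨r3, h7.trans (h4.trans h1), r3.1.l b, fun n hn => mem_fex.2 fun s hs => ?_⟩
    obtain ⟨t, h9, h10, h11, h12⟩ := exists_gen hbg s j (n + 1)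
    have hts : t ≤ r3 := h9.trans hs
    have hj1 : j ∈ t.1.K b := h11
    have hj2 : j' ∈ t.1.K b := hts.K b hbS hj'
    have hβt : β ∈ t.1.F := hts.F hβ
    have hforr : ∀ c, (t ∈ GG b j n c ∨ t ∈ GG b j' n c) →
        t ∈ forr (meets (GG b j n c)) (meets (GG b j' n c)) := by
      intro c hc t' ht' h
      rcases hc with hc | hc
      · exact h.1 t' le_rfl (meets_of_mem (down_GG b j n c t hc t' ht'))
      · exact h.2 t' le_rfl (meets_of_mem (down_GG b j' n c t hc t' ht'))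
    rcases hts.cov β hβ b hbS j hj j' hj' hjj n hn h12 with h | h
    · exact ⟨t, h9, t.1.g b j n, hforr _ (Or.inl ⟨h10, hj1, h12, rfl⟩),
        memN_of_mem h hβt (t.2.supp b h10 j hj1 n h12)⟩
    · exact ⟨t, h9, t.1.g b j' n, hforr _ (Or.inr ⟨h10, hj2, h12, rfl⟩),
        memN_of_mem h hβt (t.2.supp b h10 j' hj2 n h12)⟩

theorem forced_family (hW : ¬ Countable W) (hJ : #W * ℵ₀ < #J) (p : Cond W J) :
    p ∈ FamilyN (Cond W J) W J (XX W J) := by
  have hinf : Infinite W := by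
    by_contra h
    rw [not_infinite_iff_finite] at h
    exact hW inferInstance
  refine ⟨fun F m => forced_centred p F m, fun n => forced_omit p n, fun a => forced_np hW p a,
    fun N => forced_cov p N, ?_⟩
  intro R
  refine mem_fimp.2 fun q _ hq => ?_
  have h1 : ∀ y : J, ∃ s ≤ q, ∃ x : W, s ∈ meets (R y x) := fun y => IsFun.total hq y
  choose f hf x hx using h1
  obtain ⟨y, y', hne, hz, s, hs1, hs2⟩ := (pccc (W := W) (J := J)).exists_compat_same
    (X := J) (Z := W) hJ f x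
  refine ⟨s, hs1.trans (hf y), ?_⟩
  refine mem_fex_of_mem y (down_fex _) (mem_fex_of_mem y'
    (down_fand (down_fground _) (down_fex _)) ⟨hne, mem_fex_of_mem (x y)
      (down_fand (down_meets _) (down_meets _)) ⟨down_meets _ _ (hx y) s hs1, ?_⟩⟩)
  rw [hz]
  exact down_meets _ _ (hx y') s hs2

theorem forced_exists (hW : ¬ Countable W) (hJ : #W * ℵ₀ < #J) (p : Cond W J) :
    p ∈ FamilyExistsN (Cond W J) W J := by
  have hinf : Infinite W := by
    by_contra h
    rw [not_infinite_iff_finite] at h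
    exact hW inferInstance
  have hd : Down (FamilyN (Cond W J) W J (XX W J)) :=
    down_fand (down_fall fun _ => down_fall fun _ => down_fex _)
      (down_fand (down_fall fun _ => down_fex _) (down_fand (down_fall fun _ => down_fimp _ _)
        (down_fand (down_fall fun _ => down_fimp _ _) (down_fall fun _ => down_fimp _ _))))
  exact mem_fex_of_mem (XX W J) (down_fand (down_fall fun _ => down_IsFun _) hd)
    ⟨fun β => isFun_XX β p, forced_family hW hJ p⟩

end Pool.Agent.W635.GP
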