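import Mathlib
import Pool.Agent.W635.GPDefs
import Pool.Agent.Helper185.DelDefs2

/-!
# The principle gives a set of reals with all `γ_p` and without `γ`
-/

set_option autoImplicit false

namespace Pool.Agent.W635.GP

open Set Filter Pool.Agent.Helper185.Del

/-- Property `γ_p`, with injective enumerations: for every open `ω`-cover `𝒰` of `X` there are
distinct members `U n` of `𝒰` with `{n | x ∈ U n} ∈ p` for every `x`. -/
def GammaPInj (p : Ultrafilter ℕ) (X : Type*) [TopologicalSpace X] : Prop :=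
  ∀ 𝒰 : Set (Set X), IsOmegaCover 𝒰 →
    ∃ U : ℕ → Set X, Function.Injective U ∧ (∀ n, U n ∈ 𝒰) ∧ ∀ x, {n | x ∈ U n} ∈ p

theorem GammaPInj.gammaP {p : Ultrafilter ℕ} {X : Type*} [TopologicalSpace X]
    (h : GammaPInj p X) : GammaP p X := by
  intro 𝒰 h𝒰
  obtain ⟨U, _, hU, hx⟩ := h 𝒰 h𝒰
  refine ⟨range U, ?_, ?_, ?_, U, rfl, hx⟩
  · rintro _ ⟨n, rfl⟩; exact hU n
  · rintro _ ⟨n, rfl⟩; exact h𝒰.1 _ (hU n)
  · refine eq_univ_of_forall (fun x => ?_)
    obtain ⟨n, hn⟩ := p.nonempty_of_mem (hx x)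
    exact ⟨U n, mem_range_self n, hn⟩

theorem exists_cyl {S : Set (ℕ → Bool)} {V : Set S} (hV : IsOpen V) {y : S} (hy : y ∈ V) :
    ∃ m, ∀ z : S, (∀ n < m, (z : ℕ → Bool) n = (y : ℕ → Bool) n) → z ∈ V := by
  obtain ⟨O, hO, rfl⟩ := isOpen_induced_iff.1 hV
  obtain ⟨I, u, h1, h2⟩ := isOpen_pi_iff.1 hO y hy
  refine ⟨I.sup id + 1, fun z hz => h2 ?_⟩
  intro i hi
  have h3 : i ≤ I.sup id := Finset.le_sup (f := id) hi
  rw [hz i (by omega)]
  exact (h1 i hi).2

section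

variable {W J : Type} {x : W → ℕ → Bool}

theorem gammaPInj_range (h : GoodFamily W J x) {p : Ultrafilter ℕ} (hp : Nonprincipal p) :
    GammaPInj p (range x) := by
  classical
  obtain ⟨_, homit, _, hcov, hpig⟩ := h
  intro 𝒰 h𝒰
  obtain ⟨hopen, _, huniv, hom⟩ := h𝒰
  have hWn : Nonempty W := ⟨(homit 0).choose⟩
  let X := range x
  let pt : W → X := fun β => ⟨x β, mem_range_self β⟩
  -- a countable subfamily
  let CC := ℕ × Finset (Finset ℕ)
  let MC : (ℕ → Bool) → CC → Prop := fun y c =>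
    (Finset.range c.1).filter (fun n => y n = true) ∈ c.2
  have hfin : ∀ (F : Finset W) (U : Set X), IsOpen U → (∀ β ∈ F, pt β ∈ U) →
      ∃ c : CC, (∀ β ∈ F, MC (x β) c) ∧ ∀ β, MC (x β) c → pt β ∈ U := by
    intro F U hU hF
    choose! m hm using fun β (hβ : β ∈ F) => exists_cyl hU (hF β hβ)
    let M := F.sup m
    refine ⟨(M, F.image fun β => (Finset.range M).filter (fun n => x β n = true)),
      fun β hβ => Finset.mem_image.2 ⟨β, hβ, rfl⟩, fun β hβ => ?_⟩
    obtain ⟨β', hβ', he⟩ := Finset.mem_image.1 hβ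
    refine hm β' hβ' (pt β) fun n hn => ?_
    have hnM : n < M := hn.trans_le (Finset.le_sup (f := m) hβ')
    have h1 : n ∈ (Finset.range M).filter (fun n => x β' n = true) ↔
        n ∈ (Finset.range M).filter (fun n => x β n = true) := by rw [he]
    simp only [Finset.mem_filter, Finset.mem_range, hnM, true_and] at h1
    show x β n = x β' n
    cases h2 : x β' n <;> cases h3 : x β n <;> simp_all
  let Uc : CC → Set X := fun c =>
    if h : ∃ U ∈ 𝒰, ∀ β, MC (x β) c → pt β ∈ U then h.choose else univ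
  let 𝒱 : Set (Set X) := {V | V ∈ 𝒰 ∧ ∃ c, V = Uc c}
  have h𝒱c : 𝒱.Countable := by
    apply (countable_range Uc).mono
    rintro V ⟨_, c, rfl⟩
    exact mem_range_self c
  have hF𝒱 : ∀ F : Finset W, ∃ V ∈ 𝒱, ∀ β ∈ F, pt β ∈ V := by
    intro F
    obtain ⟨U, hU, hFU⟩ := hom ((F : Set W).image pt) (F.finite_toSet.image pt)
    obtain ⟨c, h1, h2⟩ := hfin F U (hopen U hU) fun β hβ => hFU ⟨β, hβ, rfl⟩
    have hex : ∃ U ∈ 𝒰, ∀ β, MC (x β) c → pt β ∈ U := ⟨U, hU, h2⟩
    have hUc : Uc c = hex.choose := dif_pos hex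
    refine ⟨Uc c, ⟨?_, c, rfl⟩, fun β hβ => ?_⟩
    · rw [hUc]
      exact hex.choose_spec.1
    · rw [hUc]
      exact hex.choose_spec.2 β (h1 β hβ)
  have hne : ∀ V ∈ 𝒱, ∃ β, pt β ∉ V := by
    intro V hV
    by_contra hcon
    push Not at hcon
    apply huniv
    have : V = univ := eq_univ_of_forall fun ⟨y, β, hβ⟩ => by
      subst hβ
      exact hcon β
    rw [← this]
    exact hV.1
  have h𝒱inf : 𝒱.Infinite := by
    intro hf
    choose! b hb using hne
    obtain ⟨V, hV, hV2⟩ := hF𝒱 (hf.toFinset.image b)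
    exact hb V hV (hV2 (b V) (Finset.mem_image.2 ⟨V, hf.mem_toFinset.2 hV, rfl⟩))
  have hcount : Countable 𝒱 := h𝒱c.to_subtype
  have hinf : Infinite 𝒱 := h𝒱inf.to_subtype
  obtain ⟨e⟩ : Nonempty (ℕ ≃ 𝒱) := by
    obtain ⟨d⟩ := nonempty_denumerable 𝒱
    exact ⟨(Denumerable.eqv 𝒱).symm⟩
  -- large indices
  have hbig : ∀ (F : Finset W) (m : ℕ), ∃ k, m ≤ k ∧ ∀ β ∈ F, pt β ∈ (e k : Set X) := by
    intro F m
    choose! b hb using hne
    obtain ⟨V, hV, hV2⟩ := hF𝒱 (F ∪ (Finset.range m).image fun k => b (e k))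
    refine ⟨e.symm ⟨V, hV⟩, ?_, fun β hβ => ?_⟩
    · by_contra hlt
      push Not at hlt
      have h1 := hV2 (b (e (e.symm ⟨V, hV⟩))) (Finset.mem_union_right _ (Finset.mem_image.2
        ⟨_, Finset.mem_range.2 hlt, rfl⟩))
      rw [Equiv.apply_symm_apply] at h1
      exact hb V hV h1
    · rw [Equiv.apply_symm_apply]
      exact hV2 β (Finset.mem_union_left _ hβ)
  let N : Set Code := {c | ∀ β, Mem (x β) c → pt β ∈ (e c.2 : Set X)}
  obtain ⟨g, hg1, hg2, hg3⟩ := hcov N (by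
    intro F m
    obtain ⟨k, hk, hF⟩ := hbig F m
    obtain ⟨c, h1, h2⟩ := hfin F (e k) (hopen _ (e k).2.1) hF
    exact ⟨(c, k), hk, h2, h1⟩)
  -- the choice of j
  obtain ⟨j, hj⟩ : ∃ j, ∀ β, {n | Mem (x β) (g j n)} ∈ p := by
    by_contra hcon
    push Not at hcon
    choose f hf using hcon
    obtain ⟨j, j', hne', hff⟩ := hpig f
    have h1 : {n | Mem (x (f j)) (g j n)}ᶜ ∈ p := Ultrafilter.compl_mem_iff_notMem.2 (hf j)
    have h2 : {n | Mem (x (f j)) (g j' n)}ᶜ ∈ p := by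
      rw [hff]
      exact Ultrafilter.compl_mem_iff_notMem.2 (hf j')
    obtain ⟨m, hm⟩ := hg3 j j' hne' (f j)
    have h3 : {n | m ≤ n} ∈ p := hp (by
      rw [mem_cofinite]
      apply (finite_lt_nat m).subset
      intro n hn
      simpa using hn)
    obtain ⟨n, ⟨hn1, hn2⟩, hn3⟩ := p.nonempty_of_mem (inter_mem (inter_mem h1 h2) h3)
    rcases hm n hn3 with h4 | h4
    · exact hn1 h4
    · exact hn2 h4
  refine ⟨fun n => (e (g j n).2 : Set X), ?_, fun n => (e (g j n).2).2.1, ?_⟩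
  · intro n n' hnn
    have h1 : (g j n).2 = (g j n').2 := e.injective (Subtype.ext hnn)
    rcases lt_trichotomy n n' with h | h | h
    · exact absurd h1 (hg2 j n n' h).ne
    · exact h
    · exact absurd h1 (hg2 j n' n h).ne'
  · rintro ⟨y, β, hβ⟩
    subst hβ
    exact mem_of_superset (hj β) fun n hn => hg1 j n β hn

theorem not_gamma_range (h : GoodFamily W J x) : ¬ GammaProperty (range x) := by
  classical
  obtain ⟨hcen, homit, hnp, _, _⟩ := h
  intro hγ
  let V : ℕ → Set (range x) := fun n => {y | (y : ℕ → Bool) n = true}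
  have h4 : ∀ F : Set (range x), F.Finite → ∃ U ∈ range V, F ⊆ U := by
    intro F hF
    have h1 : ∀ y : range x, ∃ β, x β = y := fun y => y.2
    choose b hb using h1
    obtain ⟨n, _, hn⟩ := hcen (hF.toFinset.image b) 0
    refine ⟨V n, mem_range_self n, fun y hy => ?_⟩
    show (y : ℕ → Bool) n = true
    rw [← hb y]
    exact hn (b y) (Finset.mem_image.2 ⟨y, hF.mem_toFinset.2 hy, rfl⟩)
  have hcov : IsOmegaCover (range V) := by
    refine ⟨?_, ?_, ?_, h4⟩
    · rintro _ ⟨n, rfl⟩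
      have hc : Continuous (fun z : range x => (z : ℕ → Bool) n) :=
        (continuous_apply n).comp continuous_subtype_val
      exact (isOpen_discrete ({true} : Set Bool)).preimage hc
    · refine eq_univ_of_forall fun y => ?_
      obtain ⟨U, hU, hyU⟩ := h4 {y} (finite_singleton y)
      exact ⟨U, hU, hyU rfl⟩
    · rintro ⟨n, hn⟩
      obtain ⟨β, hβ⟩ := homit n
      have : (⟨x β, mem_range_self β⟩ : range x) ∈ V n := hn ▸ mem_univ _
      have h5 : x β n = true := this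
      rw [hβ] at h5
      exact absurd h5 (by simp)
  obtain ⟨𝒱, h𝒱, -, hinf, hx⟩ := hγ _ hcov
  let a : Set ℕ := {n | V n ∈ 𝒱 ∧ ∀ k < n, V k ≠ V n}
  have hVinj : Set.InjOn V a := by
    intro n hn n' hn' he
    rcases lt_trichotomy n n' with h | h | h
    · exact absurd he (hn'.2 n h)
    · exact h
    · exact absurd he.symm (hn.2 n' h)
  have hsurj : 𝒱 ⊆ V '' a := by
    intro U hU
    have hex : ∃ n, V n = U := h𝒱 hU
    refine ⟨Nat.find hex, ⟨?_, fun k hk he => ?_⟩, Nat.find_spec hex⟩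
    · rw [Nat.find_spec hex]
      exact hU
    · rw [Nat.find_spec hex] at he
      exact Nat.find_min hex hk he
  have hainf : a.Infinite := fun hf => hinf ((hf.image V).subset hsurj)
  obtain ⟨β, hβ⟩ := hnp a fun m => by
    obtain ⟨n, hn1, hn2⟩ := hainf.exists_gt m
    exact ⟨n, hn2.le, hn1⟩
  have h1 := hx ⟨x β, mem_range_self β⟩
  have h2 : {n | n ∈ a ∧ x β n = false}.Finite := by
    apply Set.Finite.of_finite_image (f := V) _ (hVinj.mono fun n hn => hn.1)
    refine h1.subset ?_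
    rintro _ ⟨n, ⟨hn1, hn2⟩, rfl⟩
    refine ⟨hn1.1, fun h3 => ?_⟩
    have h5 : x β n = true := h3
    rw [hn2] at h5
    exact absurd h5 (by simp)
  obtain ⟨m, hm⟩ := h2.bddAbove
  obtain ⟨n, hn1, hn2, hn3⟩ := hβ (m + 1)
  have := hm ⟨hn2, hn3⟩
  omega

theorem infinite_range (h : GoodFamily W J x) : (range x).Infinite := by
  classical
  obtain ⟨hcen, homit, hnp, _, _⟩ := h
  have hWn : Nonempty W := ⟨(homit 0).choose⟩
  intro hf
  have h1 : ∀ y ∈ range x, ∃ β, x β = y := fun y hy => hy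
  choose! b hb using h1
  obtain ⟨β, hβ⟩ := hnp {n | ∀ β, x β n = true} fun m => by
    obtain ⟨n, hn1, hn2⟩ := hcen (hf.toFinset.image b) m
    refine ⟨n, hn1, fun β => ?_⟩
    have h2 := hn2 (b (x β)) (Finset.mem_image.2 ⟨x β, hf.mem_toFinset.2 (mem_range_self β), rfl⟩)
    rw [hb (x β) (mem_range_self β)] at h2
    exact h2
  obtain ⟨n, _, hn1, hn2⟩ := hβ 0
  rw [hn1 β] at hn2
  exact absurd hn2 (by simp)

end

section Transport

variable {A B : Type*} [TopologicalSpace A] [TopologicalSpace B]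

theorem omega_pull' (e : A ≃ₜ B) {𝒰 : Set (Set B)} (h : IsOmegaCover 𝒰) :
    IsOmegaCover ((fun U => e ⁻¹' U) '' 𝒰) := by
  obtain ⟨h1, h2, h3, h4⟩ := h
  refine ⟨?_, ?_, ?_, ?_⟩
  · rintro _ ⟨U, hU, rfl⟩
    exact (h1 U hU).preimage e.continuous
  · refine eq_univ_of_forall (fun x => ?_)
    have : e x ∈ ⋃₀ 𝒰 := h2 ▸ mem_univ _
    obtain ⟨U, hU, hx⟩ := this
    exact ⟨_, ⟨U, hU, rfl⟩, hx⟩
  · rintro ⟨U, hU, hUu⟩
    apply h3
    have : U = univ := by
      refine eq_univ_of_forall (fun x => ?_)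
      have h5 : e.symm x ∈ (fun U => e ⁻¹' U) U := hUu ▸ mem_univ _
      have h6 : e (e.symm x) ∈ U := h5
      rwa [Homeomorph.apply_symm_apply] at h6
    rw [← this]
    exact hU
  · intro F hF
    obtain ⟨U, hU, hFU⟩ := h4 (e '' F) (hF.image e)
    exact ⟨_, ⟨U, hU, rfl⟩, fun x hx => hFU ⟨x, hx, rfl⟩⟩

theorem GammaPInj.transport {p : Ultrafilter ℕ} (e : A ≃ₜ B) (h : GammaPInj p A) :
    GammaPInj p B := by
  intro 𝒰 h𝒰
  obtain ⟨U, hinj, hU, hx⟩ := h _ (omega_pull' e h𝒰)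
  choose V hV hVU using hU
  refine ⟨V, fun n n' hnn => hinj ?_, hV, fun x => ?_⟩
  · rw [← hVU n, ← hVU n', hnn]
  · refine mem_of_superset (hx (e.symm x)) (fun n hn => ?_)
    have h1 : e.symm x ∈ U n := hn
    rw [← hVU n] at h1
    have : e (e.symm x) ∈ V n := h1
    rwa [Homeomorph.apply_symm_apply] at this

theorem gammaProperty_transport (e : A ≃ₜ B) (h : GammaProperty A) : GammaProperty B := by
  intro 𝒰 h𝒰
  obtain ⟨𝒱, h1, h2, h3, h4⟩ := h _ (omega_pull' e h𝒰)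
  have hback : ∀ W : Set B, e.symm ⁻¹' (e ⁻¹' W) = W := by
    intro W
    ext x
    simp
  refine ⟨(fun V => e.symm ⁻¹' V) '' 𝒱, ?_, ?_, ?_, ?_⟩
  · rintro _ ⟨V, hV, rfl⟩
    obtain ⟨W, hW, hWV⟩ := h1 hV
    change e.symm ⁻¹' V ∈ 𝒰
    rw [← hWV]
    change e.symm ⁻¹' (e ⁻¹' W) ∈ 𝒰
    rw [hback]
    exact hW
  · rintro _ ⟨V, hV, rfl⟩
    exact (h2 V hV).preimage e.symm.continuous
  · refine h3.image (fun V _ W _ hVW => ?_)
    exact e.symm.surjective.preimage_injective hVW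
  · intro x
    refine ((h4 (e.symm x)).image (fun V => e.symm ⁻¹' V)).subset ?_
    rintro _ ⟨⟨V, hV, rfl⟩, hx⟩
    exact ⟨V, ⟨hV, hx⟩, rfl⟩

end Transport

/-- The principle gives an infinite set of reals with `γ_p` for all `p` and without `γ`. -/
theorem exists_set {W J : Type} {x : W → ℕ → Bool} (h : GoodFamily W J x) :
    ∃ X : Set ℝ, X.Infinite ∧ (∀ p : Ultrafilter ℕ, Nonprincipal p → GammaPInj p X) ∧
      ¬ GammaProperty X := by
  obtain ⟨g, hg⟩ : ∃ g : (ℕ → Bool) → ℝ, Topology.IsEmbedding g :=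
    ⟨fun x => ((cantorSetHomeomorphNatToBool.symm x : cantorSet) : ℝ),
      Topology.IsEmbedding.subtypeVal.comp cantorSetHomeomorphNatToBool.symm.isEmbedding⟩
  obtain ⟨e⟩ : Nonempty (range x ≃ₜ (g '' range x : Set ℝ)) := by
    have hgX : Topology.IsEmbedding (fun y : range x => g y) :=
      hg.comp Topology.IsEmbedding.subtypeVal
    have h1 : range (fun y : range x => g y) = g '' range x := by
      ext r
      constructor
      · rintro ⟨y, rfl⟩
        exact ⟨y, y.2, rfl⟩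
      · rintro ⟨y, hy, rfl⟩
        exact ⟨⟨y, hy⟩, rfl⟩
    rw [← h1]
    exact ⟨hgX.toHomeomorph⟩
  refine ⟨g '' range x, (infinite_range h).image hg.injective.injOn,
    fun p hp => (gammaPInj_range h hp).transport e, fun hγ => not_gamma_range h ?_⟩
  exact gammaProperty_transport e.symm hγ

end Pool.Agent.W635.GP
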