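import Mathlib
import Pool.Agent.W635.CHZfc

/-!
# A Hurewicz 𝔟-concentrated set which is not productively Hurewicz, from the principle
-/

namespace Pool.Agent.W635.Conc

open Set Filter Cardinal Pool.Agent.W635.CHDefs Pool.Agent.H752R3 Pool.Agent.W635.CHZfc

/-! ### Coding branches -/

/-- the code of the first `n` values of `w` -/
def cd (w : ℕ → Bool) : ℕ → ℕ
  | 0 => 1
  | n + 1 => 2 * cd w n + (if w n then 1 else 0)

theorem cd_lo (w : ℕ → Bool) (n : ℕ) : 2 ^ n ≤ cd w n := by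
  induction n with
  | zero => exact le_rfl
  | succ n ih => rw [pow_succ, cd]; omega

theorem cd_hi (w : ℕ → Bool) (n : ℕ) : cd w n < 2 ^ (n + 1) := by
  induction n with
  | zero => simp [cd]
  | succ n ih =>
    rw [pow_succ, cd]
    split_ifs <;> omega

/-- the set of codes -/
def Br (w : ℕ → Bool) : Set ℕ := {m | ∃ n, m = cd w n}

theorem eq_of_interval {m n n' : ℕ} (h1 : 2 ^ n ≤ m) (h2 : m < 2 ^ (n + 1)) (h3 : 2 ^ n' ≤ m)
    (h4 : m < 2 ^ (n' + 1)) : n = n' := by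
  have h5 : n < n' + 1 := (Nat.pow_lt_pow_iff_right (by norm_num)).1 (h1.trans_lt h4)
  have h6 : n' < n + 1 := (Nat.pow_lt_pow_iff_right (by norm_num)).1 (h3.trans_lt h2)
  omega

theorem cd_injOn {w w' : ℕ → Bool} {n : ℕ} (h : cd w n = cd w' n) : ∀ i < n, w i = w' i := by
  induction n with
  | zero => intro i hi; omega
  | succ n ih =>
    intro i hi
    simp only [cd] at h
    have h1 : cd w n = cd w' n ∧ w n = w' n := by
      cases hw : w n <;> cases hw' : w' n <;> simp [hw, hw'] at h ⊢ <;> omega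
    rcases Nat.lt_succ_iff_lt_or_eq.1 hi with h2 | h2
    · exact ih h1.1 i h2
    · rw [h2]; exact h1.2

theorem Br_ad {w w' : ℕ → Bool} {n : ℕ} (h : w n ≠ w' n) {m : ℕ} (hm : m ∈ Br w)
    (hm' : m ∈ Br w') : m < 2 ^ (n + 1) := by
  obtain ⟨i, rfl⟩ := hm
  obtain ⟨j, hj⟩ := hm'
  have hij : i = j := eq_of_interval (cd_lo w i) (cd_hi w i) (hj ▸ cd_lo w' j) (hj ▸ cd_hi w' j)
  subst hij
  by_contra hcon
  rw [not_lt] at hcon
  have h1 : n < i := by
    have := hcon.trans_lt (cd_hi w i)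
    have := (Nat.pow_lt_pow_iff_right (show 1 < 2 by norm_num)).1 this
    omega
  exact h (cd_injOn hj n h1)

theorem cd_congr {w w' : ℕ → Bool} {n : ℕ} (h : ∀ i < n, w i = w' i) : cd w n = cd w' n := by
  induction n with
  | zero => rfl
  | succ n ih =>
    simp only [cd]
    rw [ih fun i hi => h i (by omega), h n (by omega)]

theorem Br_congr {w w' : ℕ → Bool} {L : ℕ} (h : ∀ i < L, w i = w' i) {m : ℕ} (hm : m < L) :
    m ∈ Br w ↔ m ∈ Br w' := by
  have key : ∀ {w w' : ℕ → Bool}, (∀ i < L, w i = w' i) → m ∈ Br w → m ∈ Br w' := by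
    rintro w w' h ⟨n, rfl⟩
    refine ⟨n, cd_congr fun i hi => h i ?_⟩
    have h1 : n < 2 ^ n := Nat.lt_two_pow_self
    have h2 := cd_lo w n
    omega
  exact ⟨key h, key fun i hi => (h i hi).symm⟩

/-! ### Blocks -/

/-- an increasing function above `f` -/
def FF (f : ℕ → ℕ) (m : ℕ) : ℕ := 4 * m + 4 + ∑ i ∈ Finset.range (m + 1), f i

theorem le_FF (f : ℕ → ℕ) (m : ℕ) : f m ≤ FF f m := by
  have : f m ≤ ∑ i ∈ Finset.range (m + 1), f i :=
    Finset.single_le_sum (f := f) (fun _ _ => Nat.zero_le _) (Finset.mem_range.2 (Nat.lt_succ_self m))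
  unfold FF; omega

/-- the end points of the blocks -/
def ee (f : ℕ → ℕ) : ℕ → ℕ
  | 0 => 1
  | j + 1 => FF f (ee f j)

theorem ee_succ (f : ℕ → ℕ) (j : ℕ) : ee f (j + 1) = FF f (ee f j) := rfl

theorem ee_step (f : ℕ → ℕ) (j : ℕ) : 4 * ee f j ≤ ee f (j + 1) := by
  rw [ee_succ]; unfold FF; omega

theorem ee_pos (f : ℕ → ℕ) (j : ℕ) : 1 ≤ ee f j := by
  induction j with
  | zero => exact le_rfl
  | succ j ih => have := ee_step f j; omega

theorem ee_strictMono (f : ℕ → ℕ) : StrictMono (ee f) :=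
  strictMono_nat_of_lt_succ fun j => by have := ee_step f j; have := ee_pos f j; omega

/-- every block contains a dyadic interval -/
theorem exists_dyadic (f : ℕ → ℕ) (j : ℕ) : ∃ n, ee f j ≤ 2 ^ n ∧ 2 ^ (n + 1) ≤ ee f (j + 1) := by
  have h1 := ee_pos f j
  have h2 : ∃ n, ee f j ≤ 2 ^ n := ⟨ee f j, Nat.lt_two_pow_self.le⟩
  classical
  refine ⟨Nat.find h2, Nat.find_spec h2, ?_⟩
  have h3 := ee_step f j
  rcases h : Nat.find h2 with _ | n
  · norm_num; omega
  · have h4 : ¬ ee f j ≤ 2 ^ n := Nat.find_min h2 (by omega)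
    rw [pow_succ, pow_succ]; omega

/-- the union of the even blocks -/
def On (f : ℕ → ℕ) (m : ℕ) : Prop := ∃ i, ee f (2 * i) ≤ m ∧ m < ee f (2 * i + 1)

theorem not_On {f : ℕ → ℕ} {i m : ℕ} (h1 : ee f (2 * i + 1) ≤ m) (h2 : m < ee f (2 * i + 2)) :
    ¬ On f m := by
  rintro ⟨j, h3, h4⟩
  have h5 : 2 * j < 2 * i + 2 := (ee_strictMono f).lt_iff_lt.1 (h3.trans_lt h2)
  have h6 : 2 * i + 1 < 2 * j + 1 := (ee_strictMono f).lt_iff_lt.1 (h1.trans_lt h4)
  omega

open Classical in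
/-- the point `x` given by `w` and `f` -/
noncomputable def xp (w : ℕ → Bool) (f : ℕ → ℕ) : ℕ → Bool := fun m => decide (m ∈ Br w ∧ On f m)

open Classical in
/-- `x` below `a` and the branch of `w` from `a` on -/
noncomputable def YY (w : ℕ → Bool) (x : ℕ → Bool) (a : ℕ) : ℕ → Bool :=
  fun m => if m < a then x m else decide (m ∈ Br w)

theorem exists_block (f : ℕ → ℕ) (m : ℕ) (hm : 1 ≤ m) : ∃ j, ee f j ≤ m ∧ m < ee f (j + 1) := by
  induction m, hm using Nat.le_induction with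
  | base => exact ⟨0, le_rfl, by have := ee_step f 0; have := ee_pos f 0; omega⟩
  | succ m _ ih =>
    obtain ⟨j, h1, h2⟩ := ih
    by_cases h : m + 1 < ee f (j + 1)
    · exact ⟨j, by omega, h⟩
    · refine ⟨j + 1, by omega, ?_⟩
      have : ee f (j + 1) < ee f (j + 1 + 1) := ee_strictMono f (Nat.lt_succ_self _)
      omega

/-- the heart of the proof that the set is Hurewicz -/
theorem core {G : ℕ → ℕ → (ℕ → Bool) → Prop}
    (h1 : ∀ n L x y, G n L x → (∀ i < L, y i = x i) → G n L y)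
    (h2 : ∀ n L L' x, L ≤ L' → G n L x → G n L' x)
    (h3 : ∀ n n' L x, n' ≤ n → G n L x → G n' L x) {Lf g0 : ℕ → ℕ} (hL1 : Monotone Lf)
    (hL2 : ∀ m, m ≤ Lf m) (hg1 : Monotone g0) (hg2 : ∀ m, m ≤ g0 m) {w : ℕ → Bool} {f : ℕ → ℕ}
    {M : ℕ} (hF1 : ∀ a ≥ M, Lf a ≤ FF f a) (hF2 : ∀ a ≥ M, g0 a ≤ FF f a)
    (hL : ∀ m x, (∀ i, m ≤ i → i < Lf m → x i = false) → G m (Lf m) x)
    (hg : ∀ a ≥ M, ∀ x, G a (g0 a) (YY w x a)) :
    ∀ m ≥ ee f M, G m (g0 (Lf m) + Lf (g0 m)) (xp w f) := by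
  classical
  intro m hm
  obtain ⟨j, hj1, hj2⟩ := exists_block f m ((ee_pos f M).trans hm)
  have hjM : M ≤ j := by
    have := (ee_strictMono f).lt_iff_lt.1 (hm.trans_lt hj2)
    omega
  have hid : ∀ j, j ≤ ee f j := fun j => (ee_strictMono f).le_apply
  -- agreement with the branch inside a block
  have hY : ∀ i a L, ee f (2 * i) ≤ a → L ≤ ee f (2 * i + 1) →
      ∀ n < L, xp w f n = YY w (xp w f) a n := by
    intro i a L ha hL' n hn
    by_cases hna : n < a
    · simp [YY, hna]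
    · have : On f n := ⟨i, by omega, by omega⟩
      simp [YY, hna, xp, this]
  have hgap : ∀ i n, ee f (2 * i + 1) ≤ n → n < ee f (2 * i + 2) → xp w f n = false := by
    intro i n h4 h5
    simp [xp, not_On h4 h5]
  rcases Nat.even_or_odd' j with ⟨i, rfl | rfl⟩
  · -- inside a block of the branch
    by_cases hc : g0 m ≤ ee f (2 * i + 1)
    · have h4 := hg m (by have := hid M; omega) (xp w f)
      have h5 := h1 _ _ _ _ h4 (hY i m (g0 m) hj1 hc)
      refine h2 _ _ _ _ ?_ h5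
      have := hg1 (hL2 m); omega
    · rw [not_le] at hc
      have h4 : Lf (ee f (2 * i + 1)) ≤ ee f (2 * i + 2) :=
        hF1 _ (hjM.trans ((hid _).trans (ee_strictMono f (Nat.lt_succ_self _)).le))
      have h5 := hL (ee f (2 * i + 1)) (xp w f) fun n h6 h7 => hgap i n h6 (h7.trans_le h4)
      refine h2 _ _ _ _ ?_ (h3 _ _ _ _ hj2.le h5)
      have := hL1 hc.le; omega
  · -- inside a gap
    by_cases hc : Lf m ≤ ee f (2 * i + 2)
    · have h5 := hL m (xp w f) fun n h6 h7 => hgap i n (hj1.trans h6) (h7.trans_le hc)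
      refine h2 _ _ _ _ ?_ h5
      have := hL1 (hg2 m); omega
    · rw [not_le] at hc
      have h4 : g0 (ee f (2 * (i + 1))) ≤ ee f (2 * (i + 1) + 1) :=
        hF2 _ ((hjM.trans (by omega : 2 * i + 1 ≤ 2 * (i + 1))).trans (hid _))
      have h5 := hg (ee f (2 * (i + 1)))
        ((hjM.trans (by omega : 2 * i + 1 ≤ 2 * (i + 1))).trans (hid _)) (xp w f)
      have h6 := h1 _ _ _ _ h5 (hY (i + 1) (ee f (2 * (i + 1))) _ le_rfl h4)
      have h7 : m ≤ ee f (2 * (i + 1)) := hj2.le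
      refine h2 _ _ _ _ ?_ (h3 _ _ _ _ h7 h6)
      have h8 : ee f (2 * (i + 1)) ≤ Lf m := hc.le
      have := hg1 h8; omega

/-! ### A criterion for the Hurewicz property -/

theorem exists_agree {O : Set (ℕ → Bool)} (hO : IsOpen O) {x : ℕ → Bool} (hx : x ∈ O) :
    ∃ L, ∀ y : ℕ → Bool, (∀ i < L, y i = x i) → y ∈ O := by
  obtain ⟨s, h1, h2⟩ := exists_init hO hx
  exact ⟨s.length, fun y hy => h2 y fun i hi => (hy i hi).trans (h1 i hi)⟩

theorem hur_crit {X : Set (ℕ → Bool)} (h : ∀ G : ℕ → ℕ → (ℕ → Bool) → Prop,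
    (∀ n L x y, G n L x → (∀ i < L, y i = x i) → G n L y) →
    (∀ n L L' x, L ≤ L' → G n L x → G n L' x) →
    (∀ n n' L x, n' ≤ n → G n L x → G n' L x) →
    (∀ n, ∀ x ∈ X, ∃ L, G n L x) → ∃ g : ℕ → ℕ, ∀ x ∈ X, ∀ᶠ n in atTop, G n (g n) x) :
    HurewiczSp X := by
  classical
  intro U hU
  let H : ℕ → ℕ → (ℕ → Bool) → Prop := fun i L x => ∃ u ∈ U i, ∀ y : X,
    (∀ j < L, y.1 j = x j) → y ∈ u
  obtain ⟨g, hg⟩ := h (fun n L x => ∀ i ≤ n, H i L x)
    (fun n L x y hx hxy i hi => by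
      obtain ⟨u, hu, h1⟩ := hx i hi
      exact ⟨u, hu, fun z hz => h1 z fun j hj => (hz j hj).trans (hxy j hj)⟩)
    (fun n L L' x hL hx i hi => by
      obtain ⟨u, hu, h1⟩ := hx i hi
      exact ⟨u, hu, fun z hz => h1 z fun j hj => hz j (hj.trans_le hL)⟩)
    (fun n n' L x hn hx i hi => hx i (hi.trans hn))
    (fun n x hx => by
      have h1 : ∀ i, ∃ L, H i L x := by
        intro i
        have h2 : (⟨x, hx⟩ : X) ∈ ⋃₀ U i := by rw [(hU i).2]; trivial
        obtain ⟨u, hu, hxu⟩ := h2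
        obtain ⟨O, hO, rfl⟩ := isOpen_induced_iff.1 ((hU i).1 u hu)
        obtain ⟨L, hL⟩ := exists_agree hO hxu
        exact ⟨L, _, hu, fun z hz => hL z.1 hz⟩
      choose L hL using h1
      refine ⟨(Finset.range (n + 1)).sup L, fun i hi => ?_⟩
      obtain ⟨u, hu, h2⟩ := hL i
      exact ⟨u, hu, fun z hz => h2 z fun j hj => hz j
        (hj.trans_le (Finset.le_sup (f := L) (Finset.mem_range.2 (Nat.lt_succ_of_le hi))))⟩)
  have hc : ∀ n, ∀ σ : Fin (g n) → Bool, ∃ u : Set X,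
      (∃ x : ℕ → Bool, (∀ j : Fin (g n), x j = σ j) ∧ H n (g n) x) →
      u ∈ U n ∧ ∀ y : X, (∀ j : Fin (g n), y.1 j = σ j) → y ∈ u := by
    intro n σ
    by_cases hx : ∃ x : ℕ → Bool, (∀ j : Fin (g n), x j = σ j) ∧ H n (g n) x
    · obtain ⟨x, hx1, u, hu, hx2⟩ := hx
      exact ⟨u, fun _ => ⟨hu, fun y hy => hx2 y fun j hj => (hy ⟨j, hj⟩).trans (hx1 ⟨j, hj⟩).symm⟩⟩
    · exact ⟨∅, fun h' => absurd h' hx⟩
  choose u hu using hc
  refine ⟨fun n => u n '' {σ | ∃ x : ℕ → Bool, (∀ j : Fin (g n), x j = σ j) ∧ H n (g n) x},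
    fun n => ⟨?_, (Set.toFinite _).image _⟩, fun z => ?_⟩
  · rintro _ ⟨σ, hσ, rfl⟩
    exact (hu n σ hσ).1
  · filter_upwards [hg z.1 z.2] with n hn
    have hσ : ∃ x : ℕ → Bool, (∀ j : Fin (g n), x j = z.1 j) ∧ H n (g n) x :=
      ⟨z.1, fun _ => rfl, hn n le_rfl⟩
    exact ⟨_, ⟨fun j => z.1 j, hσ, rfl⟩, (hu n _ hσ).2 z fun _ => rfl⟩

/-! ### The sets -/

section

variable {K : Type} [LinearOrder K] [WellFoundedLT K] {A A' : Set K} {w : K → ℕ → Bool}
  {f : K → ℕ → ℕ}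

open Classical in
/-- the characteristic function of a branch -/
noncomputable def ch (x : ℕ → Bool) : ℕ → Bool := fun m => decide (m ∈ Br x)

/-- equality modulo finite -/
def Eqf (x y : ℕ → Bool) : Prop := ∃ a, ∀ m, a ≤ m → x m = y m

/-- the sequences which are eventually `false` -/
def FinS : Set (ℕ → Bool) := {x | ∃ a, ∀ m, a ≤ m → x m = false}

/-- the set constructed from `B ⊆ K` -/
def XX (w : K → ℕ → Bool) (f : K → ℕ → ℕ) (B : Set K) : Set (ℕ → Bool) :=
  range (fun k => xp (w k) (f k)) ∪ FinS ∪ {x | ∃ k ∈ B, Eqf x (ch (w k))}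

theorem countable_Eqf (y : ℕ → Bool) : {x | Eqf x y}.Countable := by
  classical
  have h : {x | Eqf x y} ⊆ ⋃ a : ℕ, range (fun s : Fin a → Bool => fun m =>
      if h : m < a then s ⟨m, h⟩ else y m) := by
    rintro x ⟨a, ha⟩
    refine mem_iUnion.2 ⟨a, fun m => x m, ?_⟩
    funext m
    by_cases hm : m < a
    · simp [hm]
    · simp [hm, ha m (not_lt.1 hm)]
  exact (countable_iUnion fun a => countable_range _).mono h

theorem countable_FinS : FinS.Countable :=
  (countable_Eqf fun _ => false).mono fun x hx => hx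

theorem aleph0_lt (h : Principle K A A' w f) : ℵ₀ < #K := by
  by_contra hcon
  rw [not_lt] at hcon
  have : Countable K := mk_le_aleph0_iff.1 hcon
  exact h.uncountable (Set.to_countable A)

theorem countable_lt (h : Principle K A A' w f) {Y : Type} {S : Set Y} (hS : S.Countable) :
    #S < #K := (le_aleph0_iff_set_countable.2 hS).trans_lt (aleph0_lt h)

/-- the part of the set coming from `B` is small -/
theorem small_B (h : Principle K A A' w f) {B : Set K} (hB : ∃ γ : K, ∀ k ∈ B, k < γ) :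
    #({x | ∃ k ∈ B, Eqf x (ch (w k))} : Set (ℕ → Bool)) < #K := by
  obtain ⟨γ, hγ⟩ := hB
  have h1 : ({x | ∃ k ∈ B, Eqf x (ch (w k))} : Set (ℕ → Bool)) ⊆
      ⋃ k : Iio γ, {x | Eqf x (ch (w k))} := by
    rintro x ⟨k, hk, hx⟩
    exact mem_iUnion.2 ⟨⟨k, hγ k hk⟩, hx⟩
  refine (mk_le_mk_of_subset h1).trans_lt (mk_iUnion_le_sum_mk.trans_lt ?_)
  refine (Cardinal.sum_le_sum _ (fun _ => ℵ₀) fun k =>
    le_aleph0_iff_set_countable.2 (countable_Eqf _)).trans_lt ?_
  rw [Cardinal.sum_const']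
  exact mul_lt_of_lt (aleph0_lt h).le (mk_Iio_lt h γ) (aleph0_lt h)

theorem YY_mem {B : Set K} {k : K} (hk : k ∈ B) (x : ℕ → Bool) (a : ℕ) :
    YY (w k) x a ∈ XX w f B :=
  Or.inr ⟨k, hk, a, fun m hm => by simp [YY, ch, not_lt.2 hm]⟩

theorem sum_mono (g : ℕ → ℕ) : Monotone fun m => ∑ i ∈ Finset.range (m + 1), g i := by
  intro m n hmn
  exact Finset.sum_le_sum_of_subset (Finset.range_mono (by omega))

theorem le_sum (g : ℕ → ℕ) (m : ℕ) : g m ≤ ∑ i ∈ Finset.range (m + 1), g i :=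
  Finset.single_le_sum (f := g) (fun _ _ => Nat.zero_le _) (Finset.mem_range.2 (Nat.lt_succ_self m))

/-- a property of all sequences determined by the values below `a` holds with a common bound -/
theorem exists_common {P : ℕ → (ℕ → Bool) → Prop} (a : ℕ)
    (hm : ∀ L L' x, L ≤ L' → P L x → P L' x)
    (hl : ∀ L x y, (∀ i < a, y i = x i) → P L x → P L y) (hx : ∀ x, ∃ L, P L x) :
    ∃ L, ∀ x, P L x := by
  classical
  choose g hg using hx
  let e : (Fin a → Bool) → ℕ → Bool := fun s m => if h : m < a then s ⟨m, h⟩ else false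
  refine ⟨Finset.univ.sup fun s => g (e s), fun x => ?_⟩
  have h1 := hg (e fun m => x m)
  have h2 : g (e fun m => x m) ≤ Finset.univ.sup fun s => g (e s) :=
    Finset.le_sup (f := fun s => g (e s)) (Finset.mem_univ (fun m : Fin a => x m))
  refine hl _ _ _ (fun i hi => ?_) (hm _ _ _ h2 h1)
  simp [e, hi]

/-- The set is Hurewicz. -/
theorem hurewicz_XX (h : Principle K A A' w f) {B : Set K} (hB : ∃ γ : K, ∀ k ∈ B, k < γ)
    (hBc : ∀ O : Set (List Bool), (∀ k ∈ B, InO (w k) O) → {k | ¬ InO (w k) O}.Countable) :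
    HurewiczSp (XX w f B) := by
  classical
  refine hur_crit fun G h1 h2 h3 h4 => ?_
  -- finite sequences
  have hLex : ∀ m, ∃ L, ∀ x : ℕ → Bool, G m L (fun i => if i < m then x i else false) := by
    intro m
    refine exists_common m (fun L L' x hL hx => h2 _ _ _ _ hL hx) (fun L x y hxy hx => ?_)
      fun x => h4 m _ (Or.inl (Or.inr ⟨m, fun i hi => by simp [not_lt.2 hi]⟩))
    refine h1 _ _ _ _ hx fun i _ => ?_
    by_cases hi : i < m
    · simp [hi, hxy i hi]
    · simp [hi]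
  choose Lf0 hLf0 using hLex
  let Lf : ℕ → ℕ := fun m => m + ∑ i ∈ Finset.range (m + 1), Lf0 i
  have hL1 : Monotone Lf := fun a b hab => add_le_add hab (sum_mono Lf0 hab)
  have hL2 : ∀ m, m ≤ Lf m := fun m => Nat.le_add_right _ _
  have hL3 : ∀ m, Lf0 m ≤ Lf m := fun m => (le_sum Lf0 m).trans (Nat.le_add_left _ _)
  have hL : ∀ m x, (∀ i, m ≤ i → i < Lf m → x i = false) → G m (Lf m) x := by
    intro m x hx
    refine h1 _ _ _ _ (h2 _ _ _ _ (hL3 m) (hLf0 m x)) fun i hi => ?_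
    by_cases him : i < m
    · simp [him]
    · simp [him, hx i (not_lt.1 him) hi]
  -- branches
  let V : ℕ → ℕ → Set (List Bool) := fun a L => {t | ∀ w' : ℕ → Bool,
    (∀ i < t.length, w' i = t.getD i false) → ∀ x, G a L (YY w' x a)}
  have hV1 : ∀ a L k, (∀ x, G a L (YY (w k) x a)) → InO (w k) (V a L) := by
    intro a L k hx
    have hlen : ((List.range L).map (w k)).length = L := by simp
    have hget : ∀ i < L, ((List.range L).map (w k)).getD i false = w k i := by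
      intro i hi
      rw [List.getD_eq_getElem _ _ (by simpa using hi)]
      simp
    refine ⟨(List.range L).map (w k), fun w' hw' x => ?_, fun i hi => ?_⟩
    · refine h1 _ _ _ _ (hx x) fun i hi => ?_
      have h5 : ∀ j < L, w k j = w' j := fun j hj => by
        rw [hw' j (by rw [hlen]; exact hj), hget j hj]
      simp only [YY]
      by_cases hia : i < a
      · simp [hia]
      · simp only [hia, if_false]
        rw [decide_eq_decide]
        exact (Br_congr h5 hi).symm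
    · rw [hlen] at hi
      exact (hget i hi).symm
  have hV2 : ∀ a L k, InO (w k) (V a L) → ∀ x, G a L (YY (w k) x a) := by
    rintro a L k ⟨t, ht, ht'⟩ x
    exact ht (w k) ht' x
  have hC : ∀ a, {k | ¬ InO (w k) (⋃ L, V a L)}.Countable := by
    intro a
    refine hBc _ fun k hk => ?_
    obtain ⟨L, hL⟩ := exists_common (P := fun L x => G a L (YY (w k) x a)) a
      (fun L L' x hL hx => h2 _ _ _ _ hL hx) (fun L x y hxy hx => by
        refine h1 _ _ _ _ hx fun i _ => ?_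
        by_cases hia : i < a
        · simp [YY, hia, hxy i hia]
        · simp [YY, hia]) fun x => h4 a _ (YY_mem hk x a)
    obtain ⟨t, ht, ht'⟩ := hV1 a L k hL
    exact ⟨t, mem_iUnion.2 ⟨L, ht⟩, ht'⟩
  set C0 : Set K := ⋃ a, {k | ¬ InO (w k) (⋃ L, V a L)} with hC0
  have hC0c : C0.Countable := countable_iUnion hC
  obtain ⟨β0, hβ0⟩ := h.dominating V
  let g0 : ℕ → ℕ := fun m => m + ∑ i ∈ Finset.range (m + 1), f β0 i
  have hg1 : Monotone g0 := fun a b hab => add_le_add hab (sum_mono (f β0) hab)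
  have hg2 : ∀ m, m ≤ g0 m := fun m => Nat.le_add_right _ _
  have hg : ∀ k ∉ C0, ∃ N, ∀ a ≥ N, ∀ x, G a (g0 a) (YY (w k) x a) := by
    intro k hk
    obtain ⟨N, hN⟩ := hβ0 β0 le_rfl k fun a => by
      have h5 : InO (w k) (⋃ L, V a L) := by
        by_contra h6
        exact hk (mem_iUnion.2 ⟨a, h6⟩)
      obtain ⟨t, ht, ht'⟩ := h5
      obtain ⟨L, hL⟩ := mem_iUnion.1 ht
      exact ⟨L, t, hL, ht'⟩
    refine ⟨N, fun a ha x => ?_⟩
    obtain ⟨L, hL, hL'⟩ := hN a ha
    exact h2 _ _ _ _ (hL.trans ((le_sum (f β0) a).trans (Nat.le_add_left _ _))) (hV2 a L k hL' x)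
  obtain ⟨β1, hβ1⟩ := dominates h fun n => g0 n + Lf n
  have hgood : ∀ k, β1 ≤ k → k ∉ C0 →
      ∀ᶠ m in atTop, G m (g0 (Lf m) + Lf (g0 m)) (xp (w k) (f k)) := by
    intro k hk hkC
    obtain ⟨N1, hN1⟩ := hg k hkC
    obtain ⟨N2, hN2⟩ := eventually_atTop.1 (hβ1 k hk)
    have h5 := core h1 h2 h3 hL1 hL2 hg1 hg2 (w := w k) (f := f k) (M := max N1 N2)
      (fun a ha => by
        have h6 := hN2 a (le_of_max_le_right ha)
        have h7 := le_FF (f k) a
        omega)
      (fun a ha => by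
        have h6 := hN2 a (le_of_max_le_right ha)
        have h7 := le_FF (f k) a
        omega) hL fun a ha => hN1 a (le_of_max_le_left ha)
    exact eventually_atTop.2 ⟨_, h5⟩
  -- the remaining points
  let R : Set (ℕ → Bool) := (fun k => xp (w k) (f k)) '' (Iio β1 ∪ C0) ∪ FinS ∪
    {x | ∃ k ∈ B, Eqf x (ch (w k))}
  have hRX : R ⊆ XX w f B := by
    rintro x ((⟨k, _, rfl⟩ | hx) | hx)
    · exact Or.inl (Or.inl ⟨k, rfl⟩)
    · exact Or.inl (Or.inr hx)
    · exact Or.inr hx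
  have hR : #R < #K := by
    refine (mk_union_le _ _).trans_lt (add_lt_of_lt (aleph0_lt h).le ?_ (small_B h hB))
    refine (mk_union_le _ _).trans_lt (add_lt_of_lt (aleph0_lt h).le ?_
      (countable_lt h countable_FinS))
    refine mk_image_le.trans_lt ((mk_union_le _ _).trans_lt ?_)
    exact add_lt_of_lt (aleph0_lt h).le (mk_Iio_lt h β1) (countable_lt h hC0c)
  choose ψ hψ using fun (x : R) (n : ℕ) => h4 n x.1 (hRX x.2)
  obtain ⟨b, hb⟩ := bounded' h hR ψ
  refine ⟨fun m => (g0 (Lf m) + Lf (g0 m)) + b m, fun x hx => ?_⟩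
  have hrest : x ∈ R → ∀ᶠ n in atTop, G n ((g0 (Lf n) + Lf (g0 n)) + b n) x := by
    intro hxR
    filter_upwards [hb ⟨x, hxR⟩] with n hn
    exact h2 _ _ _ _ (hn.trans (Nat.le_add_left _ _)) (hψ ⟨x, hxR⟩ n)
  rcases hx with (⟨k, rfl⟩ | hx) | hx
  · by_cases hk : k ∈ Iio β1 ∪ C0
    · exact hrest (Or.inl (Or.inl ⟨k, hk, rfl⟩))
    · have h5 : β1 ≤ k := by
        by_contra h6
        exact hk (Or.inl (not_le.1 h6))
      filter_upwards [hgood k h5 fun h6 => hk (Or.inr h6)] with n hn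
      exact h2 _ _ _ _ (Nat.le_add_right _ _) hn
  · exact hrest (Or.inl (Or.inr hx))
  · exact hrest (Or.inr hx)

theorem infinite_xp (x : ℕ → Bool) (g : ℕ → ℕ) (N : ℕ) : ∃ m ≥ N, m ∈ Br x ∧ On g m := by
  obtain ⟨n, h1, h2⟩ := exists_dyadic g (2 * N)
  refine ⟨cd x n, ?_, ⟨n, rfl⟩, N, ?_, ?_⟩
  · have h3 : 2 * N ≤ ee g (2 * N) := (ee_strictMono g).le_apply
    have := cd_lo x n
    omega
  · have := cd_lo x n; omega
  · have := cd_hi x n; omega

theorem xp_injective (h : Principle K A A' w f) :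
    Function.Injective fun k => xp (w k) (f k) := by
  classical
  intro k k' hkk
  by_contra hne
  obtain ⟨n, hn⟩ := h.distinct k k' hne
  obtain ⟨m, hm, h1, h2⟩ := infinite_xp (w k) (f k) (2 ^ (n + 1))
  have h3 : xp (w k) (f k) m = true := by simp [xp, h1, h2]
  have h4 := congrFun hkk m
  simp only at h4
  rw [h3] at h4
  have h5 : m ∈ Br (w k') ∧ On (f k') m := by simpa [xp] using h4.symm
  have := Br_ad hn h1 h5.1
  omega

/-- The set is `𝔟`-concentrated. -/
theorem concentrated_XX (h : Principle K A A' w f) {B : Set K} (hB : ∃ γ : K, ∀ k ∈ B, k < γ) :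
    #K ≤ #(XX w f B) ∧ ∃ D : Set (ℕ → Bool), D ⊆ XX w f B ∧ D.Countable ∧
      ∀ U : Set (ℕ → Bool), IsOpen U → D ⊆ U → #(XX w f B \ U : Set (ℕ → Bool)) < #K := by
  classical
  constructor
  · refine mk_le_of_injective (f := fun k => (⟨xp (w k) (f k), Or.inl (Or.inl ⟨k, rfl⟩)⟩ :
      XX w f B)) fun k k' hkk => ?_
    exact xp_injective h (congrArg Subtype.val hkk)
  · refine ⟨FinS, fun x hx => Or.inl (Or.inr hx), countable_FinS, fun U hU hFU => ?_⟩
    have hLex : ∀ m, ∃ L, ∀ x : ℕ → Bool, ∀ y : ℕ → Bool,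
        (∀ i < L, y i = (if i < m then x i else false)) → y ∈ U := by
      intro m
      refine exists_common m (fun L L' x hL hx y hy => hx y fun i hi => hy i (hi.trans_le hL))
        (fun L x y hxy hx z hz => hx z fun i hi => ?_) fun x => ?_
      · rw [hz i hi]
        by_cases him : i < m
        · simp [him, hxy i him]
        · simp [him]
      · exact exists_agree hU (x := fun i => if i < m then x i else false)
          (hFU ⟨m, fun i hi => by simp [not_lt.2 hi]⟩)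
    choose L hL using hLex
    obtain ⟨β, hβ⟩ := dominates h L
    have hin : ∀ k, β ≤ k → xp (w k) (f k) ∈ U := by
      intro k hk
      obtain ⟨N, hN⟩ := eventually_atTop.1 (hβ k hk)
      have h0 : ∀ j, j ≤ ee (f k) j := fun j => (ee_strictMono (f k)).le_apply
      have h1 : L (ee (f k) (2 * N + 1)) ≤ ee (f k) (2 * N + 2) :=
        (hN _ (by have := h0 (2 * N + 1); omega)).trans (le_FF _ _)
      refine hL (ee (f k) (2 * N + 1)) (xp (w k) (f k)) _ fun i hi => ?_
      by_cases h2 : i < ee (f k) (2 * N + 1)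
      · simp [h2]
      · have h3 := not_On (f := f k) (i := N) (not_lt.1 h2) (hi.trans_le h1)
        simp [h2, xp, h3]
    have hsub : (XX w f B \ U : Set (ℕ → Bool)) ⊆ (fun k => xp (w k) (f k)) '' (Iio β) ∪
        {x | ∃ k ∈ B, Eqf x (ch (w k))} := by
      rintro x ⟨(⟨k, rfl⟩ | hx) | hx, hxU⟩
      · left
        refine ⟨k, ?_, rfl⟩
        by_contra h6
        exact hxU (hin k (not_lt.1 h6))
      · exact absurd (hFU hx) hxU
      · exact Or.inr hx
    refine (mk_le_mk_of_subset hsub).trans_lt ((mk_union_le _ _).trans_lt ?_)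
    exact add_lt_of_lt (aleph0_lt h).le (mk_image_le.trans_lt (mk_Iio_lt h β)) (small_B h hB)

/-- there is a dyadic interval between `n` and `L` free of `x` -/
def Hole (n L : ℕ) (x : ℕ → Bool) : Prop :=
  ∃ j, n ≤ 2 ^ j ∧ 2 ^ (j + 1) ≤ L ∧ ∀ m, 2 ^ j ≤ m → m < 2 ^ (j + 1) → x m = false

theorem isOpen_local {P : (ℕ → Bool) → Prop} (L : ℕ)
    (h : ∀ x y, (∀ i < L, y i = x i) → P x → P y) : IsOpen {x | P x} := by
  rw [isOpen_pi_iff]
  intro x hx
  refine ⟨Finset.range L, fun i => {x i}, fun i _ => ⟨isOpen_discrete _, rfl⟩, fun y hy => ?_⟩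
  exact h x y (fun i hi => hy i (Finset.mem_coe.2 (Finset.mem_range.2 hi))) hx

theorem isOpen_Hole (n L : ℕ) : IsOpen {x | Hole n L x} := by
  refine isOpen_local L ?_
  rintro x y hxy ⟨j, h1, h2, h3⟩
  exact ⟨j, h1, h2, fun m h4 h5 => (hxy m (by omega)).trans (h3 m h4 h5)⟩

/-- The product of the two sets is not Hurewicz. -/
theorem not_hurewicz (h : Principle K A A' w f) (hAA : Disjoint A A') :
    ¬ HurewiczSp (XX w f A × XX w f A') := by
  classical
  intro hH
  let O : ℕ → ℕ → Set (XX w f A × XX w f A') := fun n L =>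
    {p | (∃ i < L, p.1.1 i ≠ p.2.1 i) ∨ Hole n L p.1.1}
  have hOo : ∀ n L, IsOpen (O n L) := by
    intro n L
    have h1 : O n L = (⋃ i : ℕ, ⋃ _ : i < L, {p : XX w f A × XX w f A' | p.1.1 i ≠ p.2.1 i}) ∪
        {p : XX w f A × XX w f A' | Hole n L p.1.1} := by
      ext p; simp [O]
    rw [h1]
    refine IsOpen.union ?_ ?_
    · refine isOpen_iUnion fun i => isOpen_iUnion fun _ => ?_
      have h2 : IsClosed {p : XX w f A × XX w f A' | p.1.1 i = p.2.1 i} :=
        isClosed_eq ((continuous_apply i).comp (continuous_subtype_val.comp continuous_fst))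
          ((continuous_apply i).comp (continuous_subtype_val.comp continuous_snd))
      exact h2.isOpen_compl
    · exact (isOpen_Hole n L).preimage (continuous_subtype_val.comp continuous_fst)
  have hOm : ∀ n L L', L ≤ L' → O n L ⊆ O n L' := by
    rintro n L L' hL p (⟨i, hi, hp⟩ | ⟨j, h1, h2, h3⟩)
    · exact Or.inl ⟨i, hi.trans_le hL, hp⟩
    · exact Or.inr ⟨j, h1, h2.trans hL, h3⟩
  have hholexp : ∀ k n, ∃ L, Hole n L (xp (w k) (f k)) := by
    intro k n
    obtain ⟨j, h1, h2⟩ := exists_dyadic (f k) (2 * n + 1)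
    have h3 : 2 * n + 1 ≤ ee (f k) (2 * n + 1) := (ee_strictMono (f k)).le_apply
    refine ⟨2 ^ (j + 1), j, by omega, le_rfl, fun m h4 h5 => ?_⟩
    have h6 := not_On (f := f k) (i := n) (h1.trans h4) (h5.trans_le h2)
    simp [xp, h6]
  have hholefin : ∀ x ∈ FinS, ∀ n, ∃ L, Hole n L x := by
    rintro x ⟨a, ha⟩ n
    have h1 : n + a < 2 ^ (n + a) := Nat.lt_two_pow_self
    exact ⟨2 ^ (n + a + 1), n + a, by omega, le_rfl, fun m h4 _ => ha m (by omega)⟩
  have hcov : ∀ n, ∀ p : XX w f A × XX w f A', ∃ L, p ∈ O n L := by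
    intro n p
    by_cases hp : ∃ i, p.1.1 i ≠ p.2.1 i
    · obtain ⟨i, hi⟩ := hp
      exact ⟨i + 1, Or.inl ⟨i, Nat.lt_succ_self i, hi⟩⟩
    · push Not at hp
      have hpe : p.1.1 = p.2.1 := funext hp
      have hhole : ∃ L, Hole n L p.1.1 := by
        rcases p.1.2 with (⟨k, hk⟩ | hx) | ⟨k, hkA, hk⟩
        · have hk' : xp (w k) (f k) = p.1.1 := hk
          rw [← hk']; exact hholexp k n
        · exact hholefin _ hx n
        · rcases p.2.2 with (⟨k', hk'⟩ | hx) | ⟨k', hkA', hk'⟩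
          · have hk'' : xp (w k') (f k') = p.2.1 := hk'
            rw [hpe, ← hk'']; exact hholexp k' n
          · rw [hpe]; exact hholefin _ hx n
          · exfalso
            have hne : k ≠ k' := fun he => disjoint_left.1 hAA hkA (he ▸ hkA')
            obtain ⟨i, hi⟩ := h.distinct k k' hne
            obtain ⟨a, ha⟩ := hk
            obtain ⟨a', ha'⟩ := hk'
            set N := i + 1 + a + a' with hN
            have h1 : N < 2 ^ N := Nat.lt_two_pow_self
            have h2 := cd_lo (w k) N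
            have h3 := ha (cd (w k) N) (by omega)
            have h4 := ha' (cd (w k) N) (by omega)
            rw [hpe] at h3
            rw [h3] at h4
            have h5 : cd (w k) N ∈ Br (w k) := ⟨N, rfl⟩
            have h6 : cd (w k) N ∈ Br (w k') := by
              simp only [ch] at h4
              rw [decide_eq_decide] at h4
              exact h4.1 h5
            have h7 := Br_ad hi h5 h6
            have h8 : 2 ^ (i + 1) ≤ 2 ^ N := Nat.pow_le_pow_right (by norm_num) (by omega)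
            omega
      obtain ⟨L, hL⟩ := hhole
      exact ⟨L, Or.inr hL⟩
  obtain ⟨F, hF1, hF2⟩ := hH (fun n => range (O n)) fun n => ⟨by
    rintro _ ⟨L, rfl⟩; exact hOo n L, by
    rw [eq_univ_iff_forall]
    intro p
    obtain ⟨L, hL⟩ := hcov n p
    exact ⟨_, ⟨L, rfl⟩, hL⟩⟩
  have hbound : ∀ n, ∃ g : ℕ, ∀ u ∈ F n, u ⊆ O n g := by
    intro n
    have h1 : ∀ u ∈ F n, ∃ L, u = O n L := by
      intro u hu
      obtain ⟨L, hL⟩ := (hF1 n).1 hu
      exact ⟨L, hL.symm⟩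
    choose! L hL using h1
    refine ⟨(hF1 n).2.toFinset.sup L, fun u hu => ?_⟩
    rw [hL u hu]
    refine hOm n _ _ ?_
    exact Finset.le_sup (f := L) ((hF1 n).2.mem_toFinset.2 hu)
  choose g hg using hbound
  obtain ⟨β, hβ⟩ := dominates h g
  obtain ⟨N1, hN1⟩ := eventually_atTop.1 (hβ β le_rfl)
  let x : ℕ → Bool := xp (w β) (f β)
  have hxA : x ∈ XX w f A := Or.inl (Or.inl ⟨β, rfl⟩)
  have hxA' : x ∈ XX w f A' := Or.inl (Or.inl ⟨β, rfl⟩)
  obtain ⟨N2, hN2⟩ := eventually_atTop.1 (hF2 (⟨x, hxA⟩, ⟨x, hxA'⟩))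
  set i := max N1 N2 with hi
  have hid : 2 * i ≤ ee (f β) (2 * i) := (ee_strictMono (f β)).le_apply
  obtain ⟨u, hu, hxu⟩ := hN2 (ee (f β) (2 * i)) (by have := le_max_right N1 N2; omega)
  have h1 := hg _ u hu hxu
  have h2 : g (ee (f β) (2 * i)) ≤ ee (f β) (2 * i + 1) :=
    (hN1 _ (by have := le_max_left N1 N2; omega)).trans (le_FF _ _)
  rcases h1 with ⟨l, _, hl⟩ | ⟨j, h3, h4, h5⟩
  · exact hl rfl
  · have h6 := h5 (cd (w β) j) (cd_lo _ _) (cd_hi _ _)
    have h7 : On (f β) (cd (w β) j) := ⟨i, by have := cd_lo (w β) j; omega,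
      by have := cd_hi (w β) j; omega⟩
    have h8 : cd (w β) j ∈ Br (w β) := ⟨j, rfl⟩
    simp [x, xp, h7, h8] at h6

end

end Pool.Agent.W635.Conc
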