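import Pool.Agent.W635.FanEmb

/-!
A covering Menger set from an embedding of the sequential fan.
-/

set_option autoImplicit false

namespace Pool.Agent.W635.Fan

open Set Filter Topology

open Pool.Agent.W635.SF (K fin)

variable {X : Type*} [TopologicalSpace X]

/-- Continuous images of Menger spaces. -/
theorem menger_of_surjective {Y : Type*} [TopologicalSpace Y] (φ : X → Y) (hφ : Continuous φ)
    (hs : Function.Surjective φ) (h : Menger X) : Menger Y := by
  intro U hU hc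
  obtain ⟨V, hV, hVu⟩ := h (fun n => (fun u => φ ⁻¹' u) '' U n) (by
    rintro n _ ⟨u, hu, rfl⟩
    exact (hU n u hu).preimage hφ) (by
    intro n
    rw [eq_univ_iff_forall]
    intro x
    obtain ⟨u, hu, hxu⟩ : φ x ∈ ⋃₀ U n := by rw [hc n]; trivial
    exact ⟨_, ⟨u, hu, rfl⟩, hxu⟩)
  refine ⟨fun n => {u | u ∈ U n ∧ φ ⁻¹' u ∈ V n}, fun n => ⟨fun u hu => hu.1, ?_⟩, ?_⟩
  · apply Finite.of_finite_image (f := fun u => φ ⁻¹' u)
    · apply (hV n).2.subset
      rintro _ ⟨u, hu, rfl⟩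
      exact hu.2
    · intro u _ v _ huv
      exact (preimage_injective.2 hs) huv
  · rw [eq_univ_iff_forall]
    intro y
    obtain ⟨x, rfl⟩ := hs y
    have hx : x ∈ ⋃ n, ⋃₀ V n := by rw [hVu]; trivial
    obtain ⟨n, v, hv, hxv⟩ := mem_iUnion.1 hx
    obtain ⟨u, hu, rfl⟩ := (hV n).1 hv
    exact mem_iUnion.2 ⟨n, u, ⟨hu, hv⟩, hxv⟩

/-- Images under upper semicontinuous compact-valued maps, together with a countable set. -/
theorem menger_proj (h : Menger X) (G : Set (X × K)) (hG : IsClosed G) (q : ℕ → K) :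
    Menger ↥(Prod.snd '' G ∪ range q) := by
  classical
  intro U hU hc
  have hO : ∀ n (u : Set ↥(Prod.snd '' G ∪ range q)), ∃ O : Set K, IsOpen O ∧
      (u ∈ U n → Subtype.val ⁻¹' O = u) := by
    intro n u
    by_cases hu : u ∈ U n
    · obtain ⟨O, hO1, hO2⟩ := isOpen_induced_iff.1 (hU n u hu)
      exact ⟨O, hO1, fun _ => hO2⟩
    · exact ⟨∅, isOpen_empty, fun h => absurd h hu⟩
  choose O hO1 hO2 using hO
  let W : ℕ → Set (Set X) := fun n => {o | IsOpen o ∧ ∃ V : Set (Set ↥(Prod.snd '' G ∪ range q)),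
    V ⊆ U n ∧ V.Finite ∧ ∀ x ∈ o, ∀ z, (x, z) ∈ G → ∃ u ∈ V, z ∈ O n u}
  have hWc : ∀ n, ⋃₀ W n = univ := by
    intro n
    rw [eq_univ_iff_forall]
    intro x
    have hfib : IsCompact {z | (x, z) ∈ G} :=
      (hG.preimage (Continuous.prodMk_right x)).isCompact
    obtain ⟨V, hVU, hVf, hV⟩ := hfib.elim_finite_subcover_image (b := U n) (c := O n)
      (fun u _ => hO1 n u) (by
        intro z hz
        have hmem : z ∈ Prod.snd '' G ∪ range q := Or.inl ⟨(x, z), hz, rfl⟩
        obtain ⟨u, hu, hzu⟩ : (⟨z, hmem⟩ : ↥(Prod.snd '' G ∪ range q)) ∈ ⋃₀ U n := by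
          rw [hc n]
          trivial
        refine mem_iUnion₂.2 ⟨u, hu, ?_⟩
        rw [← hO2 n u hu] at hzu
        exact hzu)
    have hcl : IsClosed (Prod.fst '' (G ∩ {p : X × K | p.2 ∉ ⋃ u ∈ V, O n u})) := by
      apply isClosedMap_fst_of_compactSpace
      apply hG.inter
      have h1 : IsOpen (⋃ u ∈ V, O n u) := isOpen_biUnion fun u _ => hO1 n u
      exact (h1.isClosed_compl).preimage continuous_snd
    refine ⟨(Prod.fst '' (G ∩ {p : X × K | p.2 ∉ ⋃ u ∈ V, O n u}))ᶜ, ⟨hcl.isOpen_compl, V, hVU, hVf,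
      ?_⟩, ?_⟩
    · intro x' hx' z hz
      by_contra hcon
      apply hx'
      refine ⟨(x', z), ⟨hz, ?_⟩, rfl⟩
      intro hz2
      obtain ⟨u, hu, hzu⟩ := mem_iUnion₂.1 hz2
      exact hcon ⟨u, hu, hzu⟩
    · rintro ⟨⟨x', z⟩, ⟨hz1, hz2⟩, rfl⟩
      exact hz2 (hV hz1)
  obtain ⟨V, hV, hVu⟩ := h W (fun n u hu => hu.1) hWc
  have hch : ∀ n (o : Set X), ∃ V' : Set (Set ↥(Prod.snd '' G ∪ range q)), V' ⊆ U n ∧ V'.Finite ∧
      (o ∈ V n → ∀ x ∈ o, ∀ z, (x, z) ∈ G → ∃ u ∈ V', z ∈ O n u) := by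
    intro n o
    by_cases ho : o ∈ V n
    · obtain ⟨V', h1, h2, h3⟩ := ((hV n).1 ho).2
      exact ⟨V', h1, h2, fun _ => h3⟩
    · exact ⟨∅, empty_subset _, finite_empty, fun h => absurd h ho⟩
  choose V' hV'1 hV'2 hV'3 using hch
  have hqc : ∀ n, ∃ u ∈ U n, (⟨q n, Or.inr (mem_range_self n)⟩ : ↥(Prod.snd '' G ∪ range q)) ∈ u := by
    intro n
    obtain ⟨u, hu, hzu⟩ : (⟨q n, Or.inr (mem_range_self n)⟩ : ↥(Prod.snd '' G ∪ range q)) ∈
        ⋃₀ U n := by
      rw [hc n]
      trivial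
    exact ⟨u, hu, hzu⟩
  choose υ hυ1 hυ2 using hqc
  refine ⟨fun n => (⋃ o ∈ V n, V' n o) ∪ {υ n}, fun n => ⟨?_, ?_⟩, ?_⟩
  · apply union_subset
    · exact iUnion₂_subset fun o _ => hV'1 n o
    · rintro _ rfl
      exact hυ1 n
  · exact ((hV n).2.biUnion fun o _ => hV'2 n o).union (finite_singleton _)
  · rw [eq_univ_iff_forall]
    rintro ⟨z, hz⟩
    rcases hz with ⟨⟨x, z'⟩, hzG, rfl⟩ | ⟨n, rfl⟩
    · have hx : x ∈ ⋃ n, ⋃₀ V n := by rw [hVu]; trivial
      obtain ⟨n, o, ho, hxo⟩ := mem_iUnion.1 hx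
      obtain ⟨u, hu, hzu⟩ := hV'3 n o ho x hxo z' hzG
      refine mem_iUnion.2 ⟨n, u, Or.inl (mem_iUnion₂.2 ⟨o, ho, hu⟩), ?_⟩
      rw [← hO2 n u (hV'1 n o hu)]
      exact hzu
    · exact mem_iUnion.2 ⟨n, υ n, Or.inr rfl, hυ2 n⟩

/-- The functions of the fan and the finite sets witnessing that infinity is not in the closure of
a set below the graph of a function. -/
theorem exists_witness (f : SeqFan → Cp X) (hf : IsEmbedding f) (g : ℕ → ℕ) :
    ∃ (F : Finset X) (δ : ℝ), 0 < δ ∧ ∀ n m, m < g n → ∃ x ∈ F,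
      δ ≤ |(f (Quot.mk _ (n, (m : OnePoint ℕ)))).1 x - (f (Quot.mk _ (0, OnePoint.infty))).1 x| := by
  classical
  let S : Set SeqFan := {y | ∀ n m : ℕ, y = Quot.mk _ (n, (m : OnePoint ℕ)) → g n ≤ m}
  have hmk : ∀ (n m : ℕ) (p : ℕ × OnePoint ℕ),
      (Quot.mk _ p : SeqFan) = Quot.mk _ (n, (m : OnePoint ℕ)) → p = (n, (m : OnePoint ℕ)) := by
    intro n m p h
    let χ : SeqFan → Prop := Quot.lift (fun p : ℕ × OnePoint ℕ => p = (n, (m : OnePoint ℕ))) (by
      rintro ⟨a, o⟩ ⟨b, o'⟩ (h | ⟨h1, h2⟩)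
      · rw [h]
      · simp only at h1 h2
        subst h1 h2
        apply propext
        constructor
        · intro h
          exact absurd (Prod.ext_iff.1 h).2 (OnePoint.infty_ne_coe m)
        · intro h
          exact absurd (Prod.ext_iff.1 h).2 (OnePoint.infty_ne_coe m))
    have h1 : χ (Quot.mk _ p) = χ (Quot.mk _ (n, (m : OnePoint ℕ))) := congrArg χ h
    have h2 : χ (Quot.mk _ (n, (m : OnePoint ℕ))) := rfl
    rw [← h1] at h2
    exact h2
  have hSo : IsOpen S := by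
    have h1 : IsOpen ((Quot.mk _ : ℕ × OnePoint ℕ → SeqFan) ⁻¹' S) := by
      have h2 : (Quot.mk _ : ℕ × OnePoint ℕ → SeqFan) ⁻¹' S =
          ⋂ k, ({p : ℕ × OnePoint ℕ | ∃ m : ℕ, m < g k ∧ p = (k, (m : OnePoint ℕ))})ᶜ := by
        ext p
        simp only [mem_preimage, S, mem_ofPred_eq, mem_iInter, mem_compl_iff, not_exists, not_and]
        constructor
        · intro h k m hm hp
          have := h k m (by rw [hp])
          omega
        · intro h n m hp
          by_contra hcon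
          exact h n m (not_le.1 hcon) (hmk n m p hp)
      rw [h2]
      rw [isOpen_iff_mem_nhds]
      rintro ⟨a, o⟩ hp
      have h3 : IsOpen (({p : ℕ × OnePoint ℕ | ∃ m : ℕ, m < g a ∧ p = (a, (m : OnePoint ℕ))})ᶜ ∩
          {p | p.1 = a}) := by
        apply IsOpen.inter
        · rw [isOpen_compl_iff]
          have h4 : {p : ℕ × OnePoint ℕ | ∃ m : ℕ, m < g a ∧ p = (a, (m : OnePoint ℕ))} =
              (fun m : ℕ => (a, (m : OnePoint ℕ))) '' {m | m < g a} := by
            ext p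
            constructor
            · rintro ⟨m, hm, rfl⟩
              exact ⟨m, hm, rfl⟩
            · rintro ⟨m, hm, rfl⟩
              exact ⟨m, hm, rfl⟩
          rw [h4]
          exact ((finite_lt_nat (g a)).image _).isClosed
        · exact (isOpen_discrete {a}).preimage continuous_fst
      refine mem_of_superset (h3.mem_nhds ⟨mem_iInter.1 hp a, rfl⟩) ?_
      rintro ⟨b, o'⟩ ⟨h5, h6⟩
      simp only [mem_ofPred_eq] at h6
      subst h6
      rw [mem_iInter]
      intro k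
      by_cases hk : k = b
      · rw [hk]
        exact h5
      · rintro ⟨m, hm, h7⟩
        exact hk (Prod.ext_iff.1 h7).1.symm
    exact h1
  have hmemS : (Quot.mk _ (0, OnePoint.infty) : SeqFan) ∈ S := by
    intro n m h
    exact absurd (Prod.ext_iff.1 (hmk n m _ h)).2 (OnePoint.infty_ne_coe m)
  have h1 : S ∈ 𝓝 (Quot.mk _ (0, OnePoint.infty) : SeqFan) := hSo.mem_nhds hmemS
  rw [hf.isInducing.nhds_eq_comap, mem_comap] at h1
  obtain ⟨T, hT, hTS⟩ := h1
  rw [nhds_subtype_eq_comap, mem_comap] at hT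
  obtain ⟨T', hT', hTT⟩ := hT
  rw [nhds_pi, Filter.mem_pi'] at hT'
  obtain ⟨I, t, ht, htT⟩ := hT'
  have hδ : ∀ x, ∃ δ : ℝ, 0 < δ ∧ Metric.ball ((f (Quot.mk _ (0, OnePoint.infty))).1 x) δ ⊆ t x :=
    fun x => Metric.mem_nhds_iff.1 (ht x)
  choose δ hδ0 hδ using hδ
  obtain ⟨d, hd0, hd⟩ : ∃ d : ℝ, 0 < d ∧ ∀ x ∈ I, d ≤ δ x := by
    rcases I.eq_empty_or_nonempty with rfl | hne
    · exact ⟨1, one_pos, by simp⟩
    · exact ⟨I.inf' hne δ, (Finset.lt_inf'_iff hne).2 fun x _ => hδ0 x,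
        fun x hx => Finset.inf'_le _ hx⟩
  refine ⟨I, d, hd0, fun n m hm => ?_⟩
  by_contra hcon
  push Not at hcon
  have h2 : (Quot.mk _ (n, (m : OnePoint ℕ)) : SeqFan) ∈ S := by
    apply hTS
    apply hTT
    apply htT
    intro x hx
    apply hδ x
    rw [Metric.mem_ball, Real.dist_eq]
    exact (hcon x (Finset.mem_coe.1 hx)).trans_le (hd x (Finset.mem_coe.1 hx))
  have h3 := h2 n m rfl
  omega

/-- Points of the fan converge. -/
theorem tendsto_fan (f : SeqFan → Cp X) (hf : Continuous f) (n : ℕ) (x : X) :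
    Tendsto (fun m : ℕ => (f (Quot.mk _ (n, (m : OnePoint ℕ)))).1 x) atTop
      (𝓝 ((f (Quot.mk _ (0, OnePoint.infty))).1 x)) := by
  have h2 : Continuous fun o : OnePoint ℕ => (f (Quot.mk _ (n, o) : SeqFan)).1 x :=
    (continuous_apply x).comp (continuous_subtype_val.comp
      (hf.comp (continuous_quot_mk.comp (Continuous.prodMk_right n))))
  have h3 := (OnePoint.continuous_iff_from_nat _).1 h2
  have h4 : (Quot.mk _ (n, OnePoint.infty) : SeqFan) = Quot.mk _ (0, OnePoint.infty) :=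
    Quot.sound (Or.inr ⟨rfl, rfl⟩)
  rw [h4] at h3
  exact h3

/-- An embedding of the fan in `C_p(X)` for a Menger space `X` gives a covering Menger set which
contains all finite sets. -/
theorem covering_of_fan (hX : Menger X) (hE : FanEmbeds X) :
    ∃ Z : Set K, Menger Z ∧ Covering Z ∧ range fin ⊆ Z := by
  classical
  obtain ⟨f, hf⟩ := hE
  let h : ℕ × ℕ → X → ℝ := fun p x => |(f (Quot.mk _ (p.1, (p.2 : OnePoint ℕ)))).1 x -
    (f (Quot.mk _ (0, OnePoint.infty))).1 x|
  have hcont : ∀ p, Continuous (h p) := fun p => ((f _).2.sub (f _).2).abs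
  have hlim : ∀ n x, Tendsto (fun m => h (n, m) x) atTop (𝓝 0) := by
    intro n x
    have h1 := ((tendsto_fan f hf.continuous n x).sub_const
      ((f (Quot.mk _ (0, OnePoint.infty))).1 x)).abs
    simpa using h1
  let ε : ℕ → ℝ := fun n => 1 / ((n : ℝ) + 1)
  have hε : ∀ n, 0 < ε n := fun n => Nat.one_div_pos_of_nat
  let G : Set (X × K) := {p | ∀ i : ℕ × ℕ, (p.2 i = true → ε i.1 ≤ h i p.1) ∧
    (p.2 i = false → h i p.1 ≤ ε i.1)}
  have hGcl : IsClosed G := by
    have h1 : G = ⋂ i : ℕ × ℕ, (({p : X × K | p.2 i = true ∧ ε i.1 ≤ h i p.1}) ∪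
        {p : X × K | p.2 i = false ∧ h i p.1 ≤ ε i.1}) := by
      ext p
      simp only [G, mem_ofPred_eq, mem_iInter, mem_union]
      refine forall_congr' fun i => ?_
      cases p.2 i <;> simp
    rw [h1]
    have hci : ∀ i : ℕ × ℕ, Continuous fun p : X × K => p.2 i := fun i => by fun_prop
    refine isClosed_iInter fun i => IsClosed.union ?_ ?_
    · apply IsClosed.inter
      · exact (isClosed_discrete ({true} : Set Bool)).preimage (hci i)
      · exact isClosed_le continuous_const ((hcont i).comp continuous_fst)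
    · apply IsClosed.inter
      · exact (isClosed_discrete ({false} : Set Bool)).preimage (hci i)
      · exact isClosed_le ((hcont i).comp continuous_fst) continuous_const
  obtain ⟨q, hq⟩ := exists_surjective_nat (Finset (ℕ × ℕ))
  have hrange : range (fun n => fin (q n)) = range fin := by
    ext z
    constructor
    · rintro ⟨n, rfl⟩
      exact ⟨q n, rfl⟩
    · rintro ⟨s, rfl⟩
      obtain ⟨n, rfl⟩ := hq s
      exact ⟨n, rfl⟩
  refine ⟨Prod.snd '' G ∪ range (fun n => fin (q n)), menger_proj hX G hGcl _, ⟨?_, ?_⟩, ?_⟩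
  · rintro z (⟨⟨x, z'⟩, hz, rfl⟩ | ⟨k, rfl⟩) n
    · have h1 : ∀ᶠ m in atTop, h (n, m) x < ε n := (hlim n x).eventually (gt_mem_nhds (hε n))
      obtain ⟨M, hM⟩ := eventually_atTop.1 h1
      apply (finite_lt_nat M).subset
      intro m hm
      by_contra hcon
      have h2 := hM m (not_lt.1 hcon)
      have h3 := (hz (n, m)).1 hm
      exact absurd h2 (not_lt.2 h3)
    · apply (((q k).image Prod.snd).finite_toSet).subset
      intro m hm
      have h1 : (n, m) ∈ q k := by
        simpa [fin] using hm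
      exact Finset.mem_coe.2 (Finset.mem_image.2 ⟨_, h1, rfl⟩)
  · intro g
    obtain ⟨F, δ, hδ, hF⟩ := exists_witness f hf g
    obtain ⟨n₀, hn₀⟩ := exists_nat_one_div_lt hδ
    let zx : X → K := fun x i => decide (ε i.1 ≤ h i x)
    have hzx : ∀ x, (x, zx x) ∈ G := by
      intro x i
      refine ⟨fun hi => by simpa [zx] using hi, fun hi => ?_⟩
      have : ¬ ε i.1 ≤ h i x := by simpa [zx] using hi
      exact (not_le.1 this).le
    let s : Finset (ℕ × ℕ) := (Finset.range n₀).biUnion fun n => (Finset.range (g n)).image fun m =>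
      (n, m)
    refine ⟨insert (fin s) (F.image zx), ?_, ?_⟩
    · intro z hz
      rcases Finset.mem_insert.1 (Finset.mem_coe.1 hz) with rfl | hz
      · right
        rw [hrange]
        exact mem_range_self s
      · obtain ⟨x, _, rfl⟩ := Finset.mem_image.1 hz
        exact Or.inl ⟨(x, zx x), hzx x, rfl⟩
    · intro n m hm
      by_cases hn : n < n₀
      · refine ⟨fin s, Finset.mem_insert_self _ _, ?_⟩
        simp only [fin, decide_eq_true_eq, s, Finset.mem_biUnion, Finset.mem_range,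
          Finset.mem_image]
        exact ⟨n, hn, m, hm, rfl⟩
      · obtain ⟨x, hx, hxd⟩ := hF n m hm
        refine ⟨zx x, Finset.mem_insert_of_mem (Finset.mem_image_of_mem _ hx), ?_⟩
        simp only [zx, decide_eq_true_eq]
        have h1 : ε n ≤ ε n₀ := Nat.one_div_le_one_div (not_lt.1 hn)
        exact (h1.trans hn₀.le).trans hxd
  · rw [hrange]
    exact subset_union_right

end Pool.Agent.W635.Fan
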