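import Mathlib

/-!
Stems for a generic pair of subsets of `ℕ × ℕ` with finite columns whose union contains the region
below a given function.
-/

set_option autoImplicit false

namespace Pool.Agent.W635.SF

open Set Filter

/-- The space of subsets of `ℕ × ℕ`. -/
abbrev K : Type := ℕ × ℕ → Bool

/-- A stem: a column number and two finite sets. -/
abbrev Stem : Type := ℕ × Finset (ℕ × ℕ) × Finset (ℕ × ℕ)

/-- `y` agrees with `s` on the first `n` columns. -/
def Agree (n : ℕ) (s : Finset (ℕ × ℕ)) (y : K) : Prop := ∀ p : ℕ × ℕ, p.1 < n → (y p = true ↔ p ∈ s)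

/-- `t` is an extension of the stem `s` for `f`. -/
def Ext (f : ℕ → ℕ) (s t : Stem) : Prop :=
  s.1 ≤ t.1 ∧ (∀ p : ℕ × ℕ, p.1 < s.1 → (p ∈ t.2.1 ↔ p ∈ s.2.1)) ∧
    (∀ p : ℕ × ℕ, p.1 < s.1 → (p ∈ t.2.2 ↔ p ∈ s.2.2)) ∧
    ∀ j i, s.1 ≤ j → j < t.1 → i < f j → (j, i) ∈ t.2.1 ∨ (j, i) ∈ t.2.2

theorem Ext.refl (f : ℕ → ℕ) (s : Stem) : Ext f s s :=
  ⟨le_rfl, fun _ _ => Iff.rfl, fun _ _ => Iff.rfl, fun j i h1 h2 => by omega⟩

theorem Ext.trans {f : ℕ → ℕ} {s t u : Stem} (h1 : Ext f s t) (h2 : Ext f t u) : Ext f s u := by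
  refine ⟨h1.1.trans h2.1, fun p hp => (h2.2.1 p (hp.trans_le h1.1)).trans (h1.2.1 p hp),
    fun p hp => (h2.2.2.1 p (hp.trans_le h1.1)).trans (h1.2.2.1 p hp), fun j i hj1 hj2 hi => ?_⟩
  by_cases hjt : j < t.1
  · rcases h1.2.2.2 j i hj1 hjt hi with h | h
    · exact Or.inl ((h2.2.1 _ hjt).2 h)
    · exact Or.inr ((h2.2.2.1 _ hjt).2 h)
  · exact h2.2.2.2 j i (le_of_not_gt hjt) hj2 hi

/-- A longer extension exists. -/
theorem exists_longer (f : ℕ → ℕ) (s : Stem) : ∃ t, Ext f s t ∧ s.1 < t.1 := by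
  classical
  refine ⟨(s.1 + 1, (s.2.1.filter fun p => p.1 < s.1) ∪ (Finset.range (f s.1)).image (fun i => (s.1, i)),
    s.2.2), ⟨Nat.le_succ _, ?_, fun _ _ => Iff.rfl, ?_⟩, Nat.lt_succ_self _⟩
  · intro p hp
    simp only [Finset.mem_union, Finset.mem_filter, Finset.mem_image, Finset.mem_range]
    constructor
    · rintro (⟨h, _⟩ | ⟨i, _, rfl⟩)
      · exact h
      · exact absurd hp (lt_irrefl _)
    · intro h
      exact Or.inl ⟨h, hp⟩
  · intro j i h1 h2 hi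
    have : j = s.1 := by
      have : j < s.1 + 1 := h2
      omega
    subst this
    left
    simp only [Finset.mem_union, Finset.mem_filter, Finset.mem_image, Finset.mem_range]
    exact Or.inr ⟨i, hi, rfl⟩

/-- The generic pair: all requirements that can be met by extending stems are met. -/
theorem exists_pair (f : ℕ → ℕ) {ι : Type} [Countable ι] (R : ι → K → K → Prop)
    (hR : ∀ t s, ∃ s', Ext f s s' ∧ ∀ y₁ y₂, Agree s'.1 s'.2.1 y₁ → Agree s'.1 s'.2.2 y₂ →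
      R t y₁ y₂) :
    ∃ y₁ y₂ : K, (∀ j, {i | y₁ (j, i) = true}.Finite) ∧ (∀ j, {i | y₂ (j, i) = true}.Finite) ∧
      (∀ j i, i < f j → y₁ (j, i) = true ∨ y₂ (j, i) = true) ∧ ∀ t, R t y₁ y₂ := by
  classical
  obtain ⟨e, he⟩ := exists_injective_nat ι
  -- requirements indexed by natural numbers
  have step : ∀ (n : ℕ) (s : Stem), ∃ s', Ext f s s' ∧ s.1 < s'.1 ∧
      ∀ t, e t = n → ∀ y₁ y₂, Agree s'.1 s'.2.1 y₁ → Agree s'.1 s'.2.2 y₂ → R t y₁ y₂ := by
    intro n s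
    by_cases hn : ∃ t, e t = n
    · obtain ⟨t, ht⟩ := hn
      obtain ⟨s1, h1, h2⟩ := exists_longer f s
      obtain ⟨s2, h3, h4⟩ := hR t s1
      refine ⟨s2, h1.trans h3, h2.trans_le h3.1, ?_⟩
      intro t' ht' y₁ y₂ ha hb
      have : t' = t := he (ht'.trans ht.symm)
      rw [this]
      exact h4 y₁ y₂ ha hb
    · obtain ⟨s1, h1, h2⟩ := exists_longer f s
      exact ⟨s1, h1, h2, fun t ht => absurd ⟨t, ht⟩ hn⟩
  choose nx hnx1 hnx2 hnx3 using step
  let S : ℕ → Stem := fun n => Nat.rec (0, ∅, ∅) (fun n s => nx n s) n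
  have hS : ∀ n, S (n + 1) = nx n (S n) := fun n => rfl
  have hmono : ∀ a b, a ≤ b → Ext f (S a) (S b) := by
    intro a b hab
    induction b, hab using Nat.le_induction with
    | base => exact Ext.refl f _
    | succ b _ ih =>
      rw [hS]
      exact ih.trans (hnx1 b (S b))
  have hlen : ∀ n, n ≤ (S n).1 := by
    intro n
    induction n with
    | zero => exact Nat.zero_le _
    | succ n ih =>
      rw [hS]
      have := hnx2 n (S n)
      omega
  let y₁ : K := fun p => decide (p ∈ (S (p.1 + 1)).2.1)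
  let y₂ : K := fun p => decide (p ∈ (S (p.1 + 1)).2.2)
  have ha1 : ∀ n, Agree (S n).1 (S n).2.1 y₁ := by
    intro n p hp
    simp only [y₁, decide_eq_true_eq]
    rcases le_total n (p.1 + 1) with h | h
    · exact (hmono _ _ h).2.1 p hp
    · have h2 : p.1 < (S (p.1 + 1)).1 := lt_of_lt_of_le (Nat.lt_succ_self _) (hlen _)
      exact ((hmono _ _ h).2.1 p h2).symm
  have ha2 : ∀ n, Agree (S n).1 (S n).2.2 y₂ := by
    intro n p hp
    simp only [y₂, decide_eq_true_eq]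
    rcases le_total n (p.1 + 1) with h | h
    · exact (hmono _ _ h).2.2.1 p hp
    · have h2 : p.1 < (S (p.1 + 1)).1 := lt_of_lt_of_le (Nat.lt_succ_self _) (hlen _)
      exact ((hmono _ _ h).2.2.1 p h2).symm
  refine ⟨y₁, y₂, ?_, ?_, ?_, ?_⟩
  · intro j
    apply (((S (j + 1)).2.1.image Prod.snd).finite_toSet).subset
    intro i hi
    simp only [y₁, mem_ofPred_eq, decide_eq_true_eq] at hi
    exact Finset.mem_coe.2 (Finset.mem_image.2 ⟨_, hi, rfl⟩)
  · intro j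
    apply (((S (j + 1)).2.2.image Prod.snd).finite_toSet).subset
    intro i hi
    simp only [y₂, mem_ofPred_eq, decide_eq_true_eq] at hi
    exact Finset.mem_coe.2 (Finset.mem_image.2 ⟨_, hi, rfl⟩)
  · intro j i hi
    have h1 : j < (S (j + 1)).1 := lt_of_lt_of_le (Nat.lt_succ_self _) (hlen _)
    rcases (hmono 0 (j + 1) (Nat.zero_le _)).2.2.2 j i (Nat.zero_le _) h1 hi with h | h
    · left
      simp only [y₁, decide_eq_true_eq]
      exact h
    · right
      simp only [y₂, decide_eq_true_eq]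
      exact h
  · intro t
    have h1 := hnx3 (e t) (S (e t)) t rfl y₁ y₂
    rw [← hS] at h1
    exact h1 (ha1 (e t + 1)) (ha2 (e t + 1))

/-- The point with finite support `q`. -/
def fin (q : Finset (ℕ × ℕ)) : K := fun p => decide (p ∈ q)

/-- Basic neighbourhoods of points with finite support. -/
theorem exists_box {W : Set K} (hW : IsOpen W) (q : Finset (ℕ × ℕ)) (hq : fin q ∈ W) (m0 : ℕ) :
    ∃ m, m0 ≤ m ∧ (∀ p ∈ q, p.1 < m ∧ p.2 < m) ∧
      ∀ y : K, (∀ p : ℕ × ℕ, p.1 < m → p.2 < m → (y p = true ↔ p ∈ q)) → y ∈ W := by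
  classical
  obtain ⟨I, u, hu, hsub⟩ := isOpen_pi_iff.1 hW (fin q) hq
  obtain ⟨m1, hm1⟩ := ((I.image Prod.fst) ∪ (I.image Prod.snd) ∪ (q.image Prod.fst) ∪
    (q.image Prod.snd)).bddAbove
  refine ⟨max m0 (m1 + 1), le_max_left _ _, ?_, ?_⟩
  · intro p hp
    have h1 : p.1 ≤ m1 := hm1 (by
      simp only [Finset.coe_union, Finset.coe_image, mem_union, mem_image, Finset.mem_coe]
      exact Or.inl (Or.inr ⟨p, hp, rfl⟩))
    have h2 : p.2 ≤ m1 := hm1 (by
      simp only [Finset.coe_union, Finset.coe_image, mem_union, mem_image, Finset.mem_coe]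
      exact Or.inr ⟨p, hp, rfl⟩)
    have h3 : m1 + 1 ≤ max m0 (m1 + 1) := le_max_right _ _
    omega
  · intro y hy
    apply hsub
    intro p hp
    have hpI : p ∈ I := Finset.mem_coe.1 hp
    have h1 : p.1 ≤ m1 := hm1 (by
      simp only [Finset.coe_union, Finset.coe_image, mem_union, mem_image, Finset.mem_coe]
      exact Or.inl (Or.inl (Or.inl ⟨p, hpI, rfl⟩)))
    have h2 : p.2 ≤ m1 := hm1 (by
      simp only [Finset.coe_union, Finset.coe_image, mem_union, mem_image, Finset.mem_coe]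
      exact Or.inl (Or.inl (Or.inr ⟨p, hpI, rfl⟩)))
    have h3 : m1 + 1 ≤ max m0 (m1 + 1) := le_max_right _ _
    have h4 := hy p (by omega) (by omega)
    have h5 : y p = fin q p := by
      by_cases hpq : p ∈ q
      · rw [h4.2 hpq]
        simp [fin, hpq]
      · have : y p = false := by
          by_contra hcon
          exact hpq (h4.1 (by simpa using hcon))
        rw [this]
        simp [fin, hpq]
    rw [h5]
    exact (hu p hpI).2

/-- The one-step lemma. -/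
theorem exists_K (W : ℕ → Set K) (hWo : ∀ k, IsOpen (W k)) (hWm : Monotone W)
    (hQ : ∀ q, ∃ k, fin q ∈ W k) (s : Stem) :
    ∃ k, ∀ f : ℕ → ℕ, ∃ t, Ext f s t ∧ ∀ y₁ y₂, Agree t.1 t.2.1 y₁ → Agree t.1 t.2.2 y₂ →
      y₁ ∈ W k ∧ y₂ ∈ W k := by
  classical
  obtain ⟨n, s1, s2⟩ := s
  -- cut down to the first columns
  let q1 : Finset (ℕ × ℕ) := s1.filter fun p => p.1 < n
  obtain ⟨k1, hk1⟩ := hQ q1
  obtain ⟨m1, hnm, hm1, hb1⟩ := exists_box (hWo k1) q1 hk1 n
  let q2 : Finset (ℕ × ℕ) := (s2.filter fun p => p.1 < n) ∪ (Finset.Ico n m1 ×ˢ Finset.range m1)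
  obtain ⟨k2, hk2⟩ := hQ q2
  obtain ⟨m2, hmm, hm2, hb2⟩ := exists_box (hWo k2) q2 hk2 m1
  refine ⟨max k1 k2, fun f => ?_⟩
  let F : ℕ := (Finset.range m2).sup f
  have hF : ∀ j, j < m2 → f j ≤ F := fun j hj => Finset.le_sup (f := f) (Finset.mem_range.2 hj)
  let t1 : Finset (ℕ × ℕ) := q1 ∪ (Finset.Ico n m1 ×ˢ Finset.Ico m1 F) ∪
    (Finset.Ico m1 m2 ×ˢ Finset.range F)
  refine ⟨(m2, t1, q2), ⟨hnm.trans hmm, ?_, ?_, ?_⟩, ?_⟩
  · intro p hp
    change p.1 < n at hp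
    simp only [t1, q1, Finset.mem_union, Finset.mem_filter, Finset.mem_product, Finset.mem_Ico,
      Finset.mem_range]
    constructor
    · rintro ((⟨h, _⟩ | ⟨⟨h, _⟩, _⟩) | ⟨⟨h, _⟩, _⟩)
      · exact h
      · omega
      · omega
    · intro h
      exact Or.inl (Or.inl ⟨h, hp⟩)
  · intro p hp
    change p.1 < n at hp
    simp only [q2, Finset.mem_union, Finset.mem_filter, Finset.mem_product, Finset.mem_Ico,
      Finset.mem_range]
    constructor
    · rintro (⟨h, _⟩ | ⟨⟨h, _⟩, _⟩)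
      · exact h
      · omega
    · intro h
      exact Or.inl ⟨h, hp⟩
  · intro j i hj1 hj2 hi
    change n ≤ j at hj1
    change j < m2 at hj2
    have hiF : i < F := hi.trans_le (hF j hj2)
    simp only [t1, q1, q2, Finset.mem_union, Finset.mem_filter, Finset.mem_product,
      Finset.mem_Ico, Finset.mem_range]
    by_cases h1 : j < m1
    · by_cases h2 : i < m1
      · exact Or.inr (Or.inr ⟨⟨hj1, h1⟩, h2⟩)
      · exact Or.inl (Or.inl (Or.inr ⟨⟨hj1, h1⟩, le_of_not_gt h2, hiF⟩))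
    · exact Or.inl (Or.inr ⟨⟨le_of_not_gt h1, hj2⟩, hiF⟩)
  · intro y₁ y₂ ha1 ha2
    constructor
    · apply hWm (le_max_left k1 k2)
      apply hb1
      intro p hp1 hp2
      have h1 := ha1 p (hp1.trans_le hmm)
      rw [h1]
      simp only [t1, Finset.mem_union, Finset.mem_product, Finset.mem_Ico, Finset.mem_range]
      constructor
      · rintro ((h | ⟨_, h, _⟩) | ⟨⟨h, _⟩, _⟩)
        · exact h
        · omega
        · omega
      · intro h
        exact Or.inl (Or.inl h)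
    · apply hWm (le_max_right k1 k2)
      apply hb2
      intro p hp1 hp2
      exact ha2 p hp1

/-- The bound function for a sequence of increasing open sets. -/
theorem exists_bound (W : ℕ → ℕ → Set K) (hWo : ∀ N k, IsOpen (W N k))
    (hWm : ∀ N, Monotone (W N)) (hQ : ∀ N q, ∃ k, fin q ∈ W N k) :
    ∃ g : ℕ → ℕ, ∀ s : Stem, ∃ L, ∀ N, L ≤ N → ∀ f : ℕ → ℕ, ∃ t, Ext f s t ∧
      ∀ y₁ y₂, Agree t.1 t.2.1 y₁ → Agree t.1 t.2.2 y₂ → y₁ ∈ W N (g N) ∧ y₂ ∈ W N (g N) := by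
  classical
  choose κ hκ using fun N s => exists_K (W N) (hWo N) (hWm N) (hQ N) s
  obtain ⟨e, he⟩ := exists_surjective_nat Stem
  refine ⟨fun N => (Finset.range (N + 1)).sup fun l => κ N (e l), fun s => ?_⟩
  obtain ⟨l, rfl⟩ := he s
  refine ⟨l, fun N hN f => ?_⟩
  obtain ⟨t, ht1, ht2⟩ := hκ N (e l) f
  refine ⟨t, ht1, fun y₁ y₂ h1 h2 => ?_⟩
  obtain ⟨h3, h4⟩ := ht2 y₁ y₂ h1 h2
  have hle : κ N (e l) ≤ (Finset.range (N + 1)).sup fun l => κ N (e l) :=
    Finset.le_sup (f := fun l => κ N (e l)) (Finset.mem_range.2 (Nat.lt_succ_of_le hN))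
  exact ⟨hWm N hle h3, hWm N hle h4⟩

end Pool.Agent.W635.SF
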