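import Mathlib
import Pool.Agent.W635.SFStem

/-!
The countable sequential fan, spaces of continuous functions with the pointwise topology, and three
covering properties.
-/

set_option autoImplicit false

namespace Pool.Agent.W635.Fan

open Set Filter

/-- The Menger property (called Hurewicz in the problem). -/
def Menger (X : Type*) [TopologicalSpace X] : Prop :=
  ∀ U : ℕ → Set (Set X), (∀ n, ∀ u ∈ U n, IsOpen u) → (∀ n, ⋃₀ U n = univ) →
    ∃ V : ℕ → Set (Set X), (∀ n, V n ⊆ U n ∧ (V n).Finite) ∧ (⋃ n, ⋃₀ V n) = univ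

/-- The stronger property in which every finite set is contained in a single union. -/
def FinMenger (X : Type*) [TopologicalSpace X] : Prop :=
  ∀ U : ℕ → Set (Set X), (∀ n, ∀ u ∈ U n, IsOpen u) → (∀ n, ⋃₀ U n = univ) →
    ∃ V : ℕ → Set (Set X), (∀ n, V n ⊆ U n ∧ (V n).Finite) ∧
      ∀ F : Set X, F.Finite → ∃ n, F ⊆ ⋃₀ V n

/-- The stronger property in which every point lies in almost all of the unions. -/
def StrongHurewicz (X : Type*) [TopologicalSpace X] : Prop :=
  ∀ U : ℕ → Set (Set X), (∀ n, ∀ u ∈ U n, IsOpen u) → (∀ n, ⋃₀ U n = univ) →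
    ∃ V : ℕ → Set (Set X), (∀ n, V n ⊆ U n ∧ (V n).Finite) ∧
      ∀ x, ∀ᶠ n in atTop, x ∈ ⋃₀ V n

/-- The countable sequential fan: the quotient of the sum of countably many convergent sequences
identifying the limits. -/
abbrev SeqFan : Type :=
  Quot (fun p q : ℕ × OnePoint ℕ => p = q ∨ (p.2 = OnePoint.infty ∧ q.2 = OnePoint.infty))

/-- The continuous real functions with the topology of pointwise convergence. -/
abbrev Cp (X : Type*) [TopologicalSpace X] : Type _ := {g : X → ℝ // Continuous g}

/-- The countable sequential fan embeds in `C_p(X)`. -/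
def FanEmbeds (X : Type*) [TopologicalSpace X] : Prop :=
  ∃ f : SeqFan → Cp X, Topology.IsEmbedding f

/-- A set of subsets of `ℕ × ℕ` (given by their indicator functions) all of whose members have
finite columns, and such that each region below the graph of a function is covered by finitely
many members. -/
def Covering (Z : Set (ℕ × ℕ → Bool)) : Prop :=
  (∀ z ∈ Z, ∀ n, {m | z (n, m) = true}.Finite) ∧
    ∀ g : ℕ → ℕ, ∃ F : Finset (ℕ × ℕ → Bool), (F : Set (ℕ × ℕ → Bool)) ⊆ Z ∧
      ∀ n m, m < g n → ∃ z ∈ F, z (n, m) = true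

end Pool.Agent.W635.Fan
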