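import Pool.Agent.W635.FanDefs

/-!
An embedding of the sequential fan from a covering set.
-/

set_option autoImplicit false

namespace Pool.Agent.W635.Fan

open Set Filter Topology

open Pool.Agent.W635.SF (K fin)

/-- The values of the functions of the fan. -/
noncomputable def val (z : K) (p : ℕ × OnePoint ℕ) : ℝ :=
  p.2.elim 0 fun m => if z (p.1, m) = true then 1 else 0

theorem val_infty (z : K) (n : ℕ) : val z (n, OnePoint.infty) = 0 := rfl

theorem val_coe (z : K) (n m : ℕ) :
    val z (n, (m : OnePoint ℕ)) = if z (n, m) = true then 1 else 0 := rfl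

theorem continuous_val_left (p : ℕ × OnePoint ℕ) : Continuous fun z : K => val z p := by
  obtain ⟨n, o⟩ := p
  induction o with
  | infty => exact continuous_const
  | coe m =>
    have h1 : (fun z : K => val z (n, (m : OnePoint ℕ))) =
        (fun b : Bool => if b = true then (1 : ℝ) else 0) ∘ fun z : K => z (n, m) := rfl
    rw [h1]
    exact continuous_of_discreteTopology.comp (continuous_apply (n, m))

theorem continuous_val_right (z : K) (hz : ∀ n, {m | z (n, m) = true}.Finite) :
    Continuous fun p : ℕ × OnePoint ℕ => val z p := by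
  rw [continuous_prod_of_discrete_left]
  intro n
  rw [OnePoint.continuous_iff_from_nat]
  have h1 : ∀ᶠ m : ℕ in atTop, val z (n, (m : OnePoint ℕ)) = 0 := by
    obtain ⟨M, hM⟩ := (hz n).bddAbove
    filter_upwards [eventually_gt_atTop M] with m hm
    rw [val_coe]
    apply if_neg
    intro hcon
    have := hM hcon
    omega
  rw [val_infty]
  exact tendsto_const_nhds.congr' (h1.mono fun m hm => hm.symm)

variable {A : Type*} [TopologicalSpace A]

/-- The map from the sum of convergent sequences. -/
noncomputable def phi0 (ι : A → K) (hι : Continuous ι) (p : ℕ × OnePoint ℕ) : Cp A :=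
  ⟨fun a => val (ι a) p, (continuous_val_left p).comp hι⟩

theorem fan_of_covering (ι : A → K) (hι : Continuous ι) (hcov : Covering (range ι))
    (hQ : range fin ⊆ range ι) : FanEmbeds A := by
  classical
  have hlift : ∀ p q : ℕ × OnePoint ℕ,
      (p = q ∨ (p.2 = OnePoint.infty ∧ q.2 = OnePoint.infty)) → phi0 ι hι p = phi0 ι hι q := by
    rintro ⟨n, o⟩ ⟨n', o'⟩ (h | ⟨h1, h2⟩)
    · rw [h]
    · simp only at h1 h2
      subst h1 h2
      apply Subtype.ext
      funext a
      change val (ι a) (n, OnePoint.infty) = val (ι a) (n', OnePoint.infty)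
      rw [val_infty, val_infty]
  let φ : SeqFan → Cp A := Quot.lift (phi0 ι hι) hlift
  have hφ : ∀ p a, (φ (Quot.mk _ p)).1 a = val (ι a) p := fun p a => rfl
  have hcont : Continuous φ := by
    apply continuous_quot_lift
    apply Continuous.subtype_mk
    rw [continuous_pi_iff]
    intro a
    exact continuous_val_right (ι a) (hcov.1 (ι a) (mem_range_self a))
  have hpt : ∀ p : ℕ × ℕ, ∃ a : A, ι a = fin {p} := fun p => hQ ⟨{p}, rfl⟩
  choose π hπ using hpt
  have hsep : ∀ (n m : ℕ) (y : SeqFan), 1 / 2 < (φ y).1 (π (n, m)) →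
      y = Quot.mk _ (n, (m : OnePoint ℕ)) := by
    rintro n m ⟨n', o⟩ h
    change 1 / 2 < (φ (Quot.mk _ (n', o))).1 (π (n, m)) at h
    rw [hφ, hπ] at h
    induction o with
    | infty =>
      rw [val_infty] at h
      norm_num at h
    | coe m' =>
      rw [val_coe] at h
      by_cases h1 : fin {(n, m)} (n', m') = true
      · simp only [fin, Finset.mem_singleton, decide_eq_true_eq, Prod.mk.injEq] at h1
        obtain ⟨rfl, rfl⟩ := h1
        rfl
      · rw [if_neg h1] at h
        norm_num at h
  have hval1 : ∀ n m : ℕ, (φ (Quot.mk _ (n, (m : OnePoint ℕ)))).1 (π (n, m)) = 1 := by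
    intro n m
    rw [hφ, hπ, val_coe]
    apply if_pos
    simp [fin]
  have hinftyEq : ∀ n n' : ℕ, (Quot.mk _ (n, OnePoint.infty) : SeqFan) =
      Quot.mk _ (n', OnePoint.infty) := fun n n' => Quot.sound (Or.inr ⟨rfl, rfl⟩)
  refine ⟨φ, ⟨isInducing_iff_nhds.2 fun x => le_antisymm (hcont.tendsto x).le_comap ?_, ?_⟩⟩
  · intro S0 hS0
    obtain ⟨S, hSS0, hS, hx⟩ := mem_nhds_iff.1 hS0
    refine mem_of_superset ?_ hSS0
    obtain ⟨⟨n, o⟩⟩ := x
    change Quot.mk _ (n, o) ∈ S at hx
    change S ∈ comap φ (𝓝 (φ (Quot.mk _ (n, o))))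
    rw [mem_comap]
    induction o with
    | infty =>
      have hSo : IsOpen ((Quot.mk _ : ℕ × OnePoint ℕ → SeqFan) ⁻¹' S) := by
        exact hS.preimage continuous_quot_mk
      have hg : ∀ k : ℕ, ∃ g : ℕ, ∀ m, g ≤ m → (Quot.mk _ (k, (m : OnePoint ℕ)) : SeqFan) ∈ S := by
        intro k
        have h1 : Tendsto (fun m : ℕ => (Quot.mk _ (k, (m : OnePoint ℕ)) : SeqFan)) atTop
            (𝓝 (Quot.mk _ (k, OnePoint.infty))) := by
          have h2 : Continuous fun o : OnePoint ℕ => (Quot.mk _ (k, o) : SeqFan) :=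
            continuous_quot_mk.comp (Continuous.prodMk_right k)
          exact (OnePoint.continuous_iff_from_nat _).1 h2
        have h3 : ∀ᶠ m : ℕ in atTop, (Quot.mk _ (k, (m : OnePoint ℕ)) : SeqFan) ∈ S :=
          h1 (hS.mem_nhds (by rw [hinftyEq k n]; exact hx))
        exact eventually_atTop.1 h3
      choose g hg using hg
      obtain ⟨F, hFZ, hF⟩ := hcov.2 g
      have hsec : ∀ z : K, ∃ a : A, z ∈ F → ι a = z := by
        intro z
        by_cases hz : z ∈ F
        · obtain ⟨a, ha⟩ := hFZ (Finset.mem_coe.2 hz)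
          exact ⟨a, fun _ => ha⟩
        · exact ⟨π (0, 0), fun h => absurd h hz⟩
      choose σ hσ using hsec
      refine ⟨{h | ∀ z ∈ F, h.1 (σ z) < 1 / 2}, ?_, ?_⟩
      · apply IsOpen.mem_nhds
        · have h1 : {h : Cp A | ∀ z ∈ F, h.1 (σ z) < 1 / 2} =
              ⋂ z ∈ F, {h : Cp A | h.1 (σ z) < 1 / 2} := by
            ext h
            simp
          rw [h1]
          refine isOpen_biInter_finset fun z _ => ?_
          exact isOpen_Iio.preimage ((continuous_apply (σ z)).comp continuous_subtype_val)
        · intro z _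
          rw [hφ, val_infty]
          norm_num
      · rintro ⟨k, o⟩ hy
        change Quot.mk _ (k, o) ∈ S
        induction o with
        | infty =>
          rw [hinftyEq k n]
          exact hx
        | coe m =>
          by_cases hm : m < g k
          · obtain ⟨z, hz, hz1⟩ := hF k m hm
            have h1 : (φ (Quot.mk _ (k, (m : OnePoint ℕ)))).1 (σ z) < 1 / 2 := hy z hz
            rw [hφ, hσ z hz, val_coe, if_pos hz1] at h1
            norm_num at h1
          · exact hg k m (not_lt.1 hm)
    | coe m =>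
      refine ⟨{h | 1 / 2 < h.1 (π (n, m))}, ?_, ?_⟩
      · apply IsOpen.mem_nhds
        · exact isOpen_Ioi.preimage ((continuous_apply _).comp continuous_subtype_val)
        · change 1 / 2 < (φ (Quot.mk _ (n, (m : OnePoint ℕ)))).1 (π (n, m))
          rw [hval1]
          norm_num
      · intro y hy
        rw [hsep n m y hy]
        exact hx
  · rintro ⟨n, o⟩ ⟨n', o'⟩ h
    change φ (Quot.mk _ (n, o)) = φ (Quot.mk _ (n', o')) at h
    change (Quot.mk _ (n, o) : SeqFan) = Quot.mk _ (n', o')
    induction o' with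
    | infty =>
      induction o with
      | infty => exact hinftyEq n n'
      | coe m =>
        apply (hsep n m _ _).symm
        rw [← h, hval1]
        norm_num
    | coe m' =>
      apply hsep n' m'
      rw [h, hval1]
      norm_num

end Pool.Agent.W635.Fan
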