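import Pool.Agent.W635.SFDefs

/-!
The Hurewicz property `U_fin(Γ, Γ)` implies `S_fin(Γ, Ω)`.
-/

set_option autoImplicit false

namespace Pool.Agent.W635.SF

open Set Filter Pool.Agent.Helper185.Sel

section

variable {X : Type*} [TopologicalSpace X]

/-- A decreasing-index version of the Hurewicz property for increasing covers without a member
equal to the whole space and which get finer with the index. -/
theorem hur_core (h : Ufin (Ga X) (Ga X)) (V : ℕ → ℕ → Set X) (hVo : ∀ n k, IsOpen (V n k))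
    (hVm : ∀ n, Monotone (V n)) (hVc : ∀ n x, ∃ k, x ∈ V n k) (hVu : ∀ n k, V n k ≠ univ) :
    ∃ (j G : ℕ → ℕ), (∀ n, n ≤ j n) ∧ ∀ x, ∃ N, ∀ n, N ≤ n → x ∈ V (j n) (G n) := by
  classical
  have hfinsub : ∀ n, ∀ F : Set (Set X), F.Finite → F ⊆ range (V n) → ∃ G, ⋃₀ F ⊆ V n G := by
    intro n F hF hFV
    have h1 : ∀ v : Set X, ∃ m, v ∈ F → v = V n m := by
      intro v
      by_cases hv : v ∈ F
      · obtain ⟨m, hm⟩ := hFV hv
        exact ⟨m, fun _ => hm.symm⟩
      · exact ⟨0, fun h => absurd h hv⟩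
    choose μ hμ using h1
    obtain ⟨G, hG⟩ := (hF.image μ).bddAbove
    refine ⟨G, ?_⟩
    rintro y ⟨v, hv, hyv⟩
    rw [hμ v hv] at hyv
    exact hVm _ (hG ⟨v, hv, rfl⟩) hyv
  have hnosub : ∀ n, ¬ ∃ F ⊆ range (V n), F.Finite ∧ ⋃₀ F = univ := by
    rintro n ⟨F, hF, hFf, hFu⟩
    obtain ⟨G, hG⟩ := hfinsub n F hFf hF
    rw [hFu, univ_subset_iff] at hG
    exact hVu n G hG
  have hgam : ∀ n, range (V n) ∈ Ga X := by
    intro n
    refine ⟨?_, ⟨?_, ?_⟩, ?_, ?_⟩
    · rintro _ ⟨m, rfl⟩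
      exact hVo n m
    · rw [eq_univ_iff_forall]
      intro x
      obtain ⟨k, hk⟩ := hVc n x
      exact ⟨_, mem_range_self k, hk⟩
    · rintro ⟨m, hm⟩
      exact hVu n m hm
    · intro hfin
      apply hnosub n
      refine ⟨range (V n), Subset.rfl, hfin, ?_⟩
      rw [eq_univ_iff_forall]
      intro x
      obtain ⟨k, hk⟩ := hVc n x
      exact ⟨_, mem_range_self k, hk⟩
    · intro x
      obtain ⟨k, hk⟩ := hVc n x
      apply ((finite_lt_nat k).image (V n)).subset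
      rintro _ ⟨⟨m, rfl⟩, hm⟩
      refine ⟨m, ?_, rfl⟩
      by_contra hcon
      exact hm (hVm n (le_of_not_gt hcon) hk)
  obtain ⟨F, hF, hFG⟩ := h (fun n => range (V n)) hgam hnosub
  choose G hG using fun n => hfinsub n (F n) (hF n).1 (hF n).2
  let s : ℕ → Set X := fun n => ⋃₀ (F n)
  have hsinf : (range s).Infinite := hFG.2.2.1
  let A : Set ℕ := {n | ∀ i, i < n → s i ≠ s n}
  have hAs : s '' A = range s := by
    apply Subset.antisymm (image_subset_range _ _)
    rintro _ ⟨n, rfl⟩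
    have hex : ∃ m, s m = s n := ⟨n, rfl⟩
    refine ⟨Nat.find hex, ?_, Nat.find_spec hex⟩
    intro i hi hcon
    exact Nat.find_min hex hi (hcon.trans (Nat.find_spec hex))
  have hAinf : A.Infinite := by
    intro hfin
    apply hsinf
    rw [← hAs]
    exact hfin.image s
  have hAinj : InjOn s A := by
    intro i hi j hj hij
    rcases lt_trichotomy i j with h1 | h1 | h1
    · exact absurd hij (hj i h1)
    · exact h1
    · exact absurd hij.symm (hi j h1)
  have hnext : ∀ n, ∃ m, n ≤ m ∧ m ∈ A := by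
    intro n
    obtain ⟨m, hm, hnm⟩ := hAinf.exists_gt n
    exact ⟨m, hnm.le, hm⟩
  choose j hj1 hj2 using hnext
  refine ⟨j, fun n => G (j n), hj1, fun x => ?_⟩
  have hfin : {n | n ∈ A ∧ x ∉ s n}.Finite := by
    apply Finite.of_finite_image (f := s)
    · apply (hFG.2.2.2 x).subset
      rintro _ ⟨n, ⟨_, hn2⟩, rfl⟩
      exact ⟨mem_range_self n, hn2⟩
    · exact hAinj.mono fun n hn => hn.1
  obtain ⟨N, hN⟩ := hfin.bddAbove
  refine ⟨N + 1, fun n hn => ?_⟩
  have h1 : x ∈ s (j n) := by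
    by_contra hcon
    have h2 := hN ⟨hj2 n, hcon⟩
    have h3 := hj1 n
    omega
  exact hG (j n) h1

/-- The indexed version of the Hurewicz property for increasing open covers. -/
theorem hur_seq (h : Ufin (Ga X) (Ga X)) (V : ℕ → ℕ → Set X) (hVo : ∀ n k, IsOpen (V n k))
    (hVm : ∀ n, Monotone (V n)) (hVc : ∀ n x, ∃ k, x ∈ V n k) :
    ∃ b : ℕ → ℕ, ∀ x, ∃ N, ∀ n, N ≤ n → x ∈ V n (b n) := by
  classical
  by_cases hall : ∀ n, ∃ k, V n k = univ
  · choose b hb using hall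
    exact ⟨b, fun x => ⟨0, fun n _ => by rw [hb n]; trivial⟩⟩
  push Not at hall
  obtain ⟨l0, hl0⟩ := hall
  let W : ℕ → ℕ → Set X := fun n k => ⋂ l ∈ {l | l ≤ n + l0 ∧ ∀ k, V l k ≠ univ}, V l k
  have hfinl : ∀ n, {l | l ≤ n + l0 ∧ ∀ k, V l k ≠ univ}.Finite := fun n =>
    (finite_le_nat (n + l0)).subset fun l hl => hl.1
  obtain ⟨j, G, hj, hG⟩ := hur_core h W
    (fun n k => (hfinl n).isOpen_biInter fun l _ => hVo l k)
    (fun n k k' hkk x hx => by
      simp only [W, mem_iInter] at hx ⊢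
      exact fun l hl => hVm l hkk (hx l hl))
    (fun n x => by
      choose κ hκ using fun l => hVc l x
      obtain ⟨K, hK⟩ := ((hfinl n).image κ).bddAbove
      refine ⟨K, ?_⟩
      simp only [W, mem_iInter]
      exact fun l hl => hVm l (hK ⟨l, hl, rfl⟩) (hκ l))
    (fun n k hcon => by
      have h1 : W n k ⊆ V l0 k := by
        intro x hx
        simp only [W, mem_iInter] at hx
        exact hx l0 ⟨by omega, hl0⟩
      rw [hcon, univ_subset_iff] at h1
      exact hl0 k h1)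
  have hb : ∀ n, ∃ b, (∃ k, V n k = univ) → V n b = univ := by
    intro n
    by_cases hn : ∃ k, V n k = univ
    · obtain ⟨k, hk⟩ := hn
      exact ⟨k, fun _ => hk⟩
    · exact ⟨0, fun h => absurd h hn⟩
  choose b hb using hb
  refine ⟨fun n => if ∃ k, V n k = univ then b n else G n, fun x => ?_⟩
  obtain ⟨N, hN⟩ := hG x
  refine ⟨N, fun n hn => ?_⟩
  by_cases hg : ∃ k, V n k = univ
  · beta_reduce
    rw [if_pos hg, hb n hg]
    trivial
  · beta_reduce
    rw [if_neg hg]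
    have h1 := hN n hn
    simp only [W, mem_iInter] at h1
    refine h1 n ⟨?_, ?_⟩
    · have := hj n
      omega
    · intro k hk
      exact hg ⟨k, hk⟩

/-- The version with two indices. -/
theorem hur_pair (h : Ufin (Ga X) (Ga X)) (V : ℕ → ℕ → ℕ → Set X)
    (hVo : ∀ n m k, IsOpen (V n m k)) (hVm : ∀ n m, Monotone (V n m))
    (hVc : ∀ n m x, ∃ k, x ∈ V n m k) :
    ∃ b : ℕ → ℕ → ℕ, ∀ x, ∃ N, ∀ n, N ≤ n → ∀ m, x ∈ V n m (b n m) := by
  obtain ⟨b, hb⟩ := hur_seq h (fun p k => V p.unpair.1 p.unpair.2 k)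
    (fun p k => hVo _ _ _) (fun p => hVm _ _) (fun p x => hVc _ _ x)
  refine ⟨fun n m => b (Nat.pair n m), fun x => ?_⟩
  obtain ⟨N, hN⟩ := hb x
  refine ⟨N, fun n hn m => ?_⟩
  have h1 := hN (Nat.pair n m) (hn.trans (Nat.left_le_pair n m))
  simpa using h1

/-- The blocks: for each `l` there are block lengths such that from some column on each block
contains an index that is good for `l` given points. -/
theorem exists_block (h : Ufin (Ga X) (Ga X)) (u : ℕ → ℕ → Set X) (huo : ∀ n i, IsOpen (u n i))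
    (huf : ∀ n x, ∃ M, ∀ i, M ≤ i → x ∈ u n i) (l : ℕ) :
    ∃ b : ℕ → ℕ → ℕ, ∀ F : Finset X, F.card ≤ l → ∃ N, ∀ n, N ≤ n → ∀ m, ∃ i, m ≤ i ∧ i < b n m ∧
      ∀ x ∈ F, x ∈ u n i := by
  classical
  induction l with
  | zero =>
    refine ⟨fun _ m => m + 1, fun F hF => ⟨0, fun n _ m => ⟨m, le_rfl, Nat.lt_succ_self m, ?_⟩⟩⟩
    intro x hx
    have : F = ∅ := Finset.card_eq_zero.1 (Nat.le_zero.1 hF)
    rw [this] at hx
    simp at hx
  | succ l ih =>
    obtain ⟨b, hb⟩ := ih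
    let V : ℕ → ℕ → ℕ → Set X := fun n m k =>
      ⋃ m' ∈ {m' | m ≤ m' ∧ m' < k}, ⋂ i ∈ {i | m' ≤ i ∧ i < b n m'}, u n i
    obtain ⟨c, hc⟩ := hur_pair h V
      (fun n m k => isOpen_biUnion fun m' _ =>
        ((finite_lt_nat (b n m')).subset fun i hi => hi.2).isOpen_biInter fun i _ => huo n i)
      (fun n m k k' hkk x hx => by
        simp only [V, mem_iUnion, mem_ofPred_eq] at hx ⊢
        obtain ⟨m', ⟨h1, h2⟩, h3⟩ := hx
        exact ⟨m', ⟨h1, h2.trans_le hkk⟩, h3⟩)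
      (fun n m x => by
        obtain ⟨M, hM⟩ := huf n x
        refine ⟨max m M + 1, ?_⟩
        simp only [V, mem_iUnion, mem_iInter, mem_ofPred_eq]
        exact ⟨max m M, ⟨le_max_left _ _, Nat.lt_succ_self _⟩, fun i hi =>
          hM i ((le_max_right m M).trans hi.1)⟩)
    refine ⟨fun n m => (Finset.range (c n m + m + 1)).sup (b n), fun F hF => ?_⟩
    have hle : ∀ n m m', m' < c n m + m + 1 → b n m' ≤ (Finset.range (c n m + m + 1)).sup (b n) :=
      fun n m m' hm' => Finset.le_sup (f := b n) (Finset.mem_range.2 hm')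
    rcases F.eq_empty_or_nonempty with rfl | ⟨x, hx⟩
    · obtain ⟨N, hN⟩ := hb ∅ (by simp)
      refine ⟨N, fun n hn m => ?_⟩
      obtain ⟨i, hi1, hi2, _⟩ := hN n hn m
      exact ⟨i, hi1, hi2.trans_le (hle n m m (by omega)), by simp⟩
    · obtain ⟨N1, hN1⟩ := hb (F.erase x) (by
        rw [Finset.card_erase_of_mem hx]
        omega)
      obtain ⟨N2, hN2⟩ := hc x
      refine ⟨max N1 N2, fun n hn m => ?_⟩
      have h1 := hN2 n (le_of_max_le_right hn) m
      simp only [V, mem_iUnion, mem_iInter, mem_ofPred_eq] at h1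
      obtain ⟨m', ⟨h2, h3⟩, h4⟩ := h1
      obtain ⟨i, hi1, hi2, hi3⟩ := hN1 n (le_of_max_le_left hn) m'
      refine ⟨i, h2.trans hi1, hi2.trans_le (hle n m m' (by omega)), ?_⟩
      intro y hy
      by_cases hyx : y = x
      · rw [hyx]
        exact h4 i ⟨hi1, hi2⟩
      · exact hi3 y (Finset.mem_erase.2 ⟨hyx, hy⟩)

/-- The Hurewicz property `U_fin(Γ, Γ)` implies `S_fin(Γ, Ω)`. -/
theorem sfin_of_ufin (h : Ufin (Ga X) (Ga X)) : Sfin (Ga X) (Om X) := by
  classical
  intro U hU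
  have hemb : ∀ n, ∃ u : ℕ → Set X, Function.Injective u ∧ ∀ i, u i ∈ U n := by
    intro n
    have hinf : (U n).Infinite := (hU n).2.2.1
    have : Infinite (U n) := hinf.to_subtype
    exact ⟨fun i => (Infinite.natEmbedding (U n) i : Set X),
      fun i j hij => (Infinite.natEmbedding (U n)).injective (Subtype.ext hij),
      fun i => (Infinite.natEmbedding (U n) i).2⟩
  choose u huinj humem using hemb
  have huo : ∀ n i, IsOpen (u n i) := fun n i => (hU n).1 _ (humem n i)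
  have huf : ∀ n x, ∃ M, ∀ i, M ≤ i → x ∈ u n i := by
    intro n x
    have h1 : {i | x ∉ u n i}.Finite := by
      apply Finite.of_finite_image (f := u n)
      · apply ((hU n).2.2.2 x).subset
        rintro _ ⟨i, hi, rfl⟩
        exact ⟨humem n i, hi⟩
      · exact (huinj n).injOn
    obtain ⟨M, hM⟩ := h1.bddAbove
    refine ⟨M + 1, fun i hi => ?_⟩
    by_contra hcon
    have := hM hcon
    omega
  choose b hb using exists_block h u huo huf
  let g : ℕ → ℕ := fun n => (Finset.range (n + 1)).sup fun l => b l n 0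
  have key : ∀ F : Finset X, ∃ n i, i < g n ∧ ∀ x ∈ F, x ∈ u n i := by
    intro F
    obtain ⟨N, hN⟩ := hb F.card F le_rfl
    obtain ⟨i, _, hi2, hi3⟩ := hN (max N F.card) (le_max_left _ _) 0
    refine ⟨max N F.card, i, hi2.trans_le ?_, hi3⟩
    exact Finset.le_sup (f := fun l => b l (max N F.card) 0)
      (Finset.mem_range.2 (Nat.lt_succ_of_le (le_max_right _ _)))
  refine ⟨fun n => u n '' {i | i < g n}, fun n => ⟨(finite_lt_nat (g n)).image _, ?_⟩, ?_⟩
  · rintro _ ⟨i, _, rfl⟩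
    exact humem n i
  · refine ⟨?_, ⟨?_, ?_⟩, ?_⟩
    · intro v hv
      obtain ⟨n, hn⟩ := mem_iUnion.1 hv
      obtain ⟨i, _, rfl⟩ := hn
      exact huo n i
    · rw [eq_univ_iff_forall]
      intro x
      obtain ⟨n, i, hi, hx⟩ := key {x}
      exact ⟨u n i, mem_iUnion.2 ⟨n, i, hi, rfl⟩, hx x (Finset.mem_singleton_self x)⟩
    · intro hcon
      obtain ⟨n, hn⟩ := mem_iUnion.1 hcon
      obtain ⟨i, _, hi⟩ := hn
      exact (hU n).2.1.2 (hi ▸ humem n i)
    · intro F hF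
      obtain ⟨n, i, hi, hx⟩ := key hF.toFinset
      exact ⟨u n i, mem_iUnion.2 ⟨n, i, hi, rfl⟩, fun x hxF => hx x (hF.mem_toFinset.2 hxF)⟩

end

end Pool.Agent.W635.SF
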