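import Pool.Agent.Helper185.SelDefs

/-!
The selection principle `U_fin(A, B)` and abbreviations for the classes of open gamma-covers and
open omega-covers.
-/

set_option autoImplicit false

namespace Pool.Agent.W635.SF

open Set Pool.Agent.Helper185.Sel

/-- The selection principle `U_fin(A, B)`: for every sequence of families in `A`, none of which
contains a finite subcover, there are finite subfamilies whose unions form a family in `B`. -/
def Ufin {X : Type*} (A B : Set (Set (Set X))) : Prop :=
  ∀ U : ℕ → Set (Set X), (∀ n, U n ∈ A) →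
    (∀ n, ¬ ∃ F ⊆ U n, F.Finite ∧ ⋃₀ F = univ) →
    ∃ F : ℕ → Set (Set X), (∀ n, (F n).Finite ∧ F n ⊆ U n) ∧ range (fun n => ⋃₀ (F n)) ∈ B

/-- The open gamma-covers of `X`. -/
abbrev Ga (X : Type*) [TopologicalSpace X] : Set (Set (Set X)) := GammaOf (OpenFam X)

/-- The open omega-covers of `X`. -/
abbrev Om (X : Type*) [TopologicalSpace X] : Set (Set (Set X)) := OmegaOf (OpenFam X)

end Pool.Agent.W635.SF
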