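import Pool.Agent.W635.SFEnum
import Pool.Agent.W635.SFDefs
import Pool.Agent.Helper185.SelTransport

/-!
The set of the tower satisfies `U_fin(Γ, Ω)` and not `S_fin(Γ, Ω)`.
-/

set_option autoImplicit false

namespace Pool.Agent.W635.SF

open Set Filter Pool.Agent.Helper185.Sel

section

variable {I : Type} [LinearOrder I] [WellFoundedLT I]
  {f : I → ℕ → ℕ} {W : I → ℕ → ℕ → Set K} {z : I → (K × K) × (ℕ → ℕ)}

/-- The set of all points of the tower. -/
def XS (z : I → (K × K) × (ℕ → ℕ)) : Set K := range (pt fun a => (z a).1)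

theorem col_finite (hz : ∀ a, StepR W f a (fun b _ => z b) (z a)) (x : K) (hx : x ∈ XS z) (j : ℕ) :
    {i | x (j, i) = true}.Finite := by
  obtain ⟨p, rfl⟩ := hx
  rcases p with q | ⟨a, b⟩
  · apply ((q.image Prod.snd).finite_toSet).subset
    intro i hi
    have h1 : (j, i) ∈ q := by
      simpa [pt, fin] using hi
    exact Finset.mem_coe.2 (Finset.mem_image.2 ⟨_, h1, rfl⟩)
  · cases b
    · exact (hz a).1 j
    · exact (hz a).2.1 j

theorem ufin_XS (hz : ∀ a, StepR W f a (fun b _ => z b) (z a))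
    (hW : ∀ w : ℕ → ℕ → Set K, (∀ N k, IsOpen (w N k)) → (∀ N, Monotone (w N)) → ∃ a, W a = w) :
    Ufin (Ga (XS z)) (Om (XS z)) := by
  classical
  intro U hU hno
  have hemb : ∀ n, ∃ u : ℕ → Set (XS z), Function.Injective u ∧ ∀ i, u i ∈ U n := by
    intro n
    have hinf : (U n).Infinite := (hU n).2.2.1
    have : Infinite (U n) := hinf.to_subtype
    exact ⟨fun i => (Infinite.natEmbedding (U n) i : Set (XS z)),
      fun i j hij => (Infinite.natEmbedding (U n)).injective (Subtype.ext hij),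
      fun i => (Infinite.natEmbedding (U n) i).2⟩
  choose u huinj humem using hemb
  have huo : ∀ n i, ∃ O : Set K, IsOpen O ∧ Subtype.val ⁻¹' O = u n i := fun n i =>
    isOpen_induced_iff.1 ((hU n).1 _ (humem n i))
  choose O hO hOu using huo
  have huc : ∀ n x, ∃ i, x ∈ u n i := by
    intro n x
    have h1 : {i | x ∉ u n i}.Finite := by
      apply Finite.of_finite_image (f := u n)
      · apply ((hU n).2.2.2 x).subset
        rintro _ ⟨i, hi, rfl⟩
        exact ⟨humem n i, hi⟩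
      · exact (huinj n).injOn
    obtain ⟨i, hi⟩ := h1.exists_notMem
    exact ⟨i, by simpa using hi⟩
  let w : ℕ → ℕ → Set K := fun N k => ⋃ i ∈ {i | i ≤ k}, O N i
  obtain ⟨β, hβ⟩ := hW w (fun N k => isOpen_biUnion fun i _ => hO N i)
    (fun N k k' hkk x hx => by
      simp only [w, mem_iUnion, mem_ofPred_eq] at hx ⊢
      obtain ⟨i, hi, hx⟩ := hx
      exact ⟨i, hi.trans hkk, hx⟩)
  have hcov : ∀ p : Pt I, ∀ N, ∃ k, pt (fun a => (z a).1) p ∈ W β N k := by
    intro p N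
    obtain ⟨i, hi⟩ := huc N ⟨pt (fun a => (z a).1) p, p, rfl⟩
    refine ⟨i, ?_⟩
    rw [hβ]
    simp only [w, mem_iUnion, mem_ofPred_eq]
    refine ⟨i, le_rfl, ?_⟩
    rw [← hOu N i] at hi
    exact hi
  let g := (z β).2
  refine ⟨fun n => u n '' {i | i ≤ g n}, fun n => ⟨(finite_le_nat (g n)).image _, ?_⟩, ?_⟩
  · rintro _ ⟨i, _, rfl⟩
    exact humem n i
  have hmem : ∀ n (x : XS z), (x : K) ∈ W β n (g n) → x ∈ ⋃₀ (u n '' {i | i ≤ g n}) := by
    intro n x hx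
    rw [hβ] at hx
    simp only [w, mem_iUnion, mem_ofPred_eq] at hx
    obtain ⟨i, hi, hx⟩ := hx
    refine ⟨u n i, ⟨i, hi, rfl⟩, ?_⟩
    rw [← hOu n i]
    exact hx
  have hfin : ∀ F : Set (XS z), F.Finite → ∃ n, F ⊆ ⋃₀ (u n '' {i | i ≤ g n}) := by
    intro F hF
    have hidx : ∀ x : XS z, ∃ p, pt (fun a => (z a).1) p = x := fun x => x.2
    choose ψ hψ using hidx
    obtain ⟨n, hn⟩ := (caught_infinite hz β hcov (hF.toFinset.image ψ)).nonempty
    refine ⟨n, fun x hx => hmem n x ?_⟩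
    have h1 := hn (ψ x) (Finset.mem_image.2 ⟨x, hF.mem_toFinset.2 hx, rfl⟩)
    rw [hψ x] at h1
    exact h1
  refine ⟨?_, ⟨?_, ?_⟩, ?_⟩
  · rintro _ ⟨n, rfl⟩
    apply isOpen_sUnion
    rintro _ ⟨i, _, rfl⟩
    exact (hU n).1 _ (humem n i)
  · rw [eq_univ_iff_forall]
    intro x
    obtain ⟨n, hn⟩ := hfin {x} (finite_singleton x)
    exact ⟨_, ⟨n, rfl⟩, hn rfl⟩
  · rintro ⟨n, hn⟩
    apply hno n
    refine ⟨u n '' {i | i ≤ g n}, ?_, (finite_le_nat (g n)).image _, hn⟩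
    rintro _ ⟨i, _, rfl⟩
    exact humem n i
  · intro F hF
    obtain ⟨n, hn⟩ := hfin F hF
    exact ⟨_, ⟨n, rfl⟩, hn⟩

theorem not_sfin_XS (hz : ∀ a, StepR W f a (fun b _ => z b) (z a))
    (hf : ∀ g : ℕ → ℕ, ∃ a, f a = g) : ¬ Sfin (Ga (XS z)) (Om (XS z)) := by
  classical
  intro h
  let u : ℕ → ℕ → Set (XS z) := fun n m => {x | (x : K) (n, m) = false}
  have huo : ∀ n m, IsOpen (u n m) := by
    intro n m
    have h1 : u n m = (fun x : XS z => (x : K) (n, m)) ⁻¹' {false} := rfl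
    rw [h1]
    exact (isOpen_discrete _).preimage ((continuous_apply (n, m)).comp continuous_subtype_val)
  let pq : Finset (ℕ × ℕ) → XS z := fun q => ⟨fin q, Sum.inl q, rfl⟩
  have hpq : ∀ q n m, pq q ∈ u n m ↔ (n, m) ∉ q := by
    intro q n m
    simp [u, pq, fin]
  have hinj : ∀ n, Function.Injective (u n) := by
    intro n m m' hmm
    by_contra hne
    have h1 : pq {(n, m)} ∈ u n m' := by
      rw [hpq]
      simp only [Finset.mem_singleton, Prod.mk.injEq, true_and]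
      exact fun h => hne h.symm
    rw [← hmm, hpq] at h1
    simp at h1
  have hgam : ∀ n, range (u n) ∈ Ga (XS z) := by
    intro n
    refine ⟨?_, ⟨?_, ?_⟩, ?_, ?_⟩
    · rintro _ ⟨m, rfl⟩
      exact huo n m
    · rw [eq_univ_iff_forall]
      intro x
      obtain ⟨m, hm⟩ := (col_finite hz x x.2 n).exists_notMem
      refine ⟨_, mem_range_self m, ?_⟩
      simpa [u] using hm
    · rintro ⟨m, hm⟩
      have h1 : pq {(n, m)} ∈ u n m := by rw [hm]; trivial
      rw [hpq] at h1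
      simp at h1
    · exact infinite_range_of_injective (hinj n)
    · intro x
      apply ((col_finite hz x x.2 n).image (u n)).subset
      rintro _ ⟨⟨m, rfl⟩, hm⟩
      refine ⟨m, ?_, rfl⟩
      simpa [u] using hm
  obtain ⟨F, hF, hFO⟩ := h (fun n => range (u n)) hgam
  have hbd : ∀ n, ∃ g, ∀ v ∈ F n, ∃ m, m < g ∧ v = u n m := by
    intro n
    have h1 : ∀ v : Set (XS z), ∃ m, v ∈ F n → v = u n m := by
      intro v
      by_cases hv : v ∈ F n
      · obtain ⟨m, hm⟩ := (hF n).2 hv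
        exact ⟨m, fun _ => hm.symm⟩
      · exact ⟨0, fun h => absurd h hv⟩
    choose μ hμ using h1
    obtain ⟨G, hG⟩ := ((hF n).1.image μ).bddAbove
    exact ⟨G + 1, fun v hv => ⟨μ v, Nat.lt_succ_of_le (hG ⟨v, hv, rfl⟩), hμ v hv⟩⟩
  choose g hg using hbd
  obtain ⟨a, ha⟩ := hf g
  let x1 : XS z := ⟨(z a).1.1, Sum.inr (a, false), rfl⟩
  let x2 : XS z := ⟨(z a).1.2, Sum.inr (a, true), rfl⟩
  obtain ⟨v, hv, hsub⟩ := hFO.2.2 {x1, x2} (by simp)
  obtain ⟨n, hn⟩ := mem_iUnion.1 hv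
  obtain ⟨m, hm, rfl⟩ := hg n v hn
  have h1 : x1 ∈ u n m := hsub (by simp)
  have h2 : x2 ∈ u n m := hsub (by simp)
  have h3 : (z a).1.1 (n, m) = false := h1
  have h4 : (z a).1.2 (n, m) = false := h2
  rcases (hz a).2.2.1 n m (by rw [ha]; exact hm) with h5 | h5
  · rw [h3] at h5
    cases h5
  · rw [h4] at h5
    cases h5

end

/-- Under the continuum hypothesis some subset of `K` satisfies `U_fin(Γ, Ω)` and not
`S_fin(Γ, Ω)`. -/
theorem exists_K_example (hCH : Cardinal.aleph 1 = Cardinal.continuum.{0}) :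
    ∃ X : Set K, Ufin (Ga X) (Om X) ∧ ¬ Sfin (Ga X) (Om X) := by
  obtain ⟨I, _, _, hc, f, W, hWo, hWm, hf, hW⟩ := exists_enumeration hCH
  obtain ⟨z, hz⟩ := exists_tower hc f W hWo hWm
  exact ⟨XS z, ufin_XS hz hW, not_sfin_XS hz hf⟩

section

variable {A B : Type*} [TopologicalSpace A] [TopologicalSpace B]

theorem pull_sUnion (e : A ≃ₜ B) (F : Set (Set B)) : ⋃₀ (pullFam e F) = e ⁻¹' (⋃₀ F) := by
  ext x
  constructor
  · rintro ⟨_, ⟨u, hu, rfl⟩, hx⟩
    exact ⟨u, hu, hx⟩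
  · rintro ⟨u, hu, hx⟩
    exact ⟨_, ⟨u, hu, rfl⟩, hx⟩

theorem pull_mem (e : A ≃ₜ B) {U : Set (Set B)} {v : Set A} (hv : v ∈ pullFam e U) :
    e.symm ⁻¹' v ∈ U := by
  obtain ⟨u, hu, rfl⟩ := hv
  have : (e.symm ⁻¹' (e ⁻¹' u) : Set B) = u := by
    ext x
    simp
  change e.symm ⁻¹' (e ⁻¹' u) ∈ U
  rw [this]
  exact hu

theorem pull_symm_pull (e : A ≃ₜ B) (u : Set A) : (e ⁻¹' (e.symm ⁻¹' u) : Set A) = u := by
  ext x
  simp

theorem ufin_transport (e : A ≃ₜ B) (h : Ufin (Ga A) (Om A)) : Ufin (Ga B) (Om B) := by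
  intro U hU hno
  obtain ⟨F, hF, hFO⟩ := h (fun n => pullFam e (U n)) (fun n => pull_gamma e (hU n)) (by
    rintro n ⟨F, hFU, hFf, hFu⟩
    apply hno n
    refine ⟨pullFam e.symm F, ?_, hFf.image _, ?_⟩
    · rintro _ ⟨v, hv, rfl⟩
      exact pull_mem e (hFU hv)
    · rw [pull_sUnion e.symm F, hFu, preimage_univ])
  refine ⟨fun n => pullFam e.symm (F n), fun n => ⟨(hF n).1.image _, ?_⟩, ?_⟩
  · rintro _ ⟨v, hv, rfl⟩
    exact pull_mem e ((hF n).2 hv)
  · have h1 := pull_omega e.symm hFO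
    rw [pull_range] at h1
    have h2 : (fun n => e.symm ⁻¹' ⋃₀ (F n)) = fun n => ⋃₀ (pullFam e.symm (F n)) := by
      funext n
      rw [pull_sUnion]
    rw [← h2]
    exact h1

theorem sfin_transport (e : A ≃ₜ B) (h : Sfin (Ga A) (Om A)) : Sfin (Ga B) (Om B) := by
  intro U hU
  obtain ⟨F, hF, hFO⟩ := h (fun n => pullFam e (U n)) (fun n => pull_gamma e (hU n))
  refine ⟨fun n => pullFam e.symm (F n), fun n => ⟨(hF n).1.image _, ?_⟩, ?_⟩
  · rintro _ ⟨v, hv, rfl⟩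
    exact pull_mem e ((hF n).2 hv)
  · have h1 := pull_omega e.symm hFO
    have h2 : pullFam e.symm (⋃ n, F n) = ⋃ n, pullFam e.symm (F n) := image_iUnion
    rw [← h2]
    exact h1

end

theorem exists_embedding_K : ∃ g : K → ℝ, Topology.IsEmbedding g := by
  obtain ⟨e⟩ : Nonempty (ℕ × ℕ ≃ ℕ) := ⟨Nat.pairEquiv⟩
  let h1 : K ≃ₜ (ℕ → Bool) := Homeomorph.piCongrLeft (Y := fun _ => Bool) e
  exact ⟨_, Topology.IsEmbedding.subtypeVal.comp
    (cantorSetHomeomorphNatToBool.symm.isEmbedding.comp h1.isEmbedding)⟩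

/-- Under the continuum hypothesis some set of reals satisfies `U_fin(Γ, Ω)` and not
`S_fin(Γ, Ω)`. -/
theorem exists_real_example (hCH : Cardinal.aleph 1 = Cardinal.continuum.{0}) :
    ∃ X : Set ℝ, Ufin (Ga X) (Om X) ∧ ¬ Sfin (Ga X) (Om X) := by
  obtain ⟨X, h1, h2⟩ := exists_K_example hCH
  obtain ⟨g, hg⟩ := exists_embedding_K
  have hgX : Topology.IsEmbedding (fun x : X => g x) := hg.comp Topology.IsEmbedding.subtypeVal
  let e : X ≃ₜ range (fun x : X => g x) := hgX.toHomeomorph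
  exact ⟨range (fun x : X => g x), ufin_transport e h1, fun h => h2 (sfin_transport e.symm h)⟩

end Pool.Agent.W635.SF
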