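import Pool.Agent.W635.FanComb
import Pool.Agent.W635.SFHur
import Pool.Agent.W635.SFSel

/-!
The main theorems about embeddings of the sequential fan in spaces of continuous functions.
-/

set_option autoImplicit false

namespace Pool.Agent.W635.Fan

open Set Filter Topology

open Pool.Agent.W635.SF (K fin Ufin Ga XS pt StepR)

section

variable {X : Type*} [TopologicalSpace X]

theorem menger_of_finMenger (h : FinMenger X) : Menger X := by
  intro U hU hc
  obtain ⟨V, hV, hVF⟩ := h U hU hc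
  refine ⟨V, hV, ?_⟩
  rw [eq_univ_iff_forall]
  intro x
  obtain ⟨n, hn⟩ := hVF {x} (finite_singleton x)
  exact mem_iUnion.2 ⟨n, hn rfl⟩

theorem finMenger_of_surjective {Y : Type*} [TopologicalSpace Y] (φ : X → Y) (hφ : Continuous φ)
    (hs : Function.Surjective φ) (h : FinMenger X) : FinMenger Y := by
  intro U hU hc
  obtain ⟨V, hV, hVu⟩ := h (fun n => (fun u => φ ⁻¹' u) '' U n) (by
    rintro n _ ⟨u, hu, rfl⟩
    exact (hU n u hu).preimage hφ) (by
    intro n
    rw [eq_univ_iff_forall]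
    intro x
    obtain ⟨u, hu, hxu⟩ : φ x ∈ ⋃₀ U n := by rw [hc n]; trivial
    exact ⟨_, ⟨u, hu, rfl⟩, hxu⟩)
  refine ⟨fun n => {u | u ∈ U n ∧ φ ⁻¹' u ∈ V n}, fun n => ⟨fun u hu => hu.1, ?_⟩, ?_⟩
  · apply Finite.of_finite_image (f := fun u => φ ⁻¹' u)
    · apply (hV n).2.subset
      rintro _ ⟨u, hu, rfl⟩
      exact hu.2
    · intro u _ v _ huv
      exact (preimage_injective.2 hs) huv
  · intro F hF
    choose σ hσ using hs
    obtain ⟨n, hn⟩ := hVu (σ '' F) (hF.image σ)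
    refine ⟨n, fun y hy => ?_⟩
    obtain ⟨v, hv, hxv⟩ := hn (mem_image_of_mem σ hy)
    obtain ⟨u, hu, rfl⟩ := (hV n).1 hv
    refine ⟨u, ⟨hu, hv⟩, ?_⟩
    have h1 : φ (σ y) ∈ u := hxv
    rwa [hσ y] at h1

/-- The stronger Hurewicz property implies `U_fin(Γ, Γ)`. -/
theorem ufin_of_strong (h : StrongHurewicz X) : Ufin (Ga X) (Ga X) := by
  intro U hU hno
  obtain ⟨V, hV, hVx⟩ := h U (fun n => (hU n).1) (fun n => (hU n).2.1.1)
  have hne : ∀ n, ⋃₀ (V n) ≠ univ := fun n hcon => hno n ⟨V n, (hV n).1, (hV n).2, hcon⟩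
  refine ⟨V, fun n => ⟨(hV n).2, (hV n).1⟩, ?_, ⟨?_, ?_⟩, ?_, ?_⟩
  · rintro _ ⟨n, rfl⟩
    exact isOpen_sUnion fun v hv => (hU n).1 v ((hV n).1 hv)
  · rw [eq_univ_iff_forall]
    intro x
    obtain ⟨n, hn⟩ := (hVx x).exists
    exact ⟨_, mem_range_self n, hn⟩
  · rintro ⟨n, hn⟩
    exact hne n hn
  · intro hfin
    have h1 : ∃ s : Set X, (((fun n => ⋃₀ (V n)) ⁻¹' {s})).Infinite := by
      by_contra hcon
      push Not at hcon
      have h2 : (univ : Set ℕ).Finite := by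
        have h3 : (univ : Set ℕ) ⊆ ⋃ s ∈ range (fun n => ⋃₀ (V n)),
            (fun n => ⋃₀ (V n)) ⁻¹' {s} := fun n _ =>
          mem_iUnion₂.2 ⟨_, mem_range_self n, rfl⟩
        exact (hfin.biUnion fun s _ => by simpa using hcon s).subset h3
      exact infinite_univ h2
    obtain ⟨s, hs⟩ := h1
    have hsu : s = univ := by
      rw [eq_univ_iff_forall]
      intro x
      obtain ⟨N, hN⟩ := eventually_atTop.1 (hVx x)
      obtain ⟨n, hn, hNn⟩ := hs.exists_gt N
      have h2 : ⋃₀ (V n) = s := hn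
      rw [← h2]
      exact hN n hNn.le
    obtain ⟨n, hn⟩ := hs.nonempty
    have h2 : ⋃₀ (V n) = s := hn
    exact hne n (h2.trans hsu)
  · intro x
    obtain ⟨N, hN⟩ := eventually_atTop.1 (hVx x)
    apply ((finite_lt_nat N).image fun n => ⋃₀ (V n)).subset
    rintro _ ⟨⟨n, rfl⟩, hn⟩
    refine ⟨n, ?_, rfl⟩
    by_contra hcon
    exact hn (hN n (not_lt.1 hcon))

/-- The fan does not embed in `C_p(X)` for spaces with the stronger Hurewicz property. -/
theorem not_fan_of_strong (h : StrongHurewicz X) : ¬ FanEmbeds X := by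
  classical
  rintro ⟨f, hf⟩
  let H : ℕ × ℕ → X → ℝ := fun p x => |(f (Quot.mk _ (p.1, (p.2 : OnePoint ℕ)))).1 x -
    (f (Quot.mk _ (0, OnePoint.infty))).1 x|
  have hcont : ∀ p, Continuous (H p) := fun p => ((f _).2.sub (f _).2).abs
  have hlim : ∀ n x, Tendsto (fun m => H (n, m) x) atTop (𝓝 0) := by
    intro n x
    have h1 := ((tendsto_fan f hf.continuous n x).sub_const
      ((f (Quot.mk _ (0, OnePoint.infty))).1 x)).abs
    simpa using h1
  let u : ℕ → ℕ → Set X := fun n i => {x | H (n, i) x < 1 / ((n : ℝ) + 1)}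
  have huo : ∀ n i, IsOpen (u n i) := fun n i => isOpen_lt (hcont _) continuous_const
  have huf : ∀ n x, ∃ M, ∀ i, M ≤ i → x ∈ u n i := by
    intro n x
    exact eventually_atTop.1 ((hlim n x).eventually (gt_mem_nhds Nat.one_div_pos_of_nat))
  choose b hb using Pool.Agent.W635.SF.exists_block (ufin_of_strong h) u huo huf
  let g : ℕ → ℕ := fun n => (Finset.range (n + 1)).sup fun l => b l n 0
  obtain ⟨F, δ, hδ, hF⟩ := exists_witness f hf g
  obtain ⟨n₀, hn₀⟩ := exists_nat_one_div_lt hδ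
  obtain ⟨N, hN⟩ := hb F.card F le_rfl
  obtain ⟨i, _, hi2, hi3⟩ := hN (max (max N F.card) n₀)
    ((le_max_left _ _).trans (le_max_left _ _)) 0
  have hi : i < g (max (max N F.card) n₀) := by
    refine hi2.trans_le ?_
    exact Finset.le_sup (f := fun l => b l (max (max N F.card) n₀) 0)
      (Finset.mem_range.2 (Nat.lt_succ_of_le ((le_max_right _ _).trans (le_max_left _ _))))
  obtain ⟨x, hx, hxd⟩ := hF _ i hi
  have h1 : H (max (max N F.card) n₀, i) x < 1 / (((max (max N F.card) n₀ : ℕ) : ℝ) + 1) := hi3 x hx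
  have h2 : 1 / (((max (max N F.card) n₀ : ℕ) : ℝ) + 1) ≤ 1 / ((n₀ : ℝ) + 1) :=
    Nat.one_div_le_one_div (le_max_right _ _)
  exact absurd hxd (not_le.2 ((h1.trans_le h2).trans hn₀))

end

/-- Adding countably many points to a Menger subset of `K`. -/
theorem menger_union (Z : Set K) (hZ : Menger Z) : ∃ Z' : Set K, Z' = Z ∪ range fin ∧ Menger Z' := by
  obtain ⟨q, hq⟩ := exists_surjective_nat (Finset (ℕ × ℕ))
  have hrange : range (fun n => fin (q n)) = range fin := by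
    ext z
    constructor
    · rintro ⟨n, rfl⟩
      exact ⟨q n, rfl⟩
    · rintro ⟨s, rfl⟩
      obtain ⟨n, rfl⟩ := hq s
      exact ⟨n, rfl⟩
  let G : Set (Z × K) := {p | (p.1 : K) = p.2}
  have hG : IsClosed G := isClosed_eq (continuous_subtype_val.comp continuous_fst) continuous_snd
  refine ⟨_, ?_, menger_proj hZ G hG (fun n => fin (q n))⟩
  rw [hrange]
  congr 1
  ext z
  constructor
  · rintro ⟨⟨x, z'⟩, h, rfl⟩
    have h1 : (x : K) = z' := h
    change z' ∈ Z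
    rw [← h1]
    exact x.2
  · intro hz
    exact ⟨(⟨z, hz⟩, z), rfl, rfl⟩

theorem fin_column (q : Finset (ℕ × ℕ)) (n : ℕ) : {m | fin q (n, m) = true}.Finite := by
  classical
  apply ((q.image Prod.snd).finite_toSet).subset
  intro m hm
  have h1 : (n, m) ∈ q := by
    simpa [fin] using hm
  exact Finset.mem_coe.2 (Finset.mem_image.2 ⟨_, h1, rfl⟩)

/-- From subsets of `K` to sets of reals. -/
theorem exists_real_copy (Z : Set K) :
    ∃ (A : Set ℝ) (φ : Z → A) (ι : A → K), Continuous φ ∧ Function.Surjective φ ∧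
      Continuous ι ∧ range ι = Z := by
  obtain ⟨g, hg⟩ := Pool.Agent.W635.SF.exists_embedding_K
  have hgX : Topology.IsEmbedding (fun x : Z => g x) := hg.comp Topology.IsEmbedding.subtypeVal
  let e : Z ≃ₜ range (fun x : Z => g x) := hgX.toHomeomorph
  refine ⟨range (fun x : Z => g x), e, fun a => (e.symm a : K), e.continuous, e.surjective,
    continuous_subtype_val.comp e.symm.continuous, ?_⟩
  ext z
  constructor
  · rintro ⟨a, rfl⟩
    exact (e.symm a).2
  · intro hz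
    exact ⟨e ⟨z, hz⟩, by simp⟩

theorem exists_real_of_covering (Z : Set K) (hZ : Menger Z) (hc : Covering Z) :
    ∃ A : Set ℝ, Menger A ∧ FanEmbeds A := by
  obtain ⟨Z', hZ', hM⟩ := menger_union Z hZ
  have hc' : Covering Z' := by
    refine ⟨?_, ?_⟩
    · rw [hZ']
      rintro z (hz | ⟨q, rfl⟩) n
      · exact hc.1 z hz n
      · exact fin_column q n
    · intro g
      obtain ⟨F, hF, hFg⟩ := hc.2 g
      refine ⟨F, ?_, hFg⟩
      rw [hZ']
      exact hF.trans subset_union_left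
  obtain ⟨A, φ, ι, h1, h2, h3, h4⟩ := exists_real_copy Z'
  refine ⟨A, menger_of_surjective φ h1 h2 hM, fan_of_covering ι h3 (by rw [h4]; exact hc') ?_⟩
  rw [h4, hZ']
  exact subset_union_right

section

variable {I : Type} [LinearOrder I] [WellFoundedLT I]
  {f : I → ℕ → ℕ} {W : I → ℕ → ℕ → Set K} {z : I → (K × K) × (ℕ → ℕ)}

theorem finMenger_XS (hz : ∀ a, StepR W f a (fun b _ => z b) (z a))
    (hW : ∀ w : ℕ → ℕ → Set K, (∀ N k, IsOpen (w N k)) → (∀ N, Monotone (w N)) → ∃ a, W a = w) :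
    FinMenger (XS z) := by
  classical
  intro U hU hc
  have hemb : ∀ n, ∃ u : ℕ → Set (XS z), (∀ i, u i ∈ U n) ∧ ∀ x, ∃ i, x ∈ u i := by
    intro n
    obtain ⟨T, hT1, hT2, hT3⟩ := TopologicalSpace.isOpen_sUnion_countable (U n) (hU n)
    have hTne : T.Nonempty := by
      have h1 : (⟨fin ∅, Sum.inl ∅, rfl⟩ : XS z) ∈ ⋃₀ T := by
        rw [hT3, hc n]
        trivial
      obtain ⟨t, ht, _⟩ := h1
      exact ⟨t, ht⟩
    obtain ⟨u, hu⟩ := hT1.exists_eq_range hTne
    refine ⟨u, fun i => hT2 (by rw [hu]; exact mem_range_self i), fun x => ?_⟩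
    have h1 : x ∈ ⋃₀ T := by
      rw [hT3, hc n]
      trivial
    obtain ⟨t, ht, hxt⟩ := h1
    rw [hu] at ht
    obtain ⟨i, rfl⟩ := ht
    exact ⟨i, hxt⟩
  choose u humem huc using hemb
  have huo : ∀ n i, ∃ O : Set K, IsOpen O ∧ Subtype.val ⁻¹' O = u n i := fun n i =>
    isOpen_induced_iff.1 (hU n _ (humem n i))
  choose O hO hOu using huo
  let w : ℕ → ℕ → Set K := fun N k => ⋃ i ∈ {i | i ≤ k}, O N i
  obtain ⟨β, hβ⟩ := hW w (fun N k => isOpen_biUnion fun i _ => hO N i)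
    (fun N k k' hkk x hx => by
      simp only [w, mem_iUnion, mem_ofPred_eq] at hx ⊢
      obtain ⟨i, hi, hx⟩ := hx
      exact ⟨i, hi.trans hkk, hx⟩)
  have hcov : ∀ p : Pool.Agent.W635.SF.Pt I, ∀ N, ∃ k, pt (fun a => (z a).1) p ∈ W β N k := by
    intro p N
    obtain ⟨i, hi⟩ := huc N ⟨pt (fun a => (z a).1) p, p, rfl⟩
    refine ⟨i, ?_⟩
    rw [hβ]
    simp only [w, mem_iUnion, mem_ofPred_eq]
    refine ⟨i, le_rfl, ?_⟩
    rw [← hOu N i] at hi
    exact hi
  let g := (z β).2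
  refine ⟨fun n => u n '' {i | i ≤ g n}, fun n => ⟨?_, (finite_le_nat (g n)).image _⟩, ?_⟩
  · rintro _ ⟨i, _, rfl⟩
    exact humem n i
  have hmem : ∀ n (x : XS z), (x : K) ∈ W β n (g n) → x ∈ ⋃₀ (u n '' {i | i ≤ g n}) := by
    intro n x hx
    rw [hβ] at hx
    simp only [w, mem_iUnion, mem_ofPred_eq] at hx
    obtain ⟨i, hi, hx⟩ := hx
    refine ⟨u n i, ⟨i, hi, rfl⟩, ?_⟩
    rw [← hOu n i]
    exact hx
  intro F hF
  have hidx : ∀ x : XS z, ∃ p, pt (fun a => (z a).1) p = x := fun x => x.2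
  choose ψ hψ using hidx
  obtain ⟨n, hn⟩ := (Pool.Agent.W635.SF.caught_infinite hz β hcov (hF.toFinset.image ψ)).nonempty
  refine ⟨n, fun x hx => hmem n x ?_⟩
  have h1 := hn (ψ x) (Finset.mem_image.2 ⟨x, hF.mem_toFinset.2 hx, rfl⟩)
  rw [hψ x] at h1
  exact h1

theorem covering_XS (hz : ∀ a, StepR W f a (fun b _ => z b) (z a))
    (hf : ∀ g : ℕ → ℕ, ∃ a, f a = g) : Covering (XS z) := by
  classical
  refine ⟨fun x hx n => Pool.Agent.W635.SF.col_finite hz x hx n, fun g => ?_⟩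
  obtain ⟨a, ha⟩ := hf g
  refine ⟨{(z a).1.1, (z a).1.2}, ?_, ?_⟩
  · intro x hx
    simp only [Finset.coe_insert, Finset.coe_singleton, mem_insert_iff, mem_singleton_iff] at hx
    rcases hx with rfl | rfl
    · exact ⟨Sum.inr (a, false), rfl⟩
    · exact ⟨Sum.inr (a, true), rfl⟩
  · intro n m hm
    rcases (hz a).2.2.1 n m (by rw [ha]; exact hm) with h5 | h5
    · exact ⟨_, Finset.mem_insert_self _ _, h5⟩
    · exact ⟨_, Finset.mem_insert_of_mem (Finset.mem_singleton_self _), h5⟩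

end

/-- The example under the continuum hypothesis. -/
theorem exists_example (hCH : Cardinal.aleph 1 = Cardinal.continuum.{0}) :
    ∃ A : Set ℝ, FinMenger A ∧ FanEmbeds A := by
  obtain ⟨I, _, _, hc, f, W, hWo, hWm, hf, hW⟩ := Pool.Agent.W635.SF.exists_enumeration hCH
  obtain ⟨z, hz⟩ := Pool.Agent.W635.SF.exists_tower hc f W hWo hWm
  obtain ⟨A, φ, ι, h1, h2, h3, h4⟩ := exists_real_copy (XS z)
  refine ⟨A, finMenger_of_surjective φ h1 h2 (finMenger_XS hz hW),
    fan_of_covering ι h3 (by rw [h4]; exact covering_XS hz hf) ?_⟩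
  rw [h4]
  rintro _ ⟨q, rfl⟩
  exact ⟨Sum.inl q, rfl⟩

end Pool.Agent.W635.Fan
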