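import Pool.Agent.W635.FanMain

/-!
A covering Menger set when the dominating number is at most the reaping number.
-/

set_option autoImplicit false

namespace Pool.Agent.W635.Fan

open Set Filter Topology

open Pool.Agent.W635.SF (K fin)

/-- The dominating number. -/
noncomputable def dNum : Cardinal.{0} :=
  sInf {κ | ∃ D : Set (ℕ → ℕ), Cardinal.mk D = κ ∧ ∀ g : ℕ → ℕ, ∃ f ∈ D, ∀ᶠ n in atTop, g n ≤ f n}

/-- The reaping number: the least size of a family of infinite sets of natural numbers that is not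
split by a single set. -/
noncomputable def rNum : Cardinal.{0} :=
  sInf {κ | ∃ R : Set (Set ℕ), Cardinal.mk R = κ ∧ (∀ A ∈ R, A.Infinite) ∧
    ∀ S : Set ℕ, ∃ A ∈ R, (A ∩ S).Finite ∨ (A \ S).Finite}

theorem not_dominating {J : Type} (hJ : Cardinal.mk J < dNum) (t : J → ℕ → ℕ) :
    ∃ g : ℕ → ℕ, ∀ j, ¬ ∀ᶠ n in atTop, g n ≤ t j n := by
  by_contra hcon
  push Not at hcon
  have h1 : dNum ≤ Cardinal.mk (range t) := by
    apply csInf_le'
    refine ⟨range t, rfl, fun g => ?_⟩
    obtain ⟨j, hj⟩ := hcon g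
    exact ⟨t j, mem_range_self j, hj⟩
  exact absurd hJ (not_lt.2 (h1.trans Cardinal.mk_range_le))

theorem exists_split {J : Type} (hJ : Cardinal.mk J < rNum) (I : J → Set ℕ)
    (hI : ∀ j, (I j).Infinite) : ∃ S : Set ℕ, ∀ j, (I j ∩ S).Infinite ∧ (I j \ S).Infinite := by
  by_contra hcon
  push Not at hcon
  have h1 : rNum ≤ Cardinal.mk (range I) := by
    apply csInf_le'
    refine ⟨range I, rfl, ?_, fun S => ?_⟩
    · rintro _ ⟨j, rfl⟩
      exact hI j
    · obtain ⟨j, hj⟩ := hcon S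
      refine ⟨I j, mem_range_self j, ?_⟩
      by_cases h2 : (I j ∩ S).Finite
      · exact Or.inl h2
      · exact Or.inr (by simpa using hj h2)
  exact absurd hJ (not_lt.2 (h1.trans Cardinal.mk_range_le))

/-- The code of a pair. -/
def code (p : ℕ × ℕ) : ℕ := Nat.pair p.1 p.2

theorem code_injective : Function.Injective code := by
  rintro ⟨a, b⟩ ⟨c, d⟩ h
  have h1 := Nat.pair_eq_pair.1 h
  exact Prod.ext h1.1 h1.2

open Classical in
/-- The indicator function of a predicate. -/
noncomputable def ind (P : ℕ × ℕ → Prop) : K := fun p => decide (P p)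

theorem ind_true (P : ℕ × ℕ → Prop) (p : ℕ × ℕ) : ind P p = true ↔ P p := by
  simp [ind]

theorem ind_false (P : ℕ × ℕ → Prop) (p : ℕ × ℕ) : ind P p = false ↔ ¬ P p := by
  simp [ind]

theorem exists_parts {J : Type} (hJd : Cardinal.mk J < dNum) (hJr : Cardinal.mk J < rNum)
    (s : J → ℕ → ℕ) (hs : ∀ j, Monotone (s j)) (f : ℕ → ℕ) :
    ∃ y : K × K, (∀ n, {m | y.1 (n, m) = true}.Finite) ∧ (∀ n, {m | y.2 (n, m) = true}.Finite) ∧
      (∀ n m, m < f n → y.1 (n, m) = true ∨ y.2 (n, m) = true) ∧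
      ∀ j, {c | ∀ p, c ≤ code p → code p < s j c → y.1 p = false}.Infinite ∧
        {c | ∀ p, c ≤ code p → code p < s j c → y.2 p = false}.Infinite := by
  classical
  obtain ⟨g, hg⟩ := not_dominating hJd fun j n => s j (s j n)
  let h : ℕ → ℕ := fun n => (Finset.range (n + 1)).sup g
  have hgh : ∀ n, g n ≤ h n := fun n => Finset.le_sup (f := g) (Finset.mem_range.2 (Nat.lt_succ_self n))
  have hmono : Monotone h := by
    intro a b hab
    exact Finset.sup_mono (Finset.range_mono (by omega))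
  let a : ℕ → ℕ := fun k => Nat.rec 0 (fun _ x => h x + x + 1) k
  have ha : ∀ k, a (k + 1) = h (a k) + a k + 1 := fun k => rfl
  have ha0 : a 0 = 0 := rfl
  have hastrict : StrictMono a := strictMono_nat_of_lt_succ fun k => by rw [ha]; omega
  have hblock : ∀ c, ∃ k, a k ≤ c ∧ c < a (k + 1) := by
    intro c
    have hex : ∃ k, c < a (k + 1) := ⟨c, by
      have := hastrict.le_apply (x := c + 1)
      omega⟩
    refine ⟨Nat.find hex, ?_, Nat.find_spec hex⟩
    rcases Nat.eq_zero_or_pos (Nat.find hex) with h0 | h0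
    · rw [h0, ha0]
      exact Nat.zero_le _
    · have h1 := Nat.find_min hex (m := Nat.find hex - 1) (by omega)
      rw [Nat.sub_add_cancel h0] at h1
      exact not_lt.1 h1
  have hdisj : ∀ c k k', a k ≤ c → c < a (k + 1) → a k' ≤ c → c < a (k' + 1) → k = k' := by
    intro c k k' h1 h2 h3 h4
    rcases lt_trichotomy k k' with h5 | h5 | h5
    · have := hastrict.monotone (Nat.succ_le_of_lt h5)
      simp only [Nat.succ_eq_add_one] at this
      omega
    · exact h5
    · have := hastrict.monotone (Nat.succ_le_of_lt h5)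
      simp only [Nat.succ_eq_add_one] at this
      omega
  let I : J → Set ℕ := fun j => {k | s j (a k) ≤ a (k + 1)}
  have hI : ∀ j, (I j).Infinite := by
    intro j hfin
    obtain ⟨k0, hk0⟩ := hfin.bddAbove
    apply hg j
    filter_upwards [eventually_ge_atTop (a (k0 + 1))] with n hn
    obtain ⟨k, hk1, hk2⟩ := hblock n
    have hkk : k0 + 1 ≤ k := by
      by_contra hcon
      have h1 : a (k + 1) ≤ a (k0 + 1) := hastrict.monotone (show k + 1 ≤ k0 + 1 by omega)
      omega
    have h2 : a (k + 1) < s j (a k) := by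
      by_contra hcon
      have := hk0 (show k ∈ I j from not_lt.1 hcon)
      omega
    have h3 : a (k + 1 + 1) < s j (a (k + 1)) := by
      by_contra hcon
      have := hk0 (show k + 1 ∈ I j from not_lt.1 hcon)
      omega
    have h4 : h n ≤ h (a (k + 1)) := hmono hk2.le
    have h5 := ha (k + 1)
    have h6 : s j (a (k + 1)) ≤ s j (s j n) := hs j (h2.le.trans (hs j hk1))
    have h7 := hgh n
    omega
  obtain ⟨S, hS⟩ := exists_split hJr I hI
  let P1 : ℕ × ℕ → Prop := fun p => p.2 < f p.1 ∧ ∃ k ∈ S, a k ≤ code p ∧ code p < a (k + 1)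
  let P2 : ℕ × ℕ → Prop := fun p => p.2 < f p.1 ∧ ∃ k ∉ S, a k ≤ code p ∧ code p < a (k + 1)
  refine ⟨(ind P1, ind P2), ?_, ?_, ?_, ?_⟩
  · intro n
    apply (finite_lt_nat (f n)).subset
    intro m hm
    exact ((ind_true P1 (n, m)).1 hm).1
  · intro n
    apply (finite_lt_nat (f n)).subset
    intro m hm
    exact ((ind_true P2 (n, m)).1 hm).1
  · intro n m hm
    obtain ⟨k, hk⟩ := hblock (code (n, m))
    by_cases hkS : k ∈ S
    · exact Or.inl ((ind_true P1 (n, m)).2 ⟨hm, k, hkS, hk⟩)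
    · exact Or.inr ((ind_true P2 (n, m)).2 ⟨hm, k, hkS, hk⟩)
  · intro j
    constructor
    · apply ((hS j).2.image hastrict.injective.injOn).mono
      rintro _ ⟨k, ⟨hkI, hkS⟩, rfl⟩ p hp1 hp2
      have h0 : s j (a k) ≤ a (k + 1) := hkI
      refine (ind_false P1 p).2 ?_
      rintro ⟨_, k', hk'S, h3, h4⟩
      exact hkS ((hdisj (code p) k k' hp1 (hp2.trans_le h0) h3 h4) ▸ hk'S)
    · apply ((hS j).1.image hastrict.injective.injOn).mono
      rintro _ ⟨k, ⟨hkI, hkS⟩, rfl⟩ p hp1 hp2
      have h0 : s j (a k) ≤ a (k + 1) := hkI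
      refine (ind_false P2 p).2 ?_
      rintro ⟨_, k', hk'S, h3, h4⟩
      exact hk'S ((hdisj (code p) k k' hp1 (hp2.trans_le h0) h3 h4) ▸ hkS)

/-- Sets disjoint from a neighbourhood of the finite sets are bounded. -/
theorem exists_bound_of_open (O : Set K) (hO : IsOpen O) (hfin : range fin ⊆ O) :
    ∃ φ : ℕ → ℕ, ∀ y ∉ O, ∀ k, ∃ p, k ≤ code p ∧ code p < φ k ∧ y p = true := by
  classical
  have hC : IsCompact Oᶜ := hO.isClosed_compl.isCompact
  have h1 : ∀ k, ∃ b, ∀ y ∉ O, ∃ p, k ≤ code p ∧ code p < b ∧ y p = true := by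
    intro k
    obtain ⟨t, ht⟩ := hC.elim_finite_subcover (fun p : {p : ℕ × ℕ // k ≤ code p} =>
      {y : K | y p = true}) (fun p => (isOpen_discrete ({true} : Set Bool)).preimage
        (by fun_prop : Continuous fun y : K => y (p : ℕ × ℕ))) (by
        intro y hy
        by_contra hcon
        apply hy
        simp only [mem_iUnion, not_exists, Subtype.forall, mem_ofPred_eq] at hcon
        have hfinp : {p : ℕ × ℕ | code p < k}.Finite :=
          Finite.of_finite_image ((finite_lt_nat k).subset (by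
            rintro _ ⟨p, hp, rfl⟩
            exact hp)) code_injective.injOn
        have h2 : y = fin (hfinp.toFinset.filter fun p => y p = true) := by
          funext p
          simp only [fin, Finset.mem_filter, Finite.mem_toFinset, mem_ofPred_eq]
          by_cases hp : y p = true
          · have h3 : code p < k := by
              by_contra h4
              exact hcon p (not_lt.1 h4) hp
            simp [hp, h3]
          · simp [hp]
        rw [h2]
        exact hfin (mem_range_self _))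
    refine ⟨t.sup (fun p => code p) + 1, fun y hy => ?_⟩
    obtain ⟨p, hp, hyp⟩ := mem_iUnion₂.1 (ht hy)
    refine ⟨p, p.2, ?_, hyp⟩
    have : code p ≤ t.sup (fun p => code p) := Finset.le_sup (f := fun p : {p : ℕ × ℕ // k ≤ code p} => code p) hp
    omega
  choose φ hφ using h1
  exact ⟨φ, fun y hy k => hφ k y hy⟩

theorem aleph0_lt_dNum : Cardinal.aleph0 < dNum := by
  have hne : {κ : Cardinal.{0} | ∃ D : Set (ℕ → ℕ), Cardinal.mk D = κ ∧
      ∀ g : ℕ → ℕ, ∃ f ∈ D, ∀ᶠ n in atTop, g n ≤ f n}.Nonempty :=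
    ⟨_, univ, rfl, fun g => ⟨g, trivial, Eventually.of_forall fun _ => le_rfl⟩⟩
  obtain ⟨D, hD1, hD2⟩ := csInf_mem hne
  by_contra hcon
  have h1 : Cardinal.mk D ≤ Cardinal.aleph0 := by
    rw [hD1]
    exact not_lt.1 hcon
  have : Countable D := Cardinal.mk_le_aleph0_iff.1 h1
  obtain ⟨g, _, hg⟩ := Pool.Agent.W635.SF.exists_dom (fun f : D => (f : ℕ → ℕ)) 0
  obtain ⟨f, hf, hfe⟩ := hD2 fun n => g n + 1
  obtain ⟨n, h2, h3⟩ := ((hg ⟨f, hf⟩).and hfe).exists
  simp only at h2
  omega

/-- A covering Menger set when the dominating number is at most the reaping number. -/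
theorem exists_covering_of_le (hle : dNum ≤ rNum) :
    ∃ Z : Set K, Menger Z ∧ Covering Z ∧ range fin ⊆ Z := by
  classical
  have hne : {κ : Cardinal.{0} | ∃ D : Set (ℕ → ℕ), Cardinal.mk D = κ ∧
      ∀ g : ℕ → ℕ, ∃ f ∈ D, ∀ᶠ n in atTop, g n ≤ f n}.Nonempty :=
    ⟨_, univ, rfl, fun g => ⟨g, trivial, Eventually.of_forall fun _ => le_rfl⟩⟩
  obtain ⟨D, hD1, hD2⟩ := csInf_mem hne
  have hD1' : Cardinal.mk D = dNum := hD1
  let I : Type := dNum.ord.ToType
  have hmkI : Cardinal.mk I = Cardinal.mk D := by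
    rw [hD1']
    exact Cardinal.mk_ord_toType _
  obtain ⟨e⟩ := Cardinal.eq.1 hmkI
  let f : I → ℕ → ℕ := fun i => (e i : ℕ → ℕ)
  have hf : ∀ g : ℕ → ℕ, ∃ i, ∀ᶠ n in atTop, g n ≤ f i n := by
    intro g
    obtain ⟨φ, hφ, hg⟩ := hD2 g
    refine ⟨e.symm ⟨φ, hφ⟩, ?_⟩
    simpa [f] using hg
  let s : I → ℕ → ℕ := fun i n => (Finset.range (n + 1)).sup (f i)
  have hs : ∀ i, Monotone (s i) := fun i a b hab => Finset.sup_mono (Finset.range_mono (by omega))
  have hfs : ∀ i n, f i n ≤ s i n := fun i n =>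
    Finset.le_sup (f := f i) (Finset.mem_range.2 (Nat.lt_succ_self n))
  have hIio : ∀ i : I, Cardinal.mk (Iio i) < dNum := fun i => Cardinal.mk_Iio_toType_ord_lt i
  have hIic : ∀ i : I, Cardinal.mk (Iic i) < dNum := by
    intro i
    have h1 : Cardinal.mk (Iic i) ≤ Cardinal.mk (Iio i) + 1 := by
      have h2 : Iic i = insert i (Iio i) := by
        ext x
        simp [le_iff_eq_or_lt]
      rw [h2]
      exact Cardinal.mk_insert_le
    exact h1.trans_lt (Cardinal.add_lt_of_lt aleph0_lt_dNum.le (hIio i)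
      (Cardinal.one_lt_aleph0.trans aleph0_lt_dNum))
  choose y hy1 hy2 hy3 hy4 using fun α : I =>
    exists_parts (hIio α) ((hIio α).trans_le hle) (fun j : Iio α => s j) (fun j => hs j) (f α)
  let Z : Set K := range fin ∪ {z | ∃ α, z = (y α).1 ∨ z = (y α).2}
  refine ⟨Z, ?_, ⟨?_, ?_⟩, subset_union_left⟩
  · intro U hU hc
    have hemb : ∀ n, ∃ u : ℕ → Set Z, (∀ i, u i ∈ U n) ∧ ∀ x, ∃ i, x ∈ u i := by
      intro n
      obtain ⟨T, hT1, hT2, hT3⟩ := TopologicalSpace.isOpen_sUnion_countable (U n) (hU n)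
      have hTne : T.Nonempty := by
        have h1 : (⟨fin ∅, Or.inl (mem_range_self _)⟩ : Z) ∈ ⋃₀ T := by
          rw [hT3, hc n]
          trivial
        obtain ⟨t, ht, _⟩ := h1
        exact ⟨t, ht⟩
      obtain ⟨u, hu⟩ := hT1.exists_eq_range hTne
      refine ⟨u, fun i => hT2 (by rw [hu]; exact mem_range_self i), fun x => ?_⟩
      have h1 : x ∈ ⋃₀ T := by
        rw [hT3, hc n]
        trivial
      obtain ⟨t, ht, hxt⟩ := h1
      rw [hu] at ht
      obtain ⟨i, rfl⟩ := ht
      exact ⟨i, hxt⟩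
    choose u humem huc using hemb
    have huo : ∀ n i, ∃ O : Set K, IsOpen O ∧ Subtype.val ⁻¹' O = u n i := fun n i =>
      isOpen_induced_iff.1 (hU n _ (humem n i))
    choose O hO hOu using huo
    obtain ⟨q, hq⟩ := exists_surjective_nat (Finset (ℕ × ℕ))
    choose i0 hi0 using fun j : ℕ => huc (2 * j) ⟨fin (q j), Or.inl (mem_range_self _)⟩
    have hWo : IsOpen (⋃ j, O (2 * j) (i0 j)) := isOpen_iUnion fun j => hO _ _
    have hWfin : range fin ⊆ ⋃ j, O (2 * j) (i0 j) := by
      rintro _ ⟨q', rfl⟩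
      obtain ⟨j, rfl⟩ := hq q'
      refine mem_iUnion.2 ⟨j, ?_⟩
      have h1 := hi0 j
      rw [← hOu] at h1
      exact h1
    obtain ⟨φ, hφ⟩ := exists_bound_of_open _ hWo hWfin
    obtain ⟨β, hβ⟩ := hf φ
    have hαβ : ∀ α, ∀ z : K, (z = (y α).1 ∨ z = (y α).2) → z ∉ (⋃ j, O (2 * j) (i0 j)) → α ≤ β := by
      intro α z hz hzO
      by_contra hcon
      have hlt : β < α := not_le.1 hcon
      have hinf : {c | ∀ p, c ≤ code p → code p < s β c → z p = false}.Infinite := by
        rcases hz with rfl | rfl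
        · exact (hy4 α ⟨β, hlt⟩).1
        · exact (hy4 α ⟨β, hlt⟩).2
      obtain ⟨N, hN⟩ := eventually_atTop.1 hβ
      obtain ⟨c, hc1, hc2⟩ := hinf.exists_gt N
      obtain ⟨p, hp1, hp2, hp3⟩ := hφ z hzO c
      have h1 := hc1 p hp1 (hp2.trans_le ((hN c hc2.le).trans (hfs β c)))
      rw [hp3] at h1
      cases h1
    choose H hH using huc
    let z1 : I → Z := fun α => ⟨(y α).1, Or.inr ⟨α, Or.inl rfl⟩⟩
    let z2 : I → Z := fun α => ⟨(y α).2, Or.inr ⟨α, Or.inr rfl⟩⟩
    obtain ⟨g, hg⟩ := not_dominating (hIic β) fun (α : Iic β) (j : ℕ) =>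
      max (H (2 * j + 1) (z1 α)) (H (2 * j + 1) (z2 α))
    refine ⟨fun n => {u n (i0 (n / 2))} ∪ u n '' {i | i ≤ g (n / 2)}, fun n => ⟨?_, ?_⟩, ?_⟩
    · rintro _ (rfl | ⟨i, _, rfl⟩)
      · exact humem _ _
      · exact humem _ _
    · exact (finite_singleton _).union ((finite_le_nat _).image _)
    · rw [eq_univ_iff_forall]
      intro z
      by_cases hzO : (z : K) ∈ ⋃ j, O (2 * j) (i0 j)
      · obtain ⟨j, hj⟩ := mem_iUnion.1 hzO
        refine mem_iUnion.2 ⟨2 * j, u (2 * j) (i0 j), Or.inl ?_, ?_⟩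
        · rw [show 2 * j / 2 = j by omega]
          rfl
        · rw [← hOu]
          exact hj
      · rcases z with ⟨z, hz | ⟨α, hα⟩⟩
        · exact absurd (hWfin hz) hzO
        · have hle' := hαβ α z hα hzO
          have h1 : ∃ j, max (H (2 * j + 1) (z1 α)) (H (2 * j + 1) (z2 α)) < g j := by
            by_contra hcon
            push Not at hcon
            exact hg ⟨α, hle'⟩ (Eventually.of_forall hcon)
          obtain ⟨j, hj⟩ := h1
          rcases hα with rfl | rfl
          · refine mem_iUnion.2 ⟨2 * j + 1, u (2 * j + 1) (H (2 * j + 1) (z1 α)),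
              Or.inr ⟨_, ?_, rfl⟩, hH _ (z1 α)⟩
            rw [show (2 * j + 1) / 2 = j by omega]
            exact ((le_max_left _ _).trans_lt hj).le
          · refine mem_iUnion.2 ⟨2 * j + 1, u (2 * j + 1) (H (2 * j + 1) (z2 α)),
              Or.inr ⟨_, ?_, rfl⟩, hH _ (z2 α)⟩
            rw [show (2 * j + 1) / 2 = j by omega]
            exact ((le_max_right _ _).trans_lt hj).le
  · rintro z (⟨q, rfl⟩ | ⟨α, rfl | rfl⟩) n
    · exact fin_column q n
    · exact hy1 α n
    · exact hy2 α n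
  · intro g
    obtain ⟨α, hα⟩ := hf g
    obtain ⟨n₀, hn₀⟩ := eventually_atTop.1 hα
    let q : Finset (ℕ × ℕ) := (Finset.range n₀).biUnion fun n => (Finset.range (g n)).image fun m =>
      (n, m)
    refine ⟨{fin q, (y α).1, (y α).2}, ?_, ?_⟩
    · intro z hz
      simp only [Finset.coe_insert, Finset.coe_singleton, mem_insert_iff, mem_singleton_iff] at hz
      rcases hz with rfl | rfl | rfl
      · exact Or.inl (mem_range_self q)
      · exact Or.inr ⟨α, Or.inl rfl⟩
      · exact Or.inr ⟨α, Or.inr rfl⟩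
    · intro n m hm
      by_cases hn : n < n₀
      · refine ⟨fin q, by simp, ?_⟩
        simp only [fin, decide_eq_true_eq, q, Finset.mem_biUnion, Finset.mem_range,
          Finset.mem_image]
        exact ⟨n, hn, m, hm, rfl⟩
      · rcases hy3 α n m (hm.trans_le (hn₀ n (not_lt.1 hn))) with h | h
        · exact ⟨(y α).1, by simp, h⟩
        · exact ⟨(y α).2, by simp, h⟩

/-- The positive answer when the dominating number is at most the reaping number. -/
theorem exists_real_of_le (hle : dNum ≤ rNum) : ∃ A : Set ℝ, Menger A ∧ FanEmbeds A := by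
  obtain ⟨Z, h1, h2, _⟩ := exists_covering_of_le hle
  exact exists_real_of_covering Z h1 h2

end Pool.Agent.W635.Fan
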