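import Pool.Agent.W635.LotsDefs

/-! Uncountable families of pairwise disjoint intervals. -/

namespace Pool.Agent.W635.LOTS

open Set

/-- `L` has an uncountable family of pairwise disjoint closed intervals. -/
def Dbl (L : Type) [LinearOrder L] : Prop :=
  ∃ S : Set (L × L), ¬ S.Countable ∧ (∀ p ∈ S, p.1 < p.2) ∧
    ∀ p ∈ S, ∀ q ∈ S, p ≠ q → p.2 < q.1 ∨ q.2 < p.1

theorem Dbl.map {A B : Type} [LinearOrder A] [LinearOrder B] (h : Dbl A) (f : A ↪o B) :
    Dbl B := by
  obtain ⟨S, hS, h1, h2⟩ := h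
  have hinj : Function.Injective (Prod.map f f) := f.injective.prodMap f.injective
  refine ⟨Prod.map f f '' S, ?_, ?_, ?_⟩
  · intro hc
    exact hS (countable_of_injective_of_countable_image hinj.injOn hc)
  · rintro _ ⟨p, hp, rfl⟩
    exact f.lt_iff_lt.2 (h1 p hp)
  · rintro _ ⟨p, hp, rfl⟩ _ ⟨q, hq, rfl⟩ hne
    have : p ≠ q := fun h => hne (by rw [h])
    rcases h2 p hp q hq this with h | h
    · left; exact f.lt_iff_lt.2 h
    · right; exact f.lt_iff_lt.2 h

theorem Dbl.dual {A : Type} [LinearOrder A] (h : Dbl A) : Dbl Aᵒᵈ := by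
  obtain ⟨S, hS, h1, h2⟩ := h
  let g : A × A → Aᵒᵈ × Aᵒᵈ := fun p => (OrderDual.toDual p.2, OrderDual.toDual p.1)
  have hinj : Function.Injective g := by
    intro p q hpq
    have h1 := congrArg Prod.fst hpq
    have h2 := congrArg Prod.snd hpq
    simp only [g] at h1 h2
    exact Prod.ext (OrderDual.toDual.injective h2) (OrderDual.toDual.injective h1)
  refine ⟨g '' S, ?_, ?_, ?_⟩
  · intro hc
    exact hS (countable_of_injective_of_countable_image hinj.injOn hc)
  · rintro _ ⟨p, hp, rfl⟩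
    exact h1 p hp
  · rintro _ ⟨p, hp, rfl⟩ _ ⟨q, hq, rfl⟩ hne
    have : p ≠ q := fun h => hne (by rw [h])
    rcases h2 p hp q hq this with h | h
    · right; exact h
    · left; exact h

theorem not_dbl_real : ¬ Dbl ℝ := by
  rintro ⟨S, hS, h1, h2⟩
  apply hS
  have : ∀ p : ℝ × ℝ, ∃ q : ℚ, p.1 < p.2 → p.1 < q ∧ (q : ℝ) < p.2 := by
    intro p
    by_cases h : p.1 < p.2
    · obtain ⟨q, hq⟩ := exists_rat_btwn h
      exact ⟨q, fun _ => hq⟩
    · exact ⟨0, fun h' => absurd h' h⟩
  choose r hr using this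
  have hinj : InjOn r S := by
    intro p hp q hq hpq
    by_contra hne
    have hp' := hr p (h1 p hp)
    have hq' := hr q (h1 q hq)
    rw [hpq] at hp'
    rcases h2 p hp q hq hne with h | h
    · linarith [hp'.2, hq'.1]
    · linarith [hq'.2, hp'.1]
  exact (countable_of_injective_of_countable_image hinj (Set.to_countable _))

theorem Dbl.not_real {L : Type} [LinearOrder L] (h : Dbl L) : ¬ Nonempty (L ↪o ℝ) :=
  fun ⟨f⟩ => not_dbl_real (h.map f)

/-- `p`-indexed form: a family indexed by an uncountable linear order. -/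
theorem Dbl.uncountable {L : Type} [LinearOrder L] (h : Dbl L) : Uncountable L := by
  obtain ⟨S, hS, h1, h2⟩ := h
  by_contra hc
  rw [not_uncountable_iff] at hc
  exact hS (Set.to_countable S)

/-- Every initial segment of `ω₁` is countable. -/
theorem countable_Iio_omegaOne (a : OmegaOne) : (Iio a).Countable := by
  have h := Cardinal.mk_Iio_toType_ord_lt a
  have h2 : Cardinal.mk (Iio a) < Order.succ Cardinal.aleph0 := by
    rw [Cardinal.succ_aleph0]; exact h
  rw [← Cardinal.le_aleph0_iff_set_countable]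
  exact Order.lt_succ_iff.1 h2

theorem uncountable_omegaOne : Uncountable OmegaOne := by
  rw [← Cardinal.aleph0_lt_mk_iff, Cardinal.mk_toType, Cardinal.card_ord]
  exact Cardinal.aleph0_lt_aleph_one

theorem omegaOne_bounded (A : Set OmegaOne) (hA : A.Countable) : ∃ w, ∀ a ∈ A, a < w := by
  by_contra h
  push Not at h
  have hcov : (Set.univ : Set OmegaOne) ⊆ ⋃ a ∈ A, (Iio a ∪ {a}) := by
    intro w _
    obtain ⟨a, ha, hwa⟩ := h w
    rcases hwa.lt_or_eq with h1 | h1
    · exact mem_biUnion ha (Or.inl h1)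
    · exact mem_biUnion ha (Or.inr h1)
  have hc : (⋃ a ∈ A, (Iio a ∪ {a})).Countable :=
    hA.biUnion fun a _ => (countable_Iio_omegaOne a).union (countable_singleton a)
  have := hc.mono hcov
  have hu := uncountable_omegaOne
  rw [countable_univ_iff] at this
  exact not_countable this

theorem dbl_omegaOne : Dbl OmegaOne := by
  have hg : ∀ x : OmegaOne, ∃ y, x < y := fun x => by
    obtain ⟨w, hw⟩ := omegaOne_bounded {x} (countable_singleton x)
    exact ⟨w, hw x rfl⟩
  choose g hg using hg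
  -- maximal set with `g a < a'` for `a < a'`
  let P : Set (Set OmegaOne) := {A | ∀ a ∈ A, ∀ b ∈ A, a < b → g a < b}
  obtain ⟨A, hA⟩ : ∃ A, Maximal (· ∈ P) A := by
    refine zorn_subset P ?_
    intro c hc hchain
    refine ⟨⋃₀ c, ?_, fun s hs => subset_sUnion_of_mem hs⟩
    rintro a ⟨s, hs, has⟩ b ⟨t, ht, hbt⟩ hab
    rcases hchain.total hs ht with h | h
    · exact hc ht a (h has) b hbt hab
    · exact hc hs a has b (h hbt) hab
  have hunc : ¬ A.Countable := by
    intro hc
    obtain ⟨w, hw⟩ := omegaOne_bounded (A ∪ g '' A) (hc.union (hc.image g))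
    have hwA : w ∉ A := fun h => lt_irrefl _ (hw w (Or.inl h))
    have hins : insert w A ∈ P := by
      rintro a (rfl | ha) b (rfl | hb) hab
      · exact absurd hab (lt_irrefl _)
      · exact absurd (hw b (Or.inl hb)) (not_lt.2 hab.le)
      · exact hw _ (Or.inr ⟨a, ha, rfl⟩)
      · exact hA.prop a ha b hb hab
    exact hwA (hA.le_of_ge hins (subset_insert w A) (mem_insert w A))
  refine ⟨(fun a => (a, g a)) '' A, ?_, ?_, ?_⟩
  · intro hc
    refine hunc (countable_of_injective_of_countable_image ?_ hc)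
    intro a _ b _ hab
    exact congrArg Prod.fst hab
  · rintro _ ⟨a, ha, rfl⟩
    exact hg a
  · rintro _ ⟨a, ha, rfl⟩ _ ⟨b, hb, rfl⟩ hne
    have hab : a ≠ b := fun h => hne (by rw [h])
    rcases lt_or_gt_of_ne hab with h | h
    · left; exact hA.prop a ha b hb h
    · right; exact hA.prop b hb a ha h

/-- A countable weakly order dense set gives an embedding into the reals. -/
theorem embReal {L : Type} [LinearOrder L] (Q : Set L) (hQ : Q.Countable)
    (h : ∀ x y : L, x < y → ∃ q ∈ Q, x ≤ q ∧ q ≤ y) : Nonempty (L ↪o ℝ) := by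
  classical
  rcases Q.eq_empty_or_nonempty with rfl | hne
  · have hsub : ∀ x y : L, ¬ x < y := fun x y hxy => by
      obtain ⟨q, hq, _⟩ := h x y hxy
      exact hq
    exact ⟨OrderEmbedding.ofStrictMono (fun _ => 0) fun x y hxy => absurd hxy (hsub x y)⟩
  obtain ⟨q, hq⟩ := hQ.exists_eq_range hne
  have hs : Summable fun n : ℕ => ((1 : ℝ) / 2) ^ n := summable_geometric_two
  let f : L → ℕ → ℝ := fun x n => (if q n < x then (1 / 2 : ℝ) ^ n else 0)
    + (if q n ≤ x then (1 / 2 : ℝ) ^ n else 0)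
  have hf0 : ∀ x n, 0 ≤ f x n := by
    intro x n
    simp only [f]
    positivity
  have hf1 : ∀ x n, f x n ≤ 2 * (1 / 2 : ℝ) ^ n := by
    intro x n
    have : (0 : ℝ) ≤ (1 / 2 : ℝ) ^ n := by positivity
    simp only [f]
    split_ifs <;> linarith
  have hsum : ∀ x, Summable (f x) := fun x =>
    Summable.of_nonneg_of_le (hf0 x) (hf1 x) (hs.mul_left 2)
  have hmono : ∀ x y, x < y → ∀ n, f x n ≤ f y n := by
    intro x y hxy n
    have h0 : (0 : ℝ) ≤ (1 / 2 : ℝ) ^ n := by positivity
    simp only [f]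
    have a1 : (if q n < x then (1 / 2 : ℝ) ^ n else 0) ≤ (if q n < y then (1 / 2 : ℝ) ^ n else 0) := by
      split_ifs with h1 h2 h2
      · exact le_rfl
      · exact absurd (h1.trans hxy) h2
      · exact h0
      · exact le_rfl
    have a2 : (if q n ≤ x then (1 / 2 : ℝ) ^ n else 0) ≤ (if q n ≤ y then (1 / 2 : ℝ) ^ n else 0) := by
      split_ifs with h1 h2 h2
      · exact le_rfl
      · exact absurd (h1.trans hxy.le) h2
      · exact h0
      · exact le_rfl
    linarith
  refine ⟨OrderEmbedding.ofStrictMono (fun x => ∑' n, f x n) ?_⟩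
  intro x y hxy
  obtain ⟨p, hp, hxp, hpy⟩ := h x y hxy
  rw [hq] at hp
  obtain ⟨n, rfl⟩ := hp
  refine Summable.tsum_lt_tsum (i := n) (hmono x y hxy) ?_ (hsum x) (hsum y)
  have h0 : (0 : ℝ) < (1 / 2 : ℝ) ^ n := by positivity
  simp only [f]
  rcases hxp.lt_or_eq with h1 | h1
  · have e1 : ¬ q n < x := not_lt.2 h1.le
    have e2 : ¬ q n ≤ x := not_le.2 h1
    simp only [e1, e2, if_false, hpy, if_true]
    have : (0:ℝ) ≤ (if q n < y then (1 / 2 : ℝ) ^ n else 0) := by positivity
    linarith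
  · have e1 : ¬ q n < x := not_lt.2 h1.le
    have e2 : q n ≤ x := h1.ge
    have e3 : q n < y := by rw [← h1]; exact hxy
    simp only [e1, e2, e3, if_false, if_true, e3.le]
    linarith

/-- Transfinite sequence of intervals avoiding the earlier end points. -/
theorem exists_seq {L : Type} [LinearOrder L] (h : ¬ Nonempty (L ↪o ℝ)) :
    ∃ x y : OmegaOne → L, (∀ a, x a < y a) ∧
      ∀ a b, b < a → x b ∉ Icc (x a) (y a) ∧ y b ∉ Icc (x a) (y a) := by
  classical
  have step : ∀ Q : Set L, ∃ p : L × L, Q.Countable → p.1 < p.2 ∧ ∀ q ∈ Q, q ∉ Icc p.1 p.2 := by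
    intro Q
    by_cases hQ : Q.Countable
    · by_contra hcon
      push Not at hcon
      apply h
      refine embReal Q hQ fun x y hxy => ?_
      obtain ⟨_, hcon'⟩ := hcon (x, y)
      obtain ⟨q, hq, hq'⟩ := hcon' hxy
      exact ⟨q, hq, hq'.1, hq'.2⟩
    · obtain ⟨p, _⟩ : Nonempty (L × L) := by
        by_contra hemp
        apply h
        have hL : IsEmpty L := by
          rw [← not_nonempty_iff]
          rintro ⟨a⟩
          exact hemp ⟨(a, a)⟩
        exact ⟨OrderEmbedding.ofStrictMono (fun _ => 0) fun x => isEmptyElim x⟩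
      exact ⟨(p, p), fun h => absurd h hQ⟩
  choose F hF using step
  let wf : WellFounded ((· < ·) : OmegaOne → OmegaOne → Prop) := wellFounded_lt
  let G : OmegaOne → L × L := wf.fix fun a g =>
    F {l | ∃ (b : OmegaOne) (hb : b < a), l = (g b hb).1 ∨ l = (g b hb).2}
  have hG : ∀ a, G a = F {l | ∃ (b : OmegaOne) (_ : b < a), l = (G b).1 ∨ l = (G b).2} := by
    intro a
    exact wf.fix_eq _ a
  have hcount : ∀ a, {l | ∃ (b : OmegaOne) (_ : b < a), l = (G b).1 ∨ l = (G b).2}.Countable := by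
    intro a
    have : {l | ∃ (b : OmegaOne) (_ : b < a), l = (G b).1 ∨ l = (G b).2} ⊆
        (fun b => (G b).1) '' (Iio a) ∪ (fun b => (G b).2) '' (Iio a) := by
      rintro l ⟨b, hb, rfl | rfl⟩
      · exact Or.inl ⟨b, hb, rfl⟩
      · exact Or.inr ⟨b, hb, rfl⟩
    exact (((countable_Iio_omegaOne a).image _).union ((countable_Iio_omegaOne a).image _)).mono this
  refine ⟨fun a => (G a).1, fun a => (G a).2, ?_, ?_⟩
  · intro a
    have := (hF _ (hcount a)).1
    rw [← hG a] at this
    exact this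
  · intro a b hb
    have := (hF _ (hcount a)).2
    rw [← hG a] at this
    exact ⟨this _ ⟨b, hb, Or.inl rfl⟩, this _ ⟨b, hb, Or.inr rfl⟩⟩

end Pool.Agent.W635.LOTS
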