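import Mathlib

/-! Definitions for MP_6f3246_lc: bases for aleph_1-dense LOTS with countable character. -/

namespace Pool.Agent.W635.LOTS

open Cardinal Set

/-- `A` LOTS-embeds into `B`: there is a strictly increasing map which is continuous for the
order (open interval) topologies. -/
def LotsEmb (A B : Type) [LinearOrder A] [LinearOrder B] : Prop :=
  ∃ f : A → B, StrictMono f ∧ @Continuous A B (Preorder.topology A) (Preorder.topology B) f

/-- `L` has at least two points and every open interval `(a, b)`, `a < b`, has cardinality
exactly `ℵ₁`. -/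
def AlephOneDense (L : Type) [LinearOrder L] : Prop :=
  Nontrivial L ∧ ∀ a b : L, a < b → #(Ioo a b) = ℵ₁

/-- Every point has countable cofinality and countable coinitiality, wherever defined: if `x`
is the supremum of the points below it then it is the supremum of countably many of them, and
dually. -/
def CountableCharacter (L : Type) [LinearOrder L] : Prop :=
  (∀ x : L, IsLUB (Iio x) x → ∃ S : Set L, S.Countable ∧ S ⊆ Iio x ∧ IsLUB S x) ∧
  (∀ x : L, IsGLB (Ioi x) x → ∃ S : Set L, S.Countable ∧ S ⊆ Ioi x ∧ IsGLB S x)

/-- The class `𝒞` of the problem. -/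
def InC (L : Type) [LinearOrder L] : Prop := AlephOneDense L ∧ CountableCharacter L

/-- A Countryman line: an uncountable linear order whose square, with the coordinatewise
order, is a countable union of chains. -/
def Countryman (C : Type) [LinearOrder C] : Prop :=
  Uncountable C ∧
    ∃ K : ℕ → Set (C × C), (⋃ n, K n) = Set.univ ∧ ∀ n, IsChain (· ≤ ·) (K n)

/-- The ordinal `ω₁` (the initial ordinal of `ℵ₁`) as a linear order. -/
abbrev OmegaOne : Type := (ℵ₁ : Cardinal.{0}).ord.ToType

/-- The conclusion of Moore's theorem (a consequence of PFA): there is a Countryman line `C`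
such that for every set of reals `X` of size `ℵ₁` the five orders `X`, `ω₁`, `ω₁*`, `C`, `C*`
form a basis for the uncountable linear orders. -/
def FiveElementBasis : Prop :=
  ∃ (C : Type) (_ : LinearOrder C), Countryman C ∧
    ∀ X : Set ℝ, #X = ℵ₁ → ∀ (L : Type) (_ : LinearOrder L), Uncountable L →
      Nonempty (X ↪o L) ∨ Nonempty (OmegaOne ↪o L) ∨ Nonempty (OmegaOneᵒᵈ ↪o L) ∨
        Nonempty (C ↪o L) ∨ Nonempty (Cᵒᵈ ↪o L)

end Pool.Agent.W635.LOTS
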