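import Pool.Agent.W635.LotsSep

/-! The lexicographic powers `AD D` and their LOTS embeddings. -/

namespace Pool.Agent.W635.LOTS

open Set Cardinal

/-- Two points followed by a copy of `D`; the second of the two points is the base point. -/
def DD (D : Type) : Type := Lex (Fin 2 ⊕ D)

instance (D : Type) [LinearOrder D] : LinearOrder (DD D) :=
  inferInstanceAs (LinearOrder (Lex (Fin 2 ⊕ D)))

instance (D : Type) : Zero (DD D) := ⟨toLex (Sum.inl 1)⟩

/-- the point below the base point -/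
def mm (D : Type) : DD D := toLex (Sum.inl 0)

/-- the copy of `D` -/
def up {D : Type} (d : D) : DD D := toLex (Sum.inr d)

theorem dd_cases {D : Type} (x : DD D) : x = mm D ∨ x = 0 ∨ ∃ d, x = up d := by
  rcases x with (i | d)
  · fin_cases i
    · left; rfl
    · right; left; rfl
  · right; right; exact ⟨d, rfl⟩

theorem mm_lt_zero {D : Type} [LinearOrder D] : mm D < 0 :=
  Sum.Lex.inl (by decide : (0 : Fin 2) < 1)

theorem zero_lt_up {D : Type} [LinearOrder D] (d : D) : (0 : DD D) < up d :=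
  Sum.Lex.sep _ _

theorem mm_lt_up {D : Type} [LinearOrder D] (d : D) : mm D < up d :=
  Sum.Lex.sep _ _

theorem up_lt_up {D : Type} [LinearOrder D] {d d' : D} : up d < up d' ↔ d < d' :=
  Sum.Lex.inr_lt_inr_iff

/-- The space `AD D` of eventually-zero sequences in `DD D`, ordered lexicographically. -/
def AD (D : Type) : Type := Lex (ℕ →₀ DD D)

noncomputable instance (D : Type) [LinearOrder D] : LinearOrder (AD D) :=
  inferInstanceAs (LinearOrder (Lex (ℕ →₀ DD D)))

/-- coordinates -/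
def AD.co {D : Type} (x : AD D) (n : ℕ) : DD D := (ofLex x : ℕ →₀ DD D) n

theorem AD.lt_iff {D : Type} [LinearOrder D] {x y : AD D} :
    x < y ↔ ∃ i, (∀ j < i, x.co j = y.co j) ∧ x.co i < y.co i := Iff.rfl

/-- bound of the support -/
noncomputable def AD.bd {D : Type} (x : AD D) : ℕ := (ofLex x : ℕ →₀ DD D).support.sup id + 1

theorem AD.co_bd {D : Type} (x : AD D) {n : ℕ} (h : x.bd ≤ n) : x.co n = 0 := by
  by_contra hne
  have h1 : n ∈ (ofLex x : ℕ →₀ DD D).support := Finsupp.mem_support_iff.2 hne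
  have h2 : id n ≤ (ofLex x : ℕ →₀ DD D).support.sup id := Finset.le_sup (f := id) h1
  simp only [id] at h2
  unfold AD.bd at h
  omega

open Classical in
/-- change of one coordinate -/
noncomputable def AD.up {D : Type} (x : AD D) (n : ℕ) (d : DD D) : AD D :=
  toLex (Finsupp.update (ofLex x : ℕ →₀ DD D) n d)

theorem AD.co_up_self {D : Type} (x : AD D) (n : ℕ) (d : DD D) : (x.up n d).co n = d := by
  classical
  show (Finsupp.update (ofLex x : ℕ →₀ DD D) n d) n = d
  rw [Finsupp.coe_update, Function.update_self]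

theorem AD.co_up_of_ne {D : Type} (x : AD D) {n m : ℕ} (h : m ≠ n) (d : DD D) :
    (x.up n d).co m = x.co m := by
  classical
  show (Finsupp.update (ofLex x : ℕ →₀ DD D) n d) m = _
  rw [Finsupp.coe_update, Function.update_of_ne h]
  rfl

theorem AD.up_lt {D : Type} [LinearOrder D] (x : AD D) {n : ℕ} {d : DD D} (h : d < x.co n) :
    x.up n d < x := by
  rw [AD.lt_iff]
  exact ⟨n, fun j hj => x.co_up_of_ne hj.ne d, by rw [x.co_up_self]; exact h⟩

theorem AD.lt_up {D : Type} [LinearOrder D] (x : AD D) {n : ℕ} {d : DD D} (h : x.co n < d) :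
    x < x.up n d := by
  rw [AD.lt_iff]
  exact ⟨n, fun j hj => (x.co_up_of_ne hj.ne d).symm, by rw [x.co_up_self]; exact h⟩

/-- Between `x < y` there are all late changes of `x`. -/
theorem AD.up_lt_of_lt {D : Type} [LinearOrder D] {x y : AD D} {i : ℕ}
    (h1 : ∀ j < i, x.co j = y.co j) (h2 : x.co i < y.co i) {n : ℕ} (hn : i < n) (d : DD D) :
    x.up n d < y := by
  rw [AD.lt_iff]
  refine ⟨i, fun j hj => ?_, ?_⟩
  · rw [x.co_up_of_ne (hj.trans hn).ne d]; exact h1 j hj
  · rw [x.co_up_of_ne hn.ne d]; exact h2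

theorem AD.lt_up_of_lt {D : Type} [LinearOrder D] {x y : AD D} {i : ℕ}
    (h1 : ∀ j < i, x.co j = y.co j) (h2 : x.co i < y.co i) {n : ℕ} (hn : i < n) (d : DD D) :
    x < y.up n d := by
  rw [AD.lt_iff]
  refine ⟨i, fun j hj => ?_, ?_⟩
  · rw [y.co_up_of_ne (hj.trans hn).ne d]; exact h1 j hj
  · rw [y.co_up_of_ne hn.ne d]; exact h2

theorem mk_DD {D : Type} (hD : #D = ℵ₁) : #(DD D) = ℵ₁ := by
  have h1 : #(DD D) = #(Fin 2 ⊕ D) := rfl
  rw [h1, Cardinal.mk_sum, Cardinal.lift_id, Cardinal.lift_id, hD, Cardinal.mk_fin]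
  rw [Cardinal.add_eq_right (aleph0_le_aleph 1)]
  exact (Cardinal.nat_lt_aleph0 2).le.trans (aleph0_le_aleph 1)

theorem mk_AD {D : Type} (hD : #D = ℵ₁) : #(AD D) = ℵ₁ := by
  have h1 : #(AD D) = #(ℕ →₀ DD D) := rfl
  have : Nontrivial (DD D) := ⟨⟨mm D, 0, by
    intro h
    have h2 : (Sum.inl 0 : Fin 2 ⊕ D) = Sum.inl 1 := h
    exact absurd (Sum.inl_injective h2) (by decide)⟩⟩
  rw [h1, Cardinal.mk_finsupp_of_infinite, mk_DD hD, Cardinal.mk_nat]
  exact max_eq_right (aleph0_le_aleph 1)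

theorem inC_AD {D : Type} [LinearOrder D] (hD : #D = ℵ₁) : InC (AD D) := by
  obtain ⟨d0⟩ : Nonempty D := by
    rw [← Cardinal.mk_ne_zero_iff, hD]; exact (aleph_pos 1).ne'
  refine ⟨⟨?_, ?_⟩, ?_, ?_⟩
  · have hu : ℵ₀ < #(AD D) := by rw [mk_AD hD]; exact aleph0_lt_aleph_one
    have : Infinite (AD D) := Cardinal.infinite_iff.2 hu.le
    infer_instance
  · intro a b hab
    apply le_antisymm
    · rw [← mk_AD hD]; exact mk_set_le _
    · obtain ⟨i, h1, h2⟩ := AD.lt_iff.1 hab
      set n := max a.bd (i + 1) with hn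
      have hn1 : a.bd ≤ n := le_max_left _ _
      have hn2 : i < n := lt_of_lt_of_le (Nat.lt_succ_self i) (le_max_right _ _)
      rw [← hD]
      refine mk_le_of_injective (f := fun d : D => (⟨a.up n (up d), ?_, ?_⟩ : Ioo a b)) ?_
      · exact a.lt_up (by rw [a.co_bd hn1]; exact zero_lt_up d)
      · exact AD.up_lt_of_lt h1 h2 hn2 _
      · intro d d' h
        have h3 : a.up n (up d) = a.up n (up d') := congrArg Subtype.val h
        have h4 := congrArg (fun x : AD D => x.co n) h3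
        simp only [a.co_up_self] at h4
        have h5 : (Sum.inr d : Fin 2 ⊕ D) = Sum.inr d' := h4
        exact Sum.inr_injective h5
  · intro x _
    refine ⟨range fun k : ℕ => x.up (x.bd + k) (mm D), countable_range _, ?_, ?_, ?_⟩
    · rintro _ ⟨k, rfl⟩
      exact x.up_lt (by rw [x.co_bd (Nat.le_add_right _ _)]; exact mm_lt_zero)
    · rintro _ ⟨k, rfl⟩
      exact (x.up_lt (by rw [x.co_bd (Nat.le_add_right _ _)]; exact mm_lt_zero)).le
    · intro u hu
      by_contra hux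
      rw [not_le] at hux
      obtain ⟨i, h1, h2⟩ := AD.lt_iff.1 hux
      have h3 : x.up (x.bd + (i + 1)) (mm D) ≤ u := hu ⟨i + 1, rfl⟩
      have h4 : u < x.up (x.bd + (i + 1)) (mm D) := AD.lt_up_of_lt h1 h2 (by omega) _
      exact absurd h4 (not_lt.2 h3)
  · intro x _
    refine ⟨range fun k : ℕ => x.up (x.bd + k) (up d0), countable_range _, ?_, ?_, ?_⟩
    · rintro _ ⟨k, rfl⟩
      exact x.lt_up (by rw [x.co_bd (Nat.le_add_right _ _)]; exact zero_lt_up d0)
    · rintro _ ⟨k, rfl⟩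
      exact (x.lt_up (by rw [x.co_bd (Nat.le_add_right _ _)]; exact zero_lt_up d0)).le
    · intro u hu
      by_contra hux
      rw [not_le] at hux
      obtain ⟨i, h1, h2⟩ := AD.lt_iff.1 hux
      have h3 : u ≤ x.up (x.bd + (i + 1)) (up d0) := hu ⟨i + 1, rfl⟩
      have h4 : x.up (x.bd + (i + 1)) (up d0) < u := AD.up_lt_of_lt h1 h2 (by omega) _
      exact absurd h4 (not_lt.2 h3)

/-- A `D`-indexed family of disjoint intervals in the interval `(a, b)`. -/
def Fam (D : Type) [LinearOrder D] {L : Type} [LinearOrder L] (a b : L) : Prop :=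
  ∃ u v : D → L, (∀ d, a < u d ∧ u d < v d ∧ v d < b) ∧ ∀ d d', d < d' → v d < u d'

section Embed

variable {L : Type} [LinearOrder L]

/-- states: an interval inside `[a₀, b₀]` together with a point in it -/
structure St (a₀ b₀ : L) where
  a : L
  z : L
  b : L
  ha : a₀ ≤ a
  az : a < z
  zb : z < b
  hb : b ≤ b₀

variable {D : Type} [LinearOrder D] {a₀ b₀ : L}

theorem exists_step [DenselyOrdered L] (cof coi : L → ℕ → L)
    (hcof : ∀ z, a₀ < z → z < b₀ → ∀ k, cof z k < z)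
    (hcoi : ∀ z, a₀ < z → z < b₀ → ∀ k, z < coi z k)
    (hfam : ∀ a b, a₀ ≤ a → a < b → b ≤ b₀ → Fam D a b) (s : St a₀ b₀) (k : ℕ) :
    ∃ F : DD D → St a₀ b₀, (∀ x, s.a ≤ (F x).a ∧ (F x).b ≤ s.b) ∧
      (∀ x y, x < y → (F x).b < (F y).a) ∧ (F 0).z = s.z ∧ cof s.z k ≤ (F 0).a ∧
      (F 0).b ≤ coi s.z k := by
  classical
  have hz0 : a₀ < s.z := s.ha.trans_lt s.az
  have hz1 : s.z < b₀ := s.zb.trans_le s.hb
  obtain ⟨a1, h1, h1'⟩ := exists_between (max_lt s.az (hcof s.z hz0 hz1 k))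
  obtain ⟨b1, h2, h2'⟩ := exists_between (lt_min s.zb (hcoi s.z hz0 hz1 k))
  obtain ⟨b2, h3, h3'⟩ := exists_between ((le_max_left _ _).trans_lt h1)
  obtain ⟨z2, h4, h4'⟩ := exists_between h3
  obtain ⟨a2, h5, h5'⟩ := exists_between h4
  have hb1 : b1 < s.b := h2'.trans_le (min_le_left _ _)
  obtain ⟨u, v, huv, hsep⟩ := hfam b1 s.b ((hz0.trans h2).le) hb1 s.hb
  have hw : ∀ d, ∃ w, u d < w ∧ w < v d := fun d => exists_between (huv d).2.1
  choose w hw using hw
  let F : DD D → St a₀ b₀ := fun x => Sum.elim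
    (fun i : Fin 2 => if i = 0 then
      ⟨a2, z2, b2, s.ha.trans h5.le, h5', h4', (h3'.trans (h1'.trans hz1)).le⟩
      else ⟨a1, s.z, b1, s.ha.trans ((le_max_left _ _).trans h1.le), h1', h2, hb1.le.trans s.hb⟩)
    (fun d => ⟨u d, w d, v d, ((hz0.trans h2).trans (huv d).1).le, (hw d).1, (hw d).2,
      ((huv d).2.2).le.trans s.hb⟩) (ofLex x)
  have Fmm : F (mm D) = ⟨a2, z2, b2, s.ha.trans h5.le, h5', h4', (h3'.trans (h1'.trans hz1)).le⟩ := rfl
  have F0 : F 0 = ⟨a1, s.z, b1, s.ha.trans ((le_max_left _ _).trans h1.le), h1', h2,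
    hb1.le.trans s.hb⟩ := rfl
  have Fup : ∀ d, F (up d) = ⟨u d, w d, v d, ((hz0.trans h2).trans (huv d).1).le, (hw d).1,
    (hw d).2, ((huv d).2.2).le.trans s.hb⟩ := fun d => rfl
  refine ⟨F, ?_, ?_, ?_, ?_, ?_⟩
  · intro x
    rcases dd_cases x with rfl | rfl | ⟨d, rfl⟩
    · rw [Fmm]
      exact ⟨h5.le, (h3'.trans (h1'.trans s.zb)).le⟩
    · rw [F0]
      exact ⟨(le_max_left _ _).trans h1.le, hb1.le⟩
    · rw [Fup]
      exact ⟨((s.az.trans h2).trans (huv d).1).le, (huv d).2.2.le⟩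
  · intro x y hxy
    rcases dd_cases x with rfl | rfl | ⟨d, rfl⟩ <;> rcases dd_cases y with rfl | rfl | ⟨d', rfl⟩
    · exact absurd hxy (lt_irrefl _)
    · rw [Fmm, F0]; exact h3'
    · rw [Fmm, Fup]; exact h3'.trans (h1'.trans (h2.trans (huv d').1))
    · exact absurd hxy (not_lt.2 mm_lt_zero.le)
    · exact absurd hxy (lt_irrefl _)
    · rw [F0, Fup]; exact (huv d').1
    · exact absurd hxy (not_lt.2 (mm_lt_up d).le)
    · exact absurd hxy (not_lt.2 (zero_lt_up d).le)
    · rw [Fup, Fup]; exact hsep d d' (up_lt_up.1 hxy)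
  · rw [F0]
  · rw [F0]; exact (le_max_right _ _).trans h1.le
  · rw [F0]; exact h2'.le.trans (min_le_right _ _)

/-- the sequence of states along a sequence of pieces -/
def stt {a₀ b₀ : L} (F : St a₀ b₀ → ℕ → DD D → St a₀ b₀) (s₀ : St a₀ b₀) (x : ℕ → DD D) :
    ℕ → St a₀ b₀
  | 0 => s₀
  | n + 1 => F (stt F s₀ x n) n (x n)

theorem stt_congr {a₀ b₀ : L} (F : St a₀ b₀ → ℕ → DD D → St a₀ b₀) (s₀ : St a₀ b₀)
    (x y : ℕ → DD D) (n : ℕ) (h : ∀ m < n, x m = y m) : stt F s₀ x n = stt F s₀ y n := by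
  induction n with
  | zero => rfl
  | succ n ih =>
    simp only [stt]
    rw [ih fun m hm => h m (by omega), h n (by omega)]

theorem lotsEmb_AD [DenselyOrdered L] [Nonempty D] (hab : a₀ < b₀)
    (hcc : CountableCharacter L)
    (hfam : ∀ a b, a₀ ≤ a → a < b → b ≤ b₀ → Fam D a b) : LotsEmb (AD D) L := by
  classical
  -- cofinal and coinitial sequences
  have hc1 : ∀ z : L, ∃ u : ℕ → L, a₀ < z → (∀ k, u k < z) ∧ ∀ l < z, ∃ k₀, ∀ k, k₀ ≤ k → l < u k := by
    intro z
    by_cases hz : a₀ < z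
    · have hlub : IsLUB (Iio z) z := ⟨fun y hy => le_of_lt hy, fun w hw => by
        by_contra hcon
        rw [not_le] at hcon
        obtain ⟨c, h1, h2⟩ := exists_between hcon
        exact absurd h1 (not_lt.2 (hw h2))⟩
      obtain ⟨S, hS, hSz, hSl⟩ := hcc.1 z hlub
      have hne : S.Nonempty := by
        rw [nonempty_iff_ne_empty]
        rintro rfl
        exact absurd hz (not_lt.2 (hSl.2 (by intro y hy; exact absurd hy (by simp))))
      obtain ⟨q, hq⟩ := hS.exists_eq_range hne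
      refine ⟨fun k => (Finset.range (k + 1)).sup' ⟨0, by simp⟩ q, fun _ => ⟨fun k => ?_, ?_⟩⟩
      · rw [Finset.sup'_lt_iff]
        intro i _
        exact hSz (by rw [hq]; exact ⟨i, rfl⟩)
      · intro l hl
        have : ∃ y ∈ S, l < y := by
          by_contra hcon
          push Not at hcon
          exact absurd hl (not_lt.2 (hSl.2 hcon))
        obtain ⟨y, hy, hly⟩ := this
        rw [hq] at hy
        obtain ⟨i, rfl⟩ := hy
        refine ⟨i, fun k hk => hly.trans_le ?_⟩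
        exact Finset.le_sup' q (by simp; omega)
    · exact ⟨fun _ => z, fun h => absurd h hz⟩
  have hc2 : ∀ z : L, ∃ u : ℕ → L, z < b₀ → (∀ k, z < u k) ∧ ∀ l, z < l → ∃ k₀, ∀ k, k₀ ≤ k → u k < l := by
    intro z
    by_cases hz : z < b₀
    · have hglb : IsGLB (Ioi z) z := ⟨fun y hy => le_of_lt hy, fun w hw => by
        by_contra hcon
        rw [not_le] at hcon
        obtain ⟨c, h1, h2⟩ := exists_between hcon
        exact absurd h2 (not_lt.2 (hw h1))⟩
      obtain ⟨S, hS, hSz, hSl⟩ := hcc.2 z hglb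
      have hne : S.Nonempty := by
        rw [nonempty_iff_ne_empty]
        rintro rfl
        exact absurd hz (not_lt.2 (hSl.2 (by intro y hy; exact absurd hy (by simp))))
      obtain ⟨q, hq⟩ := hS.exists_eq_range hne
      refine ⟨fun k => (Finset.range (k + 1)).inf' ⟨0, by simp⟩ q, fun _ => ⟨fun k => ?_, ?_⟩⟩
      · rw [Finset.lt_inf'_iff]
        intro i _
        exact hSz (by rw [hq]; exact ⟨i, rfl⟩)
      · intro l hl
        have : ∃ y ∈ S, y < l := by
          by_contra hcon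
          push Not at hcon
          exact absurd hl (not_lt.2 (hSl.2 hcon))
        obtain ⟨y, hy, hly⟩ := this
        rw [hq] at hy
        obtain ⟨i, rfl⟩ := hy
        refine ⟨i, fun k hk => lt_of_le_of_lt ?_ hly⟩
        exact Finset.inf'_le q (by simp; omega)
    · exact ⟨fun _ => z, fun h => absurd h hz⟩
  choose cof hcof using hc1
  choose coi hcoi using hc2
  have hstep := fun (s : St a₀ b₀) (k : ℕ) => exists_step (D := D) cof coi
    (fun z h1 _ => (hcof z h1).1) (fun z _ h2 => (hcoi z h2).1) hfam s k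
  choose F hF1 hF2 hF3 hF4 hF5 using hstep
  obtain ⟨z₀, hz1, hz2⟩ := exists_between hab
  let s₀ : St a₀ b₀ := ⟨a₀, z₀, b₀, le_rfl, hz1, hz2, le_rfl⟩
  let st : AD D → ℕ → St a₀ b₀ := fun x => stt F s₀ x.co
  have hst : ∀ x n, st x (n + 1) = F (st x n) n (x.co n) := fun x n => rfl
  have hnest : ∀ x n m, n ≤ m → (st x n).a ≤ (st x m).a ∧ (st x m).b ≤ (st x n).b := by
    intro x n m hnm
    induction m, hnm using Nat.le_induction with
    | base => exact ⟨le_rfl, le_rfl⟩
    | succ m _ ih =>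
      rw [hst]
      have := hF1 (st x m) m (x.co m)
      exact ⟨ih.1.trans this.1, this.2.trans ih.2⟩
  let G : AD D → L := fun x => (st x x.bd).z
  have hz : ∀ x n, x.bd ≤ n → (st x n).z = G x := by
    intro x n hn
    induction n, hn using Nat.le_induction with
    | base => rfl
    | succ n hn ih => rw [hst, x.co_bd hn, hF3]; exact ih
  have hmem : ∀ x n, (st x n).a < G x ∧ G x < (st x n).b := by
    intro x n
    have h1 := hz x (max n x.bd) (le_max_right _ _)
    have h2 := hnest x n (max n x.bd) (le_max_left _ _)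
    rw [← h1]
    exact ⟨h2.1.trans_lt (St.az _), (St.zb _).trans_le h2.2⟩
  have hmono : StrictMono G := by
    intro x y hxy
    obtain ⟨i, h1, h2⟩ := AD.lt_iff.1 hxy
    have h3 : st x i = st y i := stt_congr F s₀ _ _ i h1
    have h4 := (hmem x (i + 1)).2
    have h5 := (hmem y (i + 1)).1
    rw [hst] at h4 h5
    rw [← h3] at h5
    exact h4.trans ((hF2 _ _ _ _ h2).trans h5)
  have hin : ∀ x, a₀ < G x ∧ G x < b₀ := fun x => hmem x 0
  refine ⟨G, hmono, continuous_of_approx G hmono ?_ ?_⟩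
  · intro x l hl
    obtain ⟨k₀, hk₀⟩ := (hcof (G x) (hin x).1).2 l hl
    set n := max k₀ x.bd with hn
    have hn1 : x.bd ≤ n := le_max_right _ _
    refine ⟨x.up (n + 1) (mm D), x.up_lt (by rw [x.co_bd (by omega)]; exact mm_lt_zero), ?_⟩
    have h1 : st (x.up (n + 1) (mm D)) (n + 1) = st x (n + 1) :=
      stt_congr F s₀ _ _ (n + 1) fun m hm => x.co_up_of_ne hm.ne _
    have h2 := (hmem (x.up (n + 1) (mm D)) (n + 1)).1
    rw [h1, hst, x.co_bd hn1] at h2
    have h3 := hF4 (st x n) n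
    rw [hz x n hn1] at h3
    exact (hk₀ n (le_max_left _ _)).trans (h3.trans_lt h2)
  · intro x r hr
    obtain ⟨d0⟩ := ‹Nonempty D›
    obtain ⟨k₀, hk₀⟩ := (hcoi (G x) (hin x).2).2 r hr
    set n := max k₀ x.bd with hn
    have hn1 : x.bd ≤ n := le_max_right _ _
    refine ⟨x.up (n + 1) (up d0), x.lt_up (by rw [x.co_bd (by omega)]; exact zero_lt_up d0), ?_⟩
    have h1 : st (x.up (n + 1) (up d0)) (n + 1) = st x (n + 1) :=
      stt_congr F s₀ _ _ (n + 1) fun m hm => x.co_up_of_ne hm.ne _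
    have h2 := (hmem (x.up (n + 1) (up d0)) (n + 1)).2
    rw [h1, hst, x.co_bd hn1] at h2
    have h3 := hF5 (st x n) n
    rw [hz x n hn1] at h3
    exact (h2.trans_le h3).trans (hk₀ n (le_max_left _ _))

end Embed

end Pool.Agent.W635.LOTS
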