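import Pool.Agent.W635.LotsDbl

/-! Countryman lines, the nice set of reals, and the separable case. -/

namespace Pool.Agent.W635.LOTS

open Set Cardinal

theorem countryman_not_real {C : Type} [LinearOrder C] (h : Countryman C) :
    ¬ Nonempty (C ↪o ℝ) := by
  rintro ⟨f⟩
  obtain ⟨hu, K, hK, hch⟩ := h
  let B : ℕ → Set C := fun n => {x | ∃ y y', y < y' ∧ (x, y) ∈ K n ∧ (x, y') ∈ K n}
  have hB : ∀ n, (B n).Countable := by
    intro n
    have : ∀ x : C, ∃ r : ℚ, x ∈ B n →
        ∃ y y', (x, y) ∈ K n ∧ (x, y') ∈ K n ∧ f y < r ∧ (r : ℝ) < f y' := by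
      intro x
      by_cases hx : x ∈ B n
      · obtain ⟨y, y', hy, h1, h2⟩ := hx
        obtain ⟨r, hr1, hr2⟩ := exists_rat_btwn (f.lt_iff_lt.2 hy)
        exact ⟨r, fun _ => ⟨y, y', h1, h2, hr1, hr2⟩⟩
      · exact ⟨0, fun h => absurd h hx⟩
    choose r hr using this
    have key : ∀ x ∈ B n, ∀ x' ∈ B n, x < x' → r x < r x' := by
      intro x hx x' hx' hlt
      obtain ⟨y1, y1', h1, h1', a1, a2⟩ := hr x hx
      obtain ⟨y2, y2', h2, h2', b1, b2⟩ := hr x' hx'
      have hle : y1' ≤ y2 := by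
        have hne : (x, y1') ≠ (x', y2) := fun h => hlt.ne (congrArg Prod.fst h)
        rcases hch n h1' h2 hne with h | h
        · exact h.2
        · exact absurd h.1 (not_le.2 hlt)
      have : (r x : ℝ) < r x' := lt_trans a2 (lt_of_le_of_lt (f.le_iff_le.2 hle) b1)
      exact_mod_cast this
    have hinj : InjOn r (B n) := by
      intro x hx x' hx' heq
      by_contra hne
      rcases lt_or_gt_of_ne hne with h | h
      · exact (key x hx x' hx' h).ne heq
      · exact (key x' hx' x hx h).ne heq.symm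
    exact countable_of_injective_of_countable_image hinj (Set.to_countable _)
  have hBu : (⋃ n, B n).Countable := countable_iUnion hB
  obtain ⟨x, hx⟩ : ∃ x, x ∉ ⋃ n, B n := by
    by_contra hcon
    push Not at hcon
    have : (Set.univ : Set C) ⊆ ⋃ n, B n := fun x _ => hcon x
    exact not_countable (countable_univ_iff.1 (hBu.mono this))
  have : ∀ y : C, ∃ n, (x, y) ∈ K n := by
    intro y
    have : (x, y) ∈ ⋃ n, K n := by rw [hK]; trivial
    simpa using this
  choose n hn using this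
  have hinj : Function.Injective n := by
    intro y y' heq
    by_contra hne
    rcases lt_or_gt_of_ne hne with h | h
    · exact hx (mem_iUnion.2 ⟨n y, y, y', h, hn y, by rw [heq]; exact hn y'⟩)
    · exact hx (mem_iUnion.2 ⟨n y, y', y, h, by rw [heq]; exact hn y', hn y⟩)
  exact not_countable hinj.countable

theorem exists_fibre {n : OmegaOne → ℕ} : ∃ m, ¬ {a | n a = m}.Countable := by
  by_contra hcon
  push Not at hcon
  have h1 : (Set.univ : Set OmegaOne) = ⋃ m, {a | n a = m} := by ext; simp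
  have h2 : (Set.univ : Set OmegaOne).Countable := by
    rw [h1]; exact countable_iUnion hcon
  have hu := uncountable_omegaOne
  exact not_countable (countable_univ_iff.1 h2)

theorem dbl_countryman {C : Type} [LinearOrder C] (h : Countryman C) : Dbl C := by
  obtain ⟨x, y, hxy, hsep⟩ := exists_seq (countryman_not_real h)
  obtain ⟨hu, K, hK, hch⟩ := h
  have : ∀ a : OmegaOne, ∃ n, (x a, y a) ∈ K n := by
    intro a
    have : (x a, y a) ∈ ⋃ n, K n := by rw [hK]; trivial
    simpa using this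
  choose n hn using this
  obtain ⟨m, hm⟩ := exists_fibre (n := n)
  have hinj : Function.Injective fun a => (x a, y a) := by
    intro a b hab
    have hab' : x a = x b := congrArg Prod.fst hab
    by_contra hne
    rcases lt_or_gt_of_ne hne with h | h
    · exact (hsep b a h).1 ⟨hab'.ge, hab'.le.trans (hxy b).le⟩
    · exact (hsep a b h).1 ⟨hab'.le, hab'.ge.trans (hxy a).le⟩
  have key : ∀ a b, b < a → n a = m → n b = m → y a < x b ∨ y b < x a := by
    intro a b hba ha hb
    have hne : (x a, y a) ≠ (x b, y b) := fun h => hba.ne' (hinj h)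
    have hs := hsep a b hba
    rcases hch m (ha ▸ hn a) (hb ▸ hn b) hne with h | h
    · left
      by_contra hcon
      exact hs.1 ⟨h.1, not_lt.1 hcon⟩
    · right
      by_contra hcon
      exact hs.2 ⟨not_lt.1 hcon, h.2⟩
  refine ⟨(fun a => (x a, y a)) '' {a | n a = m}, ?_, ?_, ?_⟩
  · intro hc
    exact hm (countable_of_injective_of_countable_image hinj.injOn hc)
  · rintro _ ⟨a, ha, rfl⟩
    exact hxy a
  · rintro _ ⟨a, ha, rfl⟩ _ ⟨b, hb, rfl⟩ hne
    have hab : a ≠ b := fun h => hne (by rw [h])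
    rcases lt_or_gt_of_ne hab with h | h
    · exact (key b a h hb ha).symm
    · exact key a b h ha hb

/-- The nice set of reals `E`, with a set of translations `T` giving pairwise disjoint
copies, and a countable dense subset `Q`. -/
structure Nice (E T Q : Set ℝ) : Prop where
  cardE : #E = ℵ₁
  cardT : #T = ℵ₁
  disj : ∀ t ∈ T, ∀ t' ∈ T, t ≠ t' → ∀ e ∈ E, ∀ e' ∈ E, e + t ≠ e' + t'
  Qc : Q.Countable
  QE : Q ⊆ E
  Qd : ∀ a b : ℝ, a < b → ∃ q ∈ Q, a < q ∧ q < b
  big : ∀ a b : ℝ, a < b → ¬ (E ∩ Ioo a b).Countable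

theorem exists_nice : ∃ E T Q : Set ℝ, Nice E T Q := by
  classical
  let b := Module.Basis.ofVectorSpace ℚ ℝ
  have hb : #(Module.Basis.ofVectorSpaceIndex ℚ ℝ) = continuum := by
    rw [← Real.rank_rat_real]
    exact b.mk_eq_rank''
  have hκ : #OmegaOne = ℵ₁ := by rw [Cardinal.mk_toType, Cardinal.card_ord]
  have hle : #(OmegaOne ⊕ OmegaOne) ≤ #(Module.Basis.ofVectorSpaceIndex ℚ ℝ) := by
    rw [hb, Cardinal.mk_sum, Cardinal.lift_id, hκ, Cardinal.add_eq_self (Cardinal.aleph0_le_aleph 1)]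
    exact Cardinal.aleph_one_le_continuum
  obtain ⟨e⟩ := hle
  let h : OmegaOne ⊕ OmegaOne → ℝ := fun s => b (e s)
  have hli : LinearIndependent ℚ h := b.linearIndependent.comp e e.injective
  let E : Submodule ℚ ℝ := Submodule.span ℚ (range fun k => h (Sum.inl k))
  have hliE : LinearIndependent ℚ fun k => h (Sum.inl k) := hli.comp _ Sum.inl_injective
  have : Infinite OmegaOne := by
    rw [Cardinal.infinite_iff, hκ]; exact Cardinal.aleph0_le_aleph 1
  have hcE : #E = ℵ₁ := by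
    rw [← Cardinal.mk_congr hliE.linearCombinationEquiv.toEquiv, Cardinal.mk_finsupp_of_infinite, hκ,
      Cardinal.mk_eq_aleph0 ℚ]
    exact max_eq_left (Cardinal.aleph0_le_aleph 1)
  obtain ⟨k0⟩ : Nonempty OmegaOne := inferInstance
  have hne : h (Sum.inl k0) ≠ 0 := hli.ne_zero _
  obtain ⟨e0, he0, hpos⟩ : ∃ e0 ∈ E, (0 : ℝ) < e0 := by
    have hm : h (Sum.inl k0) ∈ E := Submodule.subset_span ⟨k0, rfl⟩
    rcases lt_or_gt_of_ne hne with hlt | hlt
    · exact ⟨-h (Sum.inl k0), E.neg_mem hm, by linarith⟩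
    · exact ⟨_, hm, hlt⟩
  have hQd : ∀ a b : ℝ, a < b → ∃ q : ℚ, a < q * e0 ∧ q * e0 < b := by
    intro a b hab
    obtain ⟨q, h1, h2⟩ := exists_rat_btwn (div_lt_div_of_pos_right hab hpos)
    exact ⟨q, (div_lt_iff₀ hpos).1 h1, (lt_div_iff₀ hpos).1 h2⟩
  have hqE : ∀ q : ℚ, (q : ℝ) * e0 ∈ E := fun q => by
    have := E.smul_mem q he0
    rwa [Rat.smul_def] at this
  refine ⟨(E : Set ℝ), range fun k => h (Sum.inr k), range fun q : ℚ => (q : ℝ) * e0, ?_⟩
  refine ⟨hcE, ?_, ?_, countable_range _, ?_, ?_, ?_⟩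
  · have hinj : Function.Injective fun k => h (Sum.inr k) :=
      hli.injective.comp Sum.inr_injective
    rw [Cardinal.mk_range_eq _ hinj, hκ]
  · rintro _ ⟨k, rfl⟩ _ ⟨k', rfl⟩ hkk e1 he1 e2 he2 heq
    have hk : k ≠ k' := fun h => hkk (by rw [h])
    have hnot := hli.notMem_span_image (s := range Sum.inl ∪ {Sum.inr k'}) (x := Sum.inr k) (by
      rintro (⟨j, hj⟩ | hj)
      · exact absurd hj (by simp)
      · exact hk (Sum.inr_injective hj))
    apply hnot
    have h1 : e2 - e1 ∈ Submodule.span ℚ (h '' (range Sum.inl ∪ {Sum.inr k'})) := by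
      have : e2 - e1 ∈ E := E.sub_mem he2 he1
      refine Submodule.span_mono ?_ this
      rintro _ ⟨j, rfl⟩
      exact ⟨Sum.inl j, Or.inl ⟨j, rfl⟩, rfl⟩
    have h2 : h (Sum.inr k') ∈ Submodule.span ℚ (h '' (range Sum.inl ∪ {Sum.inr k'})) :=
      Submodule.subset_span ⟨Sum.inr k', Or.inr rfl, rfl⟩
    have h3 : h (Sum.inr k) = (e2 - e1) + h (Sum.inr k') := by
      have : e1 + h (Sum.inr k) = e2 + h (Sum.inr k') := heq
      linarith
    rw [h3]
    exact Submodule.add_mem _ h1 h2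
  · rintro _ ⟨q, rfl⟩
    exact hqE q
  · intro a b hab
    obtain ⟨q, h1, h2⟩ := hQd a b hab
    exact ⟨_, ⟨q, rfl⟩, h1, h2⟩
  · intro a b hab hc
    have hcov : (E : Set ℝ) ⊆ ⋃ q : ℚ, (fun x => x + (q : ℝ) * e0) '' ((E : Set ℝ) ∩ Ioo a b) := by
      intro x hx
      obtain ⟨q, h1, h2⟩ := hQd (x - b) (x - a) (by linarith)
      refine mem_iUnion.2 ⟨q, x - q * e0, ⟨E.sub_mem hx (hqE q), by linarith, by linarith⟩, by ring⟩
    have hcc : (E : Set ℝ).Countable :=
      (countable_iUnion fun q => hc.image _).mono hcov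
    have h1 : #(E : Set ℝ) ≤ ℵ₀ := Cardinal.le_aleph0_iff_set_countable.2 hcc
    have h2 : #(E : Set ℝ) = ℵ₁ := hcE
    rw [h2] at h1
    exact absurd h1 (not_le.2 Cardinal.aleph0_lt_aleph_one)

end Pool.Agent.W635.LOTS
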