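import Pool.Agent.W635.LotsReal

/-! The separable case: the nice set of reals LOTS-embeds. -/

namespace Pool.Agent.W635.LOTS

open Set Cardinal

/-- Continuity of a strictly increasing map from approximation on both sides. -/
theorem continuous_of_approx {A B : Type} [LinearOrder A] [LinearOrder B] (f : A → B)
    (hf : StrictMono f)
    (hl : ∀ x : A, ∀ l, l < f x → ∃ x' < x, l < f x')
    (hr : ∀ x : A, ∀ r, f x < r → ∃ x', x < x' ∧ f x' < r) :
    @Continuous A B (Preorder.topology A) (Preorder.topology B) f := by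
  letI : TopologicalSpace A := Preorder.topology A
  letI : TopologicalSpace B := Preorder.topology B
  haveI : OrderTopology A := ⟨rfl⟩
  haveI : OrderTopology B := ⟨rfl⟩
  rw [continuous_iff_continuousAt]
  intro x
  rw [ContinuousAt, tendsto_order]
  constructor
  · intro l hlx
    obtain ⟨x', hx', hlx'⟩ := hl x l hlx
    filter_upwards [lt_mem_nhds hx'] with y hy
    exact hlx'.trans (hf hy)
  · intro r hrx
    obtain ⟨x', hx', hrx'⟩ := hr x r hrx
    filter_upwards [gt_mem_nhds hx'] with y hy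
    exact (hf hy).trans hrx'

theorem card_of_subset_uncountable {α : Type} {s : Set α} {t : Set α} (hst : s ⊆ t)
    (hs : ¬ s.Countable) (ht : #t = ℵ₁) : #s = ℵ₁ := by
  apply le_antisymm
  · rw [← ht]; exact mk_le_mk_of_subset hst
  · rw [aleph_one_le_iff]
    exact (not_iff_not.2 le_aleph0_iff_set_countable).2 hs |> fun h => not_le.1 h

theorem inC_nice {E T Q : Set ℝ} (hE : Nice E T Q) : InC E := by
  have hcount : ∀ a b : ℝ, a < b → #(Ioo a b ∩ E : Set ℝ) = ℵ₁ := by
    intro a b hab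
    refine card_of_subset_uncountable (inter_subset_right) ?_ hE.cardE
    rw [inter_comm]
    exact hE.big a b hab
  refine ⟨⟨?_, ?_⟩, ?_, ?_⟩
  · obtain ⟨q, hq, h1, h2⟩ := hE.Qd 0 1 zero_lt_one
    obtain ⟨q', hq', h1', h2'⟩ := hE.Qd 1 2 one_lt_two
    exact ⟨⟨q, hE.QE hq⟩, ⟨q', hE.QE hq'⟩, fun h => by
      have := congrArg Subtype.val h
      simp only at this
      linarith⟩
  · intro a b hab
    have := hcount a b hab
    rw [← this]
    refine Cardinal.mk_congr ⟨fun x => ⟨x.1.1, x.2, x.1.2⟩, fun x => ⟨⟨x.1, x.2.2⟩, x.2.1⟩, fun x => rfl,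
      fun x => rfl⟩
  · intro x _
    refine ⟨{e : E | e.1 ∈ Q ∧ e < x}, ?_, fun e he => he.2, fun e he => he.2.le, ?_⟩
    · have : ((fun e : E => e.1) '' {e : E | e.1 ∈ Q ∧ e < x}).Countable :=
        hE.Qc.mono (by rintro _ ⟨e, he, rfl⟩; exact he.1)
      exact countable_of_injective_of_countable_image Subtype.val_injective.injOn this
    · intro u hu
      by_contra hux
      rw [not_le] at hux
      obtain ⟨q, hq, h1, h2⟩ := hE.Qd u x hux
      have := hu (show (⟨q, hE.QE hq⟩ : E) ∈ _ from ⟨hq, h2⟩)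
      exact absurd h1 (not_lt.2 this)
  · intro x _
    refine ⟨{e : E | e.1 ∈ Q ∧ x < e}, ?_, fun e he => he.2, fun e he => he.2.le, ?_⟩
    · have : ((fun e : E => e.1) '' {e : E | e.1 ∈ Q ∧ x < e}).Countable :=
        hE.Qc.mono (by rintro _ ⟨e, he, rfl⟩; exact he.1)
      exact countable_of_injective_of_countable_image Subtype.val_injective.injOn this
    · intro u hu
      by_contra hux
      rw [not_le] at hux
      obtain ⟨q, hq, h1, h2⟩ := hE.Qd x u hux
      have := hu (show (⟨q, hE.QE hq⟩ : E) ∈ _ from ⟨hq, h1⟩)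
      exact absurd h2 (not_lt.2 this)

/-- The union of the translates. -/
def Ys (E T : Set ℝ) : Set ℝ := {r | ∃ e ∈ E, ∃ t ∈ T, r = e + t}

theorem card_Ys {E T Q : Set ℝ} (hE : Nice E T Q) : #(Ys E T) = ℵ₁ := by
  apply le_antisymm
  · have h1 : Ys E T = (fun p : ℝ × ℝ => p.1 + p.2) '' (E ×ˢ T) := by
      ext r
      constructor
      · rintro ⟨e, he, t, ht, rfl⟩
        exact ⟨(e, t), ⟨he, ht⟩, rfl⟩
      · rintro ⟨⟨e, t⟩, ⟨he, ht⟩, rfl⟩
        exact ⟨e, he, t, ht, rfl⟩
    rw [h1]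
    refine mk_image_le.trans ?_
    rw [mk_setProd, hE.cardE, hE.cardT, Cardinal.mul_eq_self (aleph0_le_aleph 1)]
  · obtain ⟨t, ht⟩ : T.Nonempty := by
      rw [Set.nonempty_iff_ne_empty]
      rintro rfl
      have := hE.cardT
      rw [mk_eq_zero] at this
      exact (aleph_pos 1).ne this
    rw [← hE.cardE]
    refine mk_le_of_injective (f := fun e : E => (⟨e.1 + t, e.1, e.2, t, ht, rfl⟩ : Ys E T)) ?_
    intro e e' h
    have := congrArg Subtype.val h
    exact Subtype.ext (by simpa using this)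

/-- Left and right gap points are countable. -/
theorem countable_gaps {Y : Type} [LinearOrder Y] (g : Y → ℝ) :
    {y : Y | ∃ p < g y, ∀ y' < y, g y' ≤ p}.Countable ∧
      {y : Y | ∃ p, g y < p ∧ ∀ y', y < y' → p ≤ g y'}.Countable := by
  constructor
  · have : ∀ y : Y, ∃ r : ℚ, y ∈ {y : Y | ∃ p < g y, ∀ y' < y, g y' ≤ p} →
        (r : ℝ) < g y ∧ ∀ y' < y, g y' < r := by
      intro y
      by_cases hy : y ∈ {y : Y | ∃ p < g y, ∀ y' < y, g y' ≤ p}
      · obtain ⟨p, hp, h⟩ := hy
        obtain ⟨r, h1, h2⟩ := exists_rat_btwn hp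
        exact ⟨r, fun _ => ⟨h2, fun y' hy' => (h y' hy').trans_lt h1⟩⟩
      · exact ⟨0, fun h => absurd h hy⟩
    choose r hr using this
    have hinj : InjOn r {y : Y | ∃ p < g y, ∀ y' < y, g y' ≤ p} := by
      intro y hy y' hy' heq
      by_contra hne
      rcases lt_or_gt_of_ne hne with h | h
      · have h1 := (hr y' hy').2 y h
        have h2 := (hr y hy).1
        rw [heq] at h2
        linarith
      · have h1 := (hr y hy).2 y' h
        have h2 := (hr y' hy').1
        rw [heq] at h1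
        linarith
    exact countable_of_injective_of_countable_image hinj (Set.to_countable _)
  · have : ∀ y : Y, ∃ r : ℚ, y ∈ {y : Y | ∃ p, g y < p ∧ ∀ y', y < y' → p ≤ g y'} →
        g y < r ∧ ∀ y', y < y' → (r : ℝ) < g y' := by
      intro y
      by_cases hy : y ∈ {y : Y | ∃ p, g y < p ∧ ∀ y', y < y' → p ≤ g y'}
      · obtain ⟨p, hp, h⟩ := hy
        obtain ⟨r, h1, h2⟩ := exists_rat_btwn hp
        exact ⟨r, fun _ => ⟨h1, fun y' hy' => h2.trans_le (h y' hy')⟩⟩
      · exact ⟨0, fun h => absurd h hy⟩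
    choose r hr using this
    have hinj : InjOn r {y : Y | ∃ p, g y < p ∧ ∀ y', y < y' → p ≤ g y'} := by
      intro y hy y' hy' heq
      by_contra hne
      rcases lt_or_gt_of_ne hne with h | h
      · have h1 := (hr y hy).2 y' h
        have h2 := (hr y' hy').1
        rw [heq] at h1
        linarith
      · have h1 := (hr y' hy').2 y h
        have h2 := (hr y hy).1
        rw [heq] at h2
        linarith
    exact countable_of_injective_of_countable_image hinj (Set.to_countable _)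

theorem lotsEmb_of_real {E T Q : Set ℝ} (hE : Nice E T Q) {J : Type} [LinearOrder J]
    (f : J ↪o ℝ) (φ : Ys E T ↪o J) : LotsEmb E J := by
  let g : Ys E T → ℝ := fun y => f (φ y)
  obtain ⟨hZ1, hZ2⟩ := countable_gaps g
  set Z1 := {y : Ys E T | ∃ p < g y, ∀ y' < y, g y' ≤ p} with hZ1d
  set Z2 := {y : Ys E T | ∃ p, g y < p ∧ ∀ y', y < y' → p ≤ g y'} with hZ2d
  -- a translate without gap points
  obtain ⟨t, ht, htZ⟩ : ∃ t ∈ T, ∀ e (he : e ∈ E), ∀ y : Ys E T, y.1 = e + t →
      y ∉ Z1 ∧ y ∉ Z2 := by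
    by_contra hcon
    push Not at hcon
    have : ∀ t : T, ∃ y : Ys E T, y ∈ Z1 ∪ Z2 ∧ ∃ e ∈ E, y.1 = e + t.1 := by
      rintro ⟨t, ht⟩
      obtain ⟨e, he, y, hy, h⟩ := hcon t ht
      refine ⟨y, ?_, e, he, hy⟩
      by_cases h1 : y ∈ Z1
      · exact Or.inl h1
      · exact Or.inr (h h1)
    choose y hy hy' using this
    have hinj : Function.Injective y := by
      intro t t' heq
      obtain ⟨e, he, h1⟩ := hy' t
      obtain ⟨e', he', h2⟩ := hy' t'
      by_contra hne
      exact hE.disj t.1 t.2 t'.1 t'.2 (fun h => hne (Subtype.ext h)) e he e' he'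
        (by rw [← h1, ← h2, heq])
    have hc : (Set.univ : Set T).Countable := by
      refine countable_of_injective_of_countable_image hinj.injOn ((hZ1.union hZ2).mono ?_)
      rintro _ ⟨t, _, rfl⟩
      exact hy t
    have h1 : #T ≤ ℵ₀ := by
      rw [le_aleph0_iff_set_countable]
      rw [countable_univ_iff] at hc
      exact hc
    rw [hE.cardT] at h1
    exact absurd h1 (not_le.2 aleph0_lt_aleph_one)
  let c : E → Ys E T := fun e => ⟨e.1 + t, e.1, e.2, t, ht, rfl⟩
  have hc : StrictMono c := fun e e' h => by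
    have : e.1 < e'.1 := h
    exact Subtype.mk_lt_mk.2 (by linarith)
  refine ⟨fun e => φ (c e), fun e e' h => φ.lt_iff_lt.2 (hc h), ?_⟩
  apply continuous_of_approx
  · exact fun e e' h => φ.lt_iff_lt.2 (hc h)
  · intro e l hl
    have h1 := (htZ e.1 e.2 (c e) rfl).1
    rw [hZ1d] at h1
    simp only [mem_setOf_eq, not_exists, not_and, not_forall, not_le] at h1
    obtain ⟨y', hy', hy''⟩ := h1 (f l) (f.lt_iff_lt.2 hl)
    obtain ⟨q, hq, h2, h3⟩ := hE.Qd (y'.1 - t) e.1 (by
      have : y'.1 < e.1 + t := hy'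
      linarith)
    refine ⟨⟨q, hE.QE hq⟩, h3, ?_⟩
    have h4 : y' < c ⟨q, hE.QE hq⟩ := by
      show y'.1 < q + t
      linarith
    exact (f.lt_iff_lt.1 hy'').trans (φ.lt_iff_lt.2 h4)
  · intro e l hl
    have h1 := (htZ e.1 e.2 (c e) rfl).2
    rw [hZ2d] at h1
    simp only [mem_setOf_eq, not_exists, not_and, not_forall, not_le] at h1
    obtain ⟨y', hy', hy''⟩ := h1 (f l) (f.lt_iff_lt.2 hl)
    obtain ⟨q, hq, h2, h3⟩ := hE.Qd e.1 (y'.1 - t) (by
      have : e.1 + t < y'.1 := hy'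
      linarith)
    refine ⟨⟨q, hE.QE hq⟩, h2, ?_⟩
    have h4 : c ⟨q, hE.QE hq⟩ < y' := by
      show q + t < y'.1
      linarith
    exact (φ.lt_iff_lt.2 h4).trans (f.lt_iff_lt.1 hy'')

end Pool.Agent.W635.LOTS
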