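import Pool.Agent.W635.SFTower

/-!
Enumerations under the continuum hypothesis, the tower and the main property.
-/

set_option autoImplicit false

namespace Pool.Agent.W635.SF

open Set Filter

theorem mk_open_le : Cardinal.mk {s : Set K // IsOpen s} ≤ Cardinal.continuum := by
  let Bs := TopologicalSpace.countableBasis K
  let φ : {s : Set K // IsOpen s} → Set Bs := fun s => {c | (c : Set K) ⊆ s.1}
  have hφ : Function.Injective φ := by
    have key : ∀ s t : {s : Set K // IsOpen s}, φ s = φ t → s.1 ⊆ t.1 := by
      intro s t hst x hx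
      obtain ⟨c, hc, hxc, hcs⟩ :=
        (TopologicalSpace.isBasis_countableBasis K).exists_subset_of_mem_open hx s.2
      have h1 : (⟨c, hc⟩ : Bs) ∈ φ s := hcs
      rw [hst] at h1
      exact h1 hxc
    intro s t hst
    exact Subtype.ext (Subset.antisymm (key s t hst) (key t s hst.symm))
  have h1 := Cardinal.mk_le_of_injective hφ
  have h2 : Cardinal.mk (Set Bs) ≤ Cardinal.continuum := by
    rw [Cardinal.mk_set, ← Cardinal.two_power_aleph0]
    apply Cardinal.power_le_power_left two_ne_zero
    exact Cardinal.le_aleph0_iff_set_countable.2 (TopologicalSpace.countable_countableBasis K)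
  exact h1.trans h2

theorem mk_task_le : Cardinal.mk ((ℕ → ℕ) × (ℕ → ℕ → {s : Set K // IsOpen s})) ≤
    Cardinal.continuum := by
  rw [Cardinal.mk_prod, Cardinal.lift_id, Cardinal.lift_id]
  have h1 : Cardinal.mk (ℕ → ℕ → {s : Set K // IsOpen s}) ≤ Cardinal.continuum := by
    have h2 : Cardinal.mk (ℕ → {s : Set K // IsOpen s}) ≤ Cardinal.continuum := by
      rw [← Cardinal.power_def, Cardinal.mk_nat]
      calc Cardinal.mk {s : Set K // IsOpen s} ^ Cardinal.aleph0
          ≤ Cardinal.continuum ^ Cardinal.aleph0 := Cardinal.power_le_power_right mk_open_le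
        _ = Cardinal.continuum := Cardinal.continuum_power_aleph0
    rw [← Cardinal.power_def, Cardinal.mk_nat]
    calc Cardinal.mk (ℕ → {s : Set K // IsOpen s}) ^ Cardinal.aleph0
        ≤ Cardinal.continuum ^ Cardinal.aleph0 := Cardinal.power_le_power_right h2
      _ = Cardinal.continuum := Cardinal.continuum_power_aleph0
  have h3 : Cardinal.mk (ℕ → ℕ) ≤ Cardinal.continuum := by simp
  calc Cardinal.mk (ℕ → ℕ) * Cardinal.mk (ℕ → ℕ → {s : Set K // IsOpen s})
      ≤ Cardinal.continuum * Cardinal.continuum := mul_le_mul' h3 h1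
    _ = Cardinal.continuum := Cardinal.continuum_mul_self

/-- Under the continuum hypothesis there is a well-order enumerating all tasks. -/
theorem exists_enumeration (hCH : Cardinal.aleph 1 = Cardinal.continuum.{0}) :
    ∃ (I : Type) (_ : LinearOrder I) (_ : WellFoundedLT I), (∀ i : I, (Iio i).Countable) ∧
      ∃ (f : I → ℕ → ℕ) (W : I → ℕ → ℕ → Set K), (∀ a N k, IsOpen (W a N k)) ∧
        (∀ a N, Monotone (W a N)) ∧ (∀ g : ℕ → ℕ, ∃ a, f a = g) ∧
        ∀ w : ℕ → ℕ → Set K, (∀ N k, IsOpen (w N k)) → (∀ N, Monotone (w N)) → ∃ a, W a = w := by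
  classical
  let I : Type := (Cardinal.aleph 1).ord.ToType
  refine ⟨I, inferInstance, inferInstance, ?_, ?_⟩
  · intro i
    rw [← Cardinal.le_aleph0_iff_set_countable, ← Cardinal.lt_aleph_one_iff]
    exact Cardinal.mk_Iio_toType_ord_lt i
  · let T : Type := (ℕ → ℕ) × (ℕ → ℕ → {s : Set K // IsOpen s})
    have hT : Cardinal.mk T ≤ Cardinal.mk I := by
      have hI : Cardinal.mk I = Cardinal.continuum := by
        rw [← hCH]
        exact Cardinal.mk_ord_toType _
      rw [hI]
      exact mk_task_le
    obtain ⟨g⟩ := (Cardinal.le_def T I).1 hT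
    have : Nonempty T := ⟨(0, fun _ _ => ⟨univ, isOpen_univ⟩)⟩
    have hsurj : Function.Surjective (Function.invFun g) := Function.invFun_surjective g.injective
    refine ⟨fun i => (Function.invFun g i).1,
      fun i n m => ⋃ l ∈ {l | l ≤ m}, ((Function.invFun g i).2 n l).1, ?_, ?_, ?_, ?_⟩
    · intro a N k
      exact isOpen_biUnion fun l _ => ((Function.invFun g a).2 N l).2
    · intro a N k k' hkk x hx
      simp only [mem_iUnion, mem_ofPred_eq] at hx ⊢
      obtain ⟨l, hl, hx⟩ := hx
      exact ⟨l, hl.trans hkk, hx⟩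
    · intro h
      obtain ⟨i, hi⟩ := hsurj (h, fun n m => ⟨univ, isOpen_univ⟩)
      exact ⟨i, by beta_reduce; rw [hi]⟩
    · intro w hw hwm
      obtain ⟨i, hi⟩ := hsurj (0, fun n m => ⟨w n m, hw n m⟩)
      refine ⟨i, ?_⟩
      funext n m
      simp only [hi]
      ext x
      simp only [mem_iUnion, mem_ofPred_eq]
      constructor
      · rintro ⟨l, hl, hx⟩
        exact hwm n hl hx
      · intro hx
        exact ⟨m, le_rfl, hx⟩

section

variable {I : Type} [LinearOrder I] [WellFoundedLT I]

theorem exists_tower (hc : ∀ i : I, (Iio i).Countable) (f : I → ℕ → ℕ)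
    (W : I → ℕ → ℕ → Set K) (hWo : ∀ a N k, IsOpen (W a N k)) (hWm : ∀ a N, Monotone (W a N)) :
    ∃ z : I → (K × K) × (ℕ → ℕ), ∀ a, StepR W f a (fun b _ => z b) (z a) := by
  classical
  have : ∀ a : I, Countable (Iio a) := fun a => (hc a).to_subtype
  let good : I → (ℕ → ℕ) → Prop := fun b g => (∀ N q, ∃ k, fin q ∈ W b N k) →
      ∀ s : Stem, ∃ L, ∀ N, L ≤ N → ∀ f : ℕ → ℕ, ∃ t, Ext f s t ∧
      ∀ y₁ y₂, Agree t.1 t.2.1 y₁ → Agree t.1 t.2.2 y₂ → y₁ ∈ W b N (g N) ∧ y₂ ∈ W b N (g N)
  obtain ⟨z, hz⟩ := exists_rec (I := I) (A := (K × K) × (ℕ → ℕ))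
    (fun a prev x => (∀ b (hb : b < a), good b (prev b hb).2) → StepR W f a prev x)
    (by
      intro a prev
      by_cases h : ∀ b (hb : b < a), good b (prev b hb).2
      · obtain ⟨x, hx⟩ := exists_step W hWo hWm f a prev h
        exact ⟨x, fun _ => hx⟩
      · exact ⟨((fun _ => false, fun _ => false), 0), fun h' => absurd h' h⟩)
  refine ⟨z, fun a => ?_⟩
  have hgood : ∀ a, good a (z a).2 := by
    intro a
    induction a using WellFoundedLT.induction with
    | _ a ih =>
      have h1 := hz a fun b hb => ih b hb
      intro hQ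
      exact (h1.2.2.2.2 hQ).1
  exact hz a fun b _ => hgood b

/-- The inclusion of the indices of points below `a`. -/
def incl (a : I) : Pt (Iio a) → Pt I := Sum.map id (Prod.map Subtype.val id)

theorem pt_incl (y : I → K × K) (a : I) (p : Pt (Iio a)) :
    pt (fun c : Iio a => y c) p = pt y (incl a p) := by
  rcases p with q | ⟨c, b⟩
  · rfl
  · rfl

/-- The index of a point. -/
def idx : Pt I → WithBot I
  | Sum.inl _ => ⊥
  | Sum.inr (a, _) => (a : WithBot I)

theorem mem_range_incl (a : I) (p : Pt I) (hp : idx p < (a : WithBot I)) : p ∈ range (incl a) := by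
  rcases p with q | ⟨c, b⟩
  · exact ⟨Sum.inl q, rfl⟩
  · have hca : c < a := by
      simpa [idx] using hp
    exact ⟨Sum.inr (⟨c, hca⟩, b), rfl⟩

variable {f : I → ℕ → ℕ} {W : I → ℕ → ℕ → Set K} {z : I → (K × K) × (ℕ → ℕ)}

theorem caught_infinite (hz : ∀ a, StepR W f a (fun b _ => z b) (z a)) (β : I)
    (hW : ∀ p : Pt I, ∀ N, ∃ k, pt (fun a => (z a).1) p ∈ W β N k) (F : Finset (Pt I)) :
    (Caught (fun a => (z a).1) (W β) (z β).2 F).Infinite := by
  classical
  have hQ : ∀ N q, ∃ k, fin q ∈ W β N k := fun N q => hW (Sum.inl q) N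
  induction F using Finset.strongInduction with
  | _ F ih =>
    have hbase : (∀ p ∈ F, idx p ≤ (β : WithBot I)) →
        (Caught (fun a => (z a).1) (W β) (z β).2 F).Infinite := by
      intro h
      have h1 : ∀ p ∈ F, ∀ᶠ N in atTop, pt (fun a => (z a).1) p ∈ W β N ((z β).2 N) := by
        intro p hp
        have h2 := (hz β).2.2.2.2 hQ
        rcases p with q | ⟨a, b⟩
        · exact h2.2.1 q
        · have h3 : a ≤ β := by simpa [idx] using h _ hp
          rcases h3.lt_or_eq with h4 | rfl
          · exact h2.2.2.1 ⟨a, h4⟩ b fun N => hW (Sum.inr (a, b)) N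
          · cases b
            · exact h2.2.2.2.1 fun N => hW (Sum.inr (a, false)) N
            · exact h2.2.2.2.2 fun N => hW (Sum.inr (a, true)) N
      have h2 : ∀ᶠ N in atTop, ∀ p ∈ F, pt (fun a => (z a).1) p ∈ W β N ((z β).2 N) :=
        (Filter.eventually_all_finset F).2 h1
      obtain ⟨L, hL⟩ := eventually_atTop.1 h2
      exact (Set.infinite_of_not_bddAbove (by
        rintro ⟨M, hM⟩
        have h3 := hM (hL (max L (M + 1)) (le_max_left _ _))
        have h4 := le_max_right L (M + 1)
        omega))
    rcases F.eq_empty_or_nonempty with rfl | hne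
    · exact hbase (by simp)
    · obtain ⟨p0, hp0, hmax⟩ := F.exists_max_image idx hne
      by_cases hβ : idx p0 ≤ (β : WithBot I)
      · exact hbase fun p hp => (hmax p hp).trans hβ
      · rcases p0 with q | ⟨α, b0⟩
        · exact absurd bot_le hβ
        · have hβα : β < α := by
            by_contra hcon
            apply hβ
            simpa [idx] using le_of_not_gt hcon
          let F' := F.filter fun p => idx p < (α : WithBot I)
          have hF' : F' ⊂ F := by
            refine ⟨Finset.filter_subset _ _, fun hcon => ?_⟩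
            have := hcon hp0
            simp [F', idx] at this
          have hinf := ih F' hF'
          obtain ⟨F'', _, hF''⟩ := (Finset.subset_set_image_iff (f := incl α) (s := univ)
            (t := F')).1 (by
              intro p hp
              have h5 : p ∈ F' := Finset.mem_coe.1 hp
              rw [image_univ]
              exact mem_range_incl α p (Finset.mem_filter.1 h5).2)
          have hC : Caught (fun c : Iio α => (z c).1) (W β) (z β).2 F'' =
              Caught (fun a => (z a).1) (W β) (z β).2 F' := by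
            ext N
            simp only [Caught, mem_ofPred_eq, ← hF'', Finset.mem_image]
            constructor
            · rintro h _ ⟨p, hp, rfl⟩
              have := h p hp
              rwa [pt_incl (fun a => (z a).1) α p] at this
            · intro h p hp
              rw [pt_incl (fun a => (z a).1) α p]
              exact h _ ⟨p, hp, rfl⟩
          have h6 := (hz α).2.2.2.1 ⟨β, hβα⟩ hQ F'' (by
            change (Caught (fun c : Iio α => (z c).1) (W β) (z β).2 F'').Infinite
            rw [hC]
            exact hinf)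
          apply h6.mono
          rintro N ⟨hN1, hN2, hN3⟩
          have hN1' : N ∈ Caught (fun a => (z a).1) (W β) (z β).2 F' := by
            rw [← hC]
            exact hN1
          intro p hp
          by_cases hlt : idx p < (α : WithBot I)
          · exact hN1' p (Finset.mem_filter.2 ⟨hp, hlt⟩)
          · rcases p with q | ⟨c, b⟩
            · exact absurd (WithBot.bot_lt_coe α) hlt
            · have h7 : c ≤ α := by simpa [idx] using hmax _ hp
              have h8 : α ≤ c := by simpa [idx] using hlt
              have h9 : c = α := le_antisymm h7 h8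
              subst h9
              cases b
              · exact hN2
              · exact hN3

end

end Pool.Agent.W635.SF
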