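import Pool.Agent.W635.SFStem

/-!
The construction of the set under the continuum hypothesis.
-/

set_option autoImplicit false

namespace Pool.Agent.W635.SF

open Set Filter

/-- Recursion for a relation. -/
theorem exists_rec {I : Type} [LinearOrder I] [WellFoundedLT I] {A : Type}
    (S : ∀ a : I, (∀ b, b < a → A) → A → Prop) (h : ∀ a prev, ∃ x, S a prev x) :
    ∃ z : I → A, ∀ a, S a (fun b _ => z b) (z a) := by
  choose g hg using h
  refine ⟨WellFounded.fix (wellFounded_lt (α := I)) (fun a prev => g a prev), fun a => ?_⟩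
  rw [WellFounded.fix_eq]
  exact hg a _

section

variable {I : Type} [LinearOrder I]

/-- Indices of points: finite sets and pairs of an index and a bit. -/
abbrev Pt (I : Type) : Type := Finset (ℕ × ℕ) ⊕ (I × Bool)

/-- The point with a given index. -/
def pt {J : Type} (y : J → K × K) : Pt J → K
  | Sum.inl q => fin q
  | Sum.inr (a, b) => if b then (y a).2 else (y a).1

/-- `W N k` contains the points with indices in `F`. -/
def Caught {J : Type} (y : J → K × K) (W : ℕ → ℕ → Set K) (g : ℕ → ℕ) (F : Finset (Pt J)) : Set ℕ :=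
  {N | ∀ p ∈ F, pt y p ∈ W N (g N)}

/-- The requirements at the index `a`. -/
def StepR (W : I → ℕ → ℕ → Set K) (f : I → ℕ → ℕ) (a : I)
    (prev : ∀ b, b < a → (K × K) × (ℕ → ℕ)) (x : (K × K) × (ℕ → ℕ)) : Prop :=
  (∀ j, {i | x.1.1 (j, i) = true}.Finite) ∧ (∀ j, {i | x.1.2 (j, i) = true}.Finite) ∧
  (∀ j i, i < f a j → x.1.1 (j, i) = true ∨ x.1.2 (j, i) = true) ∧
  (∀ (b : Iio a), (∀ N q, ∃ k, fin q ∈ W b N k) →
    ∀ F : Finset (Pt (Iio a)),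
      (Caught (fun c : Iio a => (prev c c.2).1) (W b) (prev b b.2).2 F).Infinite →
      {N | N ∈ Caught (fun c : Iio a => (prev c c.2).1) (W b) (prev b b.2).2 F ∧
        x.1.1 ∈ W b N ((prev b b.2).2 N) ∧ x.1.2 ∈ W b N ((prev b b.2).2 N)}.Infinite) ∧
  ((∀ N q, ∃ k, fin q ∈ W a N k) →
    (∀ s : Stem, ∃ L, ∀ N, L ≤ N → ∀ f : ℕ → ℕ, ∃ t, Ext f s t ∧
      ∀ y₁ y₂, Agree t.1 t.2.1 y₁ → Agree t.1 t.2.2 y₂ →
        y₁ ∈ W a N (x.2 N) ∧ y₂ ∈ W a N (x.2 N)) ∧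
    (∀ q : Finset (ℕ × ℕ), ∀ᶠ N in atTop, fin q ∈ W a N (x.2 N)) ∧
    (∀ c : Iio a, ∀ b : Bool, (∀ N, ∃ k, pt (fun c : Iio a => (prev c c.2).1) (Sum.inr (c, b)) ∈ W a N k) →
      ∀ᶠ N in atTop, pt (fun c : Iio a => (prev c c.2).1) (Sum.inr (c, b)) ∈ W a N (x.2 N)) ∧
    ((∀ N, ∃ k, x.1.1 ∈ W a N k) → ∀ᶠ N in atTop, x.1.1 ∈ W a N (x.2 N)) ∧
    ((∀ N, ∃ k, x.1.2 ∈ W a N k) → ∀ᶠ N in atTop, x.1.2 ∈ W a N (x.2 N)))

/-- A function bounding countably many functions from some point on and another one everywhere. -/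
theorem exists_dom {J : Type} [Countable J] (Φ : J → ℕ → ℕ) (g₀ : ℕ → ℕ) :
    ∃ g : ℕ → ℕ, (∀ N, g₀ N ≤ g N) ∧ ∀ j, ∀ᶠ N in atTop, Φ j N ≤ g N := by
  obtain ⟨e, he⟩ := exists_injective_nat J
  classical
  let Ψ : ℕ → ℕ → ℕ := fun l N => if h : ∃ j, e j = l then Φ h.choose N else 0
  refine ⟨fun N => g₀ N + (Finset.range (N + 1)).sup fun l => Ψ l N,
    fun N => Nat.le_add_right _ _, fun j => ?_⟩
  filter_upwards [eventually_ge_atTop (e j)] with N hN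
  have h1 : Ψ (e j) N = Φ j N := by
    have hex : ∃ j', e j' = e j := ⟨j, rfl⟩
    have h2 : hex.choose = j := he hex.choose_spec
    simp only [Ψ, dif_pos hex, h2]
  have h3 : Ψ (e j) N ≤ (Finset.range (N + 1)).sup fun l => Ψ l N :=
    Finset.le_sup (f := fun l => Ψ l N) (Finset.mem_range.2 (Nat.lt_succ_of_le hN))
  omega

theorem exists_step [Hc : ∀ a : I, Countable (Iio a)] (W : I → ℕ → ℕ → Set K)
    (hWo : ∀ a N k, IsOpen (W a N k)) (hWm : ∀ a N, Monotone (W a N)) (f : I → ℕ → ℕ) (a : I)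
    (prev : ∀ b, b < a → (K × K) × (ℕ → ℕ))
    (hprev : ∀ b (hb : b < a), (∀ N q, ∃ k, fin q ∈ W b N k) →
      ∀ s : Stem, ∃ L, ∀ N, L ≤ N → ∀ f : ℕ → ℕ, ∃ t, Ext f s t ∧
      ∀ y₁ y₂, Agree t.1 t.2.1 y₁ → Agree t.1 t.2.2 y₂ →
        y₁ ∈ W b N ((prev b hb).2 N) ∧ y₂ ∈ W b N ((prev b hb).2 N)) :
    ∃ x, StepR W f a prev x := by
  classical
  let y : Iio a → K × K := fun c => (prev c c.2).1
  let G : Iio a → ℕ → ℕ := fun c => (prev c c.2).2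
  let ι : Type := Iio a × Finset (Pt (Iio a)) × ℕ
  have : Countable ι := inferInstance
  obtain ⟨y₁, y₂, h1, h2, h3, h4⟩ := exists_pair (f a) (ι := ι)
    (fun t y₁ y₂ => (∀ N q, ∃ k, fin q ∈ W t.1 N k) → (Caught y (W t.1) (G t.1) t.2.1).Infinite →
      ∃ N, t.2.2 ≤ N ∧ N ∈ Caught y (W t.1) (G t.1) t.2.1 ∧
        y₁ ∈ W t.1 N (G t.1 N) ∧ y₂ ∈ W t.1 N (G t.1 N))
    (by
      rintro ⟨b, F, M⟩ s
      by_cases hQ : ∀ N q, ∃ k, fin q ∈ W b N k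
      · by_cases hinf : (Caught y (W b) (G b) F).Infinite
        · obtain ⟨L, hL⟩ := hprev b b.2 hQ s
          obtain ⟨N, hN1, hN2⟩ := hinf.exists_gt (max L M)
          obtain ⟨t, ht1, ht2⟩ := hL N (by
            have := le_max_left L M
            omega) (f a)
          refine ⟨t, ht1, fun y₁ y₂ ha1 ha2 _ _ => ⟨N, ?_, hN1, ht2 y₁ y₂ ha1 ha2⟩⟩
          have := le_max_right L M
          show M ≤ N
          omega
        · exact ⟨s, Ext.refl _ _, fun _ _ _ _ _ h => absurd h hinf⟩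
      · exact ⟨s, Ext.refl _ _, fun _ _ _ _ h => absurd h hQ⟩)
  -- the bound function
  have hg : ∃ g : ℕ → ℕ, (∀ N q, ∃ k, fin q ∈ W a N k) →
      (∀ s : Stem, ∃ L, ∀ N, L ≤ N → ∀ f : ℕ → ℕ, ∃ t, Ext f s t ∧
        ∀ y₁ y₂, Agree t.1 t.2.1 y₁ → Agree t.1 t.2.2 y₂ →
          y₁ ∈ W a N (g N) ∧ y₂ ∈ W a N (g N)) ∧
      (∀ q : Finset (ℕ × ℕ), ∀ᶠ N in atTop, fin q ∈ W a N (g N)) ∧
      (∀ c : Iio a, ∀ b : Bool, (∀ N, ∃ k, pt y (Sum.inr (c, b)) ∈ W a N k) →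
        ∀ᶠ N in atTop, pt y (Sum.inr (c, b)) ∈ W a N (g N)) ∧
      ((∀ N, ∃ k, y₁ ∈ W a N k) → ∀ᶠ N in atTop, y₁ ∈ W a N (g N)) ∧
      ((∀ N, ∃ k, y₂ ∈ W a N k) → ∀ᶠ N in atTop, y₂ ∈ W a N (g N)) := by
    by_cases hQ : ∀ N q, ∃ k, fin q ∈ W a N k
    · obtain ⟨g₀, hg₀⟩ := exists_bound (W a) (hWo a) (hWm a) hQ
      let P : Pt (Iio a) ⊕ Bool → K := fun p => Sum.elim (pt y) (fun b => if b then y₂ else y₁) p
      have hΦ : ∀ p, ∃ φ : ℕ → ℕ, (∀ N, ∃ k, P p ∈ W a N k) → ∀ N, P p ∈ W a N (φ N) := by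
        intro p
        by_cases hp : ∀ N, ∃ k, P p ∈ W a N k
        · choose φ hφ using hp
          exact ⟨φ, fun _ => hφ⟩
        · exact ⟨0, fun h => absurd h hp⟩
      choose Φ hΦ using hΦ
      obtain ⟨g, hg1, hg2⟩ := exists_dom Φ g₀
      have hev : ∀ p, (∀ N, ∃ k, P p ∈ W a N k) → ∀ᶠ N in atTop, P p ∈ W a N (g N) := by
        intro p hp
        filter_upwards [hg2 p] with N hN
        exact hWm a N hN (hΦ p hp N)
      refine ⟨g, fun _ => ⟨?_, ?_, ?_, ?_, ?_⟩⟩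
      · intro s
        obtain ⟨L, hL⟩ := hg₀ s
        refine ⟨L, fun N hN f => ?_⟩
        obtain ⟨t, ht1, ht2⟩ := hL N hN f
        refine ⟨t, ht1, fun y₁ y₂ ha1 ha2 => ?_⟩
        obtain ⟨h5, h6⟩ := ht2 y₁ y₂ ha1 ha2
        exact ⟨hWm a N (hg1 N) h5, hWm a N (hg1 N) h6⟩
      · intro q
        exact hev (Sum.inl (Sum.inl q)) fun N => hQ N q
      · intro c b hc
        exact hev (Sum.inl (Sum.inr (c, b))) hc
      · intro hc
        exact hev (Sum.inr false) hc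
      · intro hc
        exact hev (Sum.inr true) hc
    · exact ⟨0, fun h => absurd h hQ⟩
  obtain ⟨g, hg⟩ := hg
  refine ⟨((y₁, y₂), g), h1, h2, h3, ?_, hg⟩
  intro b hb F hF
  rw [Set.infinite_iff_exists_gt]
  intro M
  obtain ⟨N, hN1, hN2, hN3⟩ := h4 (b, F, M + 1) hb hF
  exact ⟨N, ⟨hN2, hN3⟩, hN1⟩

end

end Pool.Agent.W635.SF
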