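import Mathlib

/-!
# Maximal ideal independent families and `𝔡 = 𝔲 = ℵ₁`
-/

set_option autoImplicit false

namespace Pool.Agent.W635.Smm

open Set Cardinal Filter

/-- `I` is ideal independent: its members are infinite, and no member is almost covered by
finitely many other members. -/
def IdealIndependent (I : Set (Set ℕ)) : Prop :=
  (∀ A ∈ I, A.Infinite) ∧
    ∀ A ∈ I, ∀ F : Set (Set ℕ), F.Finite → F ⊆ I \ {A} → (A \ ⋃₀ F).Infinite

/-- `I` is a maximal ideal independent family. -/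
def MaximalIdealIndependent (I : Set (Set ℕ)) : Prop :=
  IdealIndependent I ∧ ∀ J : Set (Set ℕ), IdealIndependent J → I ⊆ J → J = I

/-- `𝔰_mm`: the least cardinality of an infinite maximal ideal independent family. -/
noncomputable def smm : Cardinal.{0} :=
  sInf {κ | ∃ I : Set (Set ℕ), I.Infinite ∧ MaximalIdealIndependent I ∧ #I = κ}

/-- The dominating number `𝔡`. -/
noncomputable def dNumber : Cardinal.{0} :=
  sInf {κ | ∃ D : Set (ℕ → ℕ), (∀ f : ℕ → ℕ, ∃ g ∈ D, ∀ᶠ n in atTop, f n ≤ g n) ∧ #D = κ}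

/-- `B` is a base of the ultrafilter `p`: its members belong to `p`, and every member of `p`
almost contains a member of `B`. -/
def IsBase (p : Ultrafilter ℕ) (B : Set (Set ℕ)) : Prop :=
  (∀ b ∈ B, b ∈ p) ∧ ∀ U ∈ p, ∃ b ∈ B, (b \ U).Finite

/-- The ultrafilter number `𝔲`: the least cardinality of a base of a nonprincipal ultrafilter. -/
noncomputable def uNumber : Cardinal.{0} :=
  sInf {κ | ∃ p : Ultrafilter ℕ, (∀ n : ℕ, {n} ∉ p) ∧ ∃ B : Set (Set ℕ), IsBase p B ∧ #B = κ}

/-! ### Nonprincipal ultrafilters -/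

theorem infinite_of_mem {p : Ultrafilter ℕ} (hp : ∀ n : ℕ, {n} ∉ p) {s : Set ℕ} (hs : s ∈ p) :
    s.Infinite := by
  intro hfin
  obtain ⟨x, _, hx⟩ := (Ultrafilter.finite_sUnion_mem_iff (f := p)
    (s := (fun n : ℕ => ({n} : Set ℕ)) '' s) (hfin.image _)).1 (by
      have : ⋃₀ ((fun n : ℕ => ({n} : Set ℕ)) '' s) = s := by
        rw [sUnion_image, biUnion_of_singleton]
      rw [this]; exact hs)
  rename_i h
  obtain ⟨n, _, rfl⟩ := h
  exact hp n hx

theorem finite_notMem {p : Ultrafilter ℕ} (hp : ∀ n : ℕ, {n} ∉ p) {s : Set ℕ} (hs : s.Finite) :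
    s ∉ p := fun h => infinite_of_mem hp h hs

theorem union_notMem {p : Ultrafilter ℕ} {s t : Set ℕ} (hs : s ∉ p) (ht : t ∉ p) :
    s ∪ t ∉ p := by
  rw [Ultrafilter.union_mem_iff]
  exact fun h => h.elim hs ht

theorem sUnion_notMem {p : Ultrafilter ℕ} {F : Set (Set ℕ)} (hF : F.Finite)
    (h : ∀ s ∈ F, s ∉ p) : ⋃₀ F ∉ p := by
  rw [Ultrafilter.finite_sUnion_mem_iff hF]
  rintro ⟨s, hs, hsp⟩
  exact h s hs hsp

/-- Countably many sets outside `p` admit an infinite set outside `p` which is almost disjoint from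
all of them. -/
theorem step {p : Ultrafilter ℕ} (hp : ∀ n : ℕ, {n} ∉ p) (C : ℕ → Set ℕ) (hC : ∀ k, C k ∉ p) :
    ∃ A : Set ℕ, A.Infinite ∧ A ∉ p ∧ ∀ k, (A ∩ C k).Finite := by
  obtain ⟨φ, hφ, hφC⟩ := extraction_forall_of_frequently
    (P := fun n k => ∀ i ≤ n, k ∉ C i) (by
      intro n
      rw [Nat.frequently_atTop_iff_infinite]
      apply infinite_of_mem hp
      have h1 : ⋃₀ (C '' Iic n) ∉ p := by
        apply sUnion_notMem ((finite_Iic n).image _)
        rintro s ⟨i, _, rfl⟩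
        exact hC i
      have h2 : (⋃₀ (C '' Iic n))ᶜ ∈ p := Ultrafilter.compl_mem_iff_notMem.2 h1
      filter_upwards [h2] with k hk i hi hki
      exact hk ⟨C i, ⟨i, hi, rfl⟩, hki⟩)
  have hfin : ∀ (E : Set ℕ) (k : ℕ), (φ '' E ∩ C k).Finite := by
    intro E k
    apply ((finite_Iio k).image φ).subset
    rintro x ⟨⟨n, _, rfl⟩, hxk⟩
    refine ⟨n, ?_, rfl⟩
    by_contra hn
    exact hφC n k (not_lt.1 hn) hxk
  have hE : ({n : ℕ | Even n} : Set ℕ).Infinite := by
    apply infinite_of_injective_forall_mem (f := fun n : ℕ => 2 * n)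
    · intro a b hab
      simpa using hab
    · intro n
      exact even_two_mul n
  have hO : ({n : ℕ | ¬ Even n} : Set ℕ).Infinite := by
    apply infinite_of_injective_forall_mem (f := fun n : ℕ => 2 * n + 1)
    · intro a b hab
      simpa using hab
    · intro n
      simp
  by_cases h : φ '' {n | Even n} ∈ p
  · refine ⟨φ '' {n | ¬ Even n}, hO.image hφ.injective.injOn, ?_, fun k => hfin _ k⟩
    intro h'
    have h3 := Filter.inter_mem h h'
    rw [← image_inter hφ.injective] at h3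
    have h4 : ({n | Even n} ∩ {n | ¬ Even n} : Set ℕ) = ∅ := by
      ext n; simp
    rw [h4, image_empty] at h3
    exact finite_notMem hp finite_empty h3
  · exact ⟨φ '' {n | Even n}, hE.image hφ.injective.injOn, h, fun k => hfin _ k⟩

/-- Countable families which are infinite are not maximal. -/
theorem not_countable {I : Set (Set ℕ)} (hI : I.Infinite) (hc : I.Countable)
    (hm : MaximalIdealIndependent I) : False := by
  obtain ⟨⟨hinf, hind⟩, hmax⟩ := hm
  obtain ⟨C, hC⟩ := hc.exists_eq_range hI.nonempty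
  obtain ⟨φ, hφ, hφC⟩ := extraction_forall_of_frequently
    (P := fun n k => ∀ i ≤ n, k ∉ C i) (by
      intro n
      rw [Nat.frequently_atTop_iff_infinite]
      have hF : (C '' Iic n).Finite := (finite_Iic n).image _
      obtain ⟨A, hA, hAF⟩ := hI.exists_notMem_finite hF
      refine (hind A hA (C '' Iic n) hF ?_).mono ?_
      · rintro s ⟨i, hi, rfl⟩
        refine ⟨hC ▸ mem_range_self i, ?_⟩
        rintro rfl
        exact hAF ⟨i, hi, rfl⟩
      · rintro k ⟨_, hk⟩ i hi hki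
        exact hk ⟨C i, ⟨i, hi, rfl⟩, hki⟩)
  obtain ⟨X, hX⟩ : ∃ X : Set ℕ, X = range φ := ⟨_, rfl⟩
  have hXinf : X.Infinite := by
    rw [hX]; exact infinite_range_of_injective hφ.injective
  have hfin : ∀ B ∈ I, (X ∩ B).Finite := by
    intro B hB
    rw [hC] at hB
    obtain ⟨k, rfl⟩ := hB
    apply ((finite_Iio k).image φ).subset
    rw [hX]
    rintro x ⟨⟨n, rfl⟩, hxk⟩
    refine ⟨n, ?_, rfl⟩
    by_contra hn
    exact hφC n k (not_lt.1 hn) hxk
  have hXI : X ∉ I := by
    intro h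
    have := hfin X h
    rw [inter_self] at this
    exact hXinf this
  have hJ : IdealIndependent (insert X I) := by
    refine ⟨?_, ?_⟩
    · rintro A (rfl | hA)
      · exact hXinf
      · exact hinf A hA
    · rintro A hA F hF hFs
      by_cases hAX : A = X
      · subst hAX
        have h1 : (A ∩ ⋃₀ F).Finite := by
          rw [sUnion_eq_biUnion, inter_iUnion₂]
          apply hF.biUnion
          intro B hB
          have h2 := hFs hB
          rcases h2.1 with h3 | h3
          · exact absurd h3 h2.2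
          · exact hfin B h3
        have h2 : A \ ⋃₀ F = A \ (A ∩ ⋃₀ F) := by
          rw [diff_self_inter]
        rw [h2]
        exact hXinf.diff h1
      · have hAI : A ∈ I := hA.resolve_left hAX
        have h1 := hind A hAI (F \ {X}) (hF.subset diff_subset) (by
          rintro B ⟨hB, hBX⟩
          have h2 := hFs hB
          exact ⟨h2.1.resolve_left hBX, h2.2⟩)
        have h2 : (A ∩ X).Finite := by
          rw [inter_comm]; exact hfin A hAI
        refine (h1.diff h2).mono ?_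
        rintro x ⟨⟨hxA, hxF⟩, hxX⟩
        refine ⟨hxA, ?_⟩
        rintro ⟨B, hB, hxB⟩
        by_cases hBX : B = X
        · subst hBX
          exact hxX ⟨hxA, hxB⟩
        · exact hxF ⟨B, ⟨hB, hBX⟩, hxB⟩
  have := hmax _ hJ (subset_insert _ _)
  exact hXI (this ▸ mem_insert X I)

/-! ### The construction -/

section

variable {W : Type} [LinearOrder W] [WellFoundedLT W]

/-- The recursion. -/
theorem exists_sets (hW : ∀ a : W, (Iio a).Countable) {p : Ultrafilter ℕ}
    (hp : ∀ n : ℕ, {n} ∉ p) (V : W → Set ℕ) (hV : ∀ a, V a ∉ p) :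
    ∃ A : W → Set ℕ, (∀ a, (A a).Infinite) ∧ (∀ a b, b < a → (A a ∩ V b).Finite) ∧
      ∀ a b, b < a → (A a ∩ A b).Finite := by
  have key : ∀ (a : W) (f : ∀ b : W, b < a → {s : Set ℕ // s ∉ p}),
      ∃ s : {s : Set ℕ // s ∉ p}, s.1.Infinite ∧ (∀ b, b < a → (s.1 ∩ V b).Finite) ∧
        ∀ (b : W) (h : b < a), (s.1 ∩ (f b h).1).Finite := by
    intro a f
    obtain ⟨𝒞, h𝒞⟩ : ∃ 𝒞 : Set (Set ℕ), 𝒞 = {∅} ∪ (V '' Iio a ∪
        range (fun b : Iio a => (f b.1 b.2).1)) := ⟨_, rfl⟩
    have hcount : 𝒞.Countable := by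
      rw [h𝒞]
      have : Countable (Iio a) := (hW a).to_subtype
      exact (countable_singleton _).union (((hW a).image _).union (countable_range _))
    have hne : 𝒞.Nonempty := ⟨∅, by rw [h𝒞]; left; rfl⟩
    obtain ⟨C, hC⟩ := hcount.exists_eq_range hne
    obtain ⟨A, hA1, hA2, hA3⟩ := step hp C (by
      intro k
      have : C k ∈ 𝒞 := by rw [hC]; exact mem_range_self k
      rw [h𝒞] at this
      rcases this with h | ⟨b, hb, h⟩ | ⟨b, h⟩
      · rw [mem_singleton_iff.1 h]; exact finite_notMem hp finite_empty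
      · rw [← h]; exact hV b
      · rw [← h]; exact (f b.1 b.2).2)
    have hA4 : ∀ s ∈ 𝒞, (A ∩ s).Finite := by
      intro s hs
      rw [hC] at hs
      obtain ⟨k, rfl⟩ := hs
      exact hA3 k
    refine ⟨⟨A, hA2⟩, hA1, ?_, ?_⟩
    · intro b hb
      apply hA4
      rw [h𝒞]; right; left; exact ⟨b, hb, rfl⟩
    · intro b hb
      apply hA4
      rw [h𝒞]; right; right; exact ⟨⟨b, hb⟩, rfl⟩
  choose g hg1 hg2 hg3 using key
  obtain ⟨A, hA⟩ : ∃ A : W → {s : Set ℕ // s ∉ p}, ∀ a, A a = g a (fun b _ => A b) :=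
    ⟨(wellFounded_lt (α := W)).fix g, fun a => WellFounded.fix_eq _ _ _⟩
  refine ⟨fun a => (A a).1, ?_, ?_, ?_⟩
  · intro a
    show (A a).1.Infinite
    rw [hA a]; exact hg1 _ _
  · intro a b hb
    show ((A a).1 ∩ V b).Finite
    rw [hA a]; exact hg2 _ _ b hb
  · intro a b hb
    show ((A a).1 ∩ (A b).1).Finite
    rw [hA a]; exact hg3 a _ b hb

/-- **Main construction.** -/
theorem exists_maximal (hW : ∀ a : W, (Iio a).Countable) (hW2 : ∀ s : Set W, s.Countable →
      ∃ b, ∀ a ∈ s, a < b) (hcard : #(W × W × W × Bool) = #W)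
    {p : Ultrafilter ℕ} (hp : ∀ n : ℕ, {n} ∉ p) (V : W → Set ℕ) (hV : ∀ a, V a ∉ p)
    (hV2 : ∀ X : Set ℕ, X ∉ p → ∃ a, X ⊆ V a)
    (G : W → ℕ → ℕ) (hG : ∀ f : ℕ → ℕ, ∃ a, ∀ n, f n ≤ G a n) :
    ∃ I : Set (Set ℕ), MaximalIdealIndependent I ∧ #I = #W := by
  classical
  obtain ⟨A, hA1, hA2, hA3⟩ := exists_sets hW hp V hV
  have hAD : ∀ a b, a ≠ b → (A a ∩ A b).Finite := by
    intro a b hab
    rcases lt_or_gt_of_ne hab with h | h
    · rw [inter_comm]; exact hA3 b a h
    · exact hA3 a b h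
  -- enumerations of the sets `A a`
  obtain ⟨e, he1, he2⟩ : ∃ e : W → ℕ → ℕ, (∀ a, Function.Injective (e a)) ∧
      ∀ a, range (e a) = A a := by
    refine ⟨fun a => Nat.nth (· ∈ A a), fun a => Nat.nth_injective (hA1 a), fun a => ?_⟩
    exact Nat.range_nth_of_infinite (hA1 a)
  -- `X` belongs to the ultrafilter `p_a`
  have fin_not : ∀ (a : W) (X : Set ℕ), (A a ∩ X).Finite → e a ⁻¹' X ∉ p := by
    intro a X hX
    apply finite_notMem hp
    have h1 : e a ⁻¹' X = e a ⁻¹' (A a ∩ X) := by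
      ext m
      simp only [mem_preimage, mem_inter_iff]
      constructor
      · intro h
        exact ⟨he2 a ▸ mem_range_self m, h⟩
      · exact fun h => h.2
    rw [h1]
    exact hX.preimage (he1 a).injOn
  have self_mem : ∀ a : W, e a ⁻¹' (A a) ∈ p := by
    intro a
    have h1 : e a ⁻¹' (A a) = Set.univ := by
      rw [← he2 a]; exact preimage_range _
    rw [h1]; exact Filter.univ_mem
  -- the ideal
  obtain ⟨𝒲, h𝒲⟩ : ∃ 𝒲 : Set (Set ℕ), 𝒲 = {X | ∀ a, e a ⁻¹' X ∉ p} := ⟨_, rfl⟩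
  have mem𝒲 : ∀ X, X ∈ 𝒲 ↔ ∀ a, e a ⁻¹' X ∉ p := by
    intro X; rw [h𝒲]; rfl
  have hWnm : Nonempty W := by
    obtain ⟨a, _⟩ := hG (fun _ => 0)
    exact ⟨a⟩
  have sub_notMem : ∀ X ∈ 𝒲, X ∉ p := by
    intro X hX hXp
    obtain ⟨b, hb⟩ := hV2 Xᶜ (Ultrafilter.compl_notMem_iff.2 hXp)
    obtain ⟨a, ha⟩ := hW2 {b} (countable_singleton b)
    have hab : b < a := ha b rfl
    have h1 : e a ⁻¹' Xᶜ ∉ p := by
      apply fin_not
      exact (hA2 a b hab).subset (inter_subset_inter_right _ hb)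
    rw [preimage_compl, Ultrafilter.compl_notMem_iff] at h1
    exact (mem𝒲 X).1 hX a h1
  -- enumerations of initial segments
  have hc : ∀ a : W, ∃ c : ℕ → W, range c = Iic a := by
    intro a
    have h1 : (Iic a).Countable := by
      rw [← Iio_insert]; exact (hW a).insert a
    obtain ⟨c, hc⟩ := h1.exists_eq_range ⟨a, le_rfl⟩
    exact ⟨c, hc.symm⟩
  choose c hc using hc
  -- generators
  obtain ⟨Gen, hGen⟩ : ∃ Gen : W × W × W × Bool → Set ℕ, ∀ t, Gen t =
      {x | x ∈ V t.1 ∧ ∀ n m : ℕ, e (c t.1 n) m = x → ∃ k ≤ G t.2.2.1 n, m ∈ V (c t.2.1 k)} :=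
    ⟨_, fun _ => rfl⟩
  have gen_mem : ∀ t, Gen t ∈ 𝒲 := by
    intro t
    rw [mem𝒲]
    intro a
    rcases le_or_gt a t.1 with h | h
    · have h1 : a ∈ range (c t.1) := by rw [hc]; exact h
      obtain ⟨n, rfl⟩ := h1
      have h2 : ⋃₀ ((fun k => V (c t.2.1 k)) '' Iic (G t.2.2.1 n)) ∉ p := by
        apply sUnion_notMem ((finite_Iic _).image _)
        rintro s ⟨k, _, rfl⟩
        exact hV _
      intro h3
      apply h2
      refine Filter.mem_of_superset h3 ?_
      intro m hm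
      rw [mem_preimage, hGen] at hm
      obtain ⟨k, hk, hmk⟩ := hm.2 n m rfl
      exact ⟨_, ⟨k, hk, rfl⟩, hmk⟩
    · apply fin_not
      refine (hA2 a t.1 h).subset (inter_subset_inter_right _ ?_)
      intro x hx
      rw [hGen] at hx
      exact hx.1
  have gen_cof : ∀ X ∈ 𝒲, ∃ t : W × W × W, ∀ β : Bool, X ⊆ Gen (t.1, t.2.1, t.2.2, β) := by
    intro X hX
    obtain ⟨b, hb⟩ := hV2 X (sub_notMem X hX)
    have h1 : ∀ n, ∃ j, e (c b n) ⁻¹' X ⊆ V j := fun n => hV2 _ ((mem𝒲 X).1 hX _)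
    choose j hj using h1
    obtain ⟨γ, hγ⟩ := hW2 (range j) (countable_range j)
    have h2 : ∀ n, ∃ k, c γ k = j n := by
      intro n
      have : j n ∈ range (c γ) := by
        rw [hc]; exact (hγ _ (mem_range_self n)).le
      exact this
    choose f hf using h2
    obtain ⟨g, hg⟩ := hG f
    refine ⟨(b, γ, g), fun β x hx => ?_⟩
    rw [hGen]
    refine ⟨hb hx, ?_⟩
    intro n m hm
    refine ⟨f n, hg n, ?_⟩
    rw [hf]
    apply hj n
    rw [mem_preimage, hm]
    exact hx
  -- the family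
  obtain ⟨ψ⟩ := Cardinal.eq.1 hcard
  obtain ⟨B, hB⟩ : ∃ B : W → Set ℕ, ∀ i, B i = A i ∪ Gen (ψ.symm i) := ⟨_, fun _ => rfl⟩
  have B_self : ∀ i, e i ⁻¹' (B i) ∈ p := by
    intro i
    refine Filter.mem_of_superset (self_mem i) ?_
    rw [hB]
    exact preimage_mono subset_union_left
  have B_other : ∀ i j, i ≠ j → e i ⁻¹' (B j) ∉ p := by
    intro i j hij
    rw [hB, preimage_union]
    exact union_notMem (fin_not i _ (hAD i j hij)) ((mem𝒲 _).1 (gen_mem _) i)
  have B_inj : Function.Injective B := by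
    intro i j hij
    by_contra hne
    exact B_other i j hne (hij ▸ B_self i)
  have cover : ∀ X ∈ 𝒲, ∀ i, ∃ j, j ≠ i ∧ X ⊆ B j := by
    intro X hX i
    obtain ⟨t, ht⟩ := gen_cof X hX
    have h1 : ∀ β : Bool, X ⊆ B (ψ (t.1, t.2.1, t.2.2, β)) := by
      intro β
      rw [hB, Equiv.symm_apply_apply]
      exact (ht β).trans subset_union_right
    by_cases h : ψ (t.1, t.2.1, t.2.2, true) = i
    · refine ⟨_, ?_, h1 false⟩
      rw [← h]
      intro h2
      have h3 := ψ.injective h2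
      simp at h3
    · exact ⟨_, h, h1 true⟩
  refine ⟨range B, ⟨⟨?_, ?_⟩, ?_⟩, ?_⟩
  · rintro s ⟨i, rfl⟩
    rw [hB]
    exact (hA1 i).mono subset_union_left
  · rintro s ⟨i, rfl⟩ F hF hFs
    have h0 : e i ⁻¹' (⋃₀ F) ∉ p := by
      rw [preimage_sUnion]
      have h2 : (⋃ t ∈ F, e i ⁻¹' t) = ⋃₀ ((fun t => e i ⁻¹' t) '' F) := by
        rw [sUnion_image]
      rw [h2]
      apply sUnion_notMem (hF.image _)
      rintro s ⟨t, ht, rfl⟩
      obtain ⟨⟨j, rfl⟩, hj⟩ := hFs ht
      apply B_other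
      rintro rfl
      exact hj rfl
    have h1 : e i ⁻¹' (B i \ ⋃₀ F) ∈ p := by
      filter_upwards [B_self i, Ultrafilter.compl_mem_iff_notMem.2 h0] with m h3 h4
      exact ⟨h3, h4⟩
    have h2 := infinite_of_mem hp h1
    intro h3
    exact h2 (h3.preimage (he1 i).injOn)
  · intro J hJ hIJ
    refine Subset.antisymm ?_ hIJ
    intro X hXJ
    by_contra hXI
    -- `X` is not covered
    have hX𝒲 : X ∉ 𝒲 := by
      intro h
      obtain ⟨j, _, hj⟩ := cover X h (Classical.arbitrary W)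
      have h1 := hJ.2 X hXJ {B j} (finite_singleton _) (by
        rw [singleton_subset_iff]
        refine ⟨hIJ (mem_range_self j), ?_⟩
        intro h2
        rw [mem_singleton_iff] at h2
        exact hXI ⟨j, h2⟩)
      rw [sUnion_singleton, diff_eq_empty.2 hj] at h1
      exact h1 finite_empty
    have h1 : ∃ i, e i ⁻¹' X ∈ p := by
      by_contra hcon
      apply hX𝒲
      rw [mem𝒲]
      intro a ha
      exact hcon ⟨a, ha⟩
    obtain ⟨i, hi⟩ := h1
    have h2 : B i \ X ∈ 𝒲 := by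
      rw [mem𝒲]
      intro a ha
      by_cases hai : a = i
      · subst hai
        have h3 := Filter.inter_mem ha hi
        have h4 : e a ⁻¹' (B a \ X) ∩ e a ⁻¹' X = ∅ := by
          ext m
          simp only [mem_inter_iff, mem_preimage, mem_diff, mem_empty_iff_false, iff_false]
          rintro ⟨⟨_, h5⟩, h6⟩
          exact h5 h6
        rw [h4] at h3
        exact finite_notMem hp finite_empty h3
      · exact B_other a i hai (Filter.mem_of_superset ha (preimage_mono diff_subset))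
    obtain ⟨j, hji, hj⟩ := cover _ h2 i
    have h3 := hJ.2 (B i) (hIJ (mem_range_self i)) {X, B j} (by
      exact (finite_singleton _).insert _) (by
      intro s hs
      rcases hs with hs | hs
      · rw [hs]
        refine ⟨hXJ, ?_⟩
        intro h4
        rw [mem_singleton_iff] at h4
        exact hXI ⟨i, h4.symm⟩
      · rw [mem_singleton_iff] at hs
        rw [hs]
        refine ⟨hIJ (mem_range_self j), ?_⟩
        intro h4
        rw [mem_singleton_iff] at h4
        exact hji (B_inj h4))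
    apply h3
    have h4 : B i \ ⋃₀ {X, B j} = ∅ := by
      rw [diff_eq_empty]
      intro x hx
      by_cases hxX : x ∈ X
      · exact ⟨X, mem_insert _ _, hxX⟩
      · exact ⟨B j, mem_insert_of_mem _ rfl, hj ⟨hx, hxX⟩⟩
    rw [h4]
    exact finite_empty
  · exact (Cardinal.mk_range_eq B B_inj)

end

end Pool.Agent.W635.Smm
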